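import Pool.Agent.OCG.Defs
import Pool.Agent.Hhelper76.CL.Forms
import Pool.Agent.Hhelper76.SC.QIdeal

/-!
# Fields with one class per genus: the reduced forms are ambiguous

PAPER PROOF. `exists_omega'` (`Pool/Agent/Hhelper76/SC/QIdeal.lean`) gives `ω`, `t`, `q₀` with `discr K = t² - 4 q₀`, so `4 q₀ - t² = q`.
For each class `A` take `a`, `b`, `J`, `e` from `class_param'` (`Pool/Agent/Hhelper76/CL/Forms.lean`; `a` is the least norm in the class
`A`, `J` of norm `a` is in the class `A⁻¹ = A`), `β = t - 2 b`, `|β| ≤ a ≤ (2/π) √q`. `4 a ∣ q + β²` as in `class_forms` (norm of `ω - b ∈ J`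
is divisible by `a`), `c = (q + β²) / (4 a)`, the norms of the ideals of `A` are `a x² + β x y + c y²`; so `c ≥ a` (value at `(0, 1)`).
`exists_conj`: `J'` with `J J' = (a)`, of class `A`, norm `a` (`absNorm_conj`). If `J' = J` then `J² = (a)`, `(ω - b)² = (t - 2 b) ω + b² - q₀ ∈ (a)`, so
`a ∣ β`, `a ∣ β²`, so `a ∣ q` (`q + β² = 4 a c`). If `J' ≠ J`, both correspond under `e` to different `(x, y) ∈ Half` with value `a`; one of them is not
`(1, 0)`, so `y ≥ 1` (`y = 0`: `a x² = a`, `x = 1`), `(2 a x + β y)² + q y² = 4 a²`, and `q y² ≤ 4 a² ≤ (16/π²) q` gives `y = 1`, `(2 a x + β)² ≤ 4a² - q ≤ 0.39·4 a²`,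
`|2 a x + β| ≤ 1.25 a`, `|β| ≤ a`, so `|x| ≤ 1`; `x = 0`: `c = a`; `x = ±1`: `a ± β + c = a`, `c = |β| ≤ a ≤ c`, `c = a`. But `c = a` is impossible: `q = 4 a² - β² =
(2 a - |β|)(2 a + |β|)`, `d = 2 a - |β|` is a divisor of `q`, `d² ≤ q` and `d ≥ a ≥ √q / 2 ≥ X`, against `hno`. So `a ∣ q`, `a ≤ √q`, and `a < X` by `hno`.
Number of classes: `A ↦ (a, β)` is injective (`class_forms`; or: `(a, b mod a)` determines `J`, hence `A`), and
there are at most `∑_{a ≤ 0.64 √q} (2 a + 1) ≤ 3 q` pairs (or: `J` determines `A`).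
-/

set_option autoImplicit false

open scoped NumberField nonZeroDivisors

namespace Pool.OCG

private theorem ambig_arith {a β c q x y : ℤ} (ha : 1 ≤ a) (hβ : |β| ≤ a)
    (hq : 4 * a * c - β ^ 2 = q) (hca : a ≤ c) (hb : 49 * a ^ 2 ≤ 20 * q)
    (hv : a * x ^ 2 + β * x * y + c * y ^ 2 = a) (hH : 0 < y ∨ (y = 0 ∧ 0 < x))
    (hne : ¬ (x = 1 ∧ y = 0)) : c = a := by
  obtain ⟨hβ1, hβ2⟩ := abs_le.1 hβ
  have ha2 : 1 ≤ a ^ 2 := by nlinarith
  have hid : (2 * a * x + β * y) ^ 2 + q * y ^ 2 = 4 * a ^ 2 := by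
    have : (2 * a * x + β * y) ^ 2 + q * y ^ 2 = 4 * a * (a * x ^ 2 + β * x * y + c * y ^ 2) := by
      rw [← hq]; ring
    rw [this, hv]; ring
  rcases hH with hy | ⟨hy, hx⟩
  · have hy2 : y < 2 := by
      by_contra hcon
      push Not at hcon
      have h1 : 4 ≤ y ^ 2 := by nlinarith
      have hq0 : 0 < q := by nlinarith
      have h2 : q * 4 ≤ q * y ^ 2 := mul_le_mul_of_nonneg_left h1 hq0.le
      nlinarith [sq_nonneg (2 * a * x + β * y)]
    have hy1 : y = 1 := by omega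
    subst hy1
    have hid' : (2 * a * x + β) ^ 2 + q = 4 * a ^ 2 := by
      have := hid
      ring_nf at this ⊢
      linarith
    have hx2 : x < 2 := by
      by_contra hcon
      push Not at hcon
      have h1 : 3 * a ≤ 2 * a * x + β := by nlinarith
      have h2 : (3 * a) ^ 2 ≤ (2 * a * x + β) ^ 2 := by
        apply pow_le_pow_left₀ (by omega) h1
      nlinarith
    have hx1 : -2 < x := by
      by_contra hcon
      push Not at hcon
      have h1 : 3 * a ≤ -(2 * a * x + β) := by nlinarith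
      have h2 : (3 * a) ^ 2 ≤ (-(2 * a * x + β)) ^ 2 := by
        apply pow_le_pow_left₀ (by omega) h1
      nlinarith
    have hx3 : x = -1 ∨ x = 0 ∨ x = 1 := by omega
    rcases hx3 with rfl | rfl | rfl
    · have : c = β := by linarith
      omega
    · linarith
    · have : c = -β := by linarith
      omega
  · exfalso
    subst hy
    have h1 : a * x ^ 2 = a * 1 := by linarith
    have h2 : x ^ 2 = 1 := mul_left_cancel₀ (by omega) h1
    have h3 : x = 1 := by nlinarith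
    exact hne ⟨h3, rfl⟩

private theorem ambig_contra {a : ℕ} {β : ℤ} {q : ℕ} (ha : 1 ≤ a) (hβ : |β| ≤ a)
    (hq : 4 * (a : ℤ) * a - β ^ 2 = q) (X : ℝ) (hX : 2 * X ≤ Real.sqrt q)
    (hno : ∀ d : ℕ, d ∣ q → (d : ℝ) ≤ Real.sqrt q → (d : ℝ) < X) : False := by
  have hd0 : 0 ≤ 2 * (a : ℤ) - |β| := by omega
  obtain ⟨d, hd⟩ := Int.eq_ofNat_of_zero_le hd0
  have hb0 := abs_nonneg β
  have hmul : (d : ℤ) * (2 * a + |β|) = q := by
    rw [← hd, ← hq]
    have := sq_abs β
    nlinarith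
  have hdq : d ∣ q := by
    have : (d : ℤ) ∣ (q : ℤ) := ⟨2 * a + |β|, hmul.symm⟩
    exact_mod_cast this
  have hda : (a : ℤ) ≤ d := by omega
  have hdsq : ((d : ℤ)) ^ 2 ≤ q := by
    rw [← hmul, sq]
    exact mul_le_mul_of_nonneg_left (by omega) (by omega)
  have h1 : (d : ℝ) ≤ Real.sqrt q := by
    apply Real.le_sqrt_of_sq_le
    exact_mod_cast hdsq
  have h2 := hno d hdq h1
  have h3 : Real.sqrt q ≤ 2 * a := by
    rw [Real.sqrt_le_left (by positivity)]
    have : (q : ℤ) ≤ (2 * a) ^ 2 := by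
      rw [← hq]
      nlinarith [sq_nonneg β]
    exact_mod_cast this
  have h4 : (a : ℝ) ≤ d := by exact_mod_cast hda
  linarith

open Pool.Hhelper85.CZ in
theorem ambig (K : Type) [Field K] [NumberField K] (h2 : Module.finrank ℚ K = 2) (q : ℕ)
    (hq : 4 < q) (hK : NumberField.discr K = -(q : ℤ)) (hexp : ∀ A : ClassGroup (𝓞 K), A ^ 2 = 1)
    (X : ℝ) (hX : 2 * X ≤ Real.sqrt q)
    (hno : ∀ d : ℕ, d ∣ q → (d : ℝ) ≤ Real.sqrt q → (d : ℝ) < X) :
    ∃ (a : ClassGroup (𝓞 K) → ℕ) (β c : ClassGroup (𝓞 K) → ℤ)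
      (e : ∀ A, {p : ℤ × ℤ // Half p} ≃ {I : (Ideal (𝓞 K))⁰ // ClassGroup.mk0 I = A}),
      (Fintype.card (ClassGroup (𝓞 K)) : ℝ) ≤ 3 * q ∧
      ∀ A, 1 ≤ a A ∧ a A ∣ q ∧ (a A : ℝ) < X ∧ 4 * (a A : ℤ) * c A - β A ^ 2 = q ∧
        ∀ p, ((Ideal.absNorm ((e A p).1 : Ideal (𝓞 K)) : ℕ) : ℤ) =
          fm (a A) (β A) (c A) p.1.1 p.1.2 := by
  classical
  obtain ⟨ω, t, q₀, hmul, hspan, hind, hnorm, hdisc⟩ := Pool.Hhelper76.SC.exists_omega' K h2
  have hDq : (4 * q₀ - t ^ 2 : ℤ) = (q : ℤ) := by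
    rw [hdisc] at hK
    linarith
  have hD4' : 4 < 4 * q₀ - t ^ 2 := by
    rw [hDq]
    exact_mod_cast hq
  have habs : |(NumberField.discr K : ℝ)| = (q : ℝ) := by
    rw [hK]
    push_cast
    rw [abs_neg, abs_of_nonneg (Nat.cast_nonneg _)]
  have hmain := Pool.Hhelper76.CL.class_param' K h2 hspan hind hnorm hD4'
  choose a b J hJ e ha hbound hJA hJa hmin hmem hβ hval using hmain
  rw [habs] at hbound
  have hinv : ∀ A : ClassGroup (𝓞 K), A⁻¹ = A := by
    intro A
    rw [inv_eq_iff_mul_eq_one, ← sq]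
    exact hexp A
  -- the size of a
  have hsize : ∀ A, 49 * (a A : ℤ) ^ 2 ≤ 20 * (q : ℤ) := by
    intro A
    have h1 := hbound A
    have h3 : (a A : ℝ) * Real.pi ≤ 2 * Real.sqrt q := by
      have hpi := Real.pi_pos
      have h4 := mul_le_mul_of_nonneg_right h1 hpi.le
      have h5 : 2 / Real.pi * Real.sqrt q * Real.pi = 2 * Real.sqrt q := by
        field_simp
      rwa [h5] at h4
    have h4 : ((a A : ℝ) * Real.pi) ^ 2 ≤ 4 * q := by
      have h5 := pow_le_pow_left₀ (by positivity) h3 2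
      rw [mul_pow 2 (Real.sqrt q), Real.sq_sqrt (Nat.cast_nonneg _)] at h5
      linarith
    have h6 : (49 / 5 : ℝ) ≤ Real.pi ^ 2 := by nlinarith [Real.pi_gt_d2]
    have h7 : (49 : ℝ) * (a A : ℝ) ^ 2 ≤ 20 * q := by
      rw [mul_pow] at h4
      have h8 : (a A : ℝ) ^ 2 * (49 / 5) ≤ (a A : ℝ) ^ 2 * Real.pi ^ 2 :=
        mul_le_mul_of_nonneg_left h6 (sq_nonneg _)
      linarith
    exact_mod_cast h7
  -- the last coefficient
  have hc : ∀ A, ∃ c : ℤ, 4 * (a A : ℤ) * c - (t - 2 * b A) ^ 2 = q ∧ (a A : ℤ) ≤ c := by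
    intro A
    refine ⟨((Ideal.absNorm ((e A ⟨(0, 1), Or.inl (by norm_num)⟩).1 : Ideal (𝓞 K)) : ℕ) : ℤ),
      ?_, ?_⟩
    · have h1 := hval A ⟨(0, 1), Or.inl (by norm_num)⟩
      have haR : (a A : ℝ) ≠ 0 := by
        have := ha A
        positivity
      rw [hDq] at h1
      have h3 : ((4 * (a A : ℤ) * ((Ideal.absNorm ((e A ⟨(0, 1), Or.inl (by norm_num)⟩).1 :
          Ideal (𝓞 K)) : ℕ) : ℤ) - (t - 2 * b A) ^ 2 : ℤ) : ℝ) = ((q : ℤ) : ℝ) := by
        push_cast at h1 ⊢
        rw [h1]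
        field_simp
        ring
      exact_mod_cast h3
    · have := hmin A _ (e A ⟨(0, 1), Or.inl (by norm_num)⟩).2
      exact_mod_cast this
  choose c hc1 hc2 using hc
  have hform : ∀ A, ∀ p : {p : ℤ × ℤ // Half p},
      ((Ideal.absNorm ((e A p).1 : Ideal (𝓞 K)) : ℕ) : ℤ) =
        fm (a A) (t - 2 * b A) (c A) p.1.1 p.1.2 := by
    intro A p
    have h1 := hval A p
    rw [hDq] at h1
    have haR : (a A : ℝ) ≠ 0 := by
      have := ha A
      positivity
    have hq' : ((q : ℤ) : ℝ) = 4 * (a A : ℝ) * c A - ((t - 2 * b A : ℤ) : ℝ) ^ 2 := by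
      rw [← hc1 A]
      push_cast
      ring
    have h3 : (((Ideal.absNorm ((e A p).1 : Ideal (𝓞 K)) : ℕ) : ℤ) : ℝ) =
        ((fm (a A) (t - 2 * b A) (c A) p.1.1 p.1.2 : ℤ) : ℝ) := by
      unfold fm
      rw [hq'] at h1
      push_cast at h1 ⊢
      rw [h1]
      field_simp
      ring
    exact_mod_cast h3
  have hdiv : ∀ A, (a A : ℤ) ∣ (q : ℤ) := by
    intro A
    obtain ⟨J', hJ'1, hJ'2⟩ := Pool.Hhelper76.CL.exists_conj K ⟨J A, hJ A⟩
    have hJ'3 := Pool.Hhelper76.CL.absNorm_conj K h2 hJ'2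
    simp only [hJa A] at hJ'2 hJ'3
    have hJA' : ClassGroup.mk0 (⟨J A, hJ A⟩ : (Ideal (𝓞 K))⁰) = A := by
      rw [hJA A, hinv]
    rw [hJA', hinv] at hJ'1
    by_cases hJJ : (J' : Ideal (𝓞 K)) = J A
    · -- ramified case
      rw [hJJ] at hJ'2
      have h1 : ω - (b A : 𝓞 K) ∈ J A := by
        rw [hmem A]
        refine ⟨0, 1, ?_⟩
        push_cast
        ring
      have h3 : (ω - (b A : 𝓞 K)) * (ω - (b A : 𝓞 K)) ∈ J A * J A := Ideal.mul_mem_mul h1 h1
      rw [hJ'2, Ideal.mem_span_singleton] at h3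
      obtain ⟨y, hy⟩ := h3
      obtain ⟨m, n, rfl⟩ := hspan y
      have h4 : (((b A) ^ 2 - q₀ - a A * m : ℤ) : 𝓞 K) + ((t - 2 * b A - a A * n : ℤ) : 𝓞 K) * ω
          = 0 := by
        push_cast
        linear_combination hy - hmul
      obtain ⟨-, h5⟩ := hind _ _ h4
      have h6 : t - 2 * b A = a A * n := by linarith
      have h7 := hc1 A
      rw [h6] at h7
      refine ⟨4 * c A - a A * n ^ 2, ?_⟩
      rw [← h7]
      ring
    · exfalso
      -- two different lattice points of value a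
      set p := (e A).symm ⟨⟨J A, hJ A⟩, hJA'⟩ with hp
      set p' := (e A).symm ⟨J', hJ'1⟩ with hp'
      have hpe : e A p = ⟨⟨J A, hJ A⟩, hJA'⟩ := by rw [hp, Equiv.apply_symm_apply]
      have hpe' : e A p' = ⟨J', hJ'1⟩ := by rw [hp', Equiv.apply_symm_apply]
      have hv := hform A p
      have hv' := hform A p'
      rw [hpe] at hv
      rw [hpe'] at hv'
      simp only [hJa A] at hv
      rw [hJ'3] at hv'
      have hne : p ≠ p' := by
        intro h
        rw [h, hpe'] at hpe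
        apply hJJ
        have := congrArg (fun z => ((z.1 : (Ideal (𝓞 K))⁰) : Ideal (𝓞 K))) hpe
        exact this
      have hca : c A = a A := by
        by_cases h1 : p.1.1 = 1 ∧ p.1.2 = 0
        · have h3 : ¬ (p'.1.1 = 1 ∧ p'.1.2 = 0) := by
            intro h3
            apply hne
            apply Subtype.ext
            apply Prod.ext
            · rw [h1.1, h3.1]
            · rw [h1.2, h3.2]
          exact ambig_arith (by exact_mod_cast ha A) (hβ A) (hc1 A) (hc2 A) (hsize A)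
            (by unfold fm at hv'; exact hv'.symm) p'.2 h3
        · exact ambig_arith (by exact_mod_cast ha A) (hβ A) (hc1 A) (hc2 A) (hsize A)
            (by unfold fm at hv; exact hv.symm) p.2 h1
      have h5 := hc1 A
      rw [hca] at h5
      exact ambig_contra (ha A) (hβ A) h5 X hX hno
  have hsq : ∀ A, (a A : ℤ) ^ 2 ≤ q := by
    intro A
    have := hsize A
    nlinarith
  refine ⟨a, fun A => t - 2 * b A, c, e, ?_, ?_⟩
  · -- the number of classes
    have hinj : Function.Injective (fun A : ClassGroup (𝓞 K) => ((a A : ℤ), t - 2 * b A)) := by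
      intro A A' h
      simp only [Prod.mk.injEq] at h
      obtain ⟨haa, hbb⟩ := h
      have haa' : a A = a A' := by exact_mod_cast haa
      have hb : b A = b A' := by linarith
      have hJJ : J A = J A' := by
        ext x
        rw [hmem, hmem, haa', hb]
      have h3 : A⁻¹ = A'⁻¹ := by
        rw [← hJA A, ← hJA A']
        congr 1
        exact Subtype.ext hJJ
      exact inv_injective h3
    set s : ℕ := Nat.sqrt q with hs
    have hcard : Fintype.card (ClassGroup (𝓞 K)) ≤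
        (Finset.Icc (1 : ℤ) s ×ˢ Finset.Icc (-(s : ℤ)) s).card := by
      rw [← Finset.card_univ]
      apply Finset.card_le_card_of_injOn _ _ hinj.injOn
      intro A _
      have h1 : a A ≤ s := by
        rw [hs, Nat.le_sqrt']
        exact_mod_cast hsq A
      have h3 := hβ A
      have h4 := abs_le.1 h3
      have h5 := ha A
      simp only [Finset.coe_product, Finset.coe_Icc, Set.mem_prod, Set.mem_Icc]
      refine ⟨⟨by exact_mod_cast h5, by exact_mod_cast h1⟩, ?_, ?_⟩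
      · have : (a A : ℤ) ≤ s := by exact_mod_cast h1
        omega
      · have : (a A : ℤ) ≤ s := by exact_mod_cast h1
        omega
    rw [Finset.card_product, Int.card_Icc, Int.card_Icc] at hcard
    have h6 : ((s : ℤ) + 1 - 1).toNat = s := by omega
    have h7 : ((s : ℤ) + 1 - -(s : ℤ)).toNat = 2 * s + 1 := by omega
    rw [h6, h7] at hcard
    have h8 : s * s ≤ q := Nat.sqrt_le q
    have h9 : s * (2 * s + 1) ≤ 3 * q := by nlinarith [Nat.sqrt_le_self q]
    exact_mod_cast hcard.trans h9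
  · intro A
    have h1 : a A ∣ q := by exact_mod_cast hdiv A
    have h3 : (a A : ℝ) ≤ Real.sqrt q := by
      apply Real.le_sqrt_of_sq_le
      exact_mod_cast hsq A
    exact ⟨ha A, h1, hno _ h1 h3, hc1 A, fun p => hform A p⟩

end Pool.OCG
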