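import Pool.Agent.OCG.LId
import Pool.Agent.Hhelper85.CZ.Defs

/-!
# The sum over the classes

PAPER PROOF. For `s > 1`: `LS (kap D · rK K) s = ∑_I kap D (N I) (N I) ^ (-s)` over the non zero ideals (group by the norm; the
zero ideal has norm `0` and contributes `0 ^ (-s) = 0`; summability from `summable_rK` and `|kap| ≤ 1`), `= ∑_A ∑_{I ∈ A}`, and the sum over `I ∈ A` is a sum over
`Half` by `e A`. `kap D n = jacobiSym n D` for `n ≠ 0` (`kap_eq_jacobi`).
-/

set_option autoImplicit false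

open scoped NumberField nonZeroDivisors

namespace Pool.OCG

namespace ClsSumAux

variable (K : Type) [Field K] [NumberField K]

/-- The norm of a non zero ideal. -/
noncomputable def NI (I : (Ideal (𝓞 K))⁰) : ℕ := Ideal.absNorm (I : Ideal (𝓞 K))

theorem NI_ne (I : (Ideal (𝓞 K))⁰) : NI K I ≠ 0 := by
  unfold NI
  exact Ideal.absNorm_ne_zero_of_nonZeroDivisors I

/-- The fibres. -/
def fib (n : ℕ) (hn : n ≠ 0) :
    {I : (Ideal (𝓞 K))⁰ // NI K I = n} ≃ {I : Ideal (𝓞 K) // Ideal.absNorm I = n} where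
  toFun I := ⟨I.1.1, I.2⟩
  invFun I := ⟨⟨I.1, by
    rw [mem_nonZeroDivisors_iff_ne_zero]
    intro h
    apply hn
    rw [← I.2, h]
    simp⟩, I.2⟩
  left_inv I := rfl
  right_inv I := rfl

theorem fib_fin (n : ℕ) : Finite {I : (Ideal (𝓞 K))⁰ // NI K I = n} := by
  by_cases hn : n = 0
  · subst hn
    have : IsEmpty {I : (Ideal (𝓞 K))⁰ // NI K I = 0} := ⟨fun I => NI_ne K I.1 I.2⟩
    infer_instance
  · have h1 : Finite {I : Ideal (𝓞 K) // Ideal.absNorm I = n} :=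
      (Ideal.finite_setOfPred_absNorm_eq n).to_subtype
    exact Finite.of_equiv _ (fib K n hn).symm

theorem fib_sum (F : ℕ → ℝ) (hF : F 0 = 0) (n : ℕ) :
    ∑' I : {I : (Ideal (𝓞 K))⁰ // NI K I = n}, F (NI K I.1) = rK K n * F n := by
  have h1 := fib_fin K n
  have h2 : Fintype {I : (Ideal (𝓞 K))⁰ // NI K I = n} := Fintype.ofFinite _
  rw [tsum_fintype]
  have h3 : ∀ I : {I : (Ideal (𝓞 K))⁰ // NI K I = n}, F (NI K I.1) = F n := fun I => by rw [I.2]
  rw [Finset.sum_congr rfl fun I _ => h3 I, Finset.sum_const, Finset.card_univ, nsmul_eq_mul,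
    ← Nat.card_eq_fintype_card]
  by_cases hn : n = 0
  · subst hn
    simp [hF]
  · rw [Nat.card_congr (fib K n hn)]
    rfl

theorem G_summable (F : ℕ → ℝ) (hF : F 0 = 0)
    (h : Summable fun n => (rK K n : ℝ) * |F n|) :
    Summable fun I : (Ideal (𝓞 K))⁰ => F (NI K I) := by
  apply Summable.of_norm
  rw [← (Equiv.sigmaFiberEquiv (NI K)).summable_iff]
  have key : Summable fun x : (Σ n, {I : (Ideal (𝓞 K))⁰ // NI K I = n}) =>
      ‖F (NI K (Equiv.sigmaFiberEquiv (NI K) x))‖ := by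
   rw [summable_sigma_of_nonneg fun _ => norm_nonneg _]
   refine ⟨fun n => ?_, ?_⟩
   · have := fib_fin K n
     exact Summable.of_finite
   · refine h.congr fun n => ?_
     rw [← fib_sum K (fun n => |F n|) (by simp [hF]) n]
     rfl
  exact key

theorem G_tsum (F : ℕ → ℝ) (hF : F 0 = 0)
    (h : Summable fun n => (rK K n : ℝ) * |F n|) :
    ∑' I : (Ideal (𝓞 K))⁰, F (NI K I) = ∑' n, rK K n * F n := by
  have h1 := G_summable K F hF h
  rw [← (Equiv.sigmaFiberEquiv (NI K)).summable_iff] at h1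
  rw [← (Equiv.sigmaFiberEquiv (NI K)).tsum_eq]
  refine h1.tsum_sigma.trans (tsum_congr fun n => ?_)
  exact fib_sum K F hF n

theorem G_class (F : ℕ → ℝ) (hF : F 0 = 0)
    (h : Summable fun n => (rK K n : ℝ) * |F n|) :
    ∑' I : (Ideal (𝓞 K))⁰, F (NI K I) =
      ∑ A : ClassGroup (𝓞 K), ∑' I : {I : (Ideal (𝓞 K))⁰ // ClassGroup.mk0 I = A},
        F (NI K I.1) := by
  have h1 := G_summable K F hF h
  rw [← (Equiv.sigmaFiberEquiv
    (fun I : (Ideal (𝓞 K))⁰ => ClassGroup.mk0 I)).summable_iff] at h1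
  rw [← (Equiv.sigmaFiberEquiv (fun I : (Ideal (𝓞 K))⁰ => ClassGroup.mk0 I)).tsum_eq]
  refine h1.tsum_sigma.trans ?_
  rw [tsum_fintype]
  rfl

end ClsSumAux

open ClsSumAux

open Pool.Hhelper85.CZ in
theorem class_sum (K : Type) [Field K] [NumberField K] (h2 : Module.finrank ℚ K = 2) (D : ℕ)
    (hD : D % 4 = 1)
    (a : ClassGroup (𝓞 K) → ℕ) (β c : ClassGroup (𝓞 K) → ℤ)
    (e : ∀ A, {p : ℤ × ℤ // Half p} ≃ {I : (Ideal (𝓞 K))⁰ // ClassGroup.mk0 I = A})
    (he : ∀ A p, ((Ideal.absNorm ((e A p).1 : Ideal (𝓞 K)) : ℕ) : ℤ) =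
          fm (a A) (β A) (c A) p.1.1 p.1.2) {s : ℝ} (hs : 1 < s) :
    LS (fun n => (kap D n : ℝ) * rK K n) s = ∑ A : ClassGroup (𝓞 K),
      ∑' p : {p : ℤ × ℤ // Half p}, (jacobiSym (fm (a A) (β A) (c A) p.1.1 p.1.2) D : ℝ) *
        ((fm (a A) (β A) (c A) p.1.1 p.1.2 : ℤ) : ℝ) ^ (-s) := by
  set F : ℕ → ℝ := fun n => (kap (D : ℤ) n : ℝ) * (n : ℝ) ^ (-s) with hFdef
  have hF0 : F 0 = 0 := by
    simp only [hFdef, Nat.cast_zero]
    rw [Real.zero_rpow (by linarith), mul_zero]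
  have hsum : Summable fun n => (rK K n : ℝ) * |F n| := by
    refine Summable.of_nonneg_of_le (fun n => by positivity) (fun n => ?_) (summable_rK K h2 hs)
    refine mul_le_mul_of_nonneg_left ?_ (Nat.cast_nonneg _)
    simp only [hFdef]
    have h1 : |(kap (D : ℤ) n : ℝ)| ≤ 1 := by exact_mod_cast abs_kap_le (D : ℤ) n
    have h3 : (0 : ℝ) ≤ (n : ℝ) ^ (-s) := by positivity
    rw [abs_mul, abs_of_nonneg h3]
    nlinarith
  have h1 : LS (fun n => (kap D n : ℝ) * rK K n) s = ∑' n, rK K n * F n := by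
    unfold LS
    refine tsum_congr fun n => ?_
    simp only [hFdef]
    ring
  rw [h1, ← G_tsum K F hF0 hsum, G_class K F hF0 hsum]
  refine Finset.sum_congr rfl fun A _ => ?_
  rw [← (e A).tsum_eq]
  refine tsum_congr fun p => ?_
  have h3 : ((NI K (e A p).1 : ℕ) : ℤ) = fm (a A) (β A) (c A) p.1.1 p.1.2 := he A p
  rw [← h3]
  simp only [hFdef]
  rw [kap_eq_jacobi hD (NI_ne K _)]
  push_cast
  rfl

end Pool.OCG
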