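import Pool.Agent.OCG.Defs

/-!
# Multiplicative independence

PAPER PROOF. `u_m = α ^ m - α ^ (-m)` satisfies `u_{m+1} = t u_m - u_{m-1}`, `u_0 = 0`, `u_1 = b √D`, so `u_m = B_m √D` with an integer
`B_m` (`> 0` for `m ≥ 1`). If `α ^ m = β ^ n` then `B √D₁ = C √D₂` with positive integers `B`, `C`, so `B² D₁ = C² D₂` and
`D₁ D₂ B² = (C D₂)²` is a square, so `D₁ D₂` is a square.
-/

set_option autoImplicit false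

namespace Pool.OCG

private lemma indep_aux {α : ℝ} (h1 : 1 < α) (t b : ℤ) (D : ℕ) (ht : α + α⁻¹ = t)
    (hb : α - α⁻¹ = b * Real.sqrt D) (m : ℕ) :
    (∃ B : ℤ, α ^ m - (α⁻¹) ^ m = B * Real.sqrt D) ∧
      ∃ B : ℤ, α ^ (m + 1) - (α⁻¹) ^ (m + 1) = B * Real.sqrt D := by
  have h0 : α ≠ 0 := by linarith
  induction m with
  | zero =>
    refine ⟨⟨0, by simp⟩, b, ?_⟩
    rw [zero_add, pow_one, pow_one, hb]
  | succ m ih =>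
    obtain ⟨⟨B, hB⟩, C, hC⟩ := ih
    refine ⟨⟨C, hC⟩, t * C - B, ?_⟩
    have e : α * α⁻¹ = 1 := mul_inv_cancel₀ h0
    have e1 : α ^ (m + 1 + 1) - (α⁻¹) ^ (m + 1 + 1) =
        (α + α⁻¹) * (α ^ (m + 1) - (α⁻¹) ^ (m + 1)) - (α ^ m - (α⁻¹) ^ m) := by
      have e2 : (α + α⁻¹) * (α ^ (m + 1) - (α⁻¹) ^ (m + 1)) =
          α ^ (m + 1 + 1) - (α⁻¹) ^ (m + 1 + 1) + (α * α⁻¹) * α ^ m - (α * α⁻¹) * (α⁻¹) ^ m := by
        ring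
      rw [e2, e]
      ring
    rw [e1, hB, hC, ht]
    push_cast
    ring

theorem indep {α β : ℝ} (h1 : 1 < α) (h2 : 1 < β) (t u b c : ℤ) (D₁ D₂ : ℕ)
    (ht : α + α⁻¹ = t) (hu : β + β⁻¹ = u) (hb : α - α⁻¹ = b * Real.sqrt D₁)
    (hc : β - β⁻¹ = c * Real.sqrt D₂) (hns : ¬ IsSquare (D₁ * D₂)) (m n : ℕ) (hm : 1 ≤ m)
    (hn : 1 ≤ n) : α ^ m ≠ β ^ n := by
  intro h
  obtain ⟨B, hB⟩ := (indep_aux h1 t b D₁ ht hb m).1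
  obtain ⟨C, hC⟩ := (indep_aux h2 u c D₂ hu hc n).1
  have hpos : 0 < α ^ m - (α⁻¹) ^ m := by
    have h3 : 1 < α ^ m := one_lt_pow₀ h1 (by omega)
    have h4 : (α⁻¹) ^ m < 1 := pow_lt_one₀ (by positivity) (inv_lt_one_of_one_lt₀ h1) (by omega)
    linarith
  have hinv : (α⁻¹) ^ m = (β⁻¹) ^ n := by
    rw [inv_pow, inv_pow, h]
  have heq : (B : ℝ) * Real.sqrt D₁ = C * Real.sqrt D₂ := by
    rw [← hB, ← hC, h, hinv]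
  have hB0 : B ≠ 0 := by
    rintro rfl
    rw [hB] at hpos
    simp at hpos
  have hsq : (B : ℝ) ^ 2 * D₁ = (C : ℝ) ^ 2 * D₂ := by
    have h3 : ((B : ℝ) * Real.sqrt D₁) ^ 2 = ((C : ℝ) * Real.sqrt D₂) ^ 2 := by rw [heq]
    rw [mul_pow, mul_pow, Real.sq_sqrt (Nat.cast_nonneg _), Real.sq_sqrt (Nat.cast_nonneg _)] at h3
    exact h3
  have hZ : B ^ 2 * (D₁ : ℤ) = C ^ 2 * (D₂ : ℤ) := by exact_mod_cast hsq
  have hZ2 : B ^ 2 * ((D₁ : ℤ) * D₂) = (C * D₂) ^ 2 := by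
    calc B ^ 2 * ((D₁ : ℤ) * D₂) = (B ^ 2 * (D₁ : ℤ)) * D₂ := by ring
      _ = (C * D₂) ^ 2 := by rw [hZ]; ring
  have hdvd : B ∣ C * D₂ := by
    have h3 : B ^ 2 ∣ (C * D₂) ^ 2 := ⟨_, hZ2.symm⟩
    exact (Int.pow_dvd_pow_iff two_ne_zero).1 h3
  obtain ⟨k, hk⟩ := hdvd
  apply hns
  have h5 : (D₁ : ℤ) * D₂ = k * k := by
    rw [hk] at hZ2
    have h6 : B ^ 2 * ((D₁ : ℤ) * D₂) = B ^ 2 * (k * k) := by rw [hZ2]; ring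
    exact mul_left_cancel₀ (pow_ne_zero 2 hB0) h6
  refine ⟨k.natAbs, ?_⟩
  have h7 : ((D₁ * D₂ : ℕ) : ℤ) = ((k.natAbs * k.natAbs : ℕ) : ℤ) := by
    push_cast
    rw [h5, ← abs_mul_abs_self k]
  exact_mod_cast h7

end Pool.OCG
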