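import Pool.Agent.OCG.TFin
import Pool.Agent.OCG.Indep

/-!
# The contradiction, general form

PAPER PROOF. As `contra` (`Contra.lean`; copy its proof). Let `l = log q ≥ 64`, `w = π W / M`, so `w ≥ π 4·10^8 M (2 + log M)² l² ≥ 1.2·10^9 X l²`, `X = M (2 + log M)² ≥ 4`, and `w ≤ π W / Dᵢ`.
`δ = 344 M² q² e^(-w) < 1/10` bounds both errors. `α + α⁻¹ = t > 2`, so `t ≥ 3`, `log α ≥ 9/10`, the same for `β`; `N₁ ≥ 1`, `N₂ ≥ 1`. With
`b₁ = 6 D₁ q k₁ N₂`, `b₂ = 6 D₂ q k₂ N₁`: `|b₁ log α - b₂ log β| ≤ (N₁ + N₂) δ ≤ 6 M² q² · 344 M² q² e^(-w) ≤ 2064 q^5 e^(-w) ≤ q^6 e^(-w)`.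
`6 D₁ q k₁ ≤ (π √q N₁ + 1)/(9/10)`, so `b₁, b₂ ≤ 40 M^4 q^(9/2) ≤ q^6 = B`, `log B = 6 l`. `H = √M (2 + log M)` (`2 ≤ H ≤ B`), `log α, log β ≤ H`. `indep` and `two_log`:
`exp (-(3·10^7·X·36 l²)) ≤ exp (6 l - w)`, i.e. `1.2·10^9 X l² ≤ w ≤ 6 l + 1.08·10^9 X l²`, false.
-/

set_option autoImplicit false

namespace Pool.OCG

/-- If `x + 1/x` is an integer and `x > 1` then `log x ≥ 9/10`. -/
private lemma log_ge_of_unit_aux {x : ℝ} (h1 : 1 < x) (t : ℤ) (ht : x + x⁻¹ = t) :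
    9 / 10 ≤ Real.log x := by
  have hx0 : 0 < x := by linarith
  have h2 : (2 : ℝ) < t := by
    rw [← ht]
    have : 0 < (x - 1) ^ 2 / x := by
      have : 0 < x - 1 := by linarith
      positivity
    have e : (x - 1) ^ 2 / x = x + x⁻¹ - 2 := by
      field_simp
      ring
    linarith
  have h3 : (3 : ℝ) ≤ t := by
    have : (2 : ℤ) < t := by exact_mod_cast h2
    exact_mod_cast (by omega : (3 : ℤ) ≤ t)
  have h4 : (5 / 2 : ℝ) ≤ x := by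
    by_contra h
    push Not at h
    have h5 : x * x + 1 = t * x := by
      have := congrArg (fun z => z * x) ht
      simp only [add_mul, inv_mul_cancel₀ hx0.ne'] at this
      linarith
    nlinarith
  rw [Real.le_log_iff_exp_le hx0]
  have h6 : Real.exp (9 / 10) ≤ 5 / 2 := by
    have h7 : Real.exp (9 / 10) * Real.exp (1 / 10) = Real.exp 1 := by
      rw [← Real.exp_add]
      norm_num
    have h8 : (1 + 1 / 10 : ℝ) ≤ Real.exp (1 / 10) := by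
      have := Real.add_one_le_exp (1 / 10 : ℝ)
      linarith
    have h9 := Real.exp_one_lt_d9
    have h10 := Real.exp_pos (9 / 10)
    nlinarith
  linarith

theorem contra_gen (q : ℕ) (hq : 64 ≤ Real.log q) (D₁ D₂ : ℕ) (hD₁ : 1 ≤ D₁) (hD₂ : 1 ≤ D₂)
    (M : ℝ) (hD₁' : (D₁ : ℝ) ≤ M) (hD₂' : (D₂ : ℝ) ≤ M) (hM : M ^ 4 ≤ q)
    (hns : ¬ IsSquare (D₁ * D₂)) {α β : ℝ} (h1 : 1 < α) (h2 : 1 < β) (t u b c : ℤ)
    (ht : α + α⁻¹ = t) (hu : β + β⁻¹ = u) (hb : α - α⁻¹ = b * Real.sqrt D₁)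
    (hc : β - β⁻¹ = c * Real.sqrt D₂)
    (hα : Real.log α ≤ Real.sqrt D₁ * (2 + Real.log D₁))
    (hβ : Real.log β ≤ Real.sqrt D₂ * (2 + Real.log D₂))
    (k₁ k₂ : ℕ) (hk₁ : 1 ≤ k₁) (hk₂ : 1 ≤ k₂) (N₁ N₂ : ℤ)
    (hN₁ : |(N₁ : ℝ)| ≤ 3 * (D₁ : ℝ) ^ 2 * (q : ℝ) ^ 2)
    (hN₂ : |(N₂ : ℝ)| ≤ 3 * (D₂ : ℝ) ^ 2 * (q : ℝ) ^ 2) (W : ℝ)
    (hW : 4 * 10 ^ 8 * M ^ 2 * (2 + Real.log M) ^ 2 * (Real.log q) ^ 2 ≤ W)
    (hE₁ : |6 * (D₁ : ℝ) * q * k₁ * Real.log α - Real.pi * Real.sqrt q * N₁| ≤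
      344 * (D₁ : ℝ) ^ 2 * (q : ℝ) ^ 2 * Real.exp (-(Real.pi * W / D₁)))
    (hE₂ : |6 * (D₂ : ℝ) * q * k₂ * Real.log β - Real.pi * Real.sqrt q * N₂| ≤
      344 * (D₂ : ℝ) ^ 2 * (q : ℝ) ^ 2 * Real.exp (-(Real.pi * W / D₂))) : False := by
  set l : ℝ := Real.log q with hl
  have hl0 : 0 < l := by linarith
  have hq0 : (0 : ℝ) < q := by
    rcases Nat.eq_zero_or_pos q with h | h
    · rw [h] at hl
      simp at hl
      linarith
    · exact_mod_cast h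
  set E : ℝ := Real.exp (l / 8) with hE
  have hE0 : 0 < E := Real.exp_pos _
  have hE8 : E ^ 8 = q := by
    rw [hE, ← Real.exp_nat_mul]
    have : ((8 : ℕ) : ℝ) * (l / 8) = l := by push_cast; ring
    rw [this, hl, Real.exp_log hq0]
  have hsq : Real.sqrt q = E ^ 4 := by
    rw [← hE8, show E ^ 8 = (E ^ 4) ^ 2 by ring, Real.sqrt_sq (by positivity)]
  -- `E` is large
  have hEbig : 2900 * (1 + (l - 64) / 8) ≤ E := by
    have h3 : (2900 : ℝ) ≤ Real.exp 8 := by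
      have h4 : Real.exp 8 = Real.exp 1 ^ 8 := by
        rw [← Real.exp_nat_mul]
        norm_num
      rw [h4]
      have h5 := Real.exp_one_gt_d9
      calc (2900 : ℝ) ≤ 2.7182818283 ^ 8 := by norm_num
        _ ≤ Real.exp 1 ^ 8 := by gcongr
    have h6 : 1 + (l - 64) / 8 ≤ Real.exp ((l - 64) / 8) := by
      have h8 := Real.add_one_le_exp ((l - 64) / 8)
      linarith
    have h9 : E = Real.exp 8 * Real.exp ((l - 64) / 8) := by
      rw [hE, ← Real.exp_add]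
      congr 1
      ring
    rw [h9]
    have : 0 ≤ 1 + (l - 64) / 8 := by linarith
    gcongr
  have hEl : 2 + l / 4 ≤ E := by
    refine le_trans ?_ hEbig
    linarith
  have hE6 : (2900 : ℝ) ≤ E := by
    refine le_trans ?_ hEbig
    linarith
  have hE1 : (1 : ℝ) ≤ E := by linarith
  have hD₁0 : (1 : ℝ) ≤ D₁ := by exact_mod_cast hD₁
  have hD₂0 : (1 : ℝ) ≤ D₂ := by exact_mod_cast hD₂
  have hM1 : (1 : ℝ) ≤ M := hD₁0.trans hD₁'
  have hM0 : 0 < M := by linarith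
  have hME : M ≤ E ^ 2 := by
    have h3 : M ^ 4 ≤ (E ^ 2) ^ 4 := by
      rw [← pow_mul, hE8]
      exact hM
    exact le_of_pow_le_pow_left₀ (by norm_num) (by positivity) h3
  have hk₁0 : (1 : ℝ) ≤ k₁ := by exact_mod_cast hk₁
  have hk₂0 : (1 : ℝ) ≤ k₂ := by exact_mod_cast hk₂
  have hq1 : (1 : ℝ) ≤ q := by rw [← hE8]; exact one_le_pow₀ hE1
  have hD₁E : (D₁ : ℝ) ≤ E ^ 2 := hD₁'.trans hME
  have hD₂E : (D₂ : ℝ) ≤ E ^ 2 := hD₂'.trans hME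
  have hlogM : 0 ≤ Real.log M := Real.log_nonneg hM1
  -- the exponential
  set X : ℝ := M * (2 + Real.log M) ^ 2 with hX
  have hX4 : 4 ≤ X := by
    rw [hX]
    calc (4 : ℝ) = 1 * (2 + 0) ^ 2 := by norm_num
      _ ≤ M * (2 + Real.log M) ^ 2 := by gcongr
  have hpi3 : (3.14 : ℝ) < Real.pi := Real.pi_gt_d2
  have hpi4 : Real.pi < 3.15 := Real.pi_lt_d2
  have hW0 : 0 ≤ W := le_trans (by positivity) hW
  set w : ℝ := Real.pi * W / M with hw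
  have hwX : 1256000000 * X * l ^ 2 ≤ w := by
    rw [hw, le_div_iff₀ hM0]
    calc 1256000000 * X * l ^ 2 * M
        = 3.14 * (4 * 10 ^ 8 * M ^ 2 * (2 + Real.log M) ^ 2 * l ^ 2) := by rw [hX]; ring
      _ ≤ Real.pi * W := by gcongr
  have hwD : ∀ D : ℝ, 1 ≤ D → D ≤ M →
      Real.exp (-(Real.pi * W / D)) ≤ Real.exp (-w) := by
    intro D h1D hD
    apply Real.exp_le_exp.2
    apply neg_le_neg
    rw [hw]
    have : 0 ≤ Real.pi * W := by positivity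
    gcongr
  set δ : ℝ := 344 * E ^ 20 * Real.exp (-w) with hδ
  have hwl : 12 * l ≤ w := by
    have h2 : l * 1 ≤ l * l := by
      have : 1 ≤ l := by linarith
      gcongr
    have h3 : 1256000000 * 4 * l ^ 2 ≤ 1256000000 * X * l ^ 2 := by gcongr
    have h4 : l ^ 2 = l * l := by ring
    rw [h4] at h3 hwX
    linarith
  have hEexp : ∀ k : ℕ, E ^ k = Real.exp (k * (l / 8)) := by
    intro k
    rw [hE, ← Real.exp_nat_mul]
  have hδ1 : δ ≤ 1 / 10 := by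
    have h1 : δ ≤ E ^ 24 * Real.exp (-w) := by
      rw [hδ]
      have : 344 * E ^ 20 ≤ E ^ 24 := by
        have : (344 : ℝ) ≤ E ^ 4 := by
          calc (344 : ℝ) ≤ E ^ 1 := by linarith
            _ ≤ E ^ 4 := pow_le_pow_right₀ hE1 (by norm_num)
        calc 344 * E ^ 20 ≤ E ^ 4 * E ^ 20 := by gcongr
          _ = E ^ 24 := by ring
      gcongr
    refine h1.trans ?_
    rw [hEexp, ← Real.exp_add]
    have h2 : ((24 : ℕ) : ℝ) * (l / 8) + -w ≤ -l := by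
      push_cast
      linarith
    refine (Real.exp_le_exp.2 h2).trans ?_
    have h3 : 10 ≤ Real.exp l := by
      have := Real.add_one_le_exp l
      linarith
    rw [Real.exp_neg, ← one_div]
    exact one_div_le_one_div_of_le (by norm_num) h3
  have hδE : ∀ D : ℝ, 1 ≤ D → D ≤ M →
      344 * D ^ 2 * (q : ℝ) ^ 2 * Real.exp (-(Real.pi * W / D)) ≤ δ := by
    intro D h1D hD
    have h1 := hwD D h1D hD
    have h2 : D ≤ E ^ 2 := hD.trans hME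
    rw [hδ, ← hE8]
    calc 344 * D ^ 2 * (E ^ 8) ^ 2 * Real.exp (-(Real.pi * W / D))
        ≤ 344 * (E ^ 2) ^ 2 * (E ^ 8) ^ 2 * Real.exp (-w) := by gcongr
      _ = _ := by ring
  have hE₁' := hE₁.trans (hδE D₁ hD₁0 hD₁')
  have hE₂' := hE₂.trans (hδE D₂ hD₂0 hD₂')
  have hlα := log_ge_of_unit_aux h1 t ht
  have hlβ := log_ge_of_unit_aux h2 u hu
  have hNpos : ∀ (D k : ℝ) (x : ℝ) (N : ℤ), 1 ≤ D → 1 ≤ k → 9 / 10 ≤ x →
      |6 * D * q * k * x - Real.pi * Real.sqrt q * N| ≤ δ → 1 ≤ N := by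
    intro D k x N hD hk hx h
    have h3 : 5 ≤ 6 * D * q * k * x := by
      have h4 : 1 ≤ D * q * k := by
        have : 1 ≤ D * q := one_le_mul_of_one_le_of_one_le hD hq1
        exact one_le_mul_of_one_le_of_one_le this hk
      have h9 : 6 * D * q * k * x = 6 * (D * q * k) * x := by ring
      rw [h9]
      calc (5 : ℝ) ≤ 6 * 1 * (9 / 10) := by norm_num
        _ ≤ 6 * (D * q * k) * x := by gcongr
    have h5 := (abs_le.1 h).2
    have h6 : 0 < Real.pi * Real.sqrt q * N := by linarith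
    have h7 : 0 < Real.pi * Real.sqrt q := by
      have := Real.pi_pos
      have := Real.sqrt_pos.2 hq0
      positivity
    have h8 : (0 : ℝ) < N := by
      by_contra hcon
      push Not at hcon
      have := mul_nonpos_of_nonneg_of_nonpos h7.le hcon
      linarith
    exact_mod_cast h8
  have hN₁1 := hNpos D₁ k₁ _ N₁ hD₁0 hk₁0 hlα hE₁'
  have hN₂1 := hNpos D₂ k₂ _ N₂ hD₂0 hk₂0 hlβ hE₂'
  have hNE : ∀ (D : ℝ) (N : ℤ), 1 ≤ D → D ≤ E ^ 2 → |(N : ℝ)| ≤ 3 * D ^ 2 * (q : ℝ) ^ 2 →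
      (N : ℝ) ≤ 3 * E ^ 20 := by
    intro D N hD hDE hN
    refine (le_abs_self _).trans (hN.trans ?_)
    rw [← hE8]
    calc 3 * D ^ 2 * (E ^ 8) ^ 2 ≤ 3 * (E ^ 2) ^ 2 * (E ^ 8) ^ 2 := by gcongr
      _ = 3 * E ^ 20 := by ring
  have hN₁E := hNE D₁ N₁ hD₁0 hD₁E hN₁
  have hN₂E := hNE D₂ N₂ hD₂0 hD₂E hN₂
  have hkE : ∀ (D k : ℝ) (x : ℝ) (N : ℤ), 1 ≤ D → 1 ≤ k → 9 / 10 ≤ x → (N : ℝ) ≤ 3 * E ^ 20 →
      |6 * D * q * k * x - Real.pi * Real.sqrt q * N| ≤ δ → 6 * D * q * k ≤ 12 * E ^ 24 := by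
    intro D k x N hD hk hx hN h
    have h5 := (abs_le.1 h).2
    have h6 : 6 * D * q * k * (9 / 10) ≤ 6 * D * q * k * x := by gcongr
    have h7 : Real.pi * Real.sqrt q * N ≤ 3.15 * E ^ 4 * (3 * E ^ 20) := by
      rw [hsq]
      calc Real.pi * E ^ 4 * N ≤ Real.pi * E ^ 4 * (3 * E ^ 20) := by gcongr
        _ ≤ 3.15 * E ^ 4 * (3 * E ^ 20) := by gcongr
    have h8 : (1 : ℝ) ≤ E ^ 24 := one_le_pow₀ hE1
    have h9 : 3.15 * E ^ 4 * (3 * E ^ 20) = 9.45 * E ^ 24 := by ring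
    linarith
  have hkE₁ := hkE D₁ k₁ _ N₁ hD₁0 hk₁0 hlα hN₁E hE₁'
  have hkE₂ := hkE D₂ k₂ _ N₂ hD₂0 hk₂0 hlβ hN₂E hE₂'
  -- the two integers
  obtain ⟨n₁, hn₁⟩ := Int.eq_ofNat_of_zero_le (by omega : 0 ≤ N₁)
  obtain ⟨n₂, hn₂⟩ := Int.eq_ofNat_of_zero_le (by omega : 0 ≤ N₂)
  subst hn₁
  subst hn₂
  simp only [Int.cast_natCast] at *
  have hn₁1 : 1 ≤ n₁ := by exact_mod_cast hN₁1
  have hn₂1 : 1 ≤ n₂ := by exact_mod_cast hN₂1
  have hqn : 1 ≤ q := by exact_mod_cast hq1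
  have hn₁0 : (0 : ℝ) ≤ n₁ := Nat.cast_nonneg _
  have hn₂0 : (0 : ℝ) ≤ n₂ := Nat.cast_nonneg _
  set B : ℝ := (q : ℝ) ^ 6 with hB
  have hBE : B = E ^ 48 := by rw [hB, ← hE8]; ring
  have hlogB : Real.log B = 6 * l := by
    rw [hB, Real.log_pow]
    push_cast
    rfl
  set H : ℝ := Real.sqrt M * (2 + Real.log M) with hH
  have hHup : ∀ D : ℝ, 1 ≤ D → D ≤ M → Real.sqrt D * (2 + Real.log D) ≤ H := by
    intro D h1D hD
    have h3 : Real.sqrt D ≤ Real.sqrt M := Real.sqrt_le_sqrt hD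
    have h4 : Real.log D ≤ Real.log M := Real.log_le_log (by linarith) hD
    have h13 : 0 ≤ 2 + Real.log D := by
      have := Real.log_nonneg h1D
      linarith
    rw [hH]
    gcongr
  have hsM1 : 1 ≤ Real.sqrt M := Real.one_le_sqrt.2 hM1
  have hH1 : 1 ≤ H := by
    rw [hH]
    calc (1 : ℝ) ≤ 1 * (2 + 0) := by norm_num
      _ ≤ Real.sqrt M * (2 + Real.log M) := by gcongr
  have hlogM2 : Real.log M ≤ l / 4 := by
    have h3 := Real.log_le_log hM0 hME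
    rw [Real.log_pow, hE, Real.log_exp] at h3
    push_cast at h3
    linarith
  have hHB : H ≤ B := by
    have h3 : Real.sqrt M ≤ M := by
      calc Real.sqrt M = Real.sqrt M * 1 := (mul_one _).symm
        _ ≤ Real.sqrt M * Real.sqrt M := by gcongr
        _ = M := Real.mul_self_sqrt hM0.le
    have h4 : H ≤ E ^ 3 := by
      rw [hH]
      calc Real.sqrt M * (2 + Real.log M) ≤ E ^ 2 * (2 + l / 4) := by
            have := h3.trans hME
            gcongr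
        _ ≤ E ^ 2 * E := by gcongr
        _ = E ^ 3 := by ring
    rw [hBE]
    exact h4.trans (pow_le_pow_right₀ hE1 (by norm_num))
  have hB1 : 1 ≤ B := by linarith
  have hlB : 10 ≤ Real.log B := by rw [hlogB]; linarith
  have hb₁ : ((6 * D₁ * q * k₁ * n₂ : ℕ) : ℝ) ≤ B := by
    push_cast
    rw [hBE]
    have h3 : (36 : ℝ) ≤ E ^ 4 := by
      calc (36 : ℝ) ≤ E ^ 1 := by linarith
        _ ≤ E ^ 4 := pow_le_pow_right₀ hE1 (by norm_num)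
    calc 6 * (D₁ : ℝ) * q * k₁ * n₂ ≤ 12 * E ^ 24 * (3 * E ^ 20) := by gcongr
      _ = 36 * E ^ 44 := by ring
      _ ≤ E ^ 4 * E ^ 44 := by gcongr
      _ = E ^ 48 := by ring
  have hb₂ : ((6 * D₂ * q * k₂ * n₁ : ℕ) : ℝ) ≤ B := by
    push_cast
    rw [hBE]
    have h3 : (36 : ℝ) ≤ E ^ 4 := by
      calc (36 : ℝ) ≤ E ^ 1 := by linarith
        _ ≤ E ^ 4 := pow_le_pow_right₀ hE1 (by norm_num)
    calc 6 * (D₂ : ℝ) * q * k₂ * n₁ ≤ 12 * E ^ 24 * (3 * E ^ 20) := by gcongr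
      _ = 36 * E ^ 44 := by ring
      _ ≤ E ^ 4 * E ^ 44 := by gcongr
      _ = E ^ 48 := by ring
  have hb₁1 : 1 ≤ 6 * D₁ * q * k₁ * n₂ := by
    have : 0 < 6 * D₁ * q * k₁ * n₂ := by positivity
    omega
  have hb₂1 : 1 ≤ 6 * D₂ * q * k₂ * n₁ := by
    have : 0 < 6 * D₂ * q * k₂ * n₁ := by positivity
    omega
  have hlow := two_log h1 h2 t u ht hu H B hH1 hHB hlB hB1 (hα.trans (hHup D₁ hD₁0 hD₁'))
    (hβ.trans (hHup D₂ hD₂0 hD₂'))
    (fun a b' ha hb' => indep h1 h2 t u b c D₁ D₂ ht hu hb hc hns a b' ha hb')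
    (6 * D₁ * q * k₁ * n₂) (6 * D₂ * q * k₂ * n₁) hb₁1 hb₂1 hb₁ hb₂
  have hup : |((6 * D₁ * q * k₁ * n₂ : ℕ) : ℝ) * Real.log α -
      ((6 * D₂ * q * k₂ * n₁ : ℕ) : ℝ) * Real.log β| ≤ Real.exp (6 * l - w) := by
    have e : ((6 * D₁ * q * k₁ * n₂ : ℕ) : ℝ) * Real.log α -
        ((6 * D₂ * q * k₂ * n₁ : ℕ) : ℝ) * Real.log β =
        n₂ * (6 * (D₁ : ℝ) * q * k₁ * Real.log α - Real.pi * Real.sqrt q * n₁) -
        n₁ * (6 * (D₂ : ℝ) * q * k₂ * Real.log β - Real.pi * Real.sqrt q * n₂) := by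
      push_cast
      ring
    rw [e]
    refine (abs_sub _ _).trans ?_
    rw [abs_mul, abs_mul, abs_of_nonneg hn₁0, abs_of_nonneg hn₂0]
    have hδ0 : 0 ≤ δ := by positivity
    calc (n₂ : ℝ) * |6 * (D₁ : ℝ) * q * k₁ * Real.log α - Real.pi * Real.sqrt q * n₁| +
          n₁ * |6 * (D₂ : ℝ) * q * k₂ * Real.log β - Real.pi * Real.sqrt q * n₂|
        ≤ (3 * E ^ 20) * δ + (3 * E ^ 20) * δ := by gcongr
      _ = 2064 * E ^ 40 * Real.exp (-w) := by rw [hδ]; ring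
      _ ≤ E ^ 8 * E ^ 40 * Real.exp (-w) := by
          have : (2064 : ℝ) ≤ E ^ 8 := by
            calc (2064 : ℝ) ≤ E ^ 1 := by linarith
              _ ≤ E ^ 8 := pow_le_pow_right₀ hE1 (by norm_num)
          gcongr
      _ = E ^ 48 * Real.exp (-w) := by ring
      _ = Real.exp (6 * l - w) := by
          rw [hEexp, ← Real.exp_add]
          congr 1
          push_cast
          ring
  have hfin := Real.exp_le_exp.1 (hlow.trans hup)
  rw [hlogB] at hfin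
  have hH2 : H ^ 2 = X := by
    rw [hH, hX]
    calc (Real.sqrt M * (2 + Real.log M)) ^ 2
        = (Real.sqrt M * Real.sqrt M) * (2 + Real.log M) ^ 2 := by ring
      _ = M * (2 + Real.log M) ^ 2 := by rw [Real.mul_self_sqrt hM0.le]
  rw [hH2] at hfin
  have h3 : w ≤ 6 * l + 1080000000 * (X * l ^ 2) := by
    have e : 3 * 10 ^ 7 * X * (6 * l) ^ 2 = 1080000000 * (X * l ^ 2) := by ring
    rw [e] at hfin
    linarith
  have h4 : 1256000000 * (X * l ^ 2) ≤ w := by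
    have e : 1256000000 * X * l ^ 2 = 1256000000 * (X * l ^ 2) := by ring
    rw [e] at hwX
    exact hwX
  have h5 : 4 * l ≤ X * l ^ 2 := by
    calc 4 * l ≤ 4 * l ^ 2 := by
          have : l ^ 1 ≤ l ^ 2 := pow_le_pow_right₀ (by linarith) (by norm_num)
          linarith
      _ ≤ X * l ^ 2 := by gcongr
  linarith

end Pool.OCG
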