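import Pool.Agent.OCG.TFin
import Pool.Agent.OCG.Indep

/-!
# The contradiction

PAPER PROOF. Let `l = log q ≥ 128`, `w = π 10^12 l^5` (at most `π 10^14 l^7 / Dᵢ`). `α + α⁻¹ = t > 2`, so `t ≥ 3`, `log α ≥ 9/10`, the same for `β`.
`δ = 344 (100 l²)² q² e^(-w) < 1/10` bounds both errors. `6 D₁ q h₁ log α ≥ 9/10`, so `π √q N₁ > 0`, `N₁ ≥ 1`, and `N₂ ≥ 1`. With
`b₁ = 6 D₁ q h₁ N₂`, `b₂ = 6 D₂ q h₂ N₁` (positive integers)
`|b₁ log α - b₂ log β| = |N₂ (6 D₁ q h₁ log α - π √q N₁) - N₁ (6 D₂ q h₂ log β - π √q N₂)| ≤ (N₁ + N₂) δ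
≤ 6 (100 l²)^2 q² · 344 (100 l²)² q² e^(-w) ≤ q^6 e^(-w)`.
`6 D₁ q h₁ ≤ (π √q N₁ + 1)/(9/10)`, so `b₁, b₂ ≤ 40 (100 l²)^4 q^(9/2) ≤ q^6 = B`, `log B = 6 l`. `H = 10 l (2 + log (100 l²))`:
`log α ≤ √D₁ (2 + log D₁) ≤ H`, `H² ≤ 208 l³` (`(2 + log (100 l²))² ≤ 2.08 l` for `l ≥ 128`; any bound `H² ≤ 10^3 l³` is enough),
`1 ≤ H ≤ B`. `indep` and `two_log`: `exp (-(3·10^7·10^3 l³·36 l²)) ≤ exp (6 l - w)`, i.e. `π 10^12 l^5 ≤ 6 l + 1.08·10^12 l^5`, false.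
-/

set_option autoImplicit false

namespace Pool.OCG

/-- If `x + 1/x` is an integer and `x > 1` then `log x ≥ 9/10`. -/
lemma log_ge_of_unit {x : ℝ} (h1 : 1 < x) (t : ℤ) (ht : x + x⁻¹ = t) : 9 / 10 ≤ Real.log x := by
  have hx0 : 0 < x := by linarith
  have h2 : (2 : ℝ) < t := by
    rw [← ht]
    have : 0 < (x - 1) ^ 2 / x := by
      have : 0 < x - 1 := by linarith
      positivity
    have e : (x - 1) ^ 2 / x = x + x⁻¹ - 2 := by
      field_simp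
      ring
    linarith
  have h3 : (3 : ℝ) ≤ t := by
    have : (2 : ℤ) < t := by exact_mod_cast h2
    exact_mod_cast (by omega : (3 : ℤ) ≤ t)
  have h4 : (5 / 2 : ℝ) ≤ x := by
    by_contra h
    push Not at h
    have h5 : x * x + 1 = t * x := by
      have := congrArg (fun z => z * x) ht
      simp only [add_mul, inv_mul_cancel₀ hx0.ne'] at this
      linarith
    nlinarith
  rw [Real.le_log_iff_exp_le hx0]
  have h6 : Real.exp (9 / 10) ≤ 5 / 2 := by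
    have h7 : Real.exp (9 / 10) * Real.exp (1 / 10) = Real.exp 1 := by
      rw [← Real.exp_add]
      norm_num
    have h8 : (1 + 1 / 10 : ℝ) ≤ Real.exp (1 / 10) := by
      have := Real.add_one_le_exp (1 / 10 : ℝ)
      linarith
    have h9 := Real.exp_one_lt_d9
    have h10 := Real.exp_pos (9 / 10)
    nlinarith
  linarith

theorem contra (q : ℕ) (hq : 128 ≤ Real.log q) (D₁ D₂ : ℕ) (hD₁ : 1 ≤ D₁) (hD₂ : 1 ≤ D₂)
    (hD₁' : (D₁ : ℝ) ≤ 100 * (Real.log q) ^ 2) (hD₂' : (D₂ : ℝ) ≤ 100 * (Real.log q) ^ 2)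
    (hns : ¬ IsSquare (D₁ * D₂)) {α β : ℝ} (h1 : 1 < α) (h2 : 1 < β) (t u b c : ℤ)
    (ht : α + α⁻¹ = t) (hu : β + β⁻¹ = u) (hb : α - α⁻¹ = b * Real.sqrt D₁)
    (hc : β - β⁻¹ = c * Real.sqrt D₂)
    (hα : Real.log α ≤ Real.sqrt D₁ * (2 + Real.log D₁))
    (hβ : Real.log β ≤ Real.sqrt D₂ * (2 + Real.log D₂))
    (k₁ k₂ : ℕ) (hk₁ : 1 ≤ k₁) (hk₂ : 1 ≤ k₂) (N₁ N₂ : ℤ)
    (hN₁ : |(N₁ : ℝ)| ≤ 3 * (D₁ : ℝ) ^ 2 * (q : ℝ) ^ 2)
    (hN₂ : |(N₂ : ℝ)| ≤ 3 * (D₂ : ℝ) ^ 2 * (q : ℝ) ^ 2)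
    (hE₁ : |6 * (D₁ : ℝ) * q * k₁ * Real.log α - Real.pi * Real.sqrt q * N₁| ≤
      344 * (D₁ : ℝ) ^ 2 * (q : ℝ) ^ 2 *
        Real.exp (-(Real.pi * (10 ^ 14 * (Real.log q) ^ 7) / D₁)))
    (hE₂ : |6 * (D₂ : ℝ) * q * k₂ * Real.log β - Real.pi * Real.sqrt q * N₂| ≤
      344 * (D₂ : ℝ) ^ 2 * (q : ℝ) ^ 2 *
        Real.exp (-(Real.pi * (10 ^ 14 * (Real.log q) ^ 7) / D₂))) : False := by
  set l : ℝ := Real.log q with hl
  have hl0 : 0 < l := by linarith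
  have hq0 : (0 : ℝ) < q := by
    rcases Nat.eq_zero_or_pos q with h | h
    · rw [h] at hl
      simp at hl
      linarith
    · exact_mod_cast h
  set E : ℝ := Real.exp (l / 8) with hE
  have hE0 : 0 < E := Real.exp_pos _
  have hE8 : E ^ 8 = q := by
    rw [hE, ← Real.exp_nat_mul]
    have : ((8 : ℕ) : ℝ) * (l / 8) = l := by push_cast; ring
    rw [this, hl, Real.exp_log hq0]
  have hsq : Real.sqrt q = E ^ 4 := by
    rw [← hE8, show E ^ 8 = (E ^ 4) ^ 2 by ring, Real.sqrt_sq (by positivity)]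
  -- `E` is large
  have hEbig : 8000000 * (1 + (l - 128) / 16) ^ 2 ≤ E := by
    have h3 : (8000000 : ℝ) ≤ Real.exp 16 := by
      have h4 : Real.exp 16 = Real.exp 1 ^ 16 := by
        rw [← Real.exp_nat_mul]
        norm_num
      rw [h4]
      have h5 := Real.exp_one_gt_d9
      calc (8000000 : ℝ) ≤ 2.7182818283 ^ 16 := by norm_num
        _ ≤ Real.exp 1 ^ 16 := by gcongr
    have h6 : (1 + (l - 128) / 16) ^ 2 ≤ Real.exp ((l - 128) / 8) := by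
      have h7 : Real.exp ((l - 128) / 8) = Real.exp ((l - 128) / 16) ^ 2 := by
        rw [← Real.exp_nat_mul]
        congr 1
        push_cast
        ring
      rw [h7]
      have h8 := Real.add_one_le_exp ((l - 128) / 16)
      have : 0 ≤ 1 + (l - 128) / 16 := by linarith
      gcongr
      linarith
    have h9 : E = Real.exp 16 * Real.exp ((l - 128) / 8) := by
      rw [hE, ← Real.exp_add]
      congr 1
      ring
    rw [h9]
    gcongr
  have hEl : 100 * l ^ 2 ≤ E := by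
    refine le_trans ?_ hEbig
    have h3 : l ≤ 128 * (1 + (l - 128) / 16) := by linarith
    have h4 : l ^ 2 ≤ (128 * (1 + (l - 128) / 16)) ^ 2 := by gcongr
    have h5 : (128 * (1 + (l - 128) / 16)) ^ 2 = 16384 * (1 + (l - 128) / 16) ^ 2 := by ring
    have h6 : 0 ≤ (1 + (l - 128) / 16) ^ 2 := by positivity
    linarith
  have hE6 : (1000000 : ℝ) ≤ E := by
    have h3 : (128 : ℝ) ^ 2 ≤ l ^ 2 := by gcongr
    linarith
  have hE1 : (1 : ℝ) ≤ E := by linarith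
  have hD₁E : (D₁ : ℝ) ≤ E := hD₁'.trans hEl
  have hD₂E : (D₂ : ℝ) ≤ E := hD₂'.trans hEl
  have hD₁0 : (1 : ℝ) ≤ D₁ := by exact_mod_cast hD₁
  have hD₂0 : (1 : ℝ) ≤ D₂ := by exact_mod_cast hD₂
  have hk₁0 : (1 : ℝ) ≤ k₁ := by exact_mod_cast hk₁
  have hk₂0 : (1 : ℝ) ≤ k₂ := by exact_mod_cast hk₂
  have hq1 : (1 : ℝ) ≤ q := by rw [← hE8]; exact one_le_pow₀ hE1
  -- the exponential
  set w : ℝ := Real.pi * 10 ^ 12 * l ^ 5 with hw
  have hpi3 : (3.14 : ℝ) < Real.pi := Real.pi_gt_d2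
  have hpi4 : Real.pi < 3.15 := Real.pi_lt_d2
  have hwD : ∀ D : ℝ, 1 ≤ D → D ≤ 100 * l ^ 2 →
      Real.exp (-(Real.pi * (10 ^ 14 * l ^ 7) / D)) ≤ Real.exp (-w) := by
    intro D h1D hD
    apply Real.exp_le_exp.2
    apply neg_le_neg
    rw [le_div_iff₀ (by linarith)]
    calc w * D ≤ w * (100 * l ^ 2) := by
          have : 0 ≤ w := by positivity
          gcongr
      _ = Real.pi * (10 ^ 14 * l ^ 7) := by rw [hw]; ring
  set δ : ℝ := 344 * E ^ 18 * Real.exp (-w) with hδ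
  have hwl : 12 * l ≤ w := by
    have h2 : l ≤ l ^ 5 := by
      calc l = l ^ 1 := (pow_one l).symm
        _ ≤ l ^ 5 := pow_le_pow_right₀ (by linarith) (by norm_num)
    have h3 : 3 * 10 ^ 12 * l ≤ w := by
      rw [hw]
      gcongr
      linarith
    linarith
  have hEexp : ∀ k : ℕ, E ^ k = Real.exp (k * (l / 8)) := by
    intro k
    rw [hE, ← Real.exp_nat_mul]
  have hδ1 : δ ≤ 1 / 10 := by
    have h1 : δ ≤ E ^ 24 * Real.exp (-w) := by
      rw [hδ]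
      have : 344 * E ^ 18 ≤ E ^ 24 := by
        have : (344 : ℝ) ≤ E ^ 6 := by
          calc (344 : ℝ) ≤ E ^ 1 := by linarith
            _ ≤ E ^ 6 := pow_le_pow_right₀ hE1 (by norm_num)
        calc 344 * E ^ 18 ≤ E ^ 6 * E ^ 18 := by gcongr
          _ = E ^ 24 := by ring
      gcongr
    refine h1.trans ?_
    rw [hEexp, ← Real.exp_add]
    have h2 : ((24 : ℕ) : ℝ) * (l / 8) + -w ≤ -l := by
      push_cast
      linarith
    refine (Real.exp_le_exp.2 h2).trans ?_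
    have h3 : 10 ≤ Real.exp l := by
      have := Real.add_one_le_exp l
      linarith
    rw [Real.exp_neg, ← one_div]
    exact one_div_le_one_div_of_le (by norm_num) h3
  have hδE : ∀ D : ℝ, 1 ≤ D → D ≤ 100 * l ^ 2 →
      344 * D ^ 2 * (q : ℝ) ^ 2 * Real.exp (-(Real.pi * (10 ^ 14 * l ^ 7) / D)) ≤ δ := by
    intro D h1D hD
    have h1 := hwD D h1D hD
    have h2 : D ≤ E := hD.trans hEl
    rw [hδ, ← hE8]
    calc 344 * D ^ 2 * (E ^ 8) ^ 2 * Real.exp (-(Real.pi * (10 ^ 14 * l ^ 7) / D))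
        ≤ 344 * E ^ 2 * (E ^ 8) ^ 2 * Real.exp (-w) := by gcongr
      _ = _ := by ring
  have hE₁' := hE₁.trans (hδE D₁ hD₁0 hD₁')
  have hE₂' := hE₂.trans (hδE D₂ hD₂0 hD₂')
  have hlα := log_ge_of_unit h1 t ht
  have hlβ := log_ge_of_unit h2 u hu
  have hNpos : ∀ (D k : ℝ) (x : ℝ) (N : ℤ), 1 ≤ D → 1 ≤ k → 9 / 10 ≤ x →
      |6 * D * q * k * x - Real.pi * Real.sqrt q * N| ≤ δ → 1 ≤ N := by
    intro D k x N hD hk hx h
    have h3 : 5 ≤ 6 * D * q * k * x := by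
      have h4 : 1 ≤ D * q * k := by
        have : 1 ≤ D * q := one_le_mul_of_one_le_of_one_le hD hq1
        exact one_le_mul_of_one_le_of_one_le this hk
      have h9 : 6 * D * q * k * x = 6 * (D * q * k) * x := by ring
      rw [h9]
      calc (5 : ℝ) ≤ 6 * 1 * (9 / 10) := by norm_num
        _ ≤ 6 * (D * q * k) * x := by gcongr
    have h5 := (abs_le.1 h).2
    have h6 : 0 < Real.pi * Real.sqrt q * N := by linarith
    have h7 : 0 < Real.pi * Real.sqrt q := by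
      have := Real.pi_pos
      have := Real.sqrt_pos.2 hq0
      positivity
    have h8 : (0 : ℝ) < N := by
      by_contra hcon
      push Not at hcon
      have := mul_nonpos_of_nonneg_of_nonpos h7.le hcon
      linarith
    exact_mod_cast h8
  have hN₁1 := hNpos D₁ k₁ _ N₁ hD₁0 hk₁0 hlα hE₁'
  have hN₂1 := hNpos D₂ k₂ _ N₂ hD₂0 hk₂0 hlβ hE₂'
  have hNE : ∀ (D : ℝ) (N : ℤ), 1 ≤ D → D ≤ E → |(N : ℝ)| ≤ 3 * D ^ 2 * (q : ℝ) ^ 2 →
      (N : ℝ) ≤ 3 * E ^ 18 := by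
    intro D N hD hDE hN
    refine (le_abs_self _).trans (hN.trans ?_)
    rw [← hE8]
    calc 3 * D ^ 2 * (E ^ 8) ^ 2 ≤ 3 * E ^ 2 * (E ^ 8) ^ 2 := by gcongr
      _ = 3 * E ^ 18 := by ring
  have hN₁E := hNE D₁ N₁ hD₁0 hD₁E hN₁
  have hN₂E := hNE D₂ N₂ hD₂0 hD₂E hN₂
  have hkE : ∀ (D k : ℝ) (x : ℝ) (N : ℤ), 1 ≤ D → 1 ≤ k → 9 / 10 ≤ x → (N : ℝ) ≤ 3 * E ^ 18 →
      |6 * D * q * k * x - Real.pi * Real.sqrt q * N| ≤ δ → 6 * D * q * k ≤ 12 * E ^ 22 := by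
    intro D k x N hD hk hx hN h
    have h5 := (abs_le.1 h).2
    have h6 : 6 * D * q * k * (9 / 10) ≤ 6 * D * q * k * x := by gcongr
    have h7 : Real.pi * Real.sqrt q * N ≤ 3.15 * E ^ 4 * (3 * E ^ 18) := by
      rw [hsq]
      calc Real.pi * E ^ 4 * N ≤ Real.pi * E ^ 4 * (3 * E ^ 18) := by gcongr
        _ ≤ 3.15 * E ^ 4 * (3 * E ^ 18) := by gcongr
    have h8 : (1 : ℝ) ≤ E ^ 22 := one_le_pow₀ hE1
    have h9 : 3.15 * E ^ 4 * (3 * E ^ 18) = 9.45 * E ^ 22 := by ring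
    linarith
  have hkE₁ := hkE D₁ k₁ _ N₁ hD₁0 hk₁0 hlα hN₁E hE₁'
  have hkE₂ := hkE D₂ k₂ _ N₂ hD₂0 hk₂0 hlβ hN₂E hE₂'
  -- the two integers
  obtain ⟨n₁, hn₁⟩ := Int.eq_ofNat_of_zero_le (by omega : 0 ≤ N₁)
  obtain ⟨n₂, hn₂⟩ := Int.eq_ofNat_of_zero_le (by omega : 0 ≤ N₂)
  subst hn₁
  subst hn₂
  simp only [Int.cast_natCast] at *
  have hn₁1 : 1 ≤ n₁ := by exact_mod_cast hN₁1
  have hn₂1 : 1 ≤ n₂ := by exact_mod_cast hN₂1
  have hqn : 1 ≤ q := by exact_mod_cast hq1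
  have hn₁0 : (0 : ℝ) ≤ n₁ := Nat.cast_nonneg _
  have hn₂0 : (0 : ℝ) ≤ n₂ := Nat.cast_nonneg _
  set B : ℝ := (q : ℝ) ^ 6 with hB
  have hBE : B = E ^ 48 := by rw [hB, ← hE8]; ring
  have hlogB : Real.log B = 6 * l := by
    rw [hB, Real.log_pow]
    push_cast
    rfl
  set H : ℝ := 31 * (l * Real.sqrt l) with hH
  have hsl : 11 ≤ Real.sqrt l := by
    rw [show (11 : ℝ) = Real.sqrt (11 ^ 2) by rw [Real.sqrt_sq (by norm_num)]]
    apply Real.sqrt_le_sqrt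
    linarith
  have hsl2 : Real.sqrt l * Real.sqrt l = l := Real.mul_self_sqrt hl0.le
  have hHup : ∀ D : ℝ, 1 ≤ D → D ≤ 100 * l ^ 2 → Real.sqrt D * (2 + Real.log D) ≤ H := by
    intro D h1D hD
    have h3 : Real.sqrt D ≤ 10 * l := by
      rw [show 10 * l = Real.sqrt ((10 * l) ^ 2) by rw [Real.sqrt_sq (by positivity)]]
      apply Real.sqrt_le_sqrt
      linarith
    have h4 : Real.log D ≤ Real.log 100 + 2 * Real.log l := by
      calc Real.log D ≤ Real.log (100 * l ^ 2) := Real.log_le_log (by linarith) hD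
        _ = _ := by
          rw [Real.log_mul (by norm_num) (by positivity), Real.log_pow]
          push_cast
          rfl
    have h5 : Real.log l = 2 * Real.log (Real.sqrt l) := by
      rw [Real.log_sqrt hl0.le]
      ring
    have h6 : Real.log (Real.sqrt l) ≤ Real.sqrt l / 4 - 1 + Real.log 4 := by
      have h7 := Real.log_le_sub_one_of_pos (x := Real.sqrt l / 4) (by linarith)
      rw [Real.log_div (by linarith) (by norm_num)] at h7
      linarith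
    have h8 : Real.log 4 ≤ 1.4 := by
      rw [show (4 : ℝ) = 2 ^ 2 by norm_num, Real.log_pow]
      have := Real.log_two_lt_d9
      push_cast
      linarith
    have h9 : Real.log 100 ≤ 5 := by
      rw [Real.log_le_iff_le_exp (by norm_num)]
      have h10 : Real.exp 5 = Real.exp 1 ^ 5 := by
        rw [← Real.exp_nat_mul]
        norm_num
      rw [h10]
      have h11 := Real.exp_one_gt_d9
      calc (100 : ℝ) ≤ 2.7182818283 ^ 5 := by norm_num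
        _ ≤ Real.exp 1 ^ 5 := by gcongr
    have h12 : 2 + Real.log D ≤ 3.1 * Real.sqrt l := by
      rw [h5] at h4
      linarith
    have h13 : 0 ≤ 2 + Real.log D := by
      have := Real.log_nonneg h1D
      linarith
    calc Real.sqrt D * (2 + Real.log D) ≤ (10 * l) * (3.1 * Real.sqrt l) := by gcongr
      _ = H := by rw [hH]; ring
  have hH1 : 1 ≤ H := by
    have h5 : 128 * 11 ≤ l * Real.sqrt l := by gcongr
    rw [hH]
    linarith
  have hHB : H ≤ B := by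
    have h3 : Real.sqrt l ≤ l := by
      calc Real.sqrt l = Real.sqrt l * 1 := (mul_one _).symm
        _ ≤ Real.sqrt l * Real.sqrt l := by
          have : 1 ≤ Real.sqrt l := by linarith
          gcongr
        _ = l := hsl2
    have h4 : H ≤ E := by
      have h5 : l * Real.sqrt l ≤ l * l := by gcongr
      rw [hH]
      have h6 : l * l = l ^ 2 := by ring
      have h7 : 0 ≤ l ^ 2 := by positivity
      linarith
    rw [hBE]
    calc H ≤ E ^ 1 := by linarith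
      _ ≤ E ^ 48 := pow_le_pow_right₀ hE1 (by norm_num)
  have hB1 : 1 ≤ B := by linarith
  have hlB : 10 ≤ Real.log B := by rw [hlogB]; linarith
  have hb₁ : ((6 * D₁ * q * k₁ * n₂ : ℕ) : ℝ) ≤ B := by
    push_cast
    rw [hBE]
    have h3 : (36 : ℝ) ≤ E ^ 8 := by
      calc (36 : ℝ) ≤ E ^ 1 := by linarith
        _ ≤ E ^ 8 := pow_le_pow_right₀ hE1 (by norm_num)
    calc 6 * (D₁ : ℝ) * q * k₁ * n₂ ≤ 12 * E ^ 22 * (3 * E ^ 18) := by gcongr
      _ = 36 * E ^ 40 := by ring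
      _ ≤ E ^ 8 * E ^ 40 := by gcongr
      _ = E ^ 48 := by ring
  have hb₂ : ((6 * D₂ * q * k₂ * n₁ : ℕ) : ℝ) ≤ B := by
    push_cast
    rw [hBE]
    have h3 : (36 : ℝ) ≤ E ^ 8 := by
      calc (36 : ℝ) ≤ E ^ 1 := by linarith
        _ ≤ E ^ 8 := pow_le_pow_right₀ hE1 (by norm_num)
    calc 6 * (D₂ : ℝ) * q * k₂ * n₁ ≤ 12 * E ^ 22 * (3 * E ^ 18) := by gcongr
      _ = 36 * E ^ 40 := by ring
      _ ≤ E ^ 8 * E ^ 40 := by gcongr
      _ = E ^ 48 := by ring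
  have hb₁1 : 1 ≤ 6 * D₁ * q * k₁ * n₂ := by
    have : 0 < 6 * D₁ * q * k₁ * n₂ := by positivity
    omega
  have hb₂1 : 1 ≤ 6 * D₂ * q * k₂ * n₁ := by
    have : 0 < 6 * D₂ * q * k₂ * n₁ := by positivity
    omega
  have hlow := two_log h1 h2 t u ht hu H B hH1 hHB hlB hB1 (hα.trans (hHup D₁ hD₁0 hD₁'))
    (hβ.trans (hHup D₂ hD₂0 hD₂'))
    (fun a b' ha hb' => indep h1 h2 t u b c D₁ D₂ ht hu hb hc hns a b' ha hb')
    (6 * D₁ * q * k₁ * n₂) (6 * D₂ * q * k₂ * n₁) hb₁1 hb₂1 hb₁ hb₂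
  have hup : |((6 * D₁ * q * k₁ * n₂ : ℕ) : ℝ) * Real.log α -
      ((6 * D₂ * q * k₂ * n₁ : ℕ) : ℝ) * Real.log β| ≤ Real.exp (6 * l - w) := by
    have e : ((6 * D₁ * q * k₁ * n₂ : ℕ) : ℝ) * Real.log α -
        ((6 * D₂ * q * k₂ * n₁ : ℕ) : ℝ) * Real.log β =
        n₂ * (6 * (D₁ : ℝ) * q * k₁ * Real.log α - Real.pi * Real.sqrt q * n₁) -
        n₁ * (6 * (D₂ : ℝ) * q * k₂ * Real.log β - Real.pi * Real.sqrt q * n₂) := by
      push_cast
      ring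
    rw [e]
    refine (abs_sub _ _).trans ?_
    rw [abs_mul, abs_mul, abs_of_nonneg hn₁0, abs_of_nonneg hn₂0]
    have hδ0 : 0 ≤ δ := by positivity
    calc (n₂ : ℝ) * |6 * (D₁ : ℝ) * q * k₁ * Real.log α - Real.pi * Real.sqrt q * n₁| +
          n₁ * |6 * (D₂ : ℝ) * q * k₂ * Real.log β - Real.pi * Real.sqrt q * n₂|
        ≤ (3 * E ^ 18) * δ + (3 * E ^ 18) * δ := by gcongr
      _ = 2064 * E ^ 36 * Real.exp (-w) := by rw [hδ]; ring
      _ ≤ E ^ 12 * E ^ 36 * Real.exp (-w) := by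
          have : (2064 : ℝ) ≤ E ^ 12 := by
            calc (2064 : ℝ) ≤ E ^ 1 := by linarith
              _ ≤ E ^ 12 := pow_le_pow_right₀ hE1 (by norm_num)
          gcongr
      _ = E ^ 48 * Real.exp (-w) := by ring
      _ = Real.exp (6 * l - w) := by
          rw [hEexp, ← Real.exp_add]
          congr 1
          push_cast
          ring
  have hfin := Real.exp_le_exp.1 (hlow.trans hup)
  rw [hlogB] at hfin
  have hH2 : H ^ 2 = 961 * l ^ 3 := by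
    rw [hH]
    calc (31 * (l * Real.sqrt l)) ^ 2 = 961 * l ^ 2 * (Real.sqrt l * Real.sqrt l) := by ring
      _ = 961 * l ^ 3 := by rw [hsl2]; ring
  rw [hH2] at hfin
  have h3 : w ≤ 6 * l + 1037880000000 * l ^ 5 := by
    have e : 3 * 10 ^ 7 * (961 * l ^ 3) * (6 * l) ^ 2 = 1037880000000 * l ^ 5 := by ring
    rw [e] at hfin
    linarith
  have h4 : 3.14 * 10 ^ 12 * l ^ 5 ≤ w := by
    rw [hw]
    gcongr
  have h5 : l ≤ l ^ 5 := by
    calc l = l ^ 1 := (pow_one l).symm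
      _ ≤ l ^ 5 := pow_le_pow_right₀ (by linarith) (by norm_num)
  have h6 : 0 < l ^ 5 := by positivity
  linarith

end Pool.OCG
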