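import Pool.Agent.OCG.Defs

/-!
# The sum of `1 / ((x + k D)² + v²)`

PAPER PROOF. `cot_series_rep'` (or `Mittag-Leffler`): `π cot (π z) = 1/z + ∑_{k ≥ 1} (1/(z + k) + 1/(z - k))`. With `z = (x + i v)/D` and
`z̄ = (x - i v)/D`: `1/((x + k D)² + v²) = (1/(2 i v)) (1/(x + k D - i v) - 1/(x + k D + i v))`, so the sum is
`(1/(2 i v D)) (π cot(π z̄) - π cot(π z)) = (π/(v D)) · (- Im cot (π z))` and `cot (π z) + i = 2 i /(1 - e^(-2π i z))`-like,
`|cot (π z) + i| ≤ 2 e^(-2π v/D) / (1 - e^(-2π v/D))` for `Im z = v/D > 0`. So the sum is `π/(v D) (1 + θ)` with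
`|θ| ≤ 2 e^(-w)/(1 - e^(-w)) ≤ 8 e^(-w)`, `w = 2 π v/D ≥ 2`. (Or Poisson summation / the closed form
`sinh w / (cosh w - cos (2 π x/D))`.)
-/

set_option autoImplicit false

namespace Pool.OCG

theorem cotS_im (ξ η t : ℝ) :
    (1 / (((ξ : ℂ) + η * Complex.I) + (t : ℂ))).im = -η * ((ξ + t) ^ 2 + η ^ 2)⁻¹ := by
  rw [one_div, Complex.inv_im]
  have h1 : ((ξ : ℂ) + η * Complex.I + t).im = η := by simp
  have h2 : Complex.normSq ((ξ : ℂ) + η * Complex.I + t) = (ξ + t) ^ 2 + η ^ 2 := by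
    rw [Complex.normSq_apply]
    simp
    ring
  rw [h1, h2]
  ring

theorem cotS_hasSum (ξ : ℝ) {η : ℝ} (hη : 0 < η) :
    HasSum (fun k : ℤ => ((ξ + k) ^ 2 + η ^ 2)⁻¹)
      (-(Real.pi / η) * (Complex.cot (Real.pi * ((ξ : ℂ) + η * Complex.I))).im) := by
  set z : ℂ := (ξ : ℂ) + η * Complex.I with hz
  have hzi : z.im = η := by simp [hz]
  have hzm : z ∈ Complex.integerComplement := by
    rintro ⟨n, hn⟩
    have := congrArg Complex.im hn
    rw [hzi] at this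
    simp at this
    exact hη.ne this
  set f : ℤ → ℝ := fun k : ℤ => ((ξ + k) ^ 2 + η ^ 2)⁻¹ with hf
  have hf0 : ∀ k, 0 ≤ f k := fun k => by positivity
  have h1 : HasSum (fun n : ℕ => 1 / (z - (n + 1)) + 1 / (z + (n + 1)))
      (Real.pi * Complex.cot (Real.pi * z) - 1 / z) := by
    rw [cot_series_rep' hzm]
    exact (summable_cotTerm hzm).hasSum
  have h2 := Complex.hasSum_im h1
  have h3 : ∀ n : ℕ, (1 / (z - (n + 1)) + 1 / (z + (n + 1))).im =
      -η * (f ((n : ℤ) + 1) + f (-((n : ℤ) + 1))) := by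
    intro n
    have e1 := cotS_im ξ η (-((n : ℝ) + 1))
    have e2 := cotS_im ξ η ((n : ℝ) + 1)
    have e3 : z - ((n : ℂ) + 1) = (ξ : ℂ) + η * Complex.I + ((-((n : ℝ) + 1) : ℝ) : ℂ) := by
      rw [hz]
      push_cast
      ring
    have e4 : z + ((n : ℂ) + 1) = (ξ : ℂ) + η * Complex.I + (((n : ℝ) + 1 : ℝ) : ℂ) := by
      rw [hz]
      push_cast
      ring
    rw [Complex.add_im, e3, e4, e1, e2]
    simp only [hf]
    push_cast
    ring
  simp only [h3] at h2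
  have h4 := h2.mul_left (-(1 / η))
  have hη' : η ≠ 0 := hη.ne'
  have h5 : HasSum (fun n : ℕ => f ((n : ℤ) + 1) + f (-((n : ℤ) + 1)))
      (-(1 / η) * (Real.pi * Complex.cot (Real.pi * z) - 1 / z).im) := by
    have e : (fun n : ℕ => f ((n : ℤ) + 1) + f (-((n : ℤ) + 1))) =
        (fun n : ℕ => -(1 / η) * (-η * (f ((n : ℤ) + 1) + f (-((n : ℤ) + 1))))) := by
      funext n
      field_simp
    rw [e]
    exact h4
  have h6 : Summable (fun n : ℕ => f ((n : ℤ) + 1)) :=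
    Summable.of_nonneg_of_le (fun n => hf0 _) (fun n => le_add_of_nonneg_right (hf0 _)) h5.summable
  have h7 : Summable (fun n : ℕ => f (-((n : ℤ) + 1))) :=
    Summable.of_nonneg_of_le (fun n => hf0 _) (fun n => le_add_of_nonneg_left (hf0 _)) h5.summable
  have h8 := h6.hasSum.of_add_one_of_neg_add_one h7.hasSum
  have h9 : (∑' n : ℕ, f ((n : ℤ) + 1)) + ∑' n : ℕ, f (-((n : ℤ) + 1)) =
      -(1 / η) * (Real.pi * Complex.cot (Real.pi * z) - 1 / z).im := by
    rw [← h6.tsum_add h7]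
    exact h5.tsum_eq
  have h10 : f 0 = -(1 / η) * (1 / z).im := by
    have e := cotS_im ξ η 0
    rw [Complex.ofReal_zero, add_zero, ← hz] at e
    rw [e]
    simp only [hf]
    push_cast
    field_simp
  have h11 : (∑' n : ℕ, f ((n : ℤ) + 1)) + f 0 + ∑' n : ℕ, f (-((n : ℤ) + 1)) =
      -(Real.pi / η) * (Complex.cot (Real.pi * z)).im := by
    have e : (∑' n : ℕ, f ((n : ℤ) + 1)) + f 0 + ∑' n : ℕ, f (-((n : ℤ) + 1)) =
      ((∑' n : ℕ, f ((n : ℤ) + 1)) + ∑' n : ℕ, f (-((n : ℤ) + 1))) + f 0 := by ring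
    rw [e, h9, h10, Complex.sub_im, Complex.im_ofReal_mul]
    ring
  rw [h11] at h8
  exact h8

theorem cotS_bound (ξ : ℝ) {η : ℝ} (hw : 2 ≤ 2 * Real.pi * η) :
    |(Complex.cot (Real.pi * ((ξ : ℂ) + η * Complex.I))).im + 1| ≤
      8 * Real.exp (-(2 * Real.pi * η)) := by
  set z : ℂ := (ξ : ℂ) + η * Complex.I with hz
  set q : ℂ := Complex.exp (2 * Real.pi * Complex.I * z) with hq
  set E : ℝ := Real.exp (-(2 * Real.pi * η)) with hE
  have hqn : ‖q‖ = E := by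
    rw [hq, Complex.norm_exp, hE]
    congr 1
    rw [hz]
    simp
  have hE1 : E ≤ 1 / 3 := by
    have h1 : E ≤ Real.exp (-2) := Real.exp_le_exp.2 (by linarith)
    have h2 : (3 : ℝ) ≤ Real.exp 2 := by
      have := Real.add_one_le_exp (2 : ℝ)
      linarith
    rw [Real.exp_neg] at h1
    have h3 : (Real.exp 2)⁻¹ ≤ 3⁻¹ := inv_anti₀ (by norm_num) h2
    linarith
  have hE0 : 0 < E := Real.exp_pos _
  have h1q : 1 - q ≠ 0 := by
    intro h
    rw [sub_eq_zero] at h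
    rw [← h, norm_one] at hqn
    linarith
  have h1 : Complex.cot (Real.pi * z) + Complex.I = 2 * q / (Complex.I * (1 - q)) := by
    rw [Complex.cot_pi_eq_exp_ratio, ← hq]
    have hI := Complex.I_ne_zero
    have hI2 := Complex.I_mul_I
    field_simp
    rw [Complex.I_sq]
    ring
  have h2 : |(Complex.cot (Real.pi * z)).im + 1| ≤ ‖Complex.cot (Real.pi * z) + Complex.I‖ := by
    have := Complex.abs_im_le_norm (Complex.cot (Real.pi * z) + Complex.I)
    simpa using this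
  refine h2.trans ?_
  rw [h1, norm_div, norm_mul, norm_mul, Complex.norm_I, one_mul, hqn, Complex.norm_ofNat]
  have h3 : 1 - E ≤ ‖1 - q‖ := by
    have := norm_sub_norm_le (1 : ℂ) q
    rw [norm_one, hqn] at this
    exact this
  rw [div_le_iff₀ (by linarith)]
  nlinarith

theorem cot_sum {v D : ℝ} (hv : 0 < v) (hD : 0 < D) (hw : 2 ≤ 2 * Real.pi * v / D) (x : ℝ) :
    |∑' k : ℤ, ((x + k * D) ^ 2 + v ^ 2)⁻¹ - Real.pi / (v * D)| ≤
      8 * Real.pi / (v * D) * Real.exp (-(2 * Real.pi * v / D)) := by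
  have h1 := cotS_hasSum (x / D) (div_pos hv hD)
  have h2 : ∀ k : ℤ, ((x + k * D) ^ 2 + v ^ 2)⁻¹ =
      (D ^ 2)⁻¹ * ((x / D + k) ^ 2 + (v / D) ^ 2)⁻¹ := by
    intro k
    rw [← mul_inv]
    congr 1
    field_simp
  have h3 := h1.mul_left ((D ^ 2)⁻¹)
  have h4 : ∑' k : ℤ, ((x + k * D) ^ 2 + v ^ 2)⁻¹ = (D ^ 2)⁻¹ *
      (-(Real.pi / (v / D)) * (Complex.cot (Real.pi * (((x / D : ℝ) : ℂ) + ((v / D : ℝ) : ℂ) * Complex.I))).im) := by
    rw [← h3.tsum_eq]
    exact tsum_congr h2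
  have h5 := cotS_bound (x / D) (η := v / D) (by rw [← mul_div_assoc]; exact hw)
  rw [h4]
  set C := (Complex.cot (Real.pi * (((x / D : ℝ) : ℂ) + ((v / D : ℝ) : ℂ) * Complex.I))).im
  have h6 : (D ^ 2)⁻¹ * (-(Real.pi / (v / D)) * C) - Real.pi / (v * D) =
      -(Real.pi / (v * D)) * (C + 1) := by
    field_simp
    ring
  have hpos : 0 < Real.pi / (v * D) := by positivity
  rw [h6, abs_mul, abs_neg, abs_of_pos hpos]
  calc Real.pi / (v * D) * |C + 1| ≤
      Real.pi / (v * D) * (8 * Real.exp (-(2 * Real.pi * (v / D)))) :=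
        mul_le_mul_of_nonneg_left h5 hpos.le
    _ = 8 * Real.pi / (v * D) * Real.exp (-(2 * Real.pi * v / D)) := by
        rw [← mul_div_assoc (2 * Real.pi) v D]
        ring

end Pool.OCG
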