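import Pool.Agent.OCG.Defs

/-!
# The character sum over a period of a row

PAPER PROOF. CRT: `jacobiSym n (r₁ r₂) = legendre n r₁ · legendre n r₂`, the sum over `x mod r₁ r₂` is the product of the sums over
`x mod r₁` and `x mod r₂`. For an odd prime `r` not dividing `q = 4 a c - b²`: if `r ∤ a`, `(4 a fm / r) = (fm / r)(a / r)`,
`4 a fm = (2 a x + b y)² + q y²`, and `∑_{u mod r} ((u² + q y²) / r)` is `-1` if `r ∤ y` (`q y² ≠ 0`: classical, count the solutions of
`w² - u² = q y²`: there are `r - 1`) and `r - 1` if `r ∣ y`. If `r ∣ a` then `r ∤ b` (`b² = 4 a c - q`), `fm = b x y + c y²` is `0` for `r ∣ y` and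
runs over all residues for `r ∤ y`: the sum is `0 = (a / r) (...)`. 
-/

set_option autoImplicit false

namespace Pool.OCG

section field

variable {F : Type} [Field F] [Fintype F] [DecidableEq F]

/-- number of solutions of `w² = u² + z` -/
theorem cyEq_card (h2 : (2 : F) ≠ 0) {z : F} (hz : z ≠ 0) :
    ((Finset.univ : Finset (F × F)).filter (fun p => p.2 ^ 2 = p.1 ^ 2 + z)).card
      = Fintype.card F - 1 := by
  have h1 : ((Finset.univ : Finset F).filter (fun t => t ≠ 0)).card = Fintype.card F - 1 := by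
    rw [Finset.filter_ne', Finset.card_erase_of_mem (Finset.mem_univ _), Finset.card_univ]
  rw [← h1]
  refine Finset.card_nbij' (fun p => p.2 + p.1) (fun t => ((t - z / t) / 2, (t + z / t) / 2)) ?_ ?_
    ?_ ?_
  · intro p hp
    simp only [Finset.coe_filter, Finset.mem_univ, true_and, Set.mem_ofPred_eq] at hp ⊢
    intro h0
    apply hz
    have h3 : p.2 = -p.1 := by linear_combination h0
    rw [h3] at hp
    linear_combination -hp
  · intro t ht
    simp only [Finset.coe_filter, Finset.mem_univ, true_and, Set.mem_ofPred_eq] at ht ⊢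
    field_simp
    ring
  · intro p hp
    simp only [Finset.coe_filter, Finset.mem_univ, true_and, Set.mem_ofPred_eq] at hp
    have hne : p.2 + p.1 ≠ 0 := by
      intro h0
      apply hz
      have h3 : p.2 = -p.1 := by linear_combination h0
      rw [h3] at hp
      linear_combination -hp
    have hq : z / (p.2 + p.1) = p.2 - p.1 := by
      rw [div_eq_iff hne]
      linear_combination -hp
    ext
    · simp only [hq]
      field_simp
      ring
    · simp only [hq]
      field_simp
      ring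
  · intro t ht
    have ht0 : t ≠ 0 := by simpa using ht
    simp only
    field_simp
    ring

theorem cyEq_shift (h2 : (2 : F) ≠ 0) {z : F} (hz : z ≠ 0) :
    ∑ u : F, quadraticChar F (u ^ 2 + z) = -1 := by
  have hF : ringChar F ≠ 2 := by
    intro h
    apply h2
    have h3 : ((ringChar F : ℕ) : F) = 0 := ringChar.Nat.cast_ringChar
    rw [h] at h3
    exact_mod_cast h3
  have h1 := cyEq_card h2 hz
  have h4 : (((Finset.univ : Finset (F × F)).filter (fun p => p.2 ^ 2 = p.1 ^ 2 + z)).card : ℤ)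
      = ∑ u : F, (quadraticChar F (u ^ 2 + z) + 1) := by
    rw [Finset.card_filter, ← Finset.univ_product_univ, Finset.sum_product]
    push_cast
    apply Finset.sum_congr rfl
    intro u _
    have h5 := quadraticChar_card_sqrts hF (u ^ 2 + z)
    rw [← h5, Finset.card_eq_sum_ones, Nat.cast_sum]
    have h6 : ({x : F | x ^ 2 = u ^ 2 + z} : Set F).toFinset
        = (Finset.univ : Finset F).filter (fun x => x ^ 2 = u ^ 2 + z) := by
      ext x
      simp
    rw [h6, Finset.sum_filter]
    simp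
  rw [h1, Finset.sum_add_distrib] at h4
  have h7 : 1 ≤ Fintype.card F := Fintype.card_pos
  rw [Nat.cast_sub h7] at h4
  simp only [Finset.sum_const, Finset.card_univ, nsmul_eq_mul, mul_one, Nat.cast_one] at h4
  linarith

theorem cyEq_local (h2 : (2 : F) ≠ 0) (a b c q y : F) (hq : 4 * a * c - b ^ 2 = q) (hq0 : q ≠ 0) :
    ∑ x : F, quadraticChar F (a * x ^ 2 + b * x * y + c * y ^ 2)
      = quadraticChar F a * ((if y = 0 then (Fintype.card F : ℤ) else 0) - 1) := by
  have hF : ringChar F ≠ 2 := by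
    intro h
    apply h2
    have h3 : ((ringChar F : ℕ) : F) = 0 := ringChar.Nat.cast_ringChar
    rw [h] at h3
    exact_mod_cast h3
  by_cases ha : a = 0
  · subst ha
    have hb : b ≠ 0 := by
      intro h
      apply hq0
      rw [← hq, h]
      ring
    rw [quadraticChar_zero, zero_mul]
    by_cases hy : y = 0
    · subst hy
      apply Finset.sum_eq_zero
      intro x _
      have : (0 : F) * x ^ 2 + b * x * 0 + c * 0 ^ 2 = 0 := by ring
      rw [this, quadraticChar_zero]
    · rw [← quadraticChar_sum_zero hF]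
      refine Fintype.sum_equiv
        ((Equiv.mulLeft₀ (b * y) (mul_ne_zero hb hy)).trans (Equiv.addRight (c * y ^ 2))) _ _ ?_
      intro x
      congr 1
      simp only [Equiv.trans_apply, Equiv.mulLeft₀_apply, Equiv.coe_addRight]
      ring
  · have h4a : (4 : F) * a ≠ 0 := by
      apply mul_ne_zero _ ha
      have : (4 : F) = 2 * 2 := by norm_num
      rw [this]
      exact mul_ne_zero h2 h2
    have hχa : quadraticChar F a * quadraticChar F a = 1 := by
      have := quadraticChar_sq_one ha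
      rwa [sq] at this
    have hχ4 : quadraticChar F (4 : F) = 1 := by
      have : (4 : F) = 2 ^ 2 := by norm_num
      rw [this]
      exact quadraticChar_sq_one' h2
    have h5 : ∀ x : F, quadraticChar F (a * x ^ 2 + b * x * y + c * y ^ 2)
        = quadraticChar F a * quadraticChar F ((2 * a * x + b * y) ^ 2 + q * y ^ 2) := by
      intro x
      have h6 : (2 * a * x + b * y) ^ 2 + q * y ^ 2
          = 4 * a * (a * x ^ 2 + b * x * y + c * y ^ 2) := by
        rw [← hq]
        ring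
      rw [h6, map_mul, map_mul, hχ4, one_mul, ← mul_assoc, hχa, one_mul]
    simp_rw [h5]
    rw [← Finset.mul_sum]
    congr 1
    have h7 : ∑ x : F, quadraticChar F ((2 * a * x + b * y) ^ 2 + q * y ^ 2)
        = ∑ u : F, quadraticChar F (u ^ 2 + q * y ^ 2) := by
      refine Fintype.sum_equiv
        ((Equiv.mulLeft₀ (2 * a) (mul_ne_zero h2 ha)).trans (Equiv.addRight (b * y))) _ _ ?_
      intro x
      simp only [Equiv.trans_apply, Equiv.mulLeft₀_apply, Equiv.coe_addRight]
    rw [h7]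
    by_cases hy : y = 0
    · subst hy
      rw [if_pos rfl]
      have h8 : ∀ u : F, quadraticChar F (u ^ 2 + q * 0 ^ 2) = if u = 0 then 0 else 1 := by
        intro u
        have h9 : u ^ 2 + q * 0 ^ 2 = u ^ 2 := by ring
        rw [h9]
        by_cases hu : u = 0
        · rw [if_pos hu, hu]
          simp
        · rw [if_neg hu]
          exact quadraticChar_sq_one' hu
      simp_rw [h8]
      rw [Finset.sum_ite, Finset.sum_const_zero, zero_add, Finset.sum_const, Finset.filter_ne',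
        Finset.card_erase_of_mem (Finset.mem_univ _), Finset.card_univ]
      have h7 : 1 ≤ Fintype.card F := Fintype.card_pos
      rw [nsmul_eq_mul, Nat.cast_sub h7]
      simp
    · rw [if_neg hy, cyEq_shift h2 (mul_ne_zero hq0 (pow_ne_zero 2 hy))]
      ring

end field

/-- the local factor as a function on `ZMod r` -/
noncomputable def cyLoc (r : ℕ) [Fact r.Prime] (a b c : ℤ) (y : ℕ) (x : ZMod r) : ℤ :=
  quadraticChar (ZMod r) (((a : ℤ) : ZMod r) * x ^ 2 + (b : ZMod r) * x * ((y : ℕ) : ZMod r)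
    + (c : ZMod r) * ((y : ℕ) : ZMod r) ^ 2)

theorem jacobi_cyLoc (r : ℕ) [Fact r.Prime] (a b c : ℤ) (y : ℕ) (x : ℕ) :
    jacobiSym (fm a b c x y) r = cyLoc r a b c y (x : ZMod r) := by
  rw [← jacobiSym.legendreSym.to_jacobiSym]
  unfold legendreSym cyLoc fm
  congr 1
  push_cast
  ring

theorem sum_cyLoc (r : ℕ) [Fact r.Prime] (hr : r ≠ 2) (a b c : ℤ) (q : ℕ)
    (hq : 4 * a * c - b ^ 2 = q) (hq1 : ¬ r ∣ q) (y : ℕ) :
    ∑ x : ZMod r, cyLoc r a b c y x = jacobiSym a r * ((if r ∣ y then (r : ℤ) else 0) - 1) := by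
  have hp : r.Prime := Fact.out
  have h2 : (2 : ZMod r) ≠ 0 := by
    intro h
    have h3 : ((2 : ℕ) : ZMod r) = 0 := by exact_mod_cast h
    rw [ZMod.natCast_eq_zero_iff] at h3
    exact hr ((Nat.prime_dvd_prime_iff_eq hp Nat.prime_two).1 h3)
  have hq0 : ((q : ℕ) : ZMod r) ≠ 0 := by
    rw [Ne, ZMod.natCast_eq_zero_iff]
    exact hq1
  have hq' : 4 * ((a : ℤ) : ZMod r) * ((c : ℤ) : ZMod r) - ((b : ℤ) : ZMod r) ^ 2
      = ((q : ℕ) : ZMod r) := by
    have := congrArg (fun n : ℤ => (n : ZMod r)) hq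
    push_cast at this
    exact this
  have h := cyEq_local (F := ZMod r) h2 (a : ZMod r) (b : ZMod r) (c : ZMod r) ((q : ℕ) : ZMod r)
    ((y : ℕ) : ZMod r) hq' hq0
  unfold cyLoc
  rw [h, ZMod.card, ← jacobiSym.legendreSym.to_jacobiSym]
  unfold legendreSym
  simp only [ZMod.natCast_eq_zero_iff]

theorem cy_eq (r₁ r₂ : ℕ) (hr₁ : r₁.Prime) (hr₂ : r₂.Prime) (h12 : r₁ ≠ r₂) (ho₁ : r₁ ≠ 2)
    (ho₂ : r₂ ≠ 2) (a b c : ℤ) (q : ℕ) (hq : 4 * a * c - b ^ 2 = q) (hq₁ : ¬ r₁ ∣ q)
    (hq₂ : ¬ r₂ ∣ q) (y : ℕ) :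
    cy (r₁ * r₂) a b c y = jacobiSym a (r₁ * r₂) * ((if r₁ ∣ y then (r₁ : ℤ) else 0) - 1) *
      ((if r₂ ∣ y then (r₂ : ℤ) else 0) - 1) := by
  have : Fact r₁.Prime := ⟨hr₁⟩
  have : Fact r₂.Prime := ⟨hr₂⟩
  have hco : Nat.Coprime r₁ r₂ := (Nat.coprime_primes hr₁ hr₂).2 h12
  have : NeZero r₁ := ⟨hr₁.ne_zero⟩
  have : NeZero r₂ := ⟨hr₂.ne_zero⟩
  have : NeZero (r₁ * r₂) := ⟨mul_ne_zero hr₁.ne_zero hr₂.ne_zero⟩
  have h1 : cy (r₁ * r₂) a b c y
      = ∑ z : ZMod (r₁ * r₂), cyLoc r₁ a b c y (ZMod.chineseRemainder hco z).1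
        * cyLoc r₂ a b c y (ZMod.chineseRemainder hco z).2 := by
    unfold cy
    refine Finset.sum_bij' (fun x _ => (x : ZMod (r₁ * r₂))) (fun z _ => z.val) ?_ ?_ ?_ ?_ ?_
    · intro x _
      exact Finset.mem_univ _
    · intro z _
      exact Finset.mem_range.2 (ZMod.val_lt z)
    · intro x hx
      exact ZMod.val_cast_of_lt (Finset.mem_range.1 hx)
    · intro z _
      exact ZMod.natCast_zmod_val z
    · intro x _
      rw [jacobiSym.mul_right, jacobi_cyLoc, jacobi_cyLoc, map_natCast]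
      rfl
  have h2 := Equiv.sum_comp (ZMod.chineseRemainder hco).toEquiv
    (fun p : ZMod r₁ × ZMod r₂ => cyLoc r₁ a b c y p.1 * cyLoc r₂ a b c y p.2)
  rw [h1]
  refine Eq.trans h2 ?_
  rw [← Finset.univ_product_univ, Finset.sum_product]
  simp_rw [← Finset.mul_sum]
  rw [← Finset.sum_mul, sum_cyLoc r₁ ho₁ a b c q hq hq₁ y, sum_cyLoc r₂ ho₂ a b c q hq hq₂ y,
    jacobiSym.mul_right]
  ring

end Pool.OCG
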