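import Mathlib

/-!
# One class per genus: definitions
-/

set_option autoImplicit false

open scoped NumberField nonZeroDivisors

namespace Pool.OCG

/-- Values at the primes of the quadratic character attached to the discriminant `d`. -/
def kp (d : ℤ) (p : ℕ) : ℤ :=
  if p = 2 then (if d % 8 = 1 then 1 else if d % 8 = 5 then -1 else 0) else jacobiSym d p

/-- The completely multiplicative function with the values `kp d p` at the primes. -/
def kap (d : ℤ) (n : ℕ) : ℤ := (n.primeFactorsList.map (kp d)).prod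

/-- The number of ideals of norm `n`. -/
noncomputable def rK (K : Type) [Field K] [NumberField K] (n : ℕ) : ℕ :=
  Nat.card {I : Ideal (𝓞 K) // Ideal.absNorm I = n}

/-- Dirichlet series at a real point. -/
noncomputable def LS (f : ℕ → ℝ) (s : ℝ) : ℝ := ∑' n : ℕ, f n * (n : ℝ) ^ (-s)

/-- The binary quadratic form. -/
def fm (a b c x y : ℤ) : ℤ := a * x ^ 2 + b * x * y + c * y ^ 2

/-- The row of height `y` of the twisted Epstein zeta function. -/
noncomputable def row (D : ℕ) (a b c : ℤ) (y : ℕ) (s : ℝ) : ℝ :=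
  ∑' x : ℤ, (jacobiSym (fm a b c x y) D : ℝ) * ((fm a b c x y : ℤ) : ℝ) ^ (-s)

/-- Sum of the character over a period of the row. -/
def cy (D : ℕ) (a b c : ℤ) (y : ℕ) : ℤ := ∑ x ∈ Finset.range D, jacobiSym (fm a b c x y) D

/-- The integral of `(u² + 1)^(-s)`. -/
noncomputable def Is (s : ℝ) : ℝ := ∫ u : ℝ, (u ^ 2 + 1) ^ (-s)

/-- The main term of the row of height `y`: `c(y)/D` times the integral of `fm(x,y)^(-s)` over
`x`, `q = 4ac - b²`. -/
noncomputable def rmain (D : ℕ) (a b c : ℤ) (q : ℕ) (y : ℕ) (s : ℝ) : ℝ :=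
  (cy D a b c y : ℝ) / D *
    ((a : ℝ) ^ (-s) * ((q : ℝ) * (y : ℝ) ^ 2 / (4 * (a : ℝ) ^ 2)) ^ (1 / 2 - s) * Is s)

/-- The matrix of the two logarithm theorem: rows are points `(r j, s j)`, columns are monomials
`X ^ kk i * Y ^ ll i`, `X = r b₂ + s b₁`, `Y = α ^ r β ^ s`. -/
noncomputable def tm {N : ℕ} (b₁ b₂ : ℕ) (α β : ℝ) (r s kk ll : Fin N → ℕ) :
    Matrix (Fin N) (Fin N) ℝ :=
  Matrix.of fun j i => ((r j : ℝ) * b₂ + s j * b₁) ^ kk i * (α ^ r j * β ^ s j) ^ ll i

end Pool.OCG
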