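import Pool.Agent.OCG.Defs
import Pool.Agent.Hhelper76.SC.FdDisc

/-!
# Existence of the quadratic fields

PAPER PROOF. `exists_real`: `k = QuadraticAlgebra ℚ D 0` (as in `exists_field` of `Pool/Agent/Hhelper76/CL/DiscCount.lean`; `D = r₁ r₂` is not a
square of a rational), `√D ∈ 𝓞 k`, so `n² discr k = 4 D` for some `n ≥ 1`; `D` is odd and square-free, so `n ∈ {1, 2}`, and
`n = 1` is impossible: `discr k = 4 D`, `exists_omega'`: `t² - 4 q = 4 D`, `t` even, `2ω - t = 2 x`, `x² = D`, `(1 + x) / 2` is integral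
(`((1 + x)/2)² - (1 + x)/2 + (1 - D)/4 = 0`) but not in `ℤ + ℤ ω` (`dvd_of_integral` of `FdDisc.lean` with `a = 2`).
`exists_imag`: `IsFd q` (`isFd_gen`), then `IsFd (D q)` (`D = r₁ r₂ ≡ 1 mod 4`, `r₁ ≠ r₂` odd primes not dividing `q`:
`D q ≡ q mod 4` for `q` odd; for `q = 4 m` the residue of `D m` mod `4` is that of `m`; no odd square divides), `exists_field_of_isFd`.
-/

set_option autoImplicit false

open scoped NumberField nonZeroDivisors

namespace Pool.OCG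

private theorem not_sq (r₁ r₂ : ℕ) (hr₁ : r₁.Prime) (hr₂ : r₂.Prime) (h12 : r₁ ≠ r₂) :
    ∀ n : ℕ, n ^ 2 ∣ r₁ * r₂ → n = 1 := by
  intro n hn
  by_contra hn1
  obtain ⟨p, hp, hpn⟩ := Nat.exists_prime_and_dvd hn1
  have h1 : p ^ 2 ∣ r₁ * r₂ := (pow_dvd_pow_of_dvd hpn 2).trans hn
  have h2 : p ∣ r₁ * r₂ := (dvd_pow_self p two_ne_zero).trans h1
  rcases (hp.dvd_mul).mp h2 with h3 | h3
  · have h4 : p = r₁ := (Nat.prime_dvd_prime_iff_eq hp hr₁).mp h3
    subst h4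
    rw [sq] at h1
    have h5 : p ∣ r₂ := Nat.dvd_of_mul_dvd_mul_left hp.pos h1
    exact h12 ((Nat.prime_dvd_prime_iff_eq hp hr₂).mp h5)
  · have h4 : p = r₂ := (Nat.prime_dvd_prime_iff_eq hp hr₂).mp h3
    subst h4
    rw [sq] at h1
    have h5 : p ∣ r₁ := Nat.dvd_of_mul_dvd_mul_right hp.pos h1
    exact h12 ((Nat.prime_dvd_prime_iff_eq hp hr₁).mp h5).symm

private theorem fact_pos (r₁ r₂ : ℕ) (hr₁ : r₁.Prime) (hr₂ : r₂.Prime) (h12 : r₁ ≠ r₂) :
    Fact (∀ r : ℚ, r ^ 2 ≠ ((r₁ * r₂ : ℕ) : ℚ) + 0 * r) := by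
  constructor
  intro r h
  have h1 : IsSquare (((r₁ * r₂ : ℕ) : ℚ)) := ⟨r, by rw [← sq, h]; ring⟩
  rw [Rat.isSquare_natCast_iff] at h1
  obtain ⟨a, ha⟩ := h1
  have h2 := not_sq r₁ r₂ hr₁ hr₂ h12 a ⟨1, by rw [ha]; ring⟩
  rw [h2] at ha
  have h3 := hr₁.two_le
  have h4 := hr₂.two_le
  nlinarith

theorem exists_real (r₁ r₂ : ℕ) (hr₁ : r₁.Prime) (hr₂ : r₂.Prime) (h12 : r₁ ≠ r₂)
    (hD : r₁ * r₂ % 4 = 1) :
    ∃ (k : Type) (_ : Field k) (_ : NumberField k), Module.finrank ℚ k = 2 ∧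
      NumberField.discr k = ((r₁ * r₂ : ℕ) : ℤ) := by
  classical
  have hf := fact_pos r₁ r₂ hr₁ hr₂ h12
  have hnsq := not_sq r₁ r₂ hr₁ hr₂ h12
  generalize r₁ * r₂ = d at hD hf hnsq
  let K : Type := QuadraticAlgebra ℚ (d : ℚ) 0
  let _ : Field K := inferInstanceAs (Field (QuadraticAlgebra ℚ (d : ℚ) 0))
  have _ : CharZero K := by
    infer_instance
  have h2 : Module.finrank ℚ K = 2 := QuadraticAlgebra.finrank_eq_two _ _
  have _ : FiniteDimensional ℚ K := Module.finite_of_finrank_pos (by rw [h2]; norm_num)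
  have _ : NumberField K := ⟨⟩
  have hnormK : ∀ z : K, Algebra.norm ℚ z = z.re ^ 2 - (d : ℚ) * z.im ^ 2 := by
    intro z
    have h1 : Algebra.norm ℚ z = QuadraticAlgebra.norm z := by
      rw [Algebra.norm_apply, ← QuadraticAlgebra.det_toLinearMap_eq_norm]
      rfl
    rw [h1, QuadraticAlgebra.norm_def]
    ring
  let w : K := (⟨0, 1⟩ : QuadraticAlgebra ℚ (d : ℚ) 0)
  have hw2 : w * w = ((d : ℕ) : K) := by
    apply QuadraticAlgebra.ext
    · change (0 : ℚ) * 0 + (d : ℚ) * 1 * 1 = ((d : ℕ) : QuadraticAlgebra ℚ (d : ℚ) 0).re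
      rw [QuadraticAlgebra.re_natCast]
      ring
    · change (0 : ℚ) * 1 + 1 * 0 + 0 * 1 * 1 = ((d : ℕ) : QuadraticAlgebra ℚ (d : ℚ) 0).im
      rw [QuadraticAlgebra.im_natCast]
      ring
  have hwint : IsIntegral ℤ w := by
    refine ⟨Polynomial.X ^ 2 + Polynomial.C (-(d : ℤ)), Polynomial.monic_X_pow_add_C _ two_ne_zero,
      ?_⟩
    rw [Polynomial.eval₂_add, Polynomial.eval₂_pow, Polynomial.eval₂_X, Polynomial.eval₂_C, sq, hw2]
    simp
  let s : 𝓞 K := ⟨w, hwint⟩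
  have hnorms : ∀ u v : ℤ, Algebra.norm ℤ ((u : 𝓞 K) + (v : 𝓞 K) * s) = u ^ 2 - d * v ^ 2 := by
    intro u v
    have h1 := Algebra.coe_norm_int ((u : 𝓞 K) + (v : 𝓞 K) * s)
    rw [hnormK] at h1
    have hre : (((((u : 𝓞 K) + (v : 𝓞 K) * s : 𝓞 K)) : K) : QuadraticAlgebra ℚ (d : ℚ) 0) =
        ⟨(u : ℚ), (v : ℚ)⟩ := by
      have h3 : ((((u : 𝓞 K) + (v : 𝓞 K) * s : 𝓞 K)) : K) = (u : K) + (v : K) * w := by
        push_cast
        rfl
      rw [h3]
      apply QuadraticAlgebra.ext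
      · change ((u : ℤ) : QuadraticAlgebra ℚ (d : ℚ) 0).re +
          (((v : ℤ) : QuadraticAlgebra ℚ (d : ℚ) 0).re * 0 + (d : ℚ) *
            (((v : ℤ) : QuadraticAlgebra ℚ (d : ℚ) 0).im) * 1) = _
        rw [QuadraticAlgebra.re_intCast, QuadraticAlgebra.re_intCast, QuadraticAlgebra.im_intCast]
        ring
      · change ((u : ℤ) : QuadraticAlgebra ℚ (d : ℚ) 0).im +
          (((v : ℤ) : QuadraticAlgebra ℚ (d : ℚ) 0).re * 1 +
            (((v : ℤ) : QuadraticAlgebra ℚ (d : ℚ) 0).im) * 0 + 0 *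
            (((v : ℤ) : QuadraticAlgebra ℚ (d : ℚ) 0).im) * 1) = _
        rw [QuadraticAlgebra.re_intCast, QuadraticAlgebra.im_intCast, QuadraticAlgebra.im_intCast]
        ring
    rw [hre] at h1
    simp only at h1
    exact_mod_cast h1
  obtain ⟨ω, t, q, hmul, hspan, hind, hnorm, hdisc⟩ := Pool.Hhelper76.SC.exists_omega' K h2
  obtain ⟨m, n, hmn⟩ := hspan s
  have key : ∀ u v : ℤ, u ^ 2 - d * v ^ 2 =
      (u + v * m) ^ 2 + t * (u + v * m) * (v * n) + q * (v * n) ^ 2 := by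
    intro u v
    rw [← hnorms u v, ← hnorm, hmn]
    congr 1
    push_cast
    ring
  have k1 := key 0 1
  have k2 := key 1 1
  have e1 : 2 * m + t * n = 0 := by linarith
  have e2 : m ^ 2 + t * m * n + q * n ^ 2 = -d := by linarith
  have e3 : n ^ 2 * NumberField.discr K = 4 * d := by
    rw [hdisc]
    linear_combination (t * n + 2 * m) * e1 - 4 * e2
  refine ⟨K, inferInstance, inferInstance, h2, ?_⟩
  -- `n = ± 1` or `± 2`
  have hpow : ∃ k, n.natAbs = 2 ^ k := by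
    rcases Nat.eq_two_pow_or_exists_odd_prime_and_dvd n.natAbs with h | ⟨p, hp, hpn, hodd⟩
    · exact h
    · exfalso
      have hp2 : p ≠ 2 := by
        rintro rfl
        exact absurd hodd (by decide)
      have h3 : p ^ 2 ∣ 4 * d := by
        have h4 : ((p ^ 2 : ℕ) : ℤ) ∣ n ^ 2 := by
          push_cast
          exact pow_dvd_pow_of_dvd (Int.natCast_dvd.mpr hpn) 2
        have h5 : ((p ^ 2 : ℕ) : ℤ) ∣ ((4 * d : ℕ) : ℤ) := by
          push_cast at h4 ⊢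
          rw [← e3]
          exact Dvd.dvd.mul_right h4 _
        exact_mod_cast h5
      have h4 : Nat.Coprime (p ^ 2) 4 := by
        have h5 : Nat.Coprime p 2 := (Nat.coprime_primes hp Nat.prime_two).2 hp2
        exact Nat.Coprime.pow 2 2 h5
      have h6 := hnsq p (h4.dvd_of_dvd_mul_left h3)
      exact hp.one_lt.ne' h6
  obtain ⟨k, hk⟩ := hpow
  have hn2 : n ^ 2 = (2 ^ k) ^ 2 := by
    rw [← Int.natAbs_sq, hk]
    push_cast
    rfl
  rw [hn2] at e3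
  rcases k with _ | _ | k
  · exfalso
    have h4 : t ^ 2 - 4 * q = 4 * d := by
      rw [← hdisc]; linarith
    rcases Int.even_or_odd' t with ⟨u, hu | hu⟩
    · have h5 : u ^ 2 - q = d := by rw [hu] at h4; linarith
      obtain ⟨c, hc⟩ : ∃ c : ℤ, 1 - (d : ℤ) = 4 * c := ⟨(1 - (d : ℤ)) / 4, by omega⟩
      have h3 := Pool.Hhelper76.SC.dvd_of_integral hspan hind (a := 2) (u := 1 - u) (v := 1)
        (b := -1) (c := c) (by norm_num) (by
          have hc' := congrArg (Int.cast (R := 𝓞 K)) hc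
          have h5' := congrArg (Int.cast (R := 𝓞 K)) h5
          rw [hu] at hmul
          push_cast at hc' h5' hmul ⊢
          linear_combination hmul - hc' + h5')
      omega
    · have h5 : (2 * u + 1) ^ 2 = 4 * (u ^ 2 + u) + 1 := by ring
      rw [hu, h5] at h4
      omega
  · have h4 : (4 : ℤ) * NumberField.discr K = 4 * d := by
      rw [← e3]; norm_num
    linarith
  · exfalso
    have h4 : ((2 : ℤ) ^ (k + 1 + 1)) ^ 2 = 16 * (2 ^ k) ^ 2 := by ring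
    rw [h4] at e3
    have h5 : (d : ℤ) = 4 * ((2 ^ k) ^ 2 * NumberField.discr K) := by linarith
    omega

theorem exists_imag (K : Type) [Field K] [NumberField K] (h2 : Module.finrank ℚ K = 2) (q : ℕ)
    (hq : 4 < q) (hK : NumberField.discr K = -(q : ℤ))
    (r₁ r₂ : ℕ) (hr₁ : r₁.Prime) (hr₂ : r₂.Prime) (h12 : r₁ ≠ r₂)
    (hD : r₁ * r₂ % 4 = 1) (hq₁ : ¬ r₁ ∣ q) (hq₂ : ¬ r₂ ∣ q) :
    ∃ (K' : Type) (_ : Field K') (_ : NumberField K'), Module.finrank ℚ K' = 2 ∧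
      NumberField.discr K' = -((r₁ * r₂ * q : ℕ) : ℤ) := by
  have hfd := Pool.Hhelper76.SC.isFd_gen K q h2 hK
  refine Pool.Hhelper76.SC.exists_field_of_isFd (r₁ * r₂ * q) ?_ ⟨?_, ?_⟩
  · have h3 := Nat.mul_pos hr₁.pos hr₂.pos
    nlinarith
  · have h1 := hfd.1
    generalize r₁ * r₂ = D at hD
    have h3 : D % 16 = 1 ∨ D % 16 = 5 ∨ D % 16 = 9 ∨ D % 16 = 13 := by omega
    rw [Nat.mul_mod]
    rcases h3 with h3 | h3 | h3 | h3 <;> rcases h1 with h1 | h1 | h1 | h1 | h1 | h1 <;>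
      rw [h3, h1] <;> decide
  · intro p hp hp2 hpD
    have hcop : ∀ r r' : ℕ, r.Prime → r'.Prime → r ≠ r' → ¬ r ∣ q → ¬ r ^ 2 ∣ r * r' * q := by
      intro r r' hr hr' hrr hrq h
      rw [sq, mul_assoc] at h
      have h3 : r ∣ r' * q := Nat.dvd_of_mul_dvd_mul_left hr.pos h
      rcases hr.dvd_mul.mp h3 with h4 | h4
      · exact hrr ((Nat.prime_dvd_prime_iff_eq hr hr').mp h4)
      · exact hrq h4
    by_cases h3 : p = r₁
    · rw [h3] at hpD
      exact hcop r₁ r₂ hr₁ hr₂ h12 hq₁ hpD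
    by_cases h4 : p = r₂
    · rw [h4, mul_comm r₁ r₂] at hpD
      exact hcop r₂ r₁ hr₂ hr₁ h12.symm hq₂ hpD
    have h5 : Nat.Coprime (p ^ 2) (r₁ * r₂) :=
      Nat.Coprime.mul_right (Nat.Coprime.pow_left 2 ((Nat.coprime_primes hp hr₁).mpr h3))
        (Nat.Coprime.pow_left 2 ((Nat.coprime_primes hp hr₂).mpr h4))
    exact hfd.2 p hp hp2 (h5.dvd_of_dvd_mul_left hpD)

end Pool.OCG
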