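import Pool.Agent.OCG.MainG

/-!
# Divisors near the square root for one class per genus: final form
-/

set_option autoImplicit false

open scoped NumberField nonZeroDivisors

namespace Pool.OCG

theorem trivial_range_six {x : ℝ} (hx : 3 ≤ x) (hl : Real.log x ≤ 128) :
    Real.sqrt x ≤ 10 ^ 14 * (Real.log x) ^ 6 * (4 + Real.log (Real.log x)) ^ 2 := by
  set l := Real.log x with hldef
  have hx0 : 0 < x := by linarith
  have hl1 : 1 ≤ l := by
    rw [hldef, Real.le_log_iff_exp_le hx0]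
    exact (Real.exp_one_lt_d9.le.trans (by norm_num)).trans hx
  have hll : 0 ≤ Real.log l := Real.log_nonneg hl1
  have hs : Real.sqrt x = Real.exp (l / 2) := by
    rw [Real.sqrt_eq_iff_mul_self_eq hx0.le (Real.exp_pos _).le, ← Real.exp_add]
    rw [add_halves, hldef, Real.exp_log hx0]
  have he : Real.exp 1 < 2.7182818286 := Real.exp_one_lt_d9
  have hexp : ∀ n : ℕ, Real.exp (n : ℝ) ≤ (2.7182818286 : ℝ) ^ n := by
    intro n
    have : Real.exp (n : ℝ) = Real.exp 1 ^ n := by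
      rw [← Real.exp_nat_mul, mul_one]
    rw [this]
    exact pow_le_pow_left₀ (Real.exp_pos _).le he.le n
  rw [hs]
  have key : ∀ (n : ℕ) (c e : ℝ), 0 ≤ c → c ≤ l → 0 ≤ e → e ≤ Real.log l → l ≤ 2 * n →
      (2.7182818286 : ℝ) ^ n ≤ 10 ^ 14 * c ^ 6 * (4 + e) ^ 2 →
      Real.exp (l / 2) ≤ 10 ^ 14 * l ^ 6 * (4 + Real.log l) ^ 2 := by
    intro n c e hc hcl he0 hel hln hn
    calc Real.exp (l / 2) ≤ Real.exp (n : ℝ) := Real.exp_le_exp.2 (by linarith)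
      _ ≤ _ := hexp n
      _ ≤ 10 ^ 14 * c ^ 6 * (4 + e) ^ 2 := hn
      _ ≤ 10 ^ 14 * l ^ 6 * (4 + Real.log l) ^ 2 := by
          have h1 := pow_le_pow_left₀ hc hcl 6
          have h2 : (4 + e) ^ 2 ≤ (4 + Real.log l) ^ 2 :=
            pow_le_pow_left₀ (by linarith) (by linarith) 2
          exact mul_le_mul (by linarith) h2 (by positivity) (by positivity)
  rcases le_or_gt l 64 with h1 | h1
  · exact key 32 1 0 zero_le_one hl1 le_rfl hll (by norm_num; exact h1) (by norm_num)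
  rcases le_or_gt l 100 with h2 | h2
  · exact key 50 64 0 (by norm_num) h1.le le_rfl hll (by norm_num; exact h2) (by norm_num)
  rcases le_or_gt l 120 with h3 | h3
  · exact key 60 100 0 (by norm_num) h2.le le_rfl hll (by norm_num; exact h3) (by norm_num)
  · refine key 64 120 4 (by norm_num) h3.le (by norm_num) ?_ (by norm_num; exact hl) (by norm_num)
    rw [Real.le_log_iff_exp_le (by linarith)]
    have := hexp 4
    norm_num at this
    linarith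

/-- The window for all `q`. -/
theorem main_all (K : Type) [Field K] [NumberField K] (h2 : Module.finrank ℚ K = 2) (q : ℕ)
    (hK : NumberField.discr K = -(q : ℤ)) (hexp : ∀ A : ClassGroup (𝓞 K), A ^ 2 = 1) :
    ∃ d : ℕ, d ∣ q ∧ d ^ 2 ≤ q ∧
      Real.sqrt q ≤ 10 ^ 14 * (Real.log q) ^ 6 * (4 + Real.log (Real.log q)) ^ 2 * d := by
  have hq3 : 3 ≤ q := by
    have h1 := discr_mod_four K h2
    have h0 : q ≠ 0 := by
      rintro rfl
      exact NumberField.discr_ne_zero K (by simpa using hK)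
    rw [hK] at h1
    omega
  have hq3' : (3 : ℝ) ≤ q := by exact_mod_cast hq3
  rcases le_or_gt (Real.log q) 128 with hl | hl
  · refine ⟨1, one_dvd _, by omega, ?_⟩
    have := trivial_range_six hq3' hl
    simpa using this
  obtain ⟨r₁, r₂, r₃, hp₁, hp₂, hp₃, h12, h13, h23, hq₁, hq₂, hq₃, hD₁, hD₂, hb₁, hb₂, hb₃⟩ :=
    exists_primes q hl.le
  obtain ⟨d, h3, h4, h5⟩ := main_gen K h2 q hK hexp r₁ r₂ r₃ hp₁ hp₂ hp₃ h12 h13 h23 hq₁ hq₂ hq₃
    hD₁ hD₂ (10 * Real.log q) hb₁ hb₂ hb₃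
  refine ⟨d, h3, h4, h5.trans ?_⟩
  set l := Real.log q with hldef
  have hl0 : 0 < l := by linarith
  have hlog : Real.log (10 * l) ≤ 3 + Real.log l := by
    rw [Real.log_mul (by norm_num) hl0.ne']
    have h10 : Real.log 10 ≤ 3 := by
      rw [Real.log_le_iff_le_exp (by norm_num)]
      have h1 : Real.exp (3 : ℝ) = Real.exp 1 ^ 3 := by
        rw [← Real.exp_nat_mul]; norm_num
      rw [h1]
      have h2 : (2.7182818283 : ℝ) < Real.exp 1 := Real.exp_one_gt_d9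
      have h3 := pow_le_pow_left₀ (by norm_num : (0 : ℝ) ≤ 2.7182818283) h2.le 3
      norm_num at h3 ⊢
      linarith
    linarith
  have hlog0 : 0 ≤ Real.log (10 * l) := Real.log_nonneg (by linarith)
  have h6 : (1 + Real.log (10 * l)) ^ 2 ≤ (4 + Real.log l) ^ 2 :=
    pow_le_pow_left₀ (by linarith) (by linarith) 2
  have h7 : (0 : ℝ) ≤ 10 ^ 14 * l ^ 6 * d := by positivity
  calc 10 ^ 10 * (10 * l) ^ 4 * (1 + Real.log (10 * l)) ^ 2 * l ^ 2 * d
      = (10 ^ 14 * l ^ 6 * d) * (1 + Real.log (10 * l)) ^ 2 := by ring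
    _ ≤ (10 ^ 14 * l ^ 6 * d) * (4 + Real.log l) ^ 2 := mul_le_mul_of_nonneg_left h6 h7
    _ = _ := by ring

/-- Final form: one divisor `d ≤ √q` with all the bounds. -/
theorem main_fin (K : Type) [Field K] [NumberField K] (h2 : Module.finrank ℚ K = 2) (q : ℕ)
    (hK : NumberField.discr K = -(q : ℤ)) (hexp : ∀ A : ClassGroup (𝓞 K), A ^ 2 = 1) :
    ∃ d : ℕ, d ∣ q ∧ d ^ 2 ≤ q ∧
      Real.sqrt q ≤ 10 ^ 14 * (Real.log q) ^ 6 * (4 + Real.log (Real.log q)) ^ 2 * d ∧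
      ∀ (r₁ r₂ r₃ : ℕ) (R : ℝ), r₁.Prime → r₂.Prime → r₃.Prime → r₁ ≠ r₂ → r₁ ≠ r₃ → r₂ ≠ r₃ →
        ¬ r₁ ∣ q → ¬ r₂ ∣ q → ¬ r₃ ∣ q → r₁ * r₂ % 4 = 1 → r₁ * r₃ % 4 = 1 →
        (r₁ : ℝ) ≤ R → (r₂ : ℝ) ≤ R → (r₃ : ℝ) ≤ R →
        Real.sqrt q ≤ 10 ^ 10 * R ^ 4 * (1 + Real.log R) ^ 2 * (Real.log q) ^ 2 * d := by
  classical
  have hq0 : 0 < q := by
    rcases Nat.eq_zero_or_pos q with h | h
    · subst h
      exact absurd (by simpa using hK) (NumberField.discr_ne_zero K)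
    · exact h
  have hl0 : 0 ≤ Real.log q := Real.log_natCast_nonneg q
  -- the largest divisor below the square root
  set S : Finset ℕ := q.divisors.filter (fun d => d ^ 2 ≤ q) with hS
  have hSne : S.Nonempty := ⟨1, by
    rw [hS, Finset.mem_filter, Nat.mem_divisors]
    exact ⟨⟨one_dvd _, hq0.ne'⟩, by omega⟩⟩
  have hmem : ∀ d, d ∣ q → d ^ 2 ≤ q → d ∈ S := by
    intro d h3 h4
    rw [hS, Finset.mem_filter, Nat.mem_divisors]
    exact ⟨⟨h3, hq0.ne'⟩, h4⟩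
  set D := S.max' hSne with hD
  have hDS : D ∈ S := S.max'_mem hSne
  rw [hS, Finset.mem_filter, Nat.mem_divisors] at hDS
  have hle : ∀ d, d ∣ q → d ^ 2 ≤ q → (d : ℝ) ≤ D := by
    intro d h3 h4
    exact_mod_cast S.le_max' d (hmem d h3 h4)
  refine ⟨D, hDS.1.1, hDS.2, ?_, ?_⟩
  · obtain ⟨d, h3, h4, h5⟩ := main_all K h2 q hK hexp
    refine h5.trans (mul_le_mul_of_nonneg_left (hle d h3 h4) (by positivity))
  · intro r₁ r₂ r₃ R hp₁ hp₂ hp₃ h12 h13 h23 hq₁ hq₂ hq₃ hD₁ hD₂ hb₁ hb₂ hb₃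
    obtain ⟨d, h3, h4, h5⟩ := main_gen K h2 q hK hexp r₁ r₂ r₃ hp₁ hp₂ hp₃ h12 h13 h23 hq₁ hq₂ hq₃
      hD₁ hD₂ R hb₁ hb₂ hb₃
    have hR : 0 ≤ R := (Nat.cast_nonneg r₁).trans hb₁
    refine h5.trans (mul_le_mul_of_nonneg_left (hle d h3 h4) (by positivity))

end Pool.OCG
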