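import Pool.Agent.OCG.RowEAux

/-!
# The error term of a row

PAPER PROOF. `q = 4 a c - b²`, `fm a b c x y = a ((x + β)² + v²)` with `β = b y / (2 a)`, `v² = q y² / (4 a²)`, positive. The character is
periodic in `x` mod `D` (`jacobiSym.mod_left`). Split `x = x₀ + k D`, `0 ≤ x₀ < D`: by `uni_sum` (multiplied by `a^(-s)`) each of
the `D` inner sums is `(1/D) a^(-s) v^(1 - 2s) Is s` up to `2 a^(-s) v^(-2s) = 2 (q y²/(4a))^(-s)`, and
`v^(1 - 2s) = (q y²/(4a²))^(1/2 - s)`. The weights are `jacobiSym (..) D ∈ {-1, 0, 1}`, their sum is `cy D a b c y`.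
-/

set_option autoImplicit false

namespace Pool.OCG

/-- Absolute convergence of the rows. -/
theorem row_summable {D : ℕ} (a b c : ℤ) (ha : 0 < a) (q : ℕ) (hq0 : 0 < q)
    (hq : 4 * a * c - b ^ 2 = q) (y : ℕ) (hy : 1 ≤ y) {s : ℝ} (hs : 1 ≤ s) :
    Summable (fun x : ℤ => (jacobiSym (fm a b c x y) D : ℝ) * ((fm a b c x y : ℤ) : ℝ) ^ (-s)) := by
  exact rowAux_summable a b c ha q hq0 hq y hy hs

theorem row_error {D : ℕ} (hD : 0 < D) (a b c : ℤ) (ha : 0 < a) (q : ℕ) (hq0 : 0 < q)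
    (hq : 4 * a * c - b ^ 2 = q) (y : ℕ) (hy : 1 ≤ y) {s : ℝ} (hs : 1 ≤ s) :
    |row D a b c y s - rmain D a b c q y s| ≤ 2 * D * ((q : ℝ) * (y : ℝ) ^ 2 / (4 * a)) ^ (-s) := by
  have ha' : (0 : ℝ) < a := by exact_mod_cast ha
  have hD' : (0 : ℝ) < D := by exact_mod_cast hD
  have hv := rowAux_pos ha hq0 hy
  set v : ℝ := Real.sqrt q * (y : ℝ) / (2 * a) with hvd
  have h1 := rowAux_bound hD a b c ha q hq0 hq y hy hs ((1 / D) * (v ^ (1 - 2 * s) * Is s))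
    (2 * v ^ (-(2 * s))) (fun x₀ => uni_sum hv hs x₀ D hD')
  have h2 : v ^ (1 - 2 * s) = ((q : ℝ) * (y : ℝ) ^ 2 / (4 * (a : ℝ) ^ 2)) ^ (1 / 2 - s) := by
    rw [← rowAux_sq ha q y, ← hvd, ← Real.rpow_natCast v 2, ← Real.rpow_mul hv.le]
    congr 1
    push_cast
    ring
  have h3 : rmain D a b c q y s =
      (cy D a b c y : ℝ) * ((a : ℝ) ^ (-s) * ((1 / D) * (v ^ (1 - 2 * s) * Is s))) := by
    unfold rmain
    rw [h2]
    field_simp
  have h4 : (a : ℝ) ^ (-s) * v ^ (-(2 * s)) = ((q : ℝ) * (y : ℝ) ^ 2 / (4 * a)) ^ (-s) := by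
    have h5 : (q : ℝ) * (y : ℝ) ^ 2 / (4 * a) = a * v ^ 2 := by
      rw [hvd, rowAux_sq ha q y]
      field_simp
    rw [h5, Real.mul_rpow ha'.le (by positivity), ← Real.rpow_natCast v 2, ← Real.rpow_mul hv.le]
    congr 2
    push_cast
    ring
  rw [h3]
  refine h1.trans (le_of_eq ?_)
  rw [← h4]
  ring

end Pool.OCG
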