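import Pool.Agent.OCG.RowE

/-!
# Continuity of a row and of its main term at `s = 1`

PAPER PROOF. `tendsto_tsum_of_dominated_convergence`: for `1 ≤ s` the terms are bounded by the terms at `s = 1`
(`fm a b c x y` is an integer `≥ 1` for `y ≥ 1`), which are summable (`row_summable`). `Is` is continuous from the right at `1`
(dominated convergence, `(u² + 1)^(-s) ≤ (u² + 1)⁻¹`).
-/

set_option autoImplicit false

open Filter Topology

namespace Pool.OCG

theorem rl_fm_pos (a b c : ℤ) (ha : 0 < a) (q : ℕ) (hq0 : 0 < q)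
    (hq : 4 * a * c - b ^ 2 = q) (y : ℕ) (hy : 1 ≤ y) (x : ℤ) : 1 ≤ fm a b c x y := by
  have h1 : 4 * a * fm a b c x y = (2 * a * x + b * y) ^ 2 + q * (y : ℤ) ^ 2 := by
    rw [← hq, fm]
    ring
  have h2 : 0 < 4 * a * fm a b c x y := by
    rw [h1]
    have : (0 : ℤ) < q * (y : ℤ) ^ 2 := by positivity
    nlinarith [sq_nonneg (2 * a * x + b * y)]
  have h3 : 0 < fm a b c x y := by
    by_contra h
    push Not at h
    nlinarith
  omega

theorem rl_Is : Tendsto Is (𝓝[>] 1) (𝓝 (Is 1)) := by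
  refine MeasureTheory.tendsto_integral_filter_of_dominated_convergence
    (fun u : ℝ => (u ^ 2 + 1) ^ (-(1 : ℝ))) ?_ ?_ (integrable_Is le_rfl) ?_
  · refine Eventually.of_forall fun s => ?_
    refine (Continuous.rpow_const (by fun_prop) fun u => Or.inl ?_).aestronglyMeasurable
    positivity
  · filter_upwards [self_mem_nhdsWithin] with s hs
    refine Eventually.of_forall fun u => ?_
    rw [Real.norm_of_nonneg (by positivity)]
    have : (1 : ℝ) < s := hs
    exact Real.rpow_le_rpow_of_exponent_le (by nlinarith [sq_nonneg u]) (by linarith)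
  · refine Eventually.of_forall fun u => ?_
    have h1 : Continuous fun s : ℝ => (u ^ 2 + 1) ^ (-s) :=
      Real.continuous_const_rpow (by positivity) |>.comp continuous_neg
    exact (h1.tendsto 1).mono_left nhdsWithin_le_nhds

theorem row_tendsto {D : ℕ} (hD : 0 < D) (a b c : ℤ) (ha : 0 < a) (q : ℕ) (hq0 : 0 < q)
    (hq : 4 * a * c - b ^ 2 = q) (y : ℕ) (hy : 1 ≤ y) :
    Tendsto (fun s : ℝ => row D a b c y s - rmain D a b c q y s) (𝓝[>] 1)
      (𝓝 (row D a b c y 1 - rmain D a b c q y 1)) := by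
  have hcont : ∀ z : ℝ, 0 < z → Continuous fun s : ℝ => z ^ (-s) := fun z hz =>
    (Real.continuous_const_rpow hz.ne').comp continuous_neg
  have hpos : ∀ x : ℤ, (1 : ℝ) ≤ ((fm a b c x y : ℤ) : ℝ) := fun x => by
    exact_mod_cast rl_fm_pos a b c ha q hq0 hq y hy x
  refine Tendsto.sub ?_ ?_
  · refine tendsto_tsum_of_dominated_convergence
      (bound := fun x : ℤ => ‖(jacobiSym (fm a b c x y) D : ℝ) *
        ((fm a b c x y : ℤ) : ℝ) ^ (-(1 : ℝ))‖)
      (row_summable (D := D) a b c ha q hq0 hq y hy le_rfl).norm ?_ ?_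
    · intro x
      have h1 := (hcont _ (zero_lt_one.trans_le (hpos x))).const_mul
        (jacobiSym (fm a b c x y) D : ℝ)
      exact (h1.tendsto 1).mono_left nhdsWithin_le_nhds
    · filter_upwards [self_mem_nhdsWithin] with s hs
      intro x
      have hs' : (1 : ℝ) < s := hs
      rw [norm_mul, norm_mul]
      refine mul_le_mul_of_nonneg_left ?_ (norm_nonneg _)
      rw [Real.norm_of_nonneg (Real.rpow_nonneg (zero_le_one.trans (hpos x)) _),
        Real.norm_of_nonneg (Real.rpow_nonneg (zero_le_one.trans (hpos x)) _)]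
      exact Real.rpow_le_rpow_of_exponent_le (hpos x) (by linarith)
  · have ha' : (0 : ℝ) < a := by exact_mod_cast ha
    have hq' : (0 : ℝ) < q := by exact_mod_cast hq0
    have hy' : (0 : ℝ) < y := by exact_mod_cast hy
    have hz : (0 : ℝ) < (q : ℝ) * (y : ℝ) ^ 2 / (4 * (a : ℝ) ^ 2) := by positivity
    refine Tendsto.mul tendsto_const_nhds (Tendsto.mul (Tendsto.mul ?_ ?_) rl_Is)
    · exact ((hcont _ ha').tendsto 1).mono_left nhdsWithin_le_nhds
    · have h1 : Continuous fun s : ℝ =>
          ((q : ℝ) * (y : ℝ) ^ 2 / (4 * (a : ℝ) ^ 2)) ^ (1 / 2 - s) :=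
        (Real.continuous_const_rpow hz.ne').comp (by fun_prop)
      exact (h1.tendsto 1).mono_left nhdsWithin_le_nhds

end Pool.OCG
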