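import Pool.Agent.OCG.RowEAux
import Pool.Agent.OCG.CotS

/-!
# The error term of a row at `s = 1`

PAPER PROOF. As `row_error`, with `cot_sum` instead of `uni_sum`: `fm a b c x y = a ((x + β)² + v²)`, `β = b y/(2a)`, `v = √q y/(2a)`, and
`2 π v / D = π √q y/(a D) ≥ 2`. Each of the `D` inner sums is `(1/a) π/(v D)` up to `(1/a) 8 π/(v D) e^(-w)`, so the total error is at most
`8 π/(a v) e^(-w) = 16 π/(√q y) e^(-w)`; `rmain` at `s = 1` is `(cy/D) a⁻¹ (v²)^(-1/2) π` (`Is_one`).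
-/

set_option autoImplicit false

namespace Pool.OCG

theorem row_one {D : ℕ} (hD : 0 < D) (a b c : ℤ) (ha : 0 < a) (q : ℕ) (hq0 : 0 < q)
    (hq : 4 * a * c - b ^ 2 = q) (y : ℕ) (hy : 1 ≤ y)
    (hw : 2 ≤ Real.pi * Real.sqrt q / (a * D)) :
    |row D a b c y 1 - rmain D a b c q y 1| ≤ 16 * Real.pi / (Real.sqrt q * y) *
      Real.exp (-(Real.pi * Real.sqrt q / (a * D) * y)) := by
  have ha' : (0 : ℝ) < a := by exact_mod_cast ha
  have hD' : (0 : ℝ) < D := by exact_mod_cast hD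
  have hq' : (0 : ℝ) < q := by exact_mod_cast hq0
  have hy' : (1 : ℝ) ≤ y := by exact_mod_cast hy
  have hy0 : (0 : ℝ) < y := by linarith
  have hsq := Real.sqrt_pos.2 hq'
  have hv := rowAux_pos ha hq0 hy
  set v : ℝ := Real.sqrt q * (y : ℝ) / (2 * a) with hvd
  have hvD : 2 * Real.pi * v / D = Real.pi * Real.sqrt q / (a * D) * y := by
    rw [hvd]
    field_simp
  have hw' : 2 ≤ 2 * Real.pi * v / D := by
    rw [hvD]
    calc (2 : ℝ) ≤ Real.pi * Real.sqrt q / (a * D) := hw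
      _ = Real.pi * Real.sqrt q / (a * D) * 1 := (mul_one _).symm
      _ ≤ _ := by gcongr
  have h1 := rowAux_bound hD a b c ha q hq0 hq y hy (le_refl (1 : ℝ)) (Real.pi / (v * D))
    (8 * Real.pi / (v * D) * Real.exp (-(2 * Real.pi * v / D))) (fun x₀ => by
      have h := cot_sum hv hD' hw' x₀
      simp only [Real.rpow_neg_one]
      exact h)
  have h2 : ((q : ℝ) * (y : ℝ) ^ 2 / (4 * (a : ℝ) ^ 2)) ^ (1 / 2 - (1 : ℝ)) = v⁻¹ := by
    rw [← rowAux_sq ha q y, ← hvd, ← Real.rpow_natCast v 2, ← Real.rpow_mul hv.le,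
      ← Real.rpow_neg_one v]
    congr 1
    push_cast
    ring
  have h3 : rmain D a b c q y 1 =
      (cy D a b c y : ℝ) * ((a : ℝ) ^ (-(1 : ℝ)) * (Real.pi / (v * D))) := by
    unfold rmain
    rw [h2, Is_one]
    field_simp
  rw [h3]
  refine h1.trans (le_of_eq ?_)
  rw [hvD, Real.rpow_neg_one, hvd]
  field_simp
  ring

end Pool.OCG
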