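import Pool.Agent.OCG.LId

/-!
# The limit of `F_D` at `1`

PAPER PROOF. `LS (rK k) s = dedekindZeta k s` (real part, or as complex numbers; the coefficients agree by definition),
`NumberField.tendsto_sub_one_mul_dedekindZeta_nhdsGT`: `(s - 1) LS (rK k) s → dedekindZeta_residue k` and the same for
`K'`; `(s - 1) LS 1 s → 1` (`riemannZeta_residue_one` or `tendsto_sub_mul_tsum_nat_rpow`). Multiply `main_id` by `(s - 1)²`.
-/

set_option autoImplicit false

open scoped NumberField nonZeroDivisors
open Filter Topology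

namespace Pool.OCG

theorem tendsto_zeta : Tendsto (fun s : ℝ => (s - 1) * LS (fun _ => 1) s) (𝓝[>] 1) (𝓝 1) := by
  refine tendsto_sub_mul_tsum_nat_rpow.congr fun s => ?_
  congr 1
  unfold LS
  refine tsum_congr fun n => ?_
  rw [Real.rpow_neg (Nat.cast_nonneg n), one_mul, one_div]

private theorem llim_zeta_eq (k : Type) [Field k] [NumberField k] {s : ℝ} (hs : 1 < s) :
    NumberField.dedekindZeta k (s : ℂ) = ((LS (fun n => (rK k n : ℝ)) s : ℝ) : ℂ) := by
  unfold NumberField.dedekindZeta LSeries LS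
  rw [Complex.ofReal_tsum]
  refine tsum_congr fun n => ?_
  rcases Nat.eq_zero_or_pos n with rfl | hn
  · rw [LSeries.term_zero, Nat.cast_zero, Real.zero_rpow (by linarith), mul_zero,
      Complex.ofReal_zero]
  · rw [LSeries.term_of_ne_zero hn.ne', Real.rpow_neg (Nat.cast_nonneg n), Complex.ofReal_mul,
      Complex.ofReal_inv, Complex.ofReal_cpow (Nat.cast_nonneg n), Complex.ofReal_natCast,
      Complex.ofReal_natCast, div_eq_mul_inv]
    rfl

theorem tendsto_rK (k : Type) [Field k] [NumberField k] :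
    Tendsto (fun s : ℝ => (s - 1) * LS (fun n => (rK k n : ℝ)) s) (𝓝[>] 1)
      (𝓝 (NumberField.dedekindZeta_residue k)) := by
  rw [← Filter.tendsto_ofReal_iff]
  refine (NumberField.tendsto_sub_one_mul_dedekindZeta_nhdsGT k).congr' ?_
  filter_upwards [self_mem_nhdsWithin] with s hs
  rw [llim_zeta_eq k hs, Complex.ofReal_mul, Complex.ofReal_sub, Complex.ofReal_one]

theorem main_lim (K : Type) [Field K] [NumberField K] (h2 : Module.finrank ℚ K = 2)
    (D q : ℕ) (hD : D % 4 = 1) (hK : NumberField.discr K = -(q : ℤ))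
    (k : Type) [Field k] [NumberField k] (hk2 : Module.finrank ℚ k = 2)
    (hk : NumberField.discr k = (D : ℤ))
    (K' : Type) [Field K'] [NumberField K'] (hK2' : Module.finrank ℚ K' = 2)
    (hK' : NumberField.discr K' = -((D * q : ℕ) : ℤ)) :
    Tendsto (fun s : ℝ => LS (fun n => (kap D n : ℝ) * rK K n) s) (𝓝[>] 1)
      (𝓝 (NumberField.dedekindZeta_residue k * NumberField.dedekindZeta_residue K')) := by
  have h1 := ((tendsto_rK k).mul (tendsto_rK K')).div (tendsto_zeta.pow 2)
    (by norm_num : (1 : ℝ) ^ 2 ≠ 0)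
  rw [one_pow, div_one] at h1
  refine h1.congr' ?_
  have hne : ∀ᶠ s : ℝ in 𝓝[>] 1, (s - 1) * LS (fun _ => 1) s ≠ 0 :=
    tendsto_zeta.eventually_ne one_ne_zero
  filter_upwards [self_mem_nhdsWithin, hne] with s hs hs2
  have hid := main_id K h2 D q hD hK k hk2 hk K' hK2' hK' (s := s) hs
  simp only [Pi.div_apply]
  rw [div_eq_iff (pow_ne_zero 2 hs2)]
  linear_combination (-(s - 1) ^ 2) * hid

end Pool.OCG
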