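import Pool.Agent.OCG.Defs

/-!
# Sums of unimodal functions

PAPER PROOF. `f(u) = (u² + v²)^(-s)` increases on `(-∞, 0]` and decreases on `[0, ∞)`, with maximum `v^(-2s)`. For a progression
`x₀ + k D` compare each term with the integral over the neighbouring interval of length `D`: the terms at points `≥ 0`,
except the first one, satisfy `D f(u) ≤ ∫_{u-D}^{u} f`, all of them `D f(u) ≥ ∫_u^{u+D} f`, and symmetrically for the points `≤ 0`; so
`|∑ f(x₀ + k D) - (1/D) ∫ f| ≤ 2 max f` (in fact `≤ max f`). (`AntitoneOn.sum_le_integral`, `AntitoneOn.integral_le_sum`,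
limits.) Integral: substitution `u = v w`, `∫ (u² + v²)^(-s) du = v^(1 - 2 s) Is s`.
-/

set_option autoImplicit false

namespace Pool.OCG

open MeasureTheory

/-- Comparison of a telescoping series. -/
theorem uni_tele (a G : ℕ → ℝ) (ha : ∀ n, 0 ≤ a n) (hG : ∀ n, 0 ≤ G n)
    (h : ∀ n, a n ≤ G n - G (n + 1)) : Summable a ∧ 0 ≤ ∑' n, a n ∧ ∑' n, a n ≤ G 0 := by
  have h1 : ∀ n, ∑ i ∈ Finset.range n, a i ≤ G 0 := by
    intro n
    calc ∑ i ∈ Finset.range n, a i ≤ ∑ i ∈ Finset.range n, (G i - G (i + 1)) :=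
          Finset.sum_le_sum fun i _ => h i
      _ = G 0 - G n := Finset.sum_range_sub' _ _
      _ ≤ G 0 := by linarith [hG n]
  exact ⟨summable_of_sum_range_le ha h1, tsum_nonneg ha, Real.tsum_le_of_sum_range_le ha h1⟩

/-- Sum and integral of a unimodal function with mode in `[0, 1)`. -/
theorem uni_gen (F : ℝ → ℝ) (M t₀ : ℝ) (hF : Integrable F) (h0 : ∀ t, 0 ≤ F t)
    (hM : ∀ t, F t ≤ M) (ht0 : 0 ≤ t₀) (ht1 : t₀ < 1) (hmon : MonotoneOn F (Set.Iic t₀))
    (hanti : AntitoneOn F (Set.Ici t₀)) :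
    Summable (fun k : ℤ => F k) ∧ |∑' k : ℤ, F k - ∫ t, F t| ≤ 2 * M := by
  set I : ℤ → ℝ := fun k => ∫ t in (k : ℝ)..(k + 1), F t with hI
  have hIs : HasSum I (∫ t, F t) := by
    have := hF.hasSum_intervalIntegral 0
    simpa only [zero_add] using this
  have hint : ∀ a b : ℝ, IntervalIntegrable F volume a b := fun a b => hF.intervalIntegrable
  have hIle : ∀ (k : ℤ) (C : ℝ), (∀ t ∈ Set.Icc (k : ℝ) (k + 1), F t ≤ C) → I k ≤ C := by
    intro k C h
    have h1 : I k ≤ ∫ _t in (k : ℝ)..(k + 1), C :=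
      intervalIntegral.integral_mono_on (by linarith) (hint _ _) intervalIntegrable_const h
    rw [intervalIntegral.integral_const, smul_eq_mul] at h1
    linarith
  have hIge : ∀ (k : ℤ) (C : ℝ), (∀ t ∈ Set.Icc (k : ℝ) (k + 1), C ≤ F t) → C ≤ I k := by
    intro k C h
    have h1 : ∫ _t in (k : ℝ)..(k + 1), C ≤ I k :=
      intervalIntegral.integral_mono_on (by linarith) intervalIntegrable_const (hint _ _) h
    rw [intervalIntegral.integral_const, smul_eq_mul] at h1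
    linarith
  have hpos : ∀ k : ℤ, 1 ≤ k → F (k + 1) ≤ I k ∧ I k ≤ F k := by
    intro k hk
    have hk' : (1 : ℝ) ≤ k := by exact_mod_cast hk
    refine ⟨hIge k _ fun t ht => ?_, hIle k _ fun t ht => ?_⟩
    · exact hanti (show t₀ ≤ t by linarith [ht.1]) (show t₀ ≤ (k : ℝ) + 1 by linarith) ht.2
    · exact hanti (show t₀ ≤ (k : ℝ) by linarith) (show t₀ ≤ t by linarith [ht.1]) ht.1
  have hneg : ∀ k : ℤ, k + 1 ≤ 0 → F k ≤ I k ∧ I k ≤ F (k + 1) := by
    intro k hk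
    have hk' : (k : ℝ) + 1 ≤ 0 := by exact_mod_cast hk
    refine ⟨hIge k _ fun t ht => ?_, hIle k _ fun t ht => ?_⟩
    · exact hmon (show (k : ℝ) ≤ t₀ by linarith) (show t ≤ t₀ by linarith [ht.2]) ht.1
    · exact hmon (show t ≤ t₀ by linarith [ht.2]) (show (k : ℝ) + 1 ≤ t₀ by linarith) ht.2
  obtain ⟨s1, s2, s3⟩ := uni_tele (fun n : ℕ => F ((n : ℤ) + 1 : ℤ) - I ((n : ℤ) + 1))
    (fun n : ℕ => F ((n : ℤ) + 1 : ℤ))
    (fun n => sub_nonneg.2 (hpos _ (by omega)).2) (fun n => h0 _)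
    (fun n => by
      have := (hpos ((n : ℤ) + 1) (by omega)).1
      push_cast at this ⊢
      linarith)
  obtain ⟨r1, r2, r3⟩ := uni_tele (fun n : ℕ => I (-((n : ℤ) + 1)) - F (-((n : ℤ) + 1) : ℤ))
    (fun n : ℕ => F (-(n : ℤ) : ℤ))
    (fun n => sub_nonneg.2 (hneg _ (by omega)).1) (fun n => h0 _)
    (fun n => by
      have := (hneg (-((n : ℤ) + 1)) (by omega)).2
      push_cast at this ⊢
      have e : (-((n : ℝ) + 1) + 1) = -(n : ℝ) := by ring
      rw [e] at this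
      linarith)
  have d0 : F 0 - M ≤ F 0 - I 0 ∧ F 0 - I 0 ≤ F 0 := by
    have h1 := hIle 0 M fun t _ => hM t
    have h2 := hIge 0 0 fun t _ => h0 t
    constructor <;> linarith
  set D : ℤ → ℝ := fun k => F k - I k with hD
  have hDn : Summable (fun n : ℕ => D n) := by
    rw [← summable_nat_add_iff 1]
    refine s1.congr fun n => ?_
    rw [hD]
    push_cast
    rfl
  have hDm : Summable (fun n : ℕ => D (-(n + 1))) := by
    refine r1.neg.congr fun n => ?_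
    rw [hD]
    simp only
    ring
  have hDs : Summable D := Summable.of_nat_of_neg_add_one hDn hDm
  have hDt : ∑' k, D k = (∑' n : ℕ, D n) + ∑' n : ℕ, D (-(n + 1)) :=
    tsum_of_nat_of_neg_add_one hDn hDm
  have e1 : ∑' n : ℕ, D n = (F 0 - I 0) + ∑' n : ℕ, (F ((n : ℤ) + 1 : ℤ) - I ((n : ℤ) + 1)) := by
    rw [hDn.tsum_eq_zero_add, hD]
    simp only [Nat.cast_zero, Int.cast_zero, Nat.cast_add, Nat.cast_one]
  have e2 : ∑' n : ℕ, D (-(n + 1)) =
      -∑' n : ℕ, (I (-((n : ℤ) + 1)) - F (-((n : ℤ) + 1) : ℤ)) := by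
    rw [← tsum_neg]
    refine tsum_congr fun n => ?_
    rw [hD]
    simp only
    ring
  have hFs : Summable (fun k : ℤ => F k) := by
    refine (hDs.add hIs.summable).congr fun k => ?_
    rw [hD]
    simp only
    ring
  refine ⟨hFs, ?_⟩
  have e3 : ∑' k : ℤ, F k - ∫ t, F t = ∑' k, D k := by
    rw [← hIs.tsum_eq, ← hFs.tsum_sub hIs.summable]
  rw [e3, hDt, e1, e2, abs_le]
  have m0 := hM 0
  have m1 := hM ((0 : ℕ) + 1 : ℤ)
  have m2 := hM (-(0 : ℕ) : ℤ)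
  have m3 := h0 0
  have e4 : F (-((0 : ℕ) : ℤ) : ℤ) = F 0 := by simp
  rw [e4] at r3
  have e5 : F ((((0 : ℕ) : ℤ) + 1 : ℤ) : ℝ) = F 1 := by simp
  rw [e5] at s3 m1
  constructor
  · linarith [d0.1, d0.2]
  · linarith [d0.1, d0.2]

theorem integrable_Is {s : ℝ} (hs : 1 ≤ s) : Integrable (fun u : ℝ => (u ^ 2 + 1) ^ (-s)) := by
  refine (integrable_inv_one_add_sq).mono' ?_ (Filter.Eventually.of_forall fun u => ?_)
  · refine (Continuous.rpow_const (by fun_prop) fun u => Or.inl ?_).aestronglyMeasurable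
    positivity
  · rw [Real.norm_of_nonneg (by positivity), ← Real.rpow_neg_one, add_comm (1 : ℝ)]
    exact Real.rpow_le_rpow_of_exponent_le (by nlinarith [sq_nonneg u]) (by linarith)

theorem uni_scale {v s : ℝ} (hv : 0 < v) (x₀ D t : ℝ) :
    ((x₀ + t * D) ^ 2 + v ^ 2) ^ (-s) =
      v ^ (-(2 * s)) * (((D / v) * t + x₀ / v) ^ 2 + 1) ^ (-s) := by
  have h1 : (x₀ + t * D) ^ 2 + v ^ 2 = v ^ (2 : ℝ) * (((D / v) * t + x₀ / v) ^ 2 + 1) := by
    rw [Real.rpow_two]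
    field_simp
    ring
  rw [h1, Real.mul_rpow (by positivity) (by positivity), ← Real.rpow_mul hv.le]
  congr 2
  ring

theorem uni_int {v s : ℝ} (hv : 0 < v) (hs : 1 ≤ s) (x₀ D : ℝ) (hD : 0 < D) :
    Integrable (fun t : ℝ => ((x₀ + t * D) ^ 2 + v ^ 2) ^ (-s)) ∧
      ∫ t : ℝ, ((x₀ + t * D) ^ 2 + v ^ 2) ^ (-s) = (1 / D) * (v ^ (1 - 2 * s) * Is s) := by
  have hDv : D / v ≠ 0 := (div_pos hD hv).ne'
  constructor
  · have h1 := ((integrable_Is hs).comp_add_right (x₀ / v)).comp_mul_left' hDv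
    refine (h1.const_mul (v ^ (-(2 * s)))).congr (Filter.Eventually.of_forall fun t => ?_)
    exact (uni_scale hv x₀ D t).symm
  · simp_rw [uni_scale hv x₀ D]
    rw [integral_const_mul,
      Measure.integral_comp_mul_left (fun t => ((t + x₀ / v) ^ 2 + 1) ^ (-s)) (D / v),
      integral_add_right_eq_self (fun t : ℝ => (t ^ 2 + 1) ^ (-s)) (x₀ / v), smul_eq_mul, Is,
      inv_div, abs_of_pos (div_pos hv hD)]
    have h2 : v ^ (1 - 2 * s) = v * v ^ (-(2 * s)) := by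
      rw [sub_eq_add_neg, Real.rpow_add hv, Real.rpow_one]
    rw [h2]
    ring

theorem uni_all {v s : ℝ} (hv : 0 < v) (hs : 1 ≤ s) (x₀ D : ℝ) (hD : 0 < D) :
    Summable (fun k : ℤ => ((x₀ + k * D) ^ 2 + v ^ 2) ^ (-s)) ∧
    |∑' k : ℤ, ((x₀ + k * D) ^ 2 + v ^ 2) ^ (-s) - (1 / D) * (v ^ (1 - 2 * s) * Is s)| ≤
      2 * v ^ (-(2 * s)) := by
  set m : ℤ := ⌊-x₀ / D⌋ with hm
  set y₀ : ℝ := x₀ + m * D with hy
  set F : ℝ → ℝ := fun t => ((y₀ + t * D) ^ 2 + v ^ 2) ^ (-s) with hF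
  obtain ⟨hi1, hi2⟩ := uni_int hv hs y₀ D hD
  have hD0 : D ≠ 0 := hD.ne'
  have hmono : ∀ a b : ℝ, a ^ 2 ≤ b ^ 2 → (b ^ 2 + v ^ 2) ^ (-s) ≤ (a ^ 2 + v ^ 2) ^ (-s) := by
    intro a b h
    exact Real.rpow_le_rpow_of_nonpos (by positivity) (by linarith) (by linarith)
  have ht0 : y₀ = -((-x₀ / D - m) * D) := by
    rw [hy]
    field_simp
    ring
  have hfl1 : 0 ≤ -x₀ / D - m := sub_nonneg.2 (Int.floor_le _)
  have hfl2 : -x₀ / D - m < 1 := by
    have := Int.lt_floor_add_one (-x₀ / D)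
    linarith
  have hg := uni_gen F (v ^ (-(2 * s))) (-x₀ / D - m) hi1 (fun t => by positivity)
    (fun t => by
      have h1 := hmono 0 (y₀ + t * D) (by nlinarith [sq_nonneg (y₀ + t * D)])
      refine h1.trans (le_of_eq ?_)
      rw [← Real.rpow_two, ← Real.rpow_two, Real.zero_rpow (by norm_num), zero_add,
        ← Real.rpow_mul hv.le]
      congr 1
      ring) hfl1 hfl2
    (fun t ht t' ht' htt => by
      refine hmono _ _ ?_
      have h1 : y₀ + t * D ≤ y₀ + t' * D := by nlinarith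
      have h2 : y₀ + t' * D ≤ 0 := by
        rw [ht0]
        have : t' ≤ -x₀ / D - m := ht'
        nlinarith
      nlinarith)
    (fun t ht t' ht' htt => by
      refine hmono _ _ ?_
      have h1 : y₀ + t * D ≤ y₀ + t' * D := by nlinarith
      have h2 : 0 ≤ y₀ + t * D := by
        rw [ht0]
        have : -x₀ / D - m ≤ t := ht
        nlinarith
      nlinarith)
  have hshift : ∀ k : ℤ, F k = ((x₀ + ((k + m : ℤ) : ℝ) * D) ^ 2 + v ^ 2) ^ (-s) := by
    intro k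
    rw [hF, hy]
    push_cast
    congr 3
    ring
  obtain ⟨g1, g2⟩ := hg
  rw [hi2] at g2
  have e1 : (fun k : ℤ => F k) =
      (fun k : ℤ => ((x₀ + (k : ℝ) * D) ^ 2 + v ^ 2) ^ (-s)) ∘ (Equiv.addRight m) := by
    funext k
    rw [hshift]
    rfl
  constructor
  · rw [e1] at g1
    exact (Equiv.summable_iff (Equiv.addRight m)).1 g1
  · rw [← (Equiv.addRight m).tsum_eq (fun k : ℤ => ((x₀ + (k : ℝ) * D) ^ 2 + v ^ 2) ^ (-s))]
    have e2 : ∑' k : ℤ, F k = ∑' k : ℤ, ((x₀ + (((Equiv.addRight m) k : ℤ) : ℝ) * D) ^ 2 +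
        v ^ 2) ^ (-s) := tsum_congr fun k => hshift k
    rw [← e2]
    exact g2

theorem summable_uni {v s : ℝ} (hv : 0 < v) (hs : 1 ≤ s) (x₀ D : ℝ) (hD : 0 < D) :
    Summable (fun k : ℤ => ((x₀ + k * D) ^ 2 + v ^ 2) ^ (-s)) :=
  (uni_all hv hs x₀ D hD).1

theorem uni_sum {v s : ℝ} (hv : 0 < v) (hs : 1 ≤ s) (x₀ D : ℝ) (hD : 0 < D) :
    |∑' k : ℤ, ((x₀ + k * D) ^ 2 + v ^ 2) ^ (-s) - (1 / D) * (v ^ (1 - 2 * s) * Is s)| ≤
      2 * v ^ (-(2 * s)) :=
  (uni_all hv hs x₀ D hD).2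

theorem Is_one : Is 1 = Real.pi := by
  rw [Is, ← integral_univ_inv_one_add_sq]
  refine integral_congr_ae (Filter.Eventually.of_forall fun u => ?_)
  simp only [Real.rpow_neg_one]
  rw [add_comm]

theorem Is_nonneg (s : ℝ) : 0 ≤ Is s :=
  integral_nonneg fun u => by positivity

theorem Is_le {s : ℝ} (hs : 1 ≤ s) : Is s ≤ Real.pi := by
  rw [← Is_one]
  refine integral_mono (integrable_Is hs) (integrable_Is le_rfl) fun u => ?_
  exact Real.rpow_le_rpow_of_exponent_le (by nlinarith [sq_nonneg u]) (by linarith)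

end Pool.OCG
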