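import Pool.Agent.OCG.CyEq
import Pool.Agent.OCG.UniS
import Pool.Agent.OCG.LLim

/-!
# The main terms disappear in the limit

PAPER PROOF. `rmain D a b c q y s = M(s) cy(y) y^(1 - 2s)` with `M(s) = (1/D) a^(-s) (q/(4a²))^(1/2 - s) Is s`, bounded for
`1 < s < 2` (`Is_le`). By `cy_eq`, `cy(y) = χ(a) (r₁ [r₁ ∣ y] - 1)(r₂ [r₂ ∣ y] - 1)`, so for `w = 2 s - 1 > 1`
`∑_{y ≥ 1} cy(y) y^(-w) = χ(a) (r₁^(1 - w) - 1)(r₂^(1 - w) - 1) ζ(w)` (`∑_{r ∣ y} y^(-w) = r^(-w) ζ(w)`, and `r₁`, `r₂` are coprime). As `w → 1+`,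
`ζ(w) (w - 1) → 1` (`tendsto_zeta`) and `(r^(1 - w) - 1) = O(w - 1)`, so the product tends to `0`.
-/

set_option autoImplicit false

open Filter Topology

namespace Pool.OCG

/-- The factor of the main term that does not depend on the row. -/
private noncomputable def vanA (D : ℕ) (a : ℤ) (q : ℕ) (s : ℝ) : ℝ :=
  1 / (D : ℝ) * (a : ℝ) ^ (-s) * ((q : ℝ) / (4 * (a : ℝ) ^ 2)) ^ (1 / 2 - s)

private theorem vanA_nonneg (D : ℕ) (a : ℤ) (ha : 0 < a) (q : ℕ) (s : ℝ) :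
    0 ≤ vanA D a q s := by
  have : (0 : ℝ) < a := by exact_mod_cast ha
  unfold vanA
  positivity

private theorem van_rmain (D : ℕ) (a b c : ℤ) (q : ℕ) (y : ℕ) (s : ℝ) :
    rmain D a b c q y s =
      vanA D a q s * Is s * ((cy D a b c y : ℝ) * (y : ℝ) ^ (-(2 * s - 1))) := by
  have h1 : (q : ℝ) * (y : ℝ) ^ 2 / (4 * (a : ℝ) ^ 2) =
      ((q : ℝ) / (4 * (a : ℝ) ^ 2)) * (y : ℝ) ^ 2 := by ring
  have h2 : ((y : ℝ) ^ 2) ^ (1 / 2 - s) = (y : ℝ) ^ (-(2 * s - 1)) := by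
    rw [← Real.rpow_natCast, ← Real.rpow_mul y.cast_nonneg]
    congr 1
    push_cast
    ring
  rw [rmain, h1, Real.mul_rpow (by positivity) (by positivity), h2, vanA]
  ring

private theorem van_cy_le (D : ℕ) (a b c : ℤ) (y : ℕ) : |(cy D a b c y : ℝ)| ≤ D := by
  have h : |cy D a b c y| ≤ D := by
    unfold cy
    refine (Finset.abs_sum_le_sum_abs _ _).trans ?_
    refine (Finset.sum_le_sum (g := fun _ => (1 : ℤ)) fun x _ => ?_).trans (by simp)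
    rcases jacobiSym.trichotomy (fm a b c x y) D with h | h | h <;> rw [h] <;> simp
  exact_mod_cast h

private theorem van_congr {f g : ℕ → ℝ} {a : ℝ} (h : ∀ n, f n = g n) (hg : HasSum g a) :
    HasSum f a := by
  rw [funext h]
  exact hg

private theorem van_zs {w : ℝ} (hw : 1 < w) : Summable (fun n : ℕ => (n : ℝ) ^ (-w)) :=
  Real.summable_nat_rpow.mpr (by linarith)

theorem rmain_summable (r₁ r₂ : ℕ) (a b c : ℤ) (ha : 0 < a) (q : ℕ) (hq0 : 0 < q) {s : ℝ}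
    (hs : 1 < s) : Summable (fun y : ℕ => rmain (r₁ * r₂) a b c q (y + 1) s) := by
  have h1 : Summable (fun y : ℕ => rmain (r₁ * r₂) a b c q y s) := by
    simp only [van_rmain]
    apply Summable.mul_left
    have hz := (van_zs (w := 2 * s - 1) (by linarith)).mul_left ((r₁ * r₂ : ℕ) : ℝ)
    refine Summable.of_norm_bounded hz fun n => ?_
    have h0 : (0 : ℝ) ≤ (n : ℝ) ^ (-(2 * s - 1)) := Real.rpow_nonneg n.cast_nonneg _
    rw [norm_mul, Real.norm_eq_abs, Real.norm_eq_abs, abs_of_nonneg h0]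
    exact mul_le_mul_of_nonneg_right (van_cy_le _ _ _ _ _) h0
  exact (summable_nat_add_iff 1).mpr h1

/-- Sum over the multiples of `r`. -/
private theorem van_mult {w : ℝ} (hw : 1 < w) {r : ℕ} (hr : 0 < r) :
    HasSum (fun n : ℕ => if r ∣ n then (n : ℝ) ^ (-w) else 0)
      ((r : ℝ) ^ (-w) * ∑' n : ℕ, (n : ℝ) ^ (-w)) := by
  have hinj : Function.Injective (fun m : ℕ => r * m) := fun x y h =>
    Nat.eq_of_mul_eq_mul_left hr h
  rw [← hinj.hasSum_iff]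
  · have h := ((van_zs hw).hasSum).mul_left ((r : ℝ) ^ (-w))
    refine van_congr (fun m => ?_) h
    simp only [Function.comp_apply, dvd_mul_right, if_true]
    rw [Nat.cast_mul, Real.mul_rpow r.cast_nonneg m.cast_nonneg]
  · intro n hn
    rw [if_neg]
    rintro ⟨m, rfl⟩
    exact hn ⟨m, rfl⟩

private theorem van_bd {r : ℕ} (hr : 0 < r) {w : ℝ} (hw : 1 < w) :
    |(r : ℝ) * (r : ℝ) ^ (-w) - 1| ≤ (w - 1) * Real.log r := by
  have hr0 : (0 : ℝ) < r := by exact_mod_cast hr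
  have hl : 0 ≤ Real.log r := Real.log_natCast_nonneg r
  have h1 : (r : ℝ) * (r : ℝ) ^ (-w) = Real.exp (-((w - 1) * Real.log r)) := by
    rw [Real.rpow_def_of_pos hr0]
    nth_rewrite 1 [← Real.exp_log hr0]
    rw [← Real.exp_add]
    congr 1
    ring
  have h2 := Real.add_one_le_exp (-((w - 1) * Real.log r))
  have h3 : Real.exp (-((w - 1) * Real.log r)) ≤ 1 := by
    rw [Real.exp_le_one_iff]
    have : 0 ≤ (w - 1) * Real.log r := mul_nonneg (by linarith) hl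
    linarith
  rw [h1, abs_le]
  constructor
  · linarith
  · have : 0 ≤ (w - 1) * Real.log r := mul_nonneg (by linarith) hl
    linarith

private theorem van_sum (r₁ r₂ : ℕ) (hr₁ : r₁.Prime) (hr₂ : r₂.Prime) (h12 : r₁ ≠ r₂)
    (ho₁ : r₁ ≠ 2) (ho₂ : r₂ ≠ 2) (a b c : ℤ) (q : ℕ)
    (hq : 4 * a * c - b ^ 2 = q) (hq₁ : ¬ r₁ ∣ q) (hq₂ : ¬ r₂ ∣ q) {w : ℝ} (hw : 1 < w) :
    HasSum (fun y : ℕ => (cy (r₁ * r₂) a b c y : ℝ) * (y : ℝ) ^ (-w))
      ((jacobiSym a (r₁ * r₂) : ℝ) * ((r₁ : ℝ) * (r₁ : ℝ) ^ (-w) - 1) *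
        ((r₂ : ℝ) * (r₂ : ℝ) ^ (-w) - 1) * ∑' n : ℕ, (n : ℝ) ^ (-w)) := by
  have h0 := (van_zs hw).hasSum
  have h1 := (van_mult hw hr₁.pos).mul_left (r₁ : ℝ)
  have h2 := (van_mult hw hr₂.pos).mul_left (r₂ : ℝ)
  have h3 := (van_mult hw (Nat.mul_pos hr₁.pos hr₂.pos)).mul_left ((r₁ * r₂ : ℕ) : ℝ)
  have h4 := (((h3.sub h1).sub h2).add h0).mul_left (jacobiSym a (r₁ * r₂) : ℝ)
  have e2 : (jacobiSym a (r₁ * r₂) : ℝ) * ((r₁ : ℝ) * (r₁ : ℝ) ^ (-w) - 1) *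
        ((r₂ : ℝ) * (r₂ : ℝ) ^ (-w) - 1) * ∑' n : ℕ, (n : ℝ) ^ (-w) =
      (jacobiSym a (r₁ * r₂) : ℝ) *
      (((r₁ * r₂ : ℕ) : ℝ) * (((r₁ * r₂ : ℕ) : ℝ) ^ (-w) * ∑' n : ℕ, (n : ℝ) ^ (-w)) -
        (r₁ : ℝ) * ((r₁ : ℝ) ^ (-w) * ∑' n : ℕ, (n : ℝ) ^ (-w)) -
          (r₂ : ℝ) * ((r₂ : ℝ) ^ (-w) * ∑' n : ℕ, (n : ℝ) ^ (-w)) +
        ∑' n : ℕ, (n : ℝ) ^ (-w)) := by
    rw [Nat.cast_mul, Real.mul_rpow r₁.cast_nonneg r₂.cast_nonneg]
    ring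
  rw [e2]
  refine van_congr (fun y => ?_) h4
  · rw [cy_eq r₁ r₂ hr₁ hr₂ h12 ho₁ ho₂ a b c q hq hq₁ hq₂ y]
    have hd : r₁ * r₂ ∣ y ↔ r₁ ∣ y ∧ r₂ ∣ y := by
      constructor
      · intro h
        exact ⟨(dvd_mul_right _ _).trans h, (dvd_mul_left _ _).trans h⟩
      · rintro ⟨h, h'⟩
        exact Nat.Coprime.mul_dvd_of_dvd_of_dvd ((Nat.coprime_primes hr₁ hr₂).mpr h12) h h'
    by_cases e1 : r₁ ∣ y <;> by_cases e2 : r₂ ∣ y <;> simp only [hd, e1, e2, if_true, if_false,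
      and_true, true_and, and_false, false_and, and_self] <;> push_cast <;> ring

theorem main_vanish (r₁ r₂ : ℕ) (hr₁ : r₁.Prime) (hr₂ : r₂.Prime) (h12 : r₁ ≠ r₂) (ho₁ : r₁ ≠ 2)
    (ho₂ : r₂ ≠ 2) (a b c : ℤ) (ha : 0 < a) (q : ℕ) (hq0 : 0 < q) (hq : 4 * a * c - b ^ 2 = q)
    (hq₁ : ¬ r₁ ∣ q) (hq₂ : ¬ r₂ ∣ q) :
    Tendsto (fun s : ℝ => ∑' y : ℕ, rmain (r₁ * r₂) a b c q (y + 1) s) (𝓝[>] 1) (𝓝 0) := by
  have ha0 : (0 : ℝ) < a := by exact_mod_cast ha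
  have hq0' : (0 : ℝ) < q := by exact_mod_cast hq0
  set J : ℝ := (jacobiSym a (r₁ * r₂) : ℝ) with hJ
  -- the value of the sum
  have hval : ∀ s : ℝ, 1 < s → ∑' y : ℕ, rmain (r₁ * r₂) a b c q (y + 1) s =
      vanA (r₁ * r₂) a q s * Is s * (J * ((r₁ : ℝ) * (r₁ : ℝ) ^ (-(2 * s - 1)) - 1) *
        ((r₂ : ℝ) * (r₂ : ℝ) ^ (-(2 * s - 1)) - 1) * ∑' n : ℕ, (n : ℝ) ^ (-(2 * s - 1))) := by
    intro s hs
    have h1 := (van_sum r₁ r₂ hr₁ hr₂ h12 ho₁ ho₂ a b c q hq hq₁ hq₂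
      (w := 2 * s - 1) (by linarith)).mul_left (vanA (r₁ * r₂) a q s * Is s)
    have h2 := van_congr (fun y => van_rmain (r₁ * r₂) a b c q y s) h1
    have h3 : rmain (r₁ * r₂) a b c q 0 s = 0 := by
      rw [van_rmain, Nat.cast_zero, Real.zero_rpow (by linarith)]
      ring
    have h4 := h2.summable.tsum_eq_zero_add
    rw [h3, zero_add, h2.tsum_eq] at h4
    rw [← h4]
  -- the bound
  have hcA : Tendsto (vanA (r₁ * r₂) a q) (𝓝[>] 1) (𝓝 (vanA (r₁ * r₂) a q 1)) := by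
    have hc : Continuous (vanA (r₁ * r₂) a q) := by
      unfold vanA
      refine (continuous_const.mul ?_).mul ?_
      · exact (Real.continuous_const_rpow ha0.ne').comp continuous_neg
      · exact (Real.continuous_const_rpow (by positivity)).comp
          (continuous_const.sub continuous_id)
    exact (hc.tendsto 1).mono_left nhdsWithin_le_nhds
  have hsh : Tendsto (fun s : ℝ => 2 * s - 1) (𝓝[>] 1) (𝓝[>] 1) := by
    refine tendsto_nhdsWithin_iff.mpr ⟨?_, ?_⟩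
    · have hc : Continuous (fun s : ℝ => 2 * s - 1) := by fun_prop
      have := (hc.tendsto 1).mono_left (nhdsWithin_le_nhds (s := Set.Ioi 1))
      norm_num at this
      exact this
    · filter_upwards [self_mem_nhdsWithin] with s hs
      have hs' : (1 : ℝ) < s := hs
      show (1 : ℝ) < 2 * s - 1
      linarith
  have hz := tendsto_zeta.comp hsh
  have hw : Tendsto (fun s : ℝ => (2 * s - 1 - 1)) (𝓝[>] 1) (𝓝 0) := by
    have hc : Continuous (fun s : ℝ => 2 * s - 1 - 1) := by fun_prop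
    have := (hc.tendsto 1).mono_left (nhdsWithin_le_nhds (s := Set.Ioi 1))
    norm_num at this
    exact this
  have hlim := ((hcA.mul_const (Real.pi * |J| * Real.log r₁ * Real.log r₂)).mul hw).mul hz
  simp only [mul_zero, zero_mul] at hlim
  refine squeeze_zero_norm' ?_ hlim
  filter_upwards [self_mem_nhdsWithin] with s hs
  have hs' : (1 : ℝ) < s := hs
  rw [hval s hs']
  have hw1 : (1 : ℝ) < 2 * s - 1 := by linarith
  have b1 := van_bd hr₁.pos hw1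
  have b2 := van_bd hr₂.pos hw1
  have hA := vanA_nonneg (r₁ * r₂) a ha q s
  have hI0 := Is_nonneg s
  have hI := Is_le hs'.le
  have hZ0 : 0 ≤ ∑' n : ℕ, (n : ℝ) ^ (-(2 * s - 1)) :=
    tsum_nonneg fun n => Real.rpow_nonneg n.cast_nonneg _
  have hLS : LS (fun _ => 1) (2 * s - 1) = ∑' n : ℕ, (n : ℝ) ^ (-(2 * s - 1)) := by
    unfold LS
    exact tsum_congr fun n => one_mul _
  simp only [Function.comp_apply]
  rw [hLS]
  set Z := ∑' n : ℕ, (n : ℝ) ^ (-(2 * s - 1))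
  rw [norm_mul, norm_mul, norm_mul, norm_mul, norm_mul, Real.norm_eq_abs, Real.norm_eq_abs,
    Real.norm_eq_abs, Real.norm_eq_abs, Real.norm_eq_abs, Real.norm_eq_abs, abs_of_nonneg hA,
    abs_of_nonneg hI0, abs_of_nonneg hZ0]
  have hl1 : 0 ≤ (2 * s - 1 - 1) * Real.log r₁ :=
    mul_nonneg (by linarith) (Real.log_natCast_nonneg _)
  have k1 : vanA (r₁ * r₂) a q s * Is s ≤ vanA (r₁ * r₂) a q s * Real.pi :=
    mul_le_mul_of_nonneg_left hI hA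
  have k2 : |(r₁ : ℝ) * (r₁ : ℝ) ^ (-(2 * s - 1)) - 1| *
      |(r₂ : ℝ) * (r₂ : ℝ) ^ (-(2 * s - 1)) - 1| ≤
      ((2 * s - 1 - 1) * Real.log r₁) * ((2 * s - 1 - 1) * Real.log r₂) :=
    mul_le_mul b1 b2 (abs_nonneg _) hl1
  calc vanA (r₁ * r₂) a q s * Is s * (|J| * |(r₁ : ℝ) * (r₁ : ℝ) ^ (-(2 * s - 1)) - 1| *
        |(r₂ : ℝ) * (r₂ : ℝ) ^ (-(2 * s - 1)) - 1| * Z)
      = (vanA (r₁ * r₂) a q s * Is s) * (|J| * Z * (|(r₁ : ℝ) * (r₁ : ℝ) ^ (-(2 * s - 1)) - 1| *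
        |(r₂ : ℝ) * (r₂ : ℝ) ^ (-(2 * s - 1)) - 1|)) := by ring
    _ ≤ (vanA (r₁ * r₂) a q s * Real.pi) * (|J| * Z *
        (((2 * s - 1 - 1) * Real.log r₁) * ((2 * s - 1 - 1) * Real.log r₂))) := by
        refine mul_le_mul k1 (mul_le_mul_of_nonneg_left k2 (by positivity)) (by positivity)
          (by positivity)
    _ = vanA (r₁ * r₂) a q s * (Real.pi * |J| * Real.log r₁ * Real.log r₂) *
        (2 * s - 1 - 1) * ((2 * s - 1 - 1) * Z) := by ring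

end Pool.OCG
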