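import Pool.Agent.OCG.Row0
import Pool.Agent.OCG.RowE
import Pool.Agent.OCG.RowOne
import Pool.Agent.OCG.RowLim
import Pool.Agent.OCG.Vanish
import Pool.Agent.Hhelper85.CZ.Defs

/-!
# The limit of the twisted Epstein zeta function of a form

PAPER PROOF. For `s > 1` the sum over `Half` is the row `y = 0`, `x ≥ 1`, plus the rows `y ≥ 1`, `x ∈ ℤ` (absolute convergence:
`4 a fm = (2 a x + b y)² + q y²`, compare with a standard form, or use `row_error` for `D = 1`-like bounds of the absolute sums). So it is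
`row₀(s) + ∑_{y ≥ 1} (row(y, s) - rmain(y, s)) + ∑_{y ≥ 1} rmain(y, s)`. The last sum tends to `0` (`main_vanish`), the first term
tends to the main term (`row_zero`), and `∑ (row - rmain)` tends to `∑_{y ≥ 1} (row(y, 1) - rmain(y, 1))` by dominated convergence
(`row_error`: for `1 < s < 2`, `2 D (q y²/(4a))^(-s) ≤ C y^(-2)`; `row_tendsto`). By `row_one`, with `w = π √q/(a D) ≥ 2`,
the absolute value of this sum is at most `(16 π/√q) ∑_{y ≥ 1} e^(-w y) ≤ (16 π/√q) e^(-w)/(1 - e^(-2)) ≤ 60/√q e^(-w)`.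
-/

set_option autoImplicit false

open Filter Topology

namespace Pool.OCG

private theorem fl_four (a b c : ℤ) (q : ℕ) (hq : 4 * a * c - b ^ 2 = q) (x y : ℤ) :
    4 * a * fm a b c x y = (2 * a * x + b * y) ^ 2 + q * y ^ 2 := by
  unfold fm
  rw [← hq]
  ring

private theorem fl_pos (a b c : ℤ) (ha : 0 < a) (q : ℕ) (hq0 : 0 < q)
    (hq : 4 * a * c - b ^ 2 = q) (x y : ℤ) (hy : y ≠ 0) : 0 < fm a b c x y := by
  have h := fl_four a b c q hq x y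
  have h1 : 0 < (q : ℤ) * y ^ 2 := by positivity
  have h2 : 0 < 4 * a * fm a b c x y := by
    rw [h]
    have := sq_nonneg (2 * a * x + b * y)
    linarith
  exact (mul_pos_iff_of_pos_left (by positivity : (0 : ℤ) < 4 * a)).mp h2

private theorem fl_jac (z : ℤ) (D : ℕ) : |((jacobiSym z D : ℤ) : ℝ)| ≤ 1 := by
  rcases jacobiSym.trichotomy z D with h | h | h <;> rw [h] <;> norm_num

/-- The half lattice. -/
private def flMap : ℕ ⊕ (ℕ × ℤ) → {p : ℤ × ℤ // Pool.Hhelper85.CZ.Half p} :=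
  Sum.elim (fun x => ⟨((x : ℤ) + 1, 0), Or.inr ⟨rfl, by positivity⟩⟩)
    (fun yx => ⟨(yx.2, (yx.1 : ℤ) + 1), Or.inl (by show (0 : ℤ) < (yx.1 : ℤ) + 1; positivity)⟩)

private theorem flMap_bij : Function.Bijective flMap := by
  constructor
  · rintro (x | ⟨y, x⟩) (x' | ⟨y', x'⟩) h
    · have h1 : (x : ℤ) + 1 = (x' : ℤ) + 1 := congrArg (fun p => p.1.1) h
      congr 1
      omega
    · have h1 : (0 : ℤ) = (y' : ℤ) + 1 := congrArg (fun p => p.1.2) h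
      exfalso
      omega
    · have h1 : (y : ℤ) + 1 = (0 : ℤ) := congrArg (fun p => p.1.2) h
      exfalso
      omega
    · have h1 : (y : ℤ) + 1 = (y' : ℤ) + 1 := congrArg (fun p => p.1.2) h
      have h2 : x = x' := congrArg (fun p => p.1.1) h
      have h3 : y = y' := by omega
      rw [h3, h2]
  · rintro ⟨⟨x, y⟩, hp⟩
    have hp' := hp
    rcases hp' with hp' | ⟨hp', hx⟩
    · refine ⟨Sum.inr (y.toNat - 1, x), Subtype.ext (Prod.ext rfl ?_)⟩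
      have h1 : 0 < y := hp'
      show ((y.toNat - 1 : ℕ) : ℤ) + 1 = y
      omega
    · refine ⟨Sum.inl (x.toNat - 1), Subtype.ext (Prod.ext ?_ ?_)⟩
      · have h1 : 0 < x := hx
        show ((x.toNat - 1 : ℕ) : ℤ) + 1 = x
        omega
      · exact (show y = 0 from hp').symm

private theorem fl_sum_sq : Summable fun y : ℕ => 1 / ((y : ℝ) + 1) ^ 2 := by
  have h := (summable_nat_add_iff 1).mpr (Real.summable_one_div_nat_pow.mpr one_lt_two)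
  refine h.congr fun y => ?_
  push_cast
  rfl

private theorem fl_rpow_le {z s : ℝ} (hz : 0 < z) (h1 : 1 ≤ s) (h2 : s ≤ 2) :
    z ^ (-s) ≤ z⁻¹ + (z ^ 2)⁻¹ := by
  rcases le_total 1 z with h | h
  · have h3 : z ^ (-s) ≤ z ^ (-(1 : ℝ)) := Real.rpow_le_rpow_of_exponent_le h (by linarith)
    rw [Real.rpow_neg_one] at h3
    have : 0 ≤ (z ^ 2)⁻¹ := by positivity
    linarith
  · have h3 : z ^ (-s) ≤ z ^ (-(2 : ℝ)) := Real.rpow_le_rpow_of_exponent_ge hz h (by linarith)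
    have h4 : z ^ (-(2 : ℝ)) = (z ^ 2)⁻¹ := by
      rw [Real.rpow_neg hz.le]
      norm_num
    have : 0 ≤ z⁻¹ := by positivity
    rw [h4] at h3
    linarith

private theorem fl_z (a : ℤ) (ha : 0 < a) (q : ℕ) (hq0 : 0 < q) (y : ℕ) :
    0 < (q : ℝ) * ((y + 1 : ℕ) : ℝ) ^ 2 / (4 * a) := by
  have h1 : (0 : ℝ) < a := by exact_mod_cast ha
  have h2 : (0 : ℝ) < q := by exact_mod_cast hq0
  positivity

/-- The dominating sequence. -/
private theorem fl_bound_summable (D : ℕ) (a : ℤ) (ha : 0 < a) (q : ℕ) (hq0 : 0 < q) :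
    Summable fun y : ℕ => 2 * (D : ℝ) * (((q : ℝ) * ((y + 1 : ℕ) : ℝ) ^ 2 / (4 * a))⁻¹ +
      (((q : ℝ) * ((y + 1 : ℕ) : ℝ) ^ 2 / (4 * a)) ^ 2)⁻¹) := by
  have h1 : (0 : ℝ) < a := by exact_mod_cast ha
  have h2 : (0 : ℝ) < q := by exact_mod_cast hq0
  have hA : Summable fun y : ℕ => ((q : ℝ) * ((y + 1 : ℕ) : ℝ) ^ 2 / (4 * a))⁻¹ := by
    have h3 : Summable fun y : ℕ => 4 * (a : ℝ) / q * (1 / ((y : ℝ) + 1) ^ 2) :=
      fl_sum_sq.mul_left _
    refine h3.congr fun y => ?_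
    push_cast
    field_simp
  have hB : Summable fun y : ℕ => (((q : ℝ) * ((y + 1 : ℕ) : ℝ) ^ 2 / (4 * a)) ^ 2)⁻¹ := by
    have h3 : Summable fun y : ℕ => (4 * (a : ℝ) / q) ^ 2 * (1 / ((y : ℝ) + 1) ^ 2) :=
      fl_sum_sq.mul_left _
    refine Summable.of_nonneg_of_le (fun y => by positivity) (fun y => ?_) h3
    have h4 : (1 : ℝ) ≤ ((y : ℝ) + 1) ^ 2 := by
      have : (0 : ℝ) ≤ y := Nat.cast_nonneg y
      nlinarith
    have h5 : (((q : ℝ) * ((y + 1 : ℕ) : ℝ) ^ 2 / (4 * a)) ^ 2)⁻¹ =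
        (4 * (a : ℝ) / q) ^ 2 * (1 / (((y : ℝ) + 1) ^ 2 * ((y : ℝ) + 1) ^ 2)) := by
      push_cast
      field_simp
    rw [h5]
    apply mul_le_mul_of_nonneg_left _ (by positivity)
    apply one_div_le_one_div_of_le (by positivity)
    nlinarith
  exact (hA.add hB).mul_left _

private theorem fl_err (D : ℕ) (hD : 0 < D) (a b c : ℤ) (ha : 0 < a) (q : ℕ) (hq0 : 0 < q)
    (hq : 4 * a * c - b ^ 2 = q) {s : ℝ} (hs : 1 ≤ s) (hs2 : s ≤ 2) (y : ℕ) :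
    |row D a b c (y + 1) s - rmain D a b c q (y + 1) s| ≤
      2 * (D : ℝ) * (((q : ℝ) * ((y + 1 : ℕ) : ℝ) ^ 2 / (4 * a))⁻¹ +
      (((q : ℝ) * ((y + 1 : ℕ) : ℝ) ^ 2 / (4 * a)) ^ 2)⁻¹) := by
  refine (row_error hD a b c ha q hq0 hq (y + 1) (by omega) hs).trans ?_
  apply mul_le_mul_of_nonneg_left _ (by positivity)
  exact fl_rpow_le (fl_z a ha q hq0 y) hs hs2

private theorem fl_fm_sum (a b c : ℤ) (ha : 0 < a) (q : ℕ) (hq0 : 0 < q)
    (hq : 4 * a * c - b ^ 2 = q) {s : ℝ} (hs : 1 < s) (hs2 : s ≤ 2) :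
    Summable fun yx : ℕ × ℤ => ((fm a b c yx.2 ((yx.1 : ℤ) + 1) : ℤ) : ℝ) ^ (-s) := by
  have hnn : 0 ≤ fun yx : ℕ × ℤ => ((fm a b c yx.2 ((yx.1 : ℤ) + 1) : ℤ) : ℝ) ^ (-s) := by
    intro yx
    apply Real.rpow_nonneg
    exact_mod_cast (fl_pos a b c ha q hq0 hq yx.2 _ (by positivity)).le
  rw [summable_prod_of_nonneg hnn]
  have hrow : ∀ y : ℕ, (fun x : ℤ => (jacobiSym (fm a b c x ((y + 1 : ℕ) : ℤ)) (1 * 1) : ℝ) *
      ((fm a b c x ((y + 1 : ℕ) : ℤ) : ℤ) : ℝ) ^ (-s)) =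
      fun x : ℤ => ((fm a b c x ((y : ℤ) + 1) : ℤ) : ℝ) ^ (-s) := by
    intro y
    funext x
    rw [show (1 * 1 : ℕ) = 1 from rfl, jacobiSym.one_right]
    push_cast
    rw [one_mul]
  constructor
  · intro y
    have h1 := row_summable (D := 1 * 1) a b c ha q hq0 hq (y + 1) (by omega) hs.le
    rw [hrow y] at h1
    exact h1
  · have h1 : Summable fun y : ℕ => row (1 * 1) a b c (y + 1) s - rmain (1 * 1) a b c q (y + 1) s :=
      Summable.of_norm_bounded (fl_bound_summable (1 * 1) a ha q hq0)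
        (fun y => fl_err (1 * 1) (by norm_num) a b c ha q hq0 hq hs.le hs2 y)
    have h2 := h1.add (rmain_summable 1 1 a b c ha q hq0 hs)
    refine h2.congr fun y => ?_
    rw [sub_add_cancel]
    unfold row
    rw [hrow y]

private theorem fl_row0_sum (D : ℕ) (a b c : ℤ) (ha : 0 < a) {s : ℝ} (hs : 1 < s) :
    Summable fun x : ℕ => (jacobiSym (fm a b c ((x : ℤ) + 1) 0) D : ℝ) *
      ((fm a b c ((x : ℤ) + 1) 0 : ℤ) : ℝ) ^ (-s) := by
  refine Summable.of_norm_bounded fl_sum_sq (fun x => ?_)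
  rw [norm_mul]
  have h1 := fl_jac (fm a b c ((x : ℤ) + 1) 0) D
  have hf : ((fm a b c ((x : ℤ) + 1) 0 : ℤ) : ℝ) = a * ((x : ℝ) + 1) ^ 2 := by
    unfold fm
    push_cast
    ring
  have ha1 : (1 : ℝ) ≤ a := by exact_mod_cast ha
  have hx1 : (1 : ℝ) ≤ ((x : ℝ) + 1) ^ 2 := by
    have : (0 : ℝ) ≤ x := Nat.cast_nonneg x
    nlinarith
  have hz : ((x : ℝ) + 1) ^ 2 ≤ a * ((x : ℝ) + 1) ^ 2 := by nlinarith
  have h2 : ‖((fm a b c ((x : ℤ) + 1) 0 : ℤ) : ℝ) ^ (-s)‖ ≤ 1 / ((x : ℝ) + 1) ^ 2 := by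
    rw [hf, Real.norm_of_nonneg (Real.rpow_nonneg (by positivity) _)]
    have h3 : ((a : ℝ) * ((x : ℝ) + 1) ^ 2) ^ (-s) ≤ ((a : ℝ) * ((x : ℝ) + 1) ^ 2) ^ (-(1 : ℝ)) :=
      Real.rpow_le_rpow_of_exponent_le (by linarith) (by linarith)
    rw [Real.rpow_neg_one] at h3
    refine h3.trans ?_
    rw [← one_div]
    exact one_div_le_one_div_of_le (by linarith) hz
  calc _ ≤ 1 * (1 / ((x : ℝ) + 1) ^ 2) := mul_le_mul h1 h2 (norm_nonneg _) (by norm_num)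
    _ = _ := one_mul _

private theorem fl_split (D : ℕ) (hD : 0 < D) (a b c : ℤ) (ha : 0 < a) (q : ℕ) (hq0 : 0 < q)
    (hq : 4 * a * c - b ^ 2 = q) {s : ℝ} (hs : 1 < s) (hs2 : s ≤ 2) :
    ∑' p : {p : ℤ × ℤ // Pool.Hhelper85.CZ.Half p}, (jacobiSym (fm a b c p.1.1 p.1.2) D : ℝ) *
        ((fm a b c p.1.1 p.1.2 : ℤ) : ℝ) ^ (-s) =
      (∑' x : ℕ, (jacobiSym (fm a b c ((x : ℤ) + 1) 0) D : ℝ) *
        ((fm a b c ((x : ℤ) + 1) 0 : ℤ) : ℝ) ^ (-s)) + ∑' y : ℕ, row D a b c (y + 1) s := by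
  have hsum2 : Summable fun yx : ℕ × ℤ =>
      (jacobiSym (fm a b c yx.2 ((yx.1 : ℤ) + 1)) D : ℝ) *
        ((fm a b c yx.2 ((yx.1 : ℤ) + 1) : ℤ) : ℝ) ^ (-s) := by
    refine Summable.of_norm_bounded (fl_fm_sum a b c ha q hq0 hq hs hs2) (fun yx => ?_)
    rw [norm_mul]
    have h1 := fl_jac (fm a b c yx.2 ((yx.1 : ℤ) + 1)) D
    have h0 : 0 ≤ ((fm a b c yx.2 ((yx.1 : ℤ) + 1) : ℤ) : ℝ) ^ (-s) := by
      apply Real.rpow_nonneg
      exact_mod_cast (fl_pos a b c ha q hq0 hq yx.2 _ (by positivity)).le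
    rw [Real.norm_of_nonneg h0]
    calc _ ≤ 1 * ((fm a b c yx.2 ((yx.1 : ℤ) + 1) : ℤ) : ℝ) ^ (-s) :=
          mul_le_mul_of_nonneg_right h1 h0
      _ = _ := one_mul _
  rw [← (Equiv.ofBijective flMap flMap_bij).tsum_eq]
  have hl : HasSum ((fun i : ℕ ⊕ (ℕ × ℤ) => (jacobiSym (fm a b c (flMap i).1.1 (flMap i).1.2) D : ℝ) *
        ((fm a b c (flMap i).1.1 (flMap i).1.2 : ℤ) : ℝ) ^ (-s)) ∘ Sum.inl)
      (∑' x : ℕ, (jacobiSym (fm a b c ((x : ℤ) + 1) 0) D : ℝ) *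
        ((fm a b c ((x : ℤ) + 1) 0 : ℤ) : ℝ) ^ (-s)) := (fl_row0_sum D a b c ha hs).hasSum
  have hr : HasSum ((fun i : ℕ ⊕ (ℕ × ℤ) => (jacobiSym (fm a b c (flMap i).1.1 (flMap i).1.2) D : ℝ) *
        ((fm a b c (flMap i).1.1 (flMap i).1.2 : ℤ) : ℝ) ^ (-s)) ∘ Sum.inr)
      (∑' yx : ℕ × ℤ, (jacobiSym (fm a b c yx.2 ((yx.1 : ℤ) + 1)) D : ℝ) *
        ((fm a b c yx.2 ((yx.1 : ℤ) + 1) : ℤ) : ℝ) ^ (-s)) := hsum2.hasSum
  have h3 := (hl.sum hr).tsum_eq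
  have h4 : ∑' yx : ℕ × ℤ, (jacobiSym (fm a b c yx.2 ((yx.1 : ℤ) + 1)) D : ℝ) *
        ((fm a b c yx.2 ((yx.1 : ℤ) + 1) : ℤ) : ℝ) ^ (-s) = ∑' y : ℕ, row D a b c (y + 1) s := by
    rw [hsum2.tsum_prod]
    refine tsum_congr fun y => ?_
    unfold row
    push_cast
    rfl
  rw [h4] at h3
  exact h3

open Pool.Hhelper85.CZ in
theorem form_lim (r₁ r₂ : ℕ) (hr₁ : r₁.Prime) (hr₂ : r₂.Prime) (h12 : r₁ ≠ r₂) (ho₁ : r₁ ≠ 2)
    (ho₂ : r₂ ≠ 2) (a b c : ℤ) (ha : 0 < a) (q : ℕ) (hq0 : 0 < q) (hq : 4 * a * c - b ^ 2 = q)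
    (hq₁ : ¬ r₁ ∣ q) (hq₂ : ¬ r₂ ∣ q)
    (hw : 2 ≤ Real.pi * Real.sqrt q / (a * ((r₁ * r₂ : ℕ) : ℝ))) :
    ∃ L : ℝ, Tendsto (fun s : ℝ => ∑' p : {p : ℤ × ℤ // Half p},
        (jacobiSym (fm a b c p.1.1 p.1.2) (r₁ * r₂) : ℝ) *
          ((fm a b c p.1.1 p.1.2 : ℤ) : ℝ) ^ (-s)) (𝓝[>] 1) (𝓝 L) ∧
      |L - (jacobiSym a (r₁ * r₂) : ℝ) / a *
        (Real.pi ^ 2 / 6 * (1 - 1 / (r₁ : ℝ) ^ 2) * (1 - 1 / (r₂ : ℝ) ^ 2))| ≤
      60 / Real.sqrt q * Real.exp (-(Real.pi * Real.sqrt q / (a * ((r₁ * r₂ : ℕ) : ℝ)))) := by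
  set D : ℕ := r₁ * r₂ with hDdef
  have hD : 0 < D := by
    have := hr₁.pos
    have := hr₂.pos
    positivity
  set mt : ℝ := (jacobiSym a D : ℝ) / a *
        (Real.pi ^ 2 / 6 * (1 - 1 / (r₁ : ℝ) ^ 2) * (1 - 1 / (r₂ : ℝ) ^ 2)) with hmt
  set er : ℝ → ℕ → ℝ := fun s y => row D a b c (y + 1) s - rmain D a b c q (y + 1) s with her
  have hev : ∀ᶠ s : ℝ in 𝓝[>] 1, 1 < s ∧ s ≤ 2 := by
    have h1 : ∀ᶠ s : ℝ in 𝓝[>] 1, s < 2 :=
      nhdsWithin_le_nhds (Iio_mem_nhds (by norm_num : (1 : ℝ) < 2))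
    filter_upwards [self_mem_nhdsWithin, h1] with s hs hs2
    exact ⟨hs, hs2.le⟩
  have hdom : Tendsto (fun s : ℝ => ∑' y : ℕ, er s y) (𝓝[>] 1) (𝓝 (∑' y : ℕ, er 1 y)) := by
    refine tendsto_tsum_of_dominated_convergence (fl_bound_summable D a ha q hq0) ?_ ?_
    · intro y
      exact row_tendsto hD a b c ha q hq0 hq (y + 1) (by omega)
    · filter_upwards [hev] with s hs y
      exact fl_err D hD a b c ha q hq0 hq hs.1.le hs.2 y
  have hr0 := row_zero r₁ r₂ hr₁ hr₂ h12 a b c ha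
  have hmv := main_vanish r₁ r₂ hr₁ hr₂ h12 ho₁ ho₂ a b c ha q hq0 hq hq₁ hq₂
  refine ⟨mt + ∑' y : ℕ, er 1 y, ?_, ?_⟩
  · have h1 := (hr0.add hdom).add hmv
    rw [add_zero] at h1
    refine h1.congr' ?_
    filter_upwards [hev] with s hs
    rw [fl_split D hD a b c ha q hq0 hq hs.1 hs.2, add_assoc]
    congr 1
    have hs1 : Summable (er s) := Summable.of_norm_bounded (fl_bound_summable D a ha q hq0)
        (fun y => fl_err D hD a b c ha q hq0 hq hs.1.le hs.2 y)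
    have hs2 := rmain_summable r₁ r₂ a b c ha q hq0 hs.1
    rw [← hs1.tsum_add hs2]
    refine tsum_congr fun y => ?_
    simp only [her]
    ring
  · set w : ℝ := Real.pi * Real.sqrt q / (a * (D : ℝ)) with hwdef
    have hq0' : (0 : ℝ) < q := by exact_mod_cast hq0
    have hsq : 0 < Real.sqrt q := Real.sqrt_pos.mpr hq0'
    have hpi := Real.pi_pos
    have hrho0 : 0 < Real.exp (-w) := Real.exp_pos _
    have he2 : Real.exp (-w) ≤ 4 / 25 := by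
      have h1 : Real.exp (-w) ≤ Real.exp (-2) := Real.exp_le_exp.mpr (by linarith)
      have h2 : Real.exp (-2) ≤ 4 / 25 := by
        have h3 := Real.exp_one_gt_d9
        have h4 : Real.exp 2 = Real.exp 1 * Real.exp 1 := by
          rw [← Real.exp_add]
          norm_num
        have h5 : (25 / 4 : ℝ) ≤ Real.exp 2 := by
          rw [h4]
          nlinarith
        rw [Real.exp_neg]
        have h6 := inv_anti₀ (by norm_num : (0 : ℝ) < 25 / 4) h5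
        norm_num at h6 ⊢
        exact h6
      linarith
    have hgeo : HasSum (fun y : ℕ => 16 * Real.pi / Real.sqrt q * Real.exp (-w) *
        (Real.exp (-w)) ^ y) (16 * Real.pi / Real.sqrt q * Real.exp (-w) *
        (1 - Real.exp (-w))⁻¹) :=
      (hasSum_geometric_of_lt_one hrho0.le (by linarith)).mul_left _
    have hterm : ∀ y : ℕ, ‖er 1 y‖ ≤ 16 * Real.pi / Real.sqrt q * Real.exp (-w) *
        (Real.exp (-w)) ^ y := by
      intro y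
      have h1 := row_one hD a b c ha q hq0 hq (y + 1) (by omega) hw
      refine le_trans h1 ?_
      have h2 : Real.exp (-(Real.pi * Real.sqrt q / (a * (D : ℝ)) * ((y + 1 : ℕ) : ℝ))) =
          Real.exp (-w) * (Real.exp (-w)) ^ y := by
        rw [← Real.exp_nat_mul, ← Real.exp_add]
        congr 1
        push_cast
        ring
      rw [h2, mul_assoc _ (Real.exp (-w))]
      apply mul_le_mul_of_nonneg_right _ (by positivity)
      apply div_le_div_of_nonneg_left (by positivity) hsq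
      have : (1 : ℝ) ≤ ((y + 1 : ℕ) : ℝ) := by
        push_cast
        have : (0 : ℝ) ≤ y := Nat.cast_nonneg y
        linarith
      nlinarith
    have hle : ‖∑' y : ℕ, er 1 y‖ ≤ 16 * Real.pi / Real.sqrt q * Real.exp (-w) *
        (1 - Real.exp (-w))⁻¹ := tsum_of_norm_bounded hgeo hterm
    have hexp : |mt + ∑' y : ℕ, er 1 y - mt| = ‖∑' y : ℕ, er 1 y‖ := by
      rw [add_sub_cancel_left]
      rfl
    rw [hexp]
    refine hle.trans ?_
    have h1 : 16 * Real.pi * (1 - Real.exp (-w))⁻¹ ≤ 60 := by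
      rw [← div_eq_mul_inv, div_le_iff₀ (by linarith)]
      have := Real.pi_lt_d2
      nlinarith
    calc 16 * Real.pi / Real.sqrt q * Real.exp (-w) * (1 - Real.exp (-w))⁻¹ =
        (16 * Real.pi * (1 - Real.exp (-w))⁻¹) * (1 / Real.sqrt q * Real.exp (-w)) := by
          field_simp
      _ ≤ 60 * (1 / Real.sqrt q * Real.exp (-w)) :=
          mul_le_mul_of_nonneg_right h1 (by positivity)
      _ = _ := by ring

end Pool.OCG
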