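import Pool.Agent.OCG.Defs

/-!
# The quadratic character `kap`

PAPER PROOF. `kap d` is completely multiplicative (`Nat.perm_primeFactorsList_mul`). For `D ≡ 1 mod 4` and
`d ≡ 0, 1 mod 4`: `kp (D d) p = kp D p * kp d p` (`p` odd: `jacobiSym.mul_left`; `p = 2`: residues mod `8`:
`D mod 8 ∈ {1, 5}`, `d mod 8 ∈ {0, 4, 1, 5}`). For a natural `D ≡ 1 mod 4`: `kp D p = jacobiSym p D` (`p` odd:
`jacobiSym.quadratic_reciprocity_one_mod_four`; `p = 2`: `jacobiSym.at_two`, `ZMod.χ₈`), and both sides of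
`kap_eq_jacobi` are completely multiplicative in `n`.
-/

set_option autoImplicit false

namespace Pool.OCG

private theorem abs_kp_le (d : ℤ) (p : ℕ) : |kp d p| ≤ 1 := by
  unfold kp
  split_ifs
  · simp
  · simp
  · simp
  · rcases jacobiSym.trichotomy d p with h | h | h <;> rw [h] <;> simp

private theorem abs_list_le (d : ℤ) (l : List ℕ) : |(l.map (kp d)).prod| ≤ 1 := by
  induction l with
  | nil => simp
  | cons p l ih =>
    rw [List.map_cons, List.prod_cons, abs_mul]
    exact mul_le_one₀ (abs_kp_le d p) (abs_nonneg _) ih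

theorem kap_one (d : ℤ) : kap d 1 = 1 := by
  simp [kap]

theorem kap_prime (d : ℤ) {p : ℕ} (hp : p.Prime) : kap d p = kp d p := by
  simp [kap, Nat.primeFactorsList_prime hp]

theorem kap_mul (d : ℤ) {m n : ℕ} (hm : m ≠ 0) (hn : n ≠ 0) :
    kap d (m * n) = kap d m * kap d n := by
  unfold kap
  rw [((Nat.perm_primeFactorsList_mul hm hn).map (kp d)).prod_eq, List.map_append, List.prod_append]

theorem abs_kap_le (d : ℤ) (n : ℕ) : |kap d n| ≤ 1 := abs_list_le d _

private theorem kp_mul_left {D d : ℤ} (hD : D % 4 = 1) (hd : d % 4 = 0 ∨ d % 4 = 1) (p : ℕ) :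
    kp (D * d) p = kp D p * kp d p := by
  unfold kp
  by_cases hp : p = 2
  · simp only [if_pos hp]
    have hD8 : D % 8 = 1 ∨ D % 8 = 5 := by omega
    have hd8 : d % 8 = 0 ∨ d % 8 = 4 ∨ d % 8 = 1 ∨ d % 8 = 5 := by omega
    rw [Int.mul_emod]
    rcases hD8 with h1 | h1 <;> rcases hd8 with h2 | h2 | h2 | h2 <;> rw [h1, h2] <;> norm_num
  · simp only [if_neg hp]
    exact jacobiSym.mul_left _ _ _

theorem kap_mul_left {D d : ℤ} (hD : D % 4 = 1) (hd : d % 4 = 0 ∨ d % 4 = 1) {n : ℕ}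
    (hn : n ≠ 0) : kap (D * d) n = kap D n * kap d n := by
  unfold kap
  rw [← List.prod_map_mul]
  congr 1
  exact List.map_congr_left fun p _ => kp_mul_left hD hd p

private theorem kp_eq_jacobi {D : ℕ} (hD : D % 4 = 1) {p : ℕ} (hp : p.Prime) :
    kp (D : ℤ) p = jacobiSym p D := by
  have hodd : Odd D := Nat.odd_iff.2 (by omega)
  unfold kp
  by_cases h2 : p = 2
  · subst h2
    rw [if_pos rfl]
    rw [show ((2 : ℕ) : ℤ) = 2 from rfl, jacobiSym.at_two hodd, ZMod.χ₈_nat_eq_if_mod_eight]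
    have h8 : D % 8 = 1 ∨ D % 8 = 5 := by omega
    have hne : D % 2 ≠ 0 := by omega
    rcases h8 with h | h
    · have h' : (D : ℤ) % 8 = 1 := by omega
      rw [if_pos h', if_neg hne, if_pos (Or.inl h)]
    · have h' : (D : ℤ) % 8 = 5 := by omega
      have h1 : ¬ ((D : ℤ) % 8 = 1) := by omega
      have h3 : ¬ (D % 8 = 1 ∨ D % 8 = 7) := by omega
      rw [if_neg h1, if_pos h', if_neg hne, if_neg h3]
  · rw [if_neg h2]
    exact jacobiSym.quadratic_reciprocity_one_mod_four hD (hp.odd_of_ne_two h2)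

theorem kap_eq_jacobi {D : ℕ} (hD : D % 4 = 1) {n : ℕ} (hn : n ≠ 0) :
    kap (D : ℤ) n = jacobiSym n D := by
  have h1 : kap (D : ℤ) n = ((n.primeFactorsList.map (fun p : ℕ => (p : ℤ))).map
      fun a => jacobiSym a D).prod := by
    unfold kap
    rw [List.map_map]
    congr 1
    exact List.map_congr_left fun p hp => kp_eq_jacobi hD (Nat.prime_of_mem_primeFactorsList hp)
  rw [h1, ← jacobiSym.list_prod_left]
  congr 1
  have h2 : ((n.primeFactorsList.map (fun p : ℕ => (p : ℤ))).prod) =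
      ((n.primeFactorsList.prod : ℕ) : ℤ) := by
    rw [Nat.cast_list_prod]
  rw [h2, Nat.prod_primeFactorsList hn]

end Pool.OCG
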