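import Pool.Agent.OCG.LLim

/-!
# Upper bound for the residue of a real quadratic field

PAPER PROOF. `LS_rK` and `tendsto_rK`, `tendsto_zeta`: `dedekindZeta_residue k` is the limit of `LS (kap D) s` as `s → 1+`.
`kap D n = jacobiSym n D` for `n ≥ 1` (`kap_eq_jacobi`) is periodic mod `D`, with sum `0` over a period
(`D = r₁ r₂`, CRT, `∑_{x mod r} (x / r) = 0`; or: multiply by an `a` with `jacobiSym a D = -1`). For `s > 1` group the terms in
blocks `m D < n ≤ (m + 1) D`: the block `m = 0` is at most `∑_{n ≤ D} 1 / n ≤ 1 + log D`; the block `m ≥ 1` is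
`∑_n χ(n) (n ^ (-s) - ((m + 1) D) ^ (-s))`, at most `D ((m D) ^ (-s) - ((m + 1) D) ^ (-s))` in absolute value, and these
telescope to at most `D · D ^ (-s) ≤ 1`.
-/

set_option autoImplicit false

open scoped NumberField nonZeroDivisors
open Filter Topology

namespace Pool.OCG

private theorem lbd_sum_zmod (r₁ r₂ : ℕ) [Fact r₁.Prime] [Fact r₂.Prime] (h12 : r₁ ≠ r₂)
    (h1 : r₁ ≠ 2) :
    ∑ x : ZMod (r₁ * r₂), (quadraticChar (ZMod r₁)
      (ZMod.chineseRemainder ((Nat.coprime_primes Fact.out Fact.out).2 h12) x).1 *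
      quadraticChar (ZMod r₂)
      (ZMod.chineseRemainder ((Nat.coprime_primes Fact.out Fact.out).2 h12) x).2 : ℤ) = 0 := by
  have h := Equiv.sum_comp
    (ZMod.chineseRemainder ((Nat.coprime_primes (Fact.out : r₁.Prime) (Fact.out : r₂.Prime)).2 h12)).toEquiv
    (fun ab : ZMod r₁ × ZMod r₂ => (quadraticChar (ZMod r₁) ab.1 * quadraticChar (ZMod r₂) ab.2 : ℤ))
  refine h.trans ?_
  rw [Fintype.sum_prod_type]
  simp only []
  rw [← Finset.sum_mul_sum, quadraticChar_sum_zero, zero_mul]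
  rwa [ZMod.ringChar_zmod_n]

private theorem lbd_sum (r₁ r₂ : ℕ) (hr₁ : r₁.Prime) (hr₂ : r₂.Prime) (h12 : r₁ ≠ r₂)
    (h1 : r₁ ≠ 2) :
    ∑ j ∈ Finset.range (r₁ * r₂), jacobiSym (j : ℤ) (r₁ * r₂) = 0 := by
  have : Fact r₁.Prime := ⟨hr₁⟩
  have : Fact r₂.Prime := ⟨hr₂⟩
  have : NeZero r₁ := ⟨hr₁.ne_zero⟩
  have : NeZero r₂ := ⟨hr₂.ne_zero⟩
  have : NeZero (r₁ * r₂) := ⟨mul_ne_zero hr₁.ne_zero hr₂.ne_zero⟩
  rw [← lbd_sum_zmod r₁ r₂ h12 h1]
  refine Finset.sum_nbij' (fun j => (j : ZMod (r₁ * r₂))) (fun x => x.val) ?_ ?_ ?_ ?_ ?_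
  · intro j _
    exact Finset.mem_univ _
  · intro x _
    exact Finset.mem_range.2 (ZMod.val_lt x)
  · intro j hj
    exact ZMod.val_cast_of_lt (Finset.mem_range.1 hj)
  · intro x _
    exact ZMod.natCast_zmod_val x
  · intro j _
    rw [map_natCast, Prod.fst_natCast, Prod.snd_natCast, jacobiSym.mul_right,
      ← jacobiSym.legendreSym.to_jacobiSym, ← jacobiSym.legendreSym.to_jacobiSym]
    simp [legendreSym]

private theorem lbd_shift (D : ℕ) (χ : ℕ → ℝ) (hper : ∀ n, χ (n + D) = χ n)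
    (hsum : ∑ j ∈ Finset.range D, χ j = 0) (k : ℕ) :
    ∑ j ∈ Finset.range D, χ (k + j) = 0 := by
  induction k with
  | zero => simpa using hsum
  | succ k ih =>
    have h1 : ∑ j ∈ Finset.range (D + 1), χ (k + j) =
        ∑ j ∈ Finset.range D, χ (k + j) + χ (k + D) := Finset.sum_range_succ _ _
    have h2 : ∑ j ∈ Finset.range (D + 1), χ (k + j) =
        ∑ j ∈ Finset.range D, χ (k + (j + 1)) + χ (k + 0) := Finset.sum_range_succ' _ _
    have h3 : ∑ j ∈ Finset.range D, χ (k + 1 + j) = ∑ j ∈ Finset.range D, χ (k + (j + 1)) := by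
      refine Finset.sum_congr rfl fun j _ => ?_
      rw [add_assoc, add_comm 1 j]
    rw [h3]
    rw [h1, ih, hper, add_zero] at h2
    linarith

private theorem lbd_block (D : ℕ) (hD : 0 < D) (χ : ℕ → ℝ) (hper : ∀ n, χ (n + D) = χ n)
    (habs : ∀ n, |χ n| ≤ 1) (hsum : ∑ j ∈ Finset.range D, χ j = 0) {s : ℝ} (hs : 1 < s)
    (M : ℕ) : ∑ n ∈ Finset.range ((M + 1) * D), χ (n + 1) * ((n + 1 : ℕ) : ℝ) ^ (-s) ≤
      1 + Real.log D + D * ((D : ℝ) ^ (-s) - (((M + 1) * D : ℕ) : ℝ) ^ (-s)) := by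
  induction M with
  | zero =>
    rw [zero_add, one_mul, sub_self, mul_zero, add_zero]
    have h1 : ∑ n ∈ Finset.range D, χ (n + 1) * ((n + 1 : ℕ) : ℝ) ^ (-s) ≤
        ((harmonic D : ℚ) : ℝ) := by
      rw [harmonic, Rat.cast_sum]
      refine Finset.sum_le_sum fun n _ => ?_
      have h2 : (0 : ℝ) < ((n + 1 : ℕ) : ℝ) := by positivity
      have h3 : (1 : ℝ) ≤ ((n + 1 : ℕ) : ℝ) := by
        rw [Nat.one_le_cast]
        omega
      have h4 : ((n + 1 : ℕ) : ℝ) ^ (-s) ≤ ((n + 1 : ℕ) : ℝ)⁻¹ := by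
        rw [← Real.rpow_neg_one]
        exact Real.rpow_le_rpow_of_exponent_le h3 (by linarith)
      have h5 : χ (n + 1) ≤ 1 := (le_abs_self _).trans (habs _)
      calc χ (n + 1) * ((n + 1 : ℕ) : ℝ) ^ (-s) ≤ 1 * ((n + 1 : ℕ) : ℝ) ^ (-s) :=
            mul_le_mul_of_nonneg_right h5 (Real.rpow_nonneg h2.le _)
        _ ≤ ((n + 1 : ℕ) : ℝ)⁻¹ := by rw [one_mul]; exact h4
        _ = _ := by push_cast; rfl
    exact h1.trans (harmonic_le_one_add_log D)
  | succ M ih =>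
    have hsplit : (M + 1 + 1) * D = (M + 1) * D + D := by ring
    rw [hsplit, Finset.sum_range_add]
    set a : ℕ → ℝ := fun n => (n : ℝ) ^ (-s) with ha
    have hanti : ∀ m n : ℕ, 0 < m → m ≤ n → a n ≤ a m := by
      intro m n hm hmn
      exact Real.rpow_le_rpow_of_nonpos (by exact_mod_cast hm) (by exact_mod_cast hmn)
        (by linarith)
    have h0 := lbd_shift D χ hper hsum ((M + 1) * D + 1)
    have hpos : 0 < (M + 1) * D := by positivity
    have hblock : ∑ j ∈ Finset.range D, χ ((M + 1) * D + j + 1) *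
        ((((M + 1) * D + j + 1 : ℕ)) : ℝ) ^ (-s) ≤
        D * (a ((M + 1) * D) - a ((M + 1) * D + D)) := by
      have h1 : ∑ j ∈ Finset.range D, χ ((M + 1) * D + j + 1) *
          ((((M + 1) * D + j + 1 : ℕ)) : ℝ) ^ (-s) =
          ∑ j ∈ Finset.range D, χ ((M + 1) * D + 1 + j) *
            (a ((M + 1) * D + 1 + j) - a ((M + 1) * D + D)) := by
        simp only [mul_sub, Finset.sum_sub_distrib, ← Finset.sum_mul, h0, zero_mul, sub_zero]
        refine Finset.sum_congr rfl fun j _ => ?_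
        rw [show (M + 1) * D + j + 1 = (M + 1) * D + 1 + j by ring]
      rw [h1]
      calc ∑ j ∈ Finset.range D, χ ((M + 1) * D + 1 + j) *
            (a ((M + 1) * D + 1 + j) - a ((M + 1) * D + D))
          ≤ ∑ _j ∈ Finset.range D, (a ((M + 1) * D) - a ((M + 1) * D + D)) := by
            refine Finset.sum_le_sum fun j hj => ?_
            have hj' := Finset.mem_range.1 hj
            have h2 : a ((M + 1) * D + D) ≤ a ((M + 1) * D + 1 + j) :=
              hanti _ _ (by omega) (by omega)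
            have h3 : a ((M + 1) * D + 1 + j) ≤ a ((M + 1) * D) := hanti _ _ hpos (by omega)
            have h5 : χ ((M + 1) * D + 1 + j) ≤ 1 := (le_abs_self _).trans (habs _)
            nlinarith
        _ = D * (a ((M + 1) * D) - a ((M + 1) * D + D)) := by
            rw [Finset.sum_const, Finset.card_range, nsmul_eq_mul]
    have hA : a ((M + 1) * D) = (((M + 1) * D : ℕ) : ℝ) ^ (-s) := rfl
    have hB : a ((M + 1) * D + D) = (((M + 1) * D + D : ℕ) : ℝ) ^ (-s) := rfl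
    rw [hA, hB] at hblock
    linarith

private theorem lbd_LS (D : ℕ) (hD : 0 < D) (χ : ℕ → ℝ) (hper : ∀ n, χ (n + D) = χ n)
    (habs : ∀ n, |χ n| ≤ 1) (hsum : ∑ j ∈ Finset.range D, χ j = 0) (g : ℕ → ℝ)
    (hg : ∀ n, n ≠ 0 → g n = χ n) {s : ℝ} (hs : 1 < s) : LS g s ≤ 2 + Real.log D := by
  have hD1 : (1 : ℝ) ≤ D := by exact_mod_cast hD
  have hsm : Summable (fun n : ℕ => g n * (n : ℝ) ^ (-s)) := by
    refine Summable.of_norm_bounded (g := fun n : ℕ => (n : ℝ) ^ (-s))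
      (Real.summable_nat_rpow.2 (by linarith)) fun n => ?_
    rcases Nat.eq_zero_or_pos n with rfl | hn
    · rw [Nat.cast_zero, Real.zero_rpow (by linarith), mul_zero, norm_zero]
    · rw [hg n hn.ne', norm_mul, Real.norm_eq_abs, Real.norm_eq_abs,
        abs_of_nonneg (Real.rpow_nonneg (Nat.cast_nonneg n) _)]
      exact mul_le_of_le_one_left (Real.rpow_nonneg (Nat.cast_nonneg n) _) (habs n)
  have h1 : LS g s = ∑' n : ℕ, g (n + 1) * ((n + 1 : ℕ) : ℝ) ^ (-s) := by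
    unfold LS
    rw [hsm.tsum_eq_zero_add, Nat.cast_zero, Real.zero_rpow (by linarith), mul_zero, zero_add]
  have h2 : HasSum (fun n : ℕ => g (n + 1) * ((n + 1 : ℕ) : ℝ) ^ (-s)) (LS g s) := by
    rw [h1]
    exact ((summable_nat_add_iff 1).2 hsm).hasSum
  have h3 : Tendsto (fun M : ℕ => ∑ n ∈ Finset.range ((M + 1) * D),
      g (n + 1) * ((n + 1 : ℕ) : ℝ) ^ (-s)) atTop (𝓝 (LS g s)) := by
    refine h2.tendsto_sum_nat.comp ?_
    refine tendsto_atTop_mono (fun M => ?_) tendsto_id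
    show M ≤ (M + 1) * D
    nlinarith
  refine le_of_tendsto' h3 fun M => ?_
  have h4 := lbd_block D hD χ hper habs hsum hs M
  have h5 : ∑ n ∈ Finset.range ((M + 1) * D), g (n + 1) * ((n + 1 : ℕ) : ℝ) ^ (-s) =
      ∑ n ∈ Finset.range ((M + 1) * D), χ (n + 1) * ((n + 1 : ℕ) : ℝ) ^ (-s) :=
    Finset.sum_congr rfl fun n _ => by rw [hg (n + 1) (by omega)]
  rw [h5]
  refine h4.trans ?_
  have h6 : (D : ℝ) * (D : ℝ) ^ (-s) ≤ 1 := by
    have h7 : (D : ℝ) ^ (-s) ≤ (D : ℝ)⁻¹ := by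
      rw [← Real.rpow_neg_one]
      exact Real.rpow_le_rpow_of_exponent_le hD1 (by linarith)
    calc (D : ℝ) * (D : ℝ) ^ (-s) ≤ D * (D : ℝ)⁻¹ := mul_le_mul_of_nonneg_left h7 (by linarith)
      _ = 1 := mul_inv_cancel₀ (by linarith)
  have h8 : 0 ≤ (D : ℝ) * (((M + 1) * D : ℕ) : ℝ) ^ (-s) :=
    mul_nonneg (by linarith) (Real.rpow_nonneg (Nat.cast_nonneg _) _)
  rw [mul_sub]
  linarith

theorem res_le (k : Type) [Field k] [NumberField k] (hk2 : Module.finrank ℚ k = 2)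
    (r₁ r₂ : ℕ) (hr₁ : r₁.Prime) (hr₂ : r₂.Prime) (h12 : r₁ ≠ r₂) (hD : r₁ * r₂ % 4 = 1)
    (hk : NumberField.discr k = ((r₁ * r₂ : ℕ) : ℤ)) :
    NumberField.dedekindZeta_residue k ≤ 2 + Real.log ((r₁ * r₂ : ℕ) : ℝ) := by
  have hDpos : 0 < r₁ * r₂ := Nat.mul_pos hr₁.pos hr₂.pos
  have h1 : r₁ ≠ 2 := by
    rintro rfl
    omega
  have hlim : Tendsto (fun s : ℝ => LS (fun n => (kap (NumberField.discr k) n : ℝ)) s) (𝓝[>] 1)
      (𝓝 (NumberField.dedekindZeta_residue k)) := by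
    have h2 := (tendsto_rK k).div tendsto_zeta one_ne_zero
    rw [div_one] at h2
    refine h2.congr' ?_
    have hne : ∀ᶠ s : ℝ in 𝓝[>] 1, (s - 1) * LS (fun _ => 1) s ≠ 0 :=
      tendsto_zeta.eventually_ne one_ne_zero
    filter_upwards [self_mem_nhdsWithin, hne] with s hs hs2
    simp only [Pi.div_apply]
    rw [div_eq_iff hs2, LS_rK k hk2 hs]
    ring
  refine le_of_tendsto hlim ?_
  filter_upwards [self_mem_nhdsWithin] with s hs
  refine lbd_LS (r₁ * r₂) hDpos (fun n => ((jacobiSym (n : ℤ) (r₁ * r₂) : ℤ) : ℝ)) ?_ ?_ ?_ _ ?_ hs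
  · intro n
    have h3 : jacobiSym ((n + r₁ * r₂ : ℕ) : ℤ) (r₁ * r₂) = jacobiSym (n : ℤ) (r₁ * r₂) := by
      refine jacobiSym.mod_left' ?_
      push_cast
      rw [← Nat.cast_mul, Int.add_emod_right]
    simp only [h3]
  · intro n
    rw [← Int.cast_abs]
    exact_mod_cast (by
      rcases jacobiSym.trichotomy (n : ℤ) (r₁ * r₂) with h | h | h <;> rw [h] <;> norm_num :
        |jacobiSym (n : ℤ) (r₁ * r₂)| ≤ 1)
  · rw [← Int.cast_sum, lbd_sum r₁ r₂ hr₁ hr₂ h12 h1, Int.cast_zero]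
  · intro n hn
    rw [hk, kap_eq_jacobi hD hn]

end Pool.OCG
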