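import Pool.Agent.OCG.RkSum

/-!
# The identity `F_D ζ² = ζ_k ζ_K'`

PAPER PROOF. For `s > 1` all series converge absolutely (`|kap| ≤ 1`, `0 ≤ rK K n ≤ n.divisors.card`). `LS` of a Dirichlet
convolution is the product (`LSeries_convolution` or directly). By `rK_eq`:
`LS (rK k) = LS 1 · LS (kap D)`, `LS (rK K') = LS 1 · LS (kap (-(D q)))`, and since `kap D` is completely
multiplicative `kap D n · rK K n = ∑_{m ∣ n} kap D (n / m) · (kap D m · kap (-q) m)`, so
`LS (kap D · rK K) = LS (kap D) · LS (kap D · kap (-q))`, with `kap D m · kap (-q) m = kap (-(D q)) m`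
(`kap_mul_left`, `discr_mod_four`).
-/

set_option autoImplicit false

open scoped NumberField nonZeroDivisors

namespace Pool.OCG

private theorem LId_term (f : ℕ → ℝ) {s : ℝ} (hs : 1 < s) (n : ℕ) :
    LSeries.term (fun n => (f n : ℂ)) (s : ℂ) n = ((f n * (n : ℝ) ^ (-s) : ℝ) : ℂ) := by
  rcases eq_or_ne n 0 with rfl | hn
  · rw [LSeries.term_zero, Nat.cast_zero, Real.zero_rpow (by linarith), mul_zero,
      Complex.ofReal_zero]
  · rw [LSeries.term_of_ne_zero hn, Complex.ofReal_mul, Complex.ofReal_cpow n.cast_nonneg,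
      Complex.ofReal_neg, Complex.cpow_neg, Complex.ofReal_natCast, div_eq_mul_inv]

private theorem LId_coe (f : ℕ → ℝ) {s : ℝ} (hs : 1 < s) :
    ((LS f s : ℝ) : ℂ) = LSeries (fun n => (f n : ℂ)) (s : ℂ) := by
  rw [LS, LSeries, Complex.ofReal_tsum]
  exact tsum_congr fun n => (LId_term f hs n).symm

private theorem LId_summable (f : ℕ → ℝ) {s : ℝ} (hs : 1 < s) :
    LSeriesSummable (fun n => (f n : ℂ)) (s : ℂ) ↔
      Summable (fun n : ℕ => f n * (n : ℝ) ^ (-s)) := by
  rw [LSeriesSummable, ← Complex.summable_ofReal]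
  exact summable_congr fun n => LId_term f hs n

/-- Dirichlet convolutions -/
private theorem LId_conv (f g h : ℕ → ℝ) {s : ℝ} (hs : 1 < s)
    (hf : Summable (fun n : ℕ => f n * (n : ℝ) ^ (-s)))
    (hg : Summable (fun n : ℕ => g n * (n : ℝ) ^ (-s)))
    (hh : ∀ n : ℕ, n ≠ 0 → h n = ∑ p ∈ n.divisorsAntidiagonal, f p.1 * g p.2) :
    Summable (fun n : ℕ => h n * (n : ℝ) ^ (-s)) ∧ LS h s = LS f s * LS g s := by
  rw [← LId_summable _ hs] at hf hg ⊢
  have e : ∀ {n : ℕ}, n ≠ 0 → (fun n => (h n : ℂ)) n =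
      (LSeries.convolution (fun n => (f n : ℂ)) (fun n => (g n : ℂ))) n := by
    intro n hn
    rw [LSeries.convolution_def]
    simp only
    rw [hh n hn]
    push_cast
    rfl
  constructor
  · rw [LSeriesSummable_congr _ e]
    exact LSeriesSummable.convolution hf hg
  · apply Complex.ofReal_injective
    rw [Complex.ofReal_mul, LId_coe _ hs, LId_coe _ hs, LId_coe _ hs, LSeries_congr e,
      LSeries_convolution' hf hg]

private theorem LId_bdd (f : ℕ → ℝ) {s : ℝ} (hs : 1 < s) (hf : ∀ n, |f n| ≤ 1) :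
    Summable (fun n : ℕ => f n * (n : ℝ) ^ (-s)) := by
  refine Summable.of_norm_bounded (g := fun n : ℕ => (n : ℝ) ^ (-s))
    (Real.summable_nat_rpow.mpr (by linarith)) fun n => ?_
  rw [norm_mul, Real.norm_eq_abs, Real.norm_eq_abs,
    abs_of_nonneg (Real.rpow_nonneg n.cast_nonneg _)]
  exact mul_le_of_le_one_left (Real.rpow_nonneg n.cast_nonneg _) (hf n)

private theorem LId_abs_kap (d : ℤ) (n : ℕ) : |(kap d n : ℝ)| ≤ 1 := by
  exact_mod_cast abs_kap_le d n

private theorem LId_rK (K : Type) [Field K] [NumberField K] (h2 : Module.finrank ℚ K = 2) {s : ℝ}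
    (hs : 1 < s) : Summable (fun n : ℕ => (rK K n : ℝ) * (n : ℝ) ^ (-s)) ∧
    LS (fun n => (rK K n : ℝ)) s =
      LS (fun _ => 1) s * LS (fun n => (kap (NumberField.discr K) n : ℝ)) s := by
  refine LId_conv (fun _ => 1) (fun n => (kap (NumberField.discr K) n : ℝ))
    (fun n => (rK K n : ℝ)) hs (LId_bdd _ hs fun n => by simp)
    (LId_bdd _ hs fun n => LId_abs_kap _ n) fun n hn => ?_
  have h := rK_eq K h2 hn
  have h3 : (rK K n : ℝ) = ((rK K n : ℤ) : ℝ) := by push_cast; rfl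
  rw [h3, h, Int.cast_sum]
  simp only [one_mul]
  exact (Nat.sum_divisorsAntidiagonal' (fun _ m => (kap (NumberField.discr K) m : ℝ))).symm

/-- Absolute convergence. -/
theorem summable_rK (K : Type) [Field K] [NumberField K] (h2 : Module.finrank ℚ K = 2) {s : ℝ}
    (hs : 1 < s) : Summable (fun n : ℕ => (rK K n : ℝ) * (n : ℝ) ^ (-s)) :=
  (LId_rK K h2 hs).1

/-- `ζ_k = ζ L(kap D)`. -/
theorem LS_rK (k : Type) [Field k] [NumberField k] (h2 : Module.finrank ℚ k = 2) {s : ℝ}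
    (hs : 1 < s) : LS (fun n => (rK k n : ℝ)) s =
      LS (fun _ => 1) s * LS (fun n => (kap (NumberField.discr k) n : ℝ)) s :=
  (LId_rK k h2 hs).2

theorem main_id (K : Type) [Field K] [NumberField K] (h2 : Module.finrank ℚ K = 2)
    (D q : ℕ) (hD : D % 4 = 1) (hK : NumberField.discr K = -(q : ℤ))
    (k : Type) [Field k] [NumberField k] (hk2 : Module.finrank ℚ k = 2)
    (hk : NumberField.discr k = (D : ℤ))
    (K' : Type) [Field K'] [NumberField K'] (hK2' : Module.finrank ℚ K' = 2)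
    (hK' : NumberField.discr K' = -((D * q : ℕ) : ℤ)) {s : ℝ} (hs : 1 < s) :
    LS (fun n => (kap D n : ℝ) * rK K n) s * LS (fun _ => 1) s ^ 2 =
      LS (fun n => (rK k n : ℝ)) s * LS (fun n => (rK K' n : ℝ)) s := by
  have hq := discr_mod_four K h2
  rw [hK] at hq
  have hD' : (D : ℤ) % 4 = 1 := by omega
  have hDq : (D : ℤ) * -(q : ℤ) = -((D * q : ℕ) : ℤ) := by push_cast; ring
  have h1 : LS (fun n => (kap D n : ℝ) * rK K n) s =
      LS (fun n => (kap D n : ℝ)) s * LS (fun n => (kap (-((D * q : ℕ) : ℤ)) n : ℝ)) s := by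
    refine (LId_conv (fun n => (kap D n : ℝ)) (fun n => (kap (-((D * q : ℕ) : ℤ)) n : ℝ))
      (fun n => (kap D n : ℝ) * rK K n) hs (LId_bdd _ hs fun n => LId_abs_kap _ n)
      (LId_bdd _ hs fun n => LId_abs_kap _ n) fun n hn => ?_).2
    have h := rK_eq K h2 hn
    have h3 : (rK K n : ℝ) = ((rK K n : ℤ) : ℝ) := by push_cast; rfl
    rw [h3, h, Int.cast_sum, hK, Finset.mul_sum,
      ← Nat.sum_divisorsAntidiagonal' (fun _ m => (kap D n : ℝ) * (kap (-(q : ℤ)) m : ℝ))]
    refine Finset.sum_congr rfl fun p hp => ?_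
    obtain ⟨hp1, hp2⟩ := Nat.mem_divisorsAntidiagonal.mp hp
    have hpa : p.1 ≠ 0 := by rintro h0; rw [h0, zero_mul] at hp1; exact hp2 hp1.symm
    have hpb : p.2 ≠ 0 := by rintro h0; rw [h0, mul_zero] at hp1; exact hp2 hp1.symm
    rw [← hDq, kap_mul_left hD' hq hpb, ← hp1, kap_mul _ hpa hpb]
    push_cast
    ring
  rw [h1, LS_rK k hk2 hs, LS_rK K' hK2' hs, hk, hK']
  ring

end Pool.OCG
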