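import Pool.Agent.OCG.Defs

/-!
# Liouville inequality in a field of degree at most four

PAPER PROOF. `E = ℚ(α, β)` (`IntermediateField.adjoin ℚ {α, β}` in `ℝ`, or in `ℂ`), `[E : ℚ] ≤ 4` as `α`, `β` are roots
of `X² - tX + 1`, `X² - uX + 1`; `α`, `β` and `γ = ∑ c i α ^ a i β ^ b i` are algebraic integers. The norm of `γ` is a non
zero integer, it is the product of the `σ γ`, `σ : E → ℂ` (`Algebra.norm_eq_prod_embeddings`), `σ α ∈ {α, α⁻¹}`,
`σ β ∈ {β, β⁻¹}`, so `‖σ γ‖ ≤ ∑ |c i| α ^ a i β ^ b i ≤ M` and `1 ≤ |N γ| ≤ |γ| M ^ ([E : ℚ] - 1) ≤ |γ| M ^ 3`.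
-/

set_option autoImplicit false

namespace Pool.OCG

private theorem liou_root {α : ℝ} (h1 : 1 ≤ α) {t : ℤ} (ht : α + α⁻¹ = t) : α ^ 2 - t * α + 1 = 0 := by
  rw [← ht]
  field_simp
  ring

private theorem liou_int {α : ℝ} (h1 : 1 ≤ α) {t : ℤ} (ht : α + α⁻¹ = t) : IsIntegral ℤ α := by
  refine ⟨Polynomial.X ^ 2 - Polynomial.C t * Polynomial.X + 1, ?_, ?_⟩
  · monicity!
  · simp only [Polynomial.eval₂_add, Polynomial.eval₂_sub, Polynomial.eval₂_mul, Polynomial.eval₂_pow,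
      Polynomial.eval₂_X, Polynomial.eval₂_C, Polynomial.eval₂_one]
    exact liou_root h1 ht

private theorem liou_deg {α : ℝ} (h1 : 1 ≤ α) {t : ℤ} (ht : α + α⁻¹ = t) :
    Module.finrank ℚ (IntermediateField.adjoin ℚ {α}) ≤ 2 := by
  have hint : IsIntegral ℚ α := (liou_int h1 ht).tower_top
  rw [IntermediateField.adjoin.finrank hint]
  have hp : (Polynomial.X ^ 2 - Polynomial.C (t : ℚ) * Polynomial.X + 1 : Polynomial ℚ).natDegree = 2 := by
    compute_degree!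
  have hp0 : (Polynomial.X ^ 2 - Polynomial.C (t : ℚ) * Polynomial.X + 1 : Polynomial ℚ) ≠ 0 := by
    intro hc
    rw [hc] at hp
    simp at hp
  have hd : minpoly ℚ α ∣ (Polynomial.X ^ 2 - Polynomial.C (t : ℚ) * Polynomial.X + 1 : Polynomial ℚ) := by
    apply minpoly.dvd
    simp only [map_add, map_sub, map_mul, map_pow, Polynomial.aeval_X, Polynomial.aeval_C, map_one]
    have := liou_root h1 ht
    simpa using this
  have := Polynomial.natDegree_le_of_dvd hd hp0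
  rwa [hp] at this

private theorem liou_emb {α : ℝ} (h1 : 1 ≤ α) {t : ℤ} (ht : α + α⁻¹ = t) {x : ℂ} (hx : x ^ 2 - t * x + 1 = 0) :
    ‖x‖ ≤ α := by
  have h0 : (0 : ℝ) < α := by linarith
  have h2 : (x - (α : ℂ)) * (x - ((α⁻¹ : ℝ) : ℂ)) = 0 := by
    have h3 : (t : ℂ) = (α : ℂ) + ((α⁻¹ : ℝ) : ℂ) := by
      rw [← Complex.ofReal_add, ht]
      norm_cast
    have h4 : (α : ℂ) * ((α⁻¹ : ℝ) : ℂ) = 1 := by
      rw [← Complex.ofReal_mul, mul_inv_cancel₀ h0.ne']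
      norm_cast
    rw [h3] at hx
    linear_combination hx + h4
  rcases mul_eq_zero.1 h2 with h | h
  · rw [sub_eq_zero.1 h, Complex.norm_real, Real.norm_of_nonneg h0.le]
  · rw [sub_eq_zero.1 h, Complex.norm_real, Real.norm_of_nonneg (inv_nonneg.2 h0.le)]
    exact (inv_le_one_of_one_le₀ h1).trans h1

theorem liou {α β : ℝ} (h1 : 1 ≤ α) (h2 : 1 ≤ β) (t u : ℤ) (ht : α + α⁻¹ = t) (hu : β + β⁻¹ = u)
    {ι : Type} (S : Finset ι) (c : ι → ℤ) (a b : ι → ℕ) (M : ℝ) (hM1 : 1 ≤ M)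
    (hM : ∑ i ∈ S, |(c i : ℝ)| * α ^ a i * β ^ b i ≤ M)
    (h0 : ∑ i ∈ S, (c i : ℝ) * α ^ a i * β ^ b i ≠ 0) :
    1 ≤ M ^ 3 * |∑ i ∈ S, (c i : ℝ) * α ^ a i * β ^ b i| := by
  classical
  have hα0 : (0 : ℝ) < α := by linarith
  have hβ0 : (0 : ℝ) < β := by linarith
  obtain ⟨E, hE⟩ : ∃ E : IntermediateField ℚ ℝ, E = IntermediateField.adjoin ℚ {α} ⊔ IntermediateField.adjoin ℚ {β} :=
    ⟨_, rfl⟩
  have hαE : α ∈ E := by
    rw [hE]
    exact (le_sup_left : IntermediateField.adjoin ℚ {α} ≤ _) (IntermediateField.mem_adjoin_simple_self ℚ α)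
  have hβE : β ∈ E := by
    rw [hE]
    exact (le_sup_right : IntermediateField.adjoin ℚ {β} ≤ _) (IntermediateField.mem_adjoin_simple_self ℚ β)
  have fa : FiniteDimensional ℚ (IntermediateField.adjoin ℚ {α}) :=
    IntermediateField.adjoin.finiteDimensional (liou_int h1 ht).tower_top
  have fb : FiniteDimensional ℚ (IntermediateField.adjoin ℚ {β}) :=
    IntermediateField.adjoin.finiteDimensional (liou_int h2 hu).tower_top
  have fE : FiniteDimensional ℚ E := by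
    rw [hE]
    infer_instance
  have hrank : Module.finrank ℚ E ≤ 4 := by
    rw [hE]
    have h3 := IntermediateField.finrank_sup_le (IntermediateField.adjoin ℚ {α}) (IntermediateField.adjoin ℚ {β})
    have h4 := liou_deg h1 ht
    have h5 := liou_deg h2 hu
    calc _ ≤ _ := h3
      _ ≤ 2 * 2 := Nat.mul_le_mul h4 h5
  obtain ⟨x, hx⟩ : ∃ x : E, (x : ℝ) = α := ⟨⟨α, hαE⟩, rfl⟩
  obtain ⟨y, hy⟩ : ∃ y : E, (y : ℝ) = β := ⟨⟨β, hβE⟩, rfl⟩
  obtain ⟨g, hg⟩ : ∃ g : E, g = ∑ i ∈ S, (c i : E) * x ^ a i * y ^ b i := ⟨_, rfl⟩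
  have hgR : (g : ℝ) = ∑ i ∈ S, (c i : ℝ) * α ^ a i * β ^ b i := by
    rw [hg]
    push_cast
    rw [hx, hy]
  have hinj : Function.Injective (algebraMap E ℝ) := (algebraMap E ℝ).injective
  have hxi : IsIntegral ℤ x := by
    rw [← isIntegral_algebraMap_iff hinj]
    have : algebraMap E ℝ x = α := hx
    rw [this]
    exact liou_int h1 ht
  have hyi : IsIntegral ℤ y := by
    rw [← isIntegral_algebraMap_iff hinj]
    have : algebraMap E ℝ y = β := hy
    rw [this]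
    exact liou_int h2 hu
  have hgi : IsIntegral ℤ g := by
    rw [hg]
    refine IsIntegral.sum _ fun i _ => ?_
    have hc : IsIntegral ℤ (c i : E) := by
      have := isIntegral_algebraMap (R := ℤ) (A := E) (x := c i)
      simpa using this
    exact (hc.mul (hxi.pow _)).mul (hyi.pow _)
  have hg0 : g ≠ 0 := by
    intro hc
    apply h0
    rw [← hgR, hc]
    rfl
  obtain ⟨z, hz⟩ : ∃ z : ℤ, (z : ℚ) = Algebra.norm ℚ g := by
    have h3 := Algebra.isIntegral_norm ℚ hgi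
    obtain ⟨z, hz⟩ := IsIntegrallyClosed.isIntegral_iff.1 h3
    exact ⟨z, by rw [← hz]; rfl⟩
  have hz0 : z ≠ 0 := by
    intro hc
    rw [hc] at hz
    exact (Algebra.norm_ne_zero_iff.2 hg0) (by rw [← hz]; simp)
  have hprod := Algebra.norm_eq_prod_embeddings ℚ ℂ g
  rw [← hz] at hprod
  have hnorm : (1 : ℝ) ≤ ∏ σ : E →ₐ[ℚ] ℂ, ‖σ g‖ := by
    rw [← norm_prod, ← hprod]
    have h3 : ‖algebraMap ℚ ℂ (z : ℚ)‖ = |(z : ℝ)| := by
      simp
    rw [h3]
    exact_mod_cast Int.one_le_abs hz0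
  have hxroot : x ^ 2 - t * x + 1 = 0 := by
    apply hinj
    have h3 : algebraMap E ℝ x = α := hx
    rw [map_add, map_sub, map_mul, map_pow, h3, map_one, map_zero, map_intCast]
    exact liou_root h1 ht
  have hyroot : y ^ 2 - u * y + 1 = 0 := by
    apply hinj
    have h3 : algebraMap E ℝ y = β := hy
    rw [map_add, map_sub, map_mul, map_pow, h3, map_one, map_zero, map_intCast]
    exact liou_root h2 hu
  have hσ : ∀ σ : E →ₐ[ℚ] ℂ, ‖σ g‖ ≤ M := by
    intro σ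
    have h3 : ‖σ x‖ ≤ α := by
      apply liou_emb h1 ht
      have := congrArg σ hxroot
      simpa using this
    have h4 : ‖σ y‖ ≤ β := by
      apply liou_emb h2 hu
      have := congrArg σ hyroot
      simpa using this
    refine le_trans ?_ hM
    rw [hg, map_sum]
    refine (norm_sum_le _ _).trans (Finset.sum_le_sum fun i _ => ?_)
    rw [map_mul, map_mul, map_pow, map_pow, map_intCast, norm_mul, norm_mul, norm_pow, norm_pow, Complex.norm_intCast]
    gcongr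
  -- the real embedding
  obtain ⟨σ0, hσ0⟩ : ∃ σ0 : E →ₐ[ℚ] ℂ, ∀ w : E, σ0 w = ((w : ℝ) : ℂ) :=
    ⟨((Algebra.ofId ℝ ℂ).restrictScalars ℚ).comp E.val, fun w => rfl⟩
  have hcard : Fintype.card (E →ₐ[ℚ] ℂ) ≤ 4 := by
    rw [AlgHom.card]
    exact hrank
  rw [← Finset.mul_prod_erase Finset.univ _ (Finset.mem_univ σ0), hσ0, Complex.norm_real, hgR, Real.norm_eq_abs] at hnorm
  have hrest : ∏ σ ∈ Finset.univ.erase σ0, ‖σ g‖ ≤ M ^ 3 := by
    calc ∏ σ ∈ Finset.univ.erase σ0, ‖σ g‖ ≤ ∏ _σ ∈ Finset.univ.erase σ0, M :=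
          Finset.prod_le_prod (fun σ _ => norm_nonneg _) fun σ _ => hσ σ
      _ = M ^ (Finset.univ.erase σ0).card := by rw [Finset.prod_const]
      _ ≤ M ^ 3 := by
          apply pow_le_pow_right₀ hM1
          rw [Finset.card_erase_of_mem (Finset.mem_univ _), Finset.card_univ]
          omega
  have h3 := mul_le_mul_of_nonneg_left hrest (abs_nonneg (∑ i ∈ S, (c i : ℝ) * α ^ a i * β ^ b i))
  linarith

end Pool.OCG
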