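import Pool.Agent.OCG.Defs

/-!
# Small primes not dividing `q`

PAPER PROOF. Let `l = log q ≥ 128`, `y = 10 l`. `Chebyshev`: `θ(y) ≥ ψ(y) - 2 √y log y`
(`abs_psi_sub_theta_le_sqrt_mul_log`) and `ψ(n) = log (lcmUpto n) ≥ n log 2 - log (n + 1)` (`two_pow_le_mul_lcmUpto`,
`psi_eq_log_lcmUpto`), so with `n = ⌊y⌋`: `θ(y) ≥ 0.69 (y - 1) - log (y + 1) - 2 √y log y`. The product of the primes `≤ y` which divide `q`
is at most `q`, so the primes `≤ y` not dividing `q` have `∑ log p ≥ θ(y) - l ≥ 5.9 l - 1 - log (y + 1) - 2 √y log y > 5 log y` (for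
`l = 128`: `y = 1280`, `755 - 1 - 7.2 - 512 > 36`; `f(l) = 5.9 l - 1 - 6 log (10 l + 1) - 2 √(10 l) log (10 l)` is increasing), so there are at least
`6` of them, at least `5` odd ones, three of which are in the same class mod `4`.
-/

set_option autoImplicit false

namespace Pool.OCG

private lemma pick_num {y : ℝ} (hy : 1280 ≤ y) :
    y / 10 + 5 * Real.log y < Chebyshev.theta y := by
  have h0 := Chebyshev.theta_ge' (x := y) (by linarith)
  have hl2 := Real.log_two_gt_d9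
  have hl2' := Real.log_two_lt_d9
  set z := Real.sqrt y with hz
  have hy0 : 0 ≤ y := by linarith
  have hzz : z * z = y := Real.mul_self_sqrt hy0
  have hz35 : 35 ≤ z := by
    rw [hz]
    apply Real.le_sqrt_of_sq_le
    linarith
  have hz0 : 0 < z := by linarith
  have hlogy : Real.log y = 2 * Real.log z := by
    rw [← hzz, Real.log_mul hz0.ne' hz0.ne']
    ring
  have hlogz : Real.log z ≤ z / 32 + 2.4658 := by
    have h1 : Real.log (z / 32) ≤ z / 32 - 1 := Real.log_le_sub_one_of_pos (by positivity)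
    rw [Real.log_div hz0.ne' (by norm_num)] at h1
    have h2 : Real.log (32 : ℝ) = 5 * Real.log 2 := by
      have : (32 : ℝ) = 2 ^ 5 := by norm_num
      rw [this, Real.log_pow]
      norm_num
    rw [h2] at h1
    linarith
  have hlogw : Real.log (y + 2) ≤ (y + 2) / 1024 + 5.9316 := by
    have h1 : Real.log ((y + 2) / 1024) ≤ (y + 2) / 1024 - 1 :=
      Real.log_le_sub_one_of_pos (by positivity)
    rw [Real.log_div (by linarith) (by norm_num)] at h1
    have h2 : Real.log (1024 : ℝ) = 10 * Real.log 2 := by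
      have : (1024 : ℝ) = 2 ^ 10 := by norm_num
      rw [this, Real.log_pow]
      norm_num
    rw [h2] at h1
    linarith
  have hlogyw : Real.log y ≤ Real.log (y + 2) := Real.log_le_log (by linarith) (by linarith)
  have h3 : 2 * z * Real.log y ≤ y / 8 + 9.8632 * z := by
    rw [hlogy]
    have : 2 * z * (2 * Real.log z) ≤ 2 * z * (2 * (z / 32 + 2.4658)) :=
      mul_le_mul_of_nonneg_left (by linarith) (by linarith)
    refine this.trans (le_of_eq ?_)
    rw [← hzz]
    ring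
  have h4 : 0.6931 * (y - 1) ≤ (y - 1) * Real.log 2 := by nlinarith
  have h5 : 35 * z ≤ y := by rw [← hzz]; nlinarith
  linarith

theorem exists_primes (q : ℕ) (hq : 128 ≤ Real.log q) :
    ∃ r₁ r₂ r₃ : ℕ, r₁.Prime ∧ r₂.Prime ∧ r₃.Prime ∧ r₁ ≠ r₂ ∧ r₁ ≠ r₃ ∧ r₂ ≠ r₃ ∧
      ¬ r₁ ∣ q ∧ ¬ r₂ ∣ q ∧ ¬ r₃ ∣ q ∧ r₁ * r₂ % 4 = 1 ∧ r₁ * r₃ % 4 = 1 ∧
      (r₁ : ℝ) ≤ 10 * Real.log q ∧ (r₂ : ℝ) ≤ 10 * Real.log q ∧ (r₃ : ℝ) ≤ 10 * Real.log q := by
  set y : ℝ := 10 * Real.log q with hy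
  have hy1280 : 1280 ≤ y := by rw [hy]; linarith
  have hq0 : q ≠ 0 := by
    rintro rfl
    simp at hq
    linarith
  have hth := pick_num hy1280
  rw [Chebyshev.theta_eq_sum_primesLE] at hth
  set P := Nat.primesLE ⌊y⌋₊ with hP
  have hPm : ∀ p ∈ P, p.Prime ∧ (p : ℝ) ≤ y := by
    intro p hp
    rw [hP, Nat.mem_primesLE] at hp
    refine ⟨hp.2, ?_⟩
    exact le_trans (by exact_mod_cast hp.1) (Nat.floor_le (by linarith))
  -- the primes dividing `q`
  have hS : ∑ p ∈ P.filter (fun p => p ∣ q), Real.log p ≤ Real.log q := by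
    have h1 : ∏ p ∈ P.filter (fun p => p ∣ q), p ∣ q := by
      apply Finset.prod_primes_dvd
      · intro p hp
        rw [Finset.mem_filter] at hp
        exact (hPm p hp.1).1.prime
      · intro p hp
        exact (Finset.mem_filter.1 hp).2
    have h2 : ∑ p ∈ P.filter (fun p => p ∣ q), Real.log p =
        Real.log ((∏ p ∈ P.filter (fun p => p ∣ q), p : ℕ) : ℝ) := by
      rw [Nat.cast_prod, Real.log_prod]
      intro p hp
      rw [Finset.mem_filter] at hp
      exact_mod_cast (hPm p hp.1).1.ne_zero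
    rw [h2]
    apply Real.log_le_log
    · have : 0 < ∏ p ∈ P.filter (fun p => p ∣ q), p := Nat.pos_of_dvd_of_pos h1 (by omega)
      exact_mod_cast this
    · exact_mod_cast Nat.le_of_dvd (by omega) h1
  have hN : ∑ p ∈ P.filter (fun p => ¬ p ∣ q), Real.log p ≤
      ((P.filter (fun p => ¬ p ∣ q)).card : ℝ) * Real.log y := by
    rw [← nsmul_eq_mul]
    apply Finset.sum_le_card_nsmul
    intro p hp
    rw [Finset.mem_filter] at hp
    have h1 := hPm p hp.1
    exact Real.log_le_log (by exact_mod_cast h1.1.pos) h1.2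
  have hsum := Finset.sum_filter_add_sum_filter_not P (fun p => p ∣ q) (fun p => Real.log (p : ℝ))
  have hlogy : 0 < Real.log y := Real.log_pos (by linarith)
  have hcard : 6 ≤ (P.filter (fun p => ¬ p ∣ q)).card := by
    have h1 : 5 * Real.log y < ((P.filter (fun p => ¬ p ∣ q)).card : ℝ) * Real.log y := by
      have h2 : y / 10 = Real.log q := by rw [hy]; ring
      rw [h2] at hth
      linarith
    have h3 : (5 : ℝ) < ((P.filter (fun p => ¬ p ∣ q)).card : ℝ) := lt_of_mul_lt_mul_right h1 hlogy.le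
    have h4 : 5 < (P.filter (fun p => ¬ p ∣ q)).card := by exact_mod_cast h3
    omega
  set N := (P.filter (fun p => ¬ p ∣ q)).erase 2 with hNdef
  have hNc : 5 ≤ N.card := by
    have := Finset.pred_card_le_card_erase (s := P.filter (fun p => ¬ p ∣ q)) (a := 2)
    rw [hNdef]
    omega
  have hNm : ∀ p ∈ N, p.Prime ∧ ¬ p ∣ q ∧ (p : ℝ) ≤ y ∧ (p % 4 = 1 ∨ p % 4 = 3) := by
    intro p hp
    rw [hNdef, Finset.mem_erase, Finset.mem_filter] at hp
    have h1 := hPm p hp.2.1
    refine ⟨h1.1, hp.2.2, h1.2, ?_⟩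
    rcases h1.1.eq_two_or_odd with h2 | h2
    · exact absurd h2 hp.1
    · omega
  have hpig : 2 < (N.filter (fun p => p % 4 = 1)).card ∨
      2 < (N.filter (fun p => p % 4 = 3)).card := by
    by_contra hcon
    push Not at hcon
    have h1 : N ⊆ N.filter (fun p => p % 4 = 1) ∪ N.filter (fun p => p % 4 = 3) := by
      intro p hp
      rw [Finset.mem_union, Finset.mem_filter, Finset.mem_filter]
      rcases (hNm p hp).2.2.2 with h2 | h2
      · exact Or.inl ⟨hp, h2⟩
      · exact Or.inr ⟨hp, h2⟩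
    have h3 := (Finset.card_le_card h1).trans (Finset.card_union_le _ _)
    omega
  rcases hpig with hpig | hpig
  · obtain ⟨a, ha, b, hb, c, hc, hab, hac, hbc⟩ := Finset.two_lt_card.1 hpig
    rw [Finset.mem_filter] at ha hb hc
    have ha' := hNm a ha.1
    have hb' := hNm b hb.1
    have hc' := hNm c hc.1
    refine ⟨a, b, c, ha'.1, hb'.1, hc'.1, hab, hac, hbc, ha'.2.1, hb'.2.1, hc'.2.1, ?_, ?_,
      ha'.2.2.1, hb'.2.2.1, hc'.2.2.1⟩
    · rw [Nat.mul_mod, ha.2, hb.2]
    · rw [Nat.mul_mod, ha.2, hc.2]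
  · obtain ⟨a, ha, b, hb, c, hc, hab, hac, hbc⟩ := Finset.two_lt_card.1 hpig
    rw [Finset.mem_filter] at ha hb hc
    have ha' := hNm a ha.1
    have hb' := hNm b hb.1
    have hc' := hNm c hc.1
    refine ⟨a, b, c, ha'.1, hb'.1, hc'.1, hab, hac, hbc, ha'.2.1, hb'.2.1, hc'.2.1, ?_, ?_,
      ha'.2.2.1, hb'.2.2.1, hc'.2.2.1⟩
    · rw [Nat.mul_mod, ha.2, hb.2]
    · rw [Nat.mul_mod, ha.2, hc.2]

end Pool.OCG
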