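import Pool.Agent.OCG.OneD
import Pool.Agent.OCG.Contra
import Pool.Agent.OCG.Pick

/-!
# Divisors near the square root for one class per genus
-/

set_option autoImplicit false

open scoped NumberField nonZeroDivisors

namespace Pool.OCG

theorem trivial_range {x : ℝ} (hx : 3 ≤ x) (hl : Real.log x ≤ 128) :
    Real.sqrt x ≤ 10 ^ 14 * (Real.log x) ^ 7 := by
  set l := Real.log x with hldef
  have hx0 : 0 < x := by linarith
  have hl1 : 1 ≤ l := by
    rw [hldef, Real.le_log_iff_exp_le hx0]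
    exact (Real.exp_one_lt_d9.le.trans (by norm_num)).trans hx
  have hs : Real.sqrt x = Real.exp (l / 2) := by
    rw [Real.sqrt_eq_iff_mul_self_eq hx0.le (Real.exp_pos _).le, ← Real.exp_add]
    rw [add_halves, hldef, Real.exp_log hx0]
  have he : Real.exp 1 < 2.7182818286 := Real.exp_one_lt_d9
  have hexp : ∀ n : ℕ, Real.exp (n : ℝ) ≤ (2.7182818286 : ℝ) ^ n := by
    intro n
    have : Real.exp (n : ℝ) = Real.exp 1 ^ n := by
      rw [← Real.exp_nat_mul, mul_one]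
    rw [this]
    exact pow_le_pow_left₀ (Real.exp_pos _).le he.le n
  rw [hs]
  have key : ∀ (n : ℕ) (c : ℝ), 0 ≤ c → c ≤ l → l ≤ 2 * n →
      (2.7182818286 : ℝ) ^ n ≤ 10 ^ 14 * c ^ 7 → Real.exp (l / 2) ≤ 10 ^ 14 * l ^ 7 := by
    intro n c hc hcl hln hn
    calc Real.exp (l / 2) ≤ Real.exp (n : ℝ) := Real.exp_le_exp.2 (by linarith)
      _ ≤ _ := hexp n
      _ ≤ 10 ^ 14 * c ^ 7 := hn
      _ ≤ 10 ^ 14 * l ^ 7 := by
          have := pow_le_pow_left₀ hc hcl 7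
          linarith
  rcases le_or_gt l 64 with h1 | h1
  · exact key 32 1 zero_le_one hl1 (by norm_num; exact h1) (by norm_num)
  rcases le_or_gt l 100 with h2 | h2
  · exact key 50 64 (by norm_num) h1.le (by norm_num; exact h2) (by norm_num)
  rcases le_or_gt l 120 with h3 | h3
  · exact key 60 100 (by norm_num) h2.le (by norm_num; exact h3) (by norm_num)
  · exact key 64 120 (by norm_num) h3.le (by norm_num; exact hl) (by norm_num)

/-- The discriminant of an imaginary quadratic field with class group of exponent at most two has a divisor in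
`[√q / (10^14 (log q)^7), √q]`. -/
theorem main (K : Type) [Field K] [NumberField K] (h2 : Module.finrank ℚ K = 2) (q : ℕ)
    (hK : NumberField.discr K = -(q : ℤ)) (hexp : ∀ A : ClassGroup (𝓞 K), A ^ 2 = 1) :
    ∃ d : ℕ, d ∣ q ∧ d ^ 2 ≤ q ∧ Real.sqrt q ≤ 10 ^ 14 * (Real.log q) ^ 7 * d := by
  have hq3 : 3 ≤ q := by
    have h1 := discr_mod_four K h2
    have h0 : q ≠ 0 := by
      rintro rfl
      exact NumberField.discr_ne_zero K (by simpa using hK)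
    rw [hK] at h1
    omega
  have hq3' : (3 : ℝ) ≤ q := by exact_mod_cast hq3
  have hq0 : (0 : ℝ) < q := by linarith
  rcases le_or_gt (Real.log q) 128 with hl | hl
  · refine ⟨1, one_dvd _, by omega, ?_⟩
    have := trivial_range hq3' hl
    simpa using this
  by_contra hcon
  push Not at hcon
  have hl0 : 0 < Real.log q := by linarith
  have hW : 0 < 10 ^ 14 * (Real.log q) ^ 7 := by positivity
  have hno : ∀ d : ℕ, d ∣ q → (d : ℝ) ≤ Real.sqrt q →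
      (d : ℝ) < Real.sqrt q / (10 ^ 14 * (Real.log q) ^ 7) := by
    intro d hd hds
    have h1 : d ^ 2 ≤ q := by
      have h2 : (d : ℝ) ^ 2 ≤ q := by
        calc (d : ℝ) ^ 2 ≤ (Real.sqrt q) ^ 2 := pow_le_pow_left₀ (Nat.cast_nonneg _) hds 2
          _ = q := Real.sq_sqrt hq0.le
      exact_mod_cast h2
    have h3 := hcon d hd h1
    rw [lt_div_iff₀ hW]
    linarith
  obtain ⟨r₁, r₂, r₃, hp₁, hp₂, hp₃, h12, h13, h23, hq₁, hq₂, hq₃, hD₁, hD₂, hb₁, hb₂, hb₃⟩ :=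
    exists_primes q hl.le
  have hbd : ∀ a b : ℕ, (a : ℝ) ≤ 10 * Real.log q → (b : ℝ) ≤ 10 * Real.log q →
      ((a * b : ℕ) : ℝ) ≤ 100 * (Real.log q) ^ 2 := by
    intro a b ha hb
    push_cast
    calc (a : ℝ) * b ≤ (10 * Real.log q) * (10 * Real.log q) :=
          mul_le_mul ha hb (Nat.cast_nonneg _) (by positivity)
      _ = _ := by ring
  obtain ⟨α, t, b, k₁, N₁, a1, a2, a3, a4, a5, a6, a7⟩ := one_disc K h2 q hl.le hK hexp hno r₁ r₂
    hp₁ hp₂ h12 hD₁ hq₁ hq₂ (hbd _ _ hb₁ hb₂)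
  obtain ⟨β, u, c, k₂, N₂, c1, c2, c3, c4, c5, c6, c7⟩ := one_disc K h2 q hl.le hK hexp hno r₁ r₃
    hp₁ hp₃ h13 hD₂ hq₁ hq₃ (hbd _ _ hb₁ hb₃)
  refine contra q hl.le (r₁ * r₂) (r₁ * r₃) (Nat.mul_pos hp₁.pos hp₂.pos)
    (Nat.mul_pos hp₁.pos hp₃.pos) (hbd _ _ hb₁ hb₂) (hbd _ _ hb₁ hb₃) ?_ a1 c1 t u b c a2 c2 a3 c3
    a4 c4 k₁ k₂ a5 c5 N₁ N₂ a6 c6 a7 c7
  -- not a square
  rintro ⟨z, hz⟩
  have h1 : r₂ ∣ z * z := by
    rw [← hz]
    exact ⟨r₁ * (r₁ * r₃), by ring⟩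
  have h2 : r₂ ∣ z := by
    rcases (Nat.Prime.dvd_mul hp₂).1 h1 with h | h <;> exact h
  obtain ⟨w, rfl⟩ := h2
  have h3 : r₁ * (r₁ * r₃) = r₂ * (w * w) := by
    have := hp₂.pos
    apply Nat.eq_of_mul_eq_mul_left this
    calc r₂ * (r₁ * (r₁ * r₃)) = r₁ * r₂ * (r₁ * r₃) := by ring
      _ = r₂ * w * (r₂ * w) := hz
      _ = r₂ * (r₂ * (w * w)) := by ring
  have h4 : r₂ ∣ r₁ * (r₁ * r₃) := ⟨_, h3⟩
  rcases (Nat.Prime.dvd_mul hp₂).1 h4 with h | h
  · exact h12 ((Nat.prime_dvd_prime_iff_eq hp₂ hp₁).1 h).symm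
  rcases (Nat.Prime.dvd_mul hp₂).1 h with h | h
  · exact h12 ((Nat.prime_dvd_prime_iff_eq hp₂ hp₁).1 h).symm
  · exact h23 ((Nat.prime_dvd_prime_iff_eq hp₂ hp₃).1 h)

end Pool.OCG
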