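import Pool.Agent.OCG.OneD
import Pool.Agent.OCG.ConG
import Pool.Agent.OCG.Main

/-!
# Divisors near the square root for one class per genus: general form
-/

set_option autoImplicit false

open scoped NumberField nonZeroDivisors

namespace Pool.OCG

theorem trivial_range_two {x : ℝ} (hx : 3 ≤ x) (hl : Real.log x ≤ 64) :
    Real.sqrt x ≤ 9 * 10 ^ 13 * (Real.log x) ^ 2 := by
  set l := Real.log x with hldef
  have hx0 : 0 < x := by linarith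
  have hl1 : 1 ≤ l := by
    rw [hldef, Real.le_log_iff_exp_le hx0]
    exact (Real.exp_one_lt_d9.le.trans (by norm_num)).trans hx
  have hs : Real.sqrt x = Real.exp (l / 2) := by
    rw [Real.sqrt_eq_iff_mul_self_eq hx0.le (Real.exp_pos _).le, ← Real.exp_add]
    rw [add_halves, hldef, Real.exp_log hx0]
  rw [hs]
  have h32 : Real.exp (32 : ℝ) ≤ 9 * 10 ^ 13 := by
    have h1 : Real.exp (32 : ℝ) = Real.exp 1 ^ 32 := by
      rw [← Real.exp_nat_mul]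
      norm_num
    rw [h1]
    exact (pow_le_pow_left₀ (Real.exp_pos _).le Real.exp_one_lt_d9.le 32).trans (by norm_num)
  calc Real.exp (l / 2) ≤ Real.exp 32 := Real.exp_le_exp.2 (by linarith)
    _ ≤ 9 * 10 ^ 13 * 1 := by linarith
    _ ≤ 9 * 10 ^ 13 * l ^ 2 := by
        have : (1 : ℝ) ≤ l ^ 2 := one_le_pow₀ hl1
        linarith

theorem not_square_aux {r₁ r₂ r₃ : ℕ} (hp₁ : r₁.Prime) (hp₂ : r₂.Prime) (hp₃ : r₃.Prime)
    (h12 : r₁ ≠ r₂) (h23 : r₂ ≠ r₃) : ¬ IsSquare (r₁ * r₂ * (r₁ * r₃)) := by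
  rintro ⟨z, hz⟩
  have h1 : r₂ ∣ z * z := by
    rw [← hz]
    exact ⟨r₁ * (r₁ * r₃), by ring⟩
  have h2 : r₂ ∣ z := by
    rcases (Nat.Prime.dvd_mul hp₂).1 h1 with h | h <;> exact h
  obtain ⟨w, rfl⟩ := h2
  have h3 : r₁ * (r₁ * r₃) = r₂ * (w * w) := by
    have := hp₂.pos
    apply Nat.eq_of_mul_eq_mul_left this
    calc r₂ * (r₁ * (r₁ * r₃)) = r₁ * r₂ * (r₁ * r₃) := by ring
      _ = r₂ * w * (r₂ * w) := hz
      _ = r₂ * (r₂ * (w * w)) := by ring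
  have h4 : r₂ ∣ r₁ * (r₁ * r₃) := ⟨_, h3⟩
  rcases (Nat.Prime.dvd_mul hp₂).1 h4 with h | h
  · exact h12 ((Nat.prime_dvd_prime_iff_eq hp₂ hp₁).1 h).symm
  rcases (Nat.Prime.dvd_mul hp₂).1 h with h | h
  · exact h12 ((Nat.prime_dvd_prime_iff_eq hp₂ hp₁).1 h).symm
  · exact h23 ((Nat.prime_dvd_prime_iff_eq hp₂ hp₃).1 h)

/-- General form: for every triple of odd primes not dividing `q` in the same class mod `4`. -/
theorem main_gen (K : Type) [Field K] [NumberField K] (h2 : Module.finrank ℚ K = 2) (q : ℕ)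
    (hK : NumberField.discr K = -(q : ℤ)) (hexp : ∀ A : ClassGroup (𝓞 K), A ^ 2 = 1)
    (r₁ r₂ r₃ : ℕ) (hr₁ : r₁.Prime) (hr₂ : r₂.Prime) (hr₃ : r₃.Prime) (h12 : r₁ ≠ r₂)
    (h13 : r₁ ≠ r₃) (h23 : r₂ ≠ r₃) (hq₁ : ¬ r₁ ∣ q) (hq₂ : ¬ r₂ ∣ q) (hq₃ : ¬ r₃ ∣ q)
    (hD₁ : r₁ * r₂ % 4 = 1) (hD₂ : r₁ * r₃ % 4 = 1) (R : ℝ) (hR₁ : (r₁ : ℝ) ≤ R)
    (hR₂ : (r₂ : ℝ) ≤ R) (hR₃ : (r₃ : ℝ) ≤ R) :
    ∃ d : ℕ, d ∣ q ∧ d ^ 2 ≤ q ∧
      Real.sqrt q ≤ 10 ^ 10 * R ^ 4 * (1 + Real.log R) ^ 2 * (Real.log q) ^ 2 * d := by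
  have hq3 : 3 ≤ q := by
    have h1 := discr_mod_four K h2
    have h0 : q ≠ 0 := by
      rintro rfl
      exact NumberField.discr_ne_zero K (by simpa using hK)
    rw [hK] at h1
    omega
  have hq3' : (3 : ℝ) ≤ q := by exact_mod_cast hq3
  have hq0 : (0 : ℝ) < q := by linarith
  -- `R ≥ 7`
  have hne2 : r₁ ≠ 2 ∧ r₂ ≠ 2 ∧ r₃ ≠ 2 := by
    refine ⟨?_, ?_, ?_⟩ <;> rintro rfl <;> omega
  have hR7 : 7 ≤ R := by
    have h3 : 7 ≤ r₁ ∨ 7 ≤ r₂ ∨ 7 ≤ r₃ := by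
      by_contra hcon
      push Not at hcon
      obtain ⟨c1, c2, c3⟩ := hcon
      have key : ∀ r : ℕ, r.Prime → r < 7 → r ≠ 2 → r = 3 ∨ r = 5 := by
        intro r hr h7 hr2
        interval_cases r <;> simp_all (config := {decide := true})
      have k1 := key r₁ hr₁ c1 hne2.1
      have k2 := key r₂ hr₂ c2 hne2.2.1
      have k3 := key r₃ hr₃ c3 hne2.2.2
      omega
    rcases h3 with h | h | h
    · exact (by exact_mod_cast h : (7 : ℝ) ≤ r₁).trans hR₁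
    · exact (by exact_mod_cast h : (7 : ℝ) ≤ r₂).trans hR₂
    · exact (by exact_mod_cast h : (7 : ℝ) ≤ r₃).trans hR₃
  have hR0 : 0 < R := by linarith
  have hlR : 1 ≤ Real.log R := by
    rw [Real.le_log_iff_exp_le hR0]
    linarith [Real.exp_one_lt_d9]
  have hRR : (2401 : ℝ) * 4 ≤ R ^ 4 * (1 + Real.log R) ^ 2 := by
    have h1 : (2401 : ℝ) ≤ R ^ 4 := by
      have := pow_le_pow_left₀ (by norm_num : (0 : ℝ) ≤ 7) hR7 4
      norm_num at this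
      exact this
    have h2 : (4 : ℝ) ≤ (1 + Real.log R) ^ 2 := by nlinarith
    exact mul_le_mul h1 h2 (by norm_num) (by positivity)
  set W₀ : ℝ := 10 ^ 10 * R ^ 4 * (1 + Real.log R) ^ 2 with hW₀
  have hW₀' : 9 * 10 ^ 13 ≤ W₀ := by
    rw [hW₀]
    nlinarith
  rcases le_or_gt (Real.log q) 64 with hl | hl
  · refine ⟨1, one_dvd _, by omega, ?_⟩
    -- the trivial range
    have h1 := trivial_range_two hq3' hl
    have h2 : (0 : ℝ) ≤ (Real.log q) ^ 2 := by positivity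
    have h3 := mul_le_mul_of_nonneg_right hW₀' h2
    simpa using h1.trans h3
  by_contra hcon
  push Not at hcon
  have hl0 : 0 < Real.log q := by linarith
  set W : ℝ := W₀ * (Real.log q) ^ 2 with hW
  have hl2 : 64 ^ 2 ≤ (Real.log q) ^ 2 := pow_le_pow_left₀ (by norm_num) hl.le 2
  have hW2 : 9 * 10 ^ 13 * 64 ^ 2 ≤ W := mul_le_mul hW₀' hl2 (by norm_num) (by linarith)
  have hWpos : 0 < W := by linarith
  have hno : ∀ d : ℕ, d ∣ q → (d : ℝ) ≤ Real.sqrt q → (d : ℝ) < Real.sqrt q / W := by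
    intro d hd hds
    have h1 : d ^ 2 ≤ q := by
      have h2 : (d : ℝ) ^ 2 ≤ q := by
        calc (d : ℝ) ^ 2 ≤ (Real.sqrt q) ^ 2 := pow_le_pow_left₀ (Nat.cast_nonneg _) hds 2
          _ = q := Real.sq_sqrt hq0.le
      exact_mod_cast h2
    have h3 := hcon d hd h1
    rw [lt_div_iff₀ hWpos]
    rw [hW]
    linarith
  -- `R ^ 8 ≤ q`
  have hs1 : W < Real.sqrt q := by
    have h1 := hcon 1 (one_dvd _) (by omega)
    rw [hW]
    simpa using h1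
  have hR4 : R ^ 4 ≤ W := by
    rw [hW, hW₀]
    have h1 : (1 : ℝ) ≤ (1 + Real.log R) ^ 2 := by nlinarith
    have h2 : (1 : ℝ) ≤ (Real.log q) ^ 2 := by linarith
    have h3 : 0 < R ^ 4 := by positivity
    have h4 : R ^ 4 * 1 ≤ R ^ 4 * (10 ^ 10 * (1 + Real.log R) ^ 2 * (Real.log q) ^ 2) := by
      apply mul_le_mul_of_nonneg_left _ h3.le
      have h5 : (1 : ℝ) ≤ 10 ^ 10 * (1 + Real.log R) ^ 2 := by nlinarith
      exact one_le_mul_of_one_le_of_one_le h5 h2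
    calc R ^ 4 = R ^ 4 * 1 := (mul_one _).symm
      _ ≤ _ := h4
      _ = _ := by ring
  have hM : (R ^ 2) ^ 4 ≤ (q : ℝ) := by
    calc (R ^ 2) ^ 4 = (R ^ 4) ^ 2 := by ring
      _ ≤ (Real.sqrt q) ^ 2 := pow_le_pow_left₀ (by positivity) (hR4.trans hs1.le) 2
      _ = q := Real.sq_sqrt hq0.le
  have hbd : ∀ a b : ℕ, (a : ℝ) ≤ R → (b : ℝ) ≤ R → ((a * b : ℕ) : ℝ) ≤ R ^ 2 := by
    intro a b ha hb
    push_cast
    calc (a : ℝ) * b ≤ R * R := mul_le_mul ha hb (Nat.cast_nonneg _) hR0.le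
      _ = _ := by ring
  have hDW : ∀ a b : ℕ, 0 < a * b → ((a * b : ℕ) : ℝ) ≤ R ^ 2 →
      2 ≤ Real.pi * W / ((a * b : ℕ) : ℝ) := by
    intro a b h0 hab
    have h0' : (0 : ℝ) < ((a * b : ℕ) : ℝ) := by exact_mod_cast h0
    rw [le_div_iff₀ h0']
    have h1 : R ^ 2 ≤ R ^ 4 := pow_le_pow_right₀ (by linarith) (by norm_num)
    have h2 := Real.pi_gt_three
    nlinarith
  obtain ⟨α, t, b, k₁, N₁, a1, a2, a3, a4, a5, a6, a7⟩ := one_disc_gen K h2 q (by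
      have : (64 : ℝ) < q := by
        have := Real.log_le_sub_one_of_pos hq0
        linarith
      have : 64 < q := by exact_mod_cast this
      omega) hK hexp W (by linarith) hno r₁ r₂
    hr₁ hr₂ h12 hD₁ hq₁ hq₂ (hDW _ _ (Nat.mul_pos hr₁.pos hr₂.pos) (hbd _ _ hR₁ hR₂))
  obtain ⟨β, u, c, k₂, N₂, c1, c2, c3, c4, c5, c6, c7⟩ := one_disc_gen K h2 q (by
      have : (64 : ℝ) < q := by
        have := Real.log_le_sub_one_of_pos hq0
        linarith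
      have : 64 < q := by exact_mod_cast this
      omega) hK hexp W (by linarith) hno r₁ r₃
    hr₁ hr₃ h13 hD₂ hq₁ hq₃ (hDW _ _ (Nat.mul_pos hr₁.pos hr₃.pos) (hbd _ _ hR₁ hR₃))
  refine contra_gen q hl.le (r₁ * r₂) (r₁ * r₃) (Nat.mul_pos hr₁.pos hr₂.pos)
    (Nat.mul_pos hr₁.pos hr₃.pos) (R ^ 2) (hbd _ _ hR₁ hR₂) (hbd _ _ hR₁ hR₃) hM
    (not_square_aux hr₁ hr₂ hr₃ h12 h23) a1 c1 t u b c a2 c2 a3 c3
    a4 c4 k₁ k₂ a5 c5 N₁ N₂ a6 c6 W ?_ a7 c7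
  have e1 : Real.log (R ^ 2) = 2 * Real.log R := by
    rw [Real.log_pow]
    norm_num
  rw [e1, hW, hW₀]
  have h1 : (0 : ℝ) ≤ R ^ 4 * (1 + Real.log R) ^ 2 * (Real.log q) ^ 2 := by positivity
  calc 4 * 10 ^ 8 * (R ^ 2) ^ 2 * (2 + 2 * Real.log R) ^ 2 * (Real.log q) ^ 2
      = 16 * 10 ^ 8 * (R ^ 4 * (1 + Real.log R) ^ 2 * (Real.log q) ^ 2) := by ring
    _ ≤ 10 ^ 10 * (R ^ 4 * (1 + Real.log R) ^ 2 * (Real.log q) ^ 2) := by linarith
    _ = _ := by ring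

end Pool.OCG
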