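import Pool.Agent.OCG.Defs
import Pool.Agent.Hhelper85.CZ.Param

/-!
# Class number formula for an imaginary quadratic field

PAPER PROOF. `nrRealPlaces = 0`, `nrComplexPlaces = 1` (`NumberField.sign_discr`, `card_add_two_mul_card_eq_rank`), the unit
rank is `0`, so the regulator is `1` (determinant of a `0 × 0` matrix, `regulator_eq_det`), and the torsion order is `2` for `M > 4`: a root of unity `ζ` in
`K` of order `n` has `φ(n) ≤ 2`, `n ∈ {1, 2, 3, 4, 6}`, and `n ∈ {3, 4, 6}` gives `K = ℚ(√-3)` or `ℚ(i)` of discriminant `-3`, `-4`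
(or: with `exists_omega'` (`Pool/Agent/Hhelper76/SC/QIdeal.lean`) a unit `m + n ω` has norm `1`, `4 = (2m + tn)² + M n²`, `M > 4`, so
`n = 0`, `m = ± 1`: all units are `±1`, so the torsion subgroup has two elements).
Residue: `2⁰ (2π)¹ · 1 · h / (2 √M) = π h / √M`.
-/

set_option autoImplicit false

open scoped NumberField nonZeroDivisors

namespace Pool.OCG

open NumberField NumberField.InfinitePlace in
/-- The numbers of real and complex places of an imaginary quadratic field. -/
theorem resi_places (K' : Type) [Field K'] [NumberField K'] (h2 : Module.finrank ℚ K' = 2) (M : ℕ)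
    (hM : 4 < M) (hK' : NumberField.discr K' = -(M : ℤ)) :
    nrRealPlaces K' = 0 ∧ nrComplexPlaces K' = 1 := by
  have h1 := card_add_two_mul_card_eq_rank K'
  rw [h2] at h1
  have h3 := NumberField.sign_discr K'
  have h4 : (NumberField.discr K').sign = -1 := by
    rw [hK']
    apply Int.sign_eq_neg_one_of_neg
    omega
  rw [h4] at h3
  rcases Nat.eq_zero_or_pos (nrComplexPlaces K') with h0 | h0
  · rw [h0] at h3
    norm_num at h3
  · constructor <;> omega

open NumberField NumberField.Units in
/-- All units are `±1`, so the torsion order is `2`. -/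
theorem resi_torsion (K' : Type) [Field K'] [NumberField K'] (h2 : Module.finrank ℚ K' = 2) (M : ℕ)
    (hM : 4 < M) (hK' : NumberField.discr K' = -(M : ℤ)) :
    torsionOrder K' = 2 := by
  classical
  obtain ⟨ω, t, q, hspan, -, hnorm, hdisc⟩ := Pool.Hhelper85.CZ.exists_omega K' h2
  have hD : 4 < 4 * q - t ^ 2 := by
    rw [hK'] at hdisc
    have : (4 : ℤ) < (M : ℤ) := by exact_mod_cast hM
    linarith
  let := Fintype.ofFinite (torsion K')
  rw [torsionOrder, Nat.card_eq_fintype_card]
  refine (Finset.card_eq_two.2 ⟨1, ⟨-1, neg_one_mem_torsion⟩,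
    by simp [← Subtype.coe_ne_coe], Finset.ext fun x ↦ ⟨fun _ ↦ ?_, fun _ ↦ Finset.mem_univ _⟩⟩)
  rw [Finset.mem_insert, Finset.mem_singleton, ← Subtype.val_inj, ← Subtype.val_inj]
  rcases Pool.Hhelper85.CZ.unit_pm K' hspan hnorm hD (x : (𝓞 K')ˣ) with h | h
  · left
    exact Units.ext h
  · right
    exact Units.ext (by simpa using h)

open NumberField NumberField.Units NumberField.InfinitePlace in
/-- The unit rank is `0`, so the regulator is `1`. -/
theorem resi_regulator (K' : Type) [Field K'] [NumberField K'] (h2 : Module.finrank ℚ K' = 2)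
    (M : ℕ) (hM : 4 < M) (hK' : NumberField.discr K' = -(M : ℤ)) :
    regulator K' = 1 := by
  classical
  obtain ⟨hr, hc⟩ := resi_places K' h2 M hM hK'
  have hcard : Fintype.card (InfinitePlace K') = 1 := by
    rw [card_eq_nrRealPlaces_add_nrComplexPlaces, hr, hc]
  have hrank : rank K' = 0 := by
    unfold NumberField.Units.rank
    rw [hcard]
  have hE : IsEmpty {w : InfinitePlace K' // w ≠ dirichletUnitTheorem.w₀} := by
    have e := (equivFinRank (K := K')).symm
    rw [hrank] at e
    exact e.isEmpty
  rw [regulator_eq_det', Matrix.det_isEmpty, abs_one]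

theorem res_imag (K' : Type) [Field K'] [NumberField K'] (h2 : Module.finrank ℚ K' = 2) (M : ℕ)
    (hM : 4 < M) (hK' : NumberField.discr K' = -(M : ℤ)) :
    NumberField.dedekindZeta_residue K' =
      Real.pi * (NumberField.classNumber K' : ℝ) / Real.sqrt M := by
  obtain ⟨hr, hc⟩ := resi_places K' h2 M hM hK'
  have hM0 : (0 : ℝ) < Real.sqrt M := Real.sqrt_pos.mpr (by exact_mod_cast (by omega : 0 < M))
  rw [NumberField.dedekindZeta_residue_def, hr, hc, resi_torsion K' h2 M hM hK',
    resi_regulator K' h2 M hM hK', hK']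
  have h5 : |(((-(M : ℤ)) : ℤ) : ℝ)| = (M : ℝ) := by
    push_cast
    rw [abs_neg, Nat.abs_cast]
  rw [h5]
  push_cast
  field_simp

end Pool.OCG
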