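import Pool.Agent.OCG.Defs
import Pool.Agent.Hhelper85.RQ.Struct
import Pool.Agent.Hhelper76.SC.QIdeal

/-!
# Class number formula for a real quadratic field

PAPER PROOF. `real_quadratic_structure` (`Pool/Agent/Hhelper85/RQ/Struct.lean`): embeddings `φ₁ ≠ φ₂ : K →+* ℝ`, a unit `η` with
`|φ₁ η| > 1`, `log |φ₁ η| = regulator`. Let `h = classNumber k`, `ε = η ^ (2 h)`, `α = φ₁ ε = |φ₁ η| ^ (2 h) > 1`. The norm of `ε` is a
square of `±1`, so `φ₁ ε φ₂ ε = 1` (the norm is `φ₁ x φ₂ x`: with `ω² = t ω - q` and `x = m + n ω` the two images of `ω` are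
the two roots, or from `|N x| = |φ₁ x| |φ₂ x|` and `φ₂ ε > 0`), `φ₂ ε = α⁻¹`. `exists_omega'`: `ε = m + n ω`, `φᵢ ω` are the two roots of
`X² - t X + q` (different, as `φ₁ ≠ φ₂` and `K` is generated by `ω`), so `α + α⁻¹ = 2 m + n t` is an integer and
`α - α⁻¹ = n (φ₁ ω - φ₂ ω) = ± n √D` as `(φ₁ ω - φ₂ ω)² = t² - 4 q = D`.
The residue is `2² (2π)⁰ R h / (2 √D) = 2 h R / √D = log α / √D` (`nrRealPlaces = 2`, `nrComplexPlaces = 0`, `torsionOrder = 2` in a field
with a real embedding; see the proofs in `Struct.lean`).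
-/

set_option autoImplicit false

open scoped NumberField nonZeroDivisors

namespace Pool.OCG

open NumberField NumberField.InfinitePlace NumberField.Units in
private theorem signature (k : Type) [Field k] [NumberField k] (hk2 : Module.finrank ℚ k = 2)
    (hD : 0 < NumberField.discr k) : nrRealPlaces k = 2 ∧ nrComplexPlaces k = 0 := by
  have hsgn := NumberField.sign_discr k
  rw [Int.sign_eq_one_of_pos hD] at hsgn
  have hsum := card_add_two_mul_card_eq_rank k
  rw [hk2] at hsum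
  have hc0 : nrComplexPlaces k = 0 := by
    have hle : nrComplexPlaces k ≤ 1 := by omega
    rcases Nat.le_one_iff_eq_zero_or_eq_one.mp hle with h | h
    · exact h
    · rw [h] at hsgn
      norm_num at hsgn
  exact ⟨by omega, hc0⟩

open NumberField NumberField.Units in
private theorem torsion_two (k : Type) [Field k] [NumberField k] (φ : k →+* ℝ) :
    torsionOrder k = 2 := by
  classical
  have htors : ∀ ζ : (𝓞 k)ˣ, ζ ∈ torsion k → ζ = 1 ∨ ζ = -1 := by
    intro ζ hζ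
    rw [torsion, CommGroup.mem_torsion, isOfFinOrder_iff_pow_eq_one] at hζ
    obtain ⟨n, hn, hζn⟩ := hζ
    have h1 : (φ ((ζ : 𝓞 k) : k)) ^ n = 1 := by
      rw [← map_pow, ← map_pow, ← Units.val_pow_eq_pow_val, hζn]
      simp
    have h2 : |φ ((ζ : 𝓞 k) : k)| = 1 := by
      have h3 : |φ ((ζ : 𝓞 k) : k)| ^ n = 1 := by rw [← abs_pow, h1, abs_one]
      exact (pow_eq_one_iff_of_nonneg (abs_nonneg _) (by omega)).1 h3
    rcases (abs_eq zero_le_one).mp h2 with h | h
    · left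
      ext
      apply φ.injective
      rw [h]
      simp
    · right
      ext
      apply φ.injective
      rw [h]
      simp
  let := Fintype.ofFinite (torsion k)
  rw [torsionOrder, Nat.card_eq_fintype_card]
  refine (Finset.card_eq_two.2 ⟨1, ⟨-1, neg_one_mem_torsion⟩,
    by simp [← Subtype.coe_ne_coe], Finset.ext fun x ↦ ⟨fun _ ↦ ?_, fun _ ↦ Finset.mem_univ _⟩⟩)
  rw [Finset.mem_insert, Finset.mem_singleton, ← Subtype.val_inj, ← Subtype.val_inj]
  exact htors x x.2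

open NumberField NumberField.Units in
theorem res_real (k : Type) [Field k] [NumberField k] (hk2 : Module.finrank ℚ k = 2) (D : ℕ)
    (hD : 0 < D) (hk : NumberField.discr k = (D : ℤ)) :
    ∃ (α : ℝ) (t b : ℤ), 1 < α ∧ α + α⁻¹ = t ∧ α - α⁻¹ = b * Real.sqrt D ∧
      NumberField.dedekindZeta_residue k = Real.log α / Real.sqrt D := by
  have hD' : 0 < NumberField.discr k := by
    rw [hk]
    exact_mod_cast hD
  obtain ⟨hr, hc⟩ := signature k hk2 hD'
  obtain ⟨φ₁, φ₂, η, hne, hnorm, h1, hlog, -⟩ :=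
    Pool.Hhelper85.RQ.real_quadratic_structure k hk2 hD'
  have htw := torsion_two k φ₁
  obtain ⟨ω, t, q, hmul, hspan, -, -, hdisc⟩ := Pool.Hhelper76.SC.exists_omega' k hk2
  set h : ℕ := classNumber k with hh
  have hhpos : 0 < h := classNumber_pos k
  set a : ℝ := |φ₁ ((η : 𝓞 k) : k)| with ha
  have hprod : a * |φ₂ ((η : 𝓞 k) : k)| = 1 := by
    rw [ha, ← hnorm]
    have h2 := NumberField.Units.norm k η
    have h3 : |((Algebra.norm ℚ ((η : 𝓞 k) : k) : ℚ) : ℝ)| =
      ((|Algebra.norm ℚ ((η : 𝓞 k) : k)| : ℚ) : ℝ) := by push_cast; rfl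
    rw [h3]
    have h4 : |Algebra.norm ℚ ((η : 𝓞 k) : k)| = 1 := h2
    rw [h4]
    norm_num
  have hapos : 0 < a := by linarith
  set e : 𝓞 k := ((η ^ (2 * h) : (𝓞 k)ˣ) : 𝓞 k) with he
  have hφ : ∀ φ : k →+* ℝ, φ (e : k) = |φ ((η : 𝓞 k) : k)| ^ (2 * h) := by
    intro φ
    have h2 : (((η : 𝓞 k) ^ (2 * h) : 𝓞 k) : k) = ((η : 𝓞 k) : k) ^ (2 * h) := by simp
    rw [he, Units.val_pow_eq_pow_val, h2, map_pow, pow_mul, pow_mul, sq_abs]
  have hφ1 : φ₁ (e : k) = a ^ (2 * h) := hφ φ₁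
  have hφ2 : φ₂ (e : k) = (a ^ (2 * h))⁻¹ := by
    rw [hφ φ₂, ← inv_pow]
    congr 1
    exact eq_inv_of_mul_eq_one_right hprod
  obtain ⟨m, n, hmn⟩ := hspan e
  have hev : ∀ φ : k →+* ℝ, ∀ x : 𝓞 k, ∀ m n : ℤ, x = m + n * ω →
      φ (x : k) = m + n * φ (ω : k) := by
    intro φ x m n hx
    rw [hx]
    simp
  have hroot : ∀ φ : k →+* ℝ, φ (ω : k) * φ (ω : k) = t * φ (ω : k) - q := by
    intro φ
    have h2 : ((ω * ω : 𝓞 k) : k) = (((t : 𝓞 k) * ω - (q : 𝓞 k) : 𝓞 k) : k) := by rw [hmul]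
    have h3 := congrArg φ h2
    simpa using h3
  have hneω : φ₁ (ω : k) ≠ φ₂ (ω : k) := by
    intro h2
    apply hne
    have h3 : ∀ x : 𝓞 k, φ₁ (x : k) = φ₂ (x : k) := by
      intro x
      obtain ⟨m', n', hx⟩ := hspan x
      rw [hev φ₁ x m' n' hx, hev φ₂ x m' n' hx, h2]
    ext x
    obtain ⟨y, z, -, rfl⟩ := IsFractionRing.div_surjective (A := 𝓞 k) x
    rw [map_div₀, map_div₀]
    congr 1
    · exact h3 y
    · exact h3 z
  set u := φ₁ (ω : k) with hu
  set v := φ₂ (ω : k) with hv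
  have hru := hroot φ₁
  have hrv := hroot φ₂
  rw [← hu] at hru
  rw [← hv] at hrv
  have huv : u + v = t := by
    have h2 : (u - v) * (u + v - t) = 0 := by ring_nf; nlinarith
    rcases mul_eq_zero.1 h2 with h3 | h3
    · exact absurd (sub_eq_zero.1 h3) hneω
    · linarith
  have hsq : (u - v) ^ 2 = (D : ℝ) := by
    have h2 : ((D : ℤ) : ℝ) = (t : ℝ) ^ 2 - 4 * q := by
      rw [← hk, hdisc]
      push_cast
      ring
    have h3 : (D : ℝ) = (t : ℝ) ^ 2 - 4 * q := by exact_mod_cast h2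
    rw [h3, ← huv]
    have h4 : v = t - u := by linarith
    have h5 : u * v = q := by
      rw [h4]
      linarith
    nlinarith
  have he1 : φ₁ (e : k) = m + n * u := hev φ₁ e m n hmn
  have he2 : φ₂ (e : k) = m + n * v := hev φ₂ e m n hmn
  have hα1 : a ^ (2 * h) = m + n * u := by rw [← hφ1, he1]
  have hα2 : (a ^ (2 * h))⁻¹ = m + n * v := by rw [← hφ2, he2]
  have hb : ∃ b : ℤ, (n : ℝ) * (u - v) = b * Real.sqrt D := by
    rw [← hsq, Real.sqrt_sq_eq_abs]
    rcases abs_choice (u - v) with h2 | h2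
    · exact ⟨n, by rw [h2]⟩
    · refine ⟨-n, ?_⟩
      rw [h2]
      push_cast
      ring
  obtain ⟨b, hb⟩ := hb
  refine ⟨a ^ (2 * h), 2 * m + n * t, b, ?_, ?_, ?_, ?_⟩
  · exact one_lt_pow₀ h1 (by omega)
  · rw [hα2, hα1]
    push_cast
    rw [← huv]
    ring
  · rw [hα2, hα1, ← hb]
    ring
  · rw [dedekindZeta_residue_def, hr, hc, htw, Real.log_pow, hlog, hk, ← hh]
    have hs : Real.sqrt |((D : ℤ) : ℝ)| = Real.sqrt D := by
      have h2 : |((D : ℤ) : ℝ)| = (D : ℝ) := by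
        rw [abs_of_nonneg (by positivity)]
        norm_cast
      rw [h2]
    rw [hs]
    have hs3 : Real.sqrt D ≠ 0 := by
      have : 0 < Real.sqrt D := Real.sqrt_pos.2 (by exact_mod_cast hD)
      exact this.ne'
    push_cast
    field_simp

end Pool.OCG
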