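import Pool.Agent.OCG.FormLim
import Pool.Agent.OCG.ClsSum
import Pool.Agent.OCG.Ambig
import Pool.Agent.OCG.LBd
import Pool.Agent.OCG.ResR
import Pool.Agent.OCG.ResI
import Pool.Agent.OCG.ExR

/-!
# The approximate class number relation for one `D`

PAPER PROOF. `D = r₁ r₂ ≡ 1 mod 4` (so both primes are odd). Fields `k`, `K'` from `exists_real`, `exists_imag`, `α` from `res_real`,
`k₁ = classNumber K' ≥ 1`. `main_lim`: `LS (kap D · rK K) → res k · res K' = (log α/√D) (π k₁/√(D q)) = π k₁ log α/(D √q)`.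
By `class_sum` (data of `ambig`) and `form_lim` for every class the limit is also `∑_A L_A`, with
`|L_A - χ(a_A)/a_A (π²/6)(1 - r₁⁻²)(1 - r₂⁻²)| ≤ 60/√q exp(-π √q/(a_A D)) ≤ 60/√q exp(-π W/D)`, as `a_A < X = √q/W`
(`W = 10^14 (log q)^7`; `hw` of `form_lim`: `π W/D ≥ 2` by the bound on `D`). The number of classes is at most `3 q`. Multiply by `6 D² q √q/π`:
`|6 D q k₁ log α - π √q N| ≤ (1080/π) D² q² exp(-π W/D)` with the integer `N = (r₁² - 1)(r₂² - 1) ∑_A χ(a_A) (q/a_A)`,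
`|N| ≤ D² q · 3 q`. `log α = √D res k ≤ √D (2 + log D)` (`res_le`).
-/

set_option autoImplicit false

open Filter Topology
open scoped NumberField nonZeroDivisors

namespace Pool.OCG

theorem one_disc_gen (K : Type) [Field K] [NumberField K] (h2 : Module.finrank ℚ K = 2) (q : ℕ)
    (hq : 4 < q) (hK : NumberField.discr K = -(q : ℤ))
    (hexp : ∀ A : ClassGroup (𝓞 K), A ^ 2 = 1) (W : ℝ) (hW : 2 ≤ W)
    (hno : ∀ d : ℕ, d ∣ q → (d : ℝ) ≤ Real.sqrt q → (d : ℝ) < Real.sqrt q / W)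
    (r₁ r₂ : ℕ) (hr₁ : r₁.Prime) (hr₂ : r₂.Prime) (h12 : r₁ ≠ r₂) (hD : r₁ * r₂ % 4 = 1)
    (hq₁ : ¬ r₁ ∣ q) (hq₂ : ¬ r₂ ∣ q)
    (hDW : 2 ≤ Real.pi * W / ((r₁ * r₂ : ℕ) : ℝ)) :
    ∃ (α : ℝ) (t b : ℤ) (k₁ : ℕ) (N : ℤ), 1 < α ∧ α + α⁻¹ = t ∧
      α - α⁻¹ = b * Real.sqrt ((r₁ * r₂ : ℕ) : ℝ) ∧
      Real.log α ≤ Real.sqrt ((r₁ * r₂ : ℕ) : ℝ) * (2 + Real.log ((r₁ * r₂ : ℕ) : ℝ)) ∧
      1 ≤ k₁ ∧ |(N : ℝ)| ≤ 3 * ((r₁ * r₂ : ℕ) : ℝ) ^ 2 * (q : ℝ) ^ 2 ∧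
      |6 * ((r₁ * r₂ : ℕ) : ℝ) * q * k₁ * Real.log α - Real.pi * Real.sqrt q * N| ≤
        344 * ((r₁ * r₂ : ℕ) : ℝ) ^ 2 * (q : ℝ) ^ 2 *
          Real.exp (-(Real.pi * W / ((r₁ * r₂ : ℕ) : ℝ))) := by
  classical
  have hW2 : 2 ≤ W := hW
  have hWD : 2 ≤ Real.pi * W / ((r₁ * r₂ : ℕ) : ℝ) := hDW
  obtain ⟨k, ik1, ik2, hk2, hk⟩ := exists_real r₁ r₂ hr₁ hr₂ h12 hD
  set D : ℕ := r₁ * r₂ with hDdef
  have hq4 : 4 < q := hq
  have hq0 : 0 < q := by omega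
  have hq0' : (0 : ℝ) < q := by exact_mod_cast hq0
  obtain ⟨K', iK1, iK2, hK2', hK'⟩ := exists_imag K h2 q hq4 hK r₁ r₂ hr₁ hr₂ h12 hD hq₁ hq₂
  have hD0 : 0 < D := by
    have := hr₁.pos
    have := hr₂.pos
    positivity
  have hD0' : (0 : ℝ) < D := by exact_mod_cast hD0
  have hD1 : (1 : ℝ) ≤ D := by exact_mod_cast hD0
  obtain ⟨α, t, b, hα, hαt, hαb, hres⟩ := res_real k hk2 D hD0 hk
  have hM4 : 4 < D * q := by
    have : 1 * q ≤ D * q := Nat.mul_le_mul_right q hD0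
    omega
  have hresI := res_imag K' hK2' (D * q) hM4 hK'
  have hresle := res_le k hk2 r₁ r₂ hr₁ hr₂ h12 hD hk
  have hW0 : 0 < W := by linarith
  have hsq0 : 0 < Real.sqrt q := Real.sqrt_pos.mpr hq0'
  obtain ⟨a, β, c, e, hcard, hA⟩ := ambig K h2 q hq4 hK hexp (Real.sqrt q / W) (by
    rw [← mul_div_assoc, div_le_iff₀ hW0]
    nlinarith) hno
  have ho₁ : r₁ ≠ 2 := by
    rintro rfl
    omega
  have ho₂ : r₂ ≠ 2 := by
    rintro rfl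
    omega
  have ha0 : ∀ A, (0 : ℝ) < a A := fun A => by exact_mod_cast (hA A).1
  have hexpo : ∀ A, Real.pi * W / D ≤ Real.pi * Real.sqrt q / ((a A : ℤ) * ((r₁ * r₂ : ℕ) : ℝ)) := by
    intro A
    have h1 : (a A : ℝ) < Real.sqrt q / W := (hA A).2.2.1
    rw [lt_div_iff₀ hW0] at h1
    have h2 : (((a A : ℤ) : ℝ)) = (a A : ℝ) := by push_cast; rfl
    rw [h2, div_le_div_iff₀ hD0' (mul_pos (ha0 A) hD0')]
    have hpi := Real.pi_pos
    have h3 : Real.pi * W * ((a A : ℝ) * D) = Real.pi * D * ((a A : ℝ) * W) := by ring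
    have h4 : Real.pi * Real.sqrt q * D = Real.pi * D * Real.sqrt q := by ring
    rw [h3, h4]
    exact mul_le_mul_of_nonneg_left h1.le (by positivity)
  have hform : ∀ A, ∃ L : ℝ, Tendsto (fun s : ℝ => ∑' p : {p : ℤ × ℤ // Pool.Hhelper85.CZ.Half p},
        (jacobiSym (fm (a A) (β A) (c A) p.1.1 p.1.2) (r₁ * r₂) : ℝ) *
          ((fm (a A) (β A) (c A) p.1.1 p.1.2 : ℤ) : ℝ) ^ (-s)) (𝓝[>] 1) (𝓝 L) ∧
      |L - (jacobiSym (a A) (r₁ * r₂) : ℝ) / (a A : ℤ) *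
        (Real.pi ^ 2 / 6 * (1 - 1 / (r₁ : ℝ) ^ 2) * (1 - 1 / (r₂ : ℝ) ^ 2))| ≤
      60 / Real.sqrt q * Real.exp (-(Real.pi * Real.sqrt q / ((a A : ℤ) * ((r₁ * r₂ : ℕ) : ℝ)))) := by
    intro A
    refine form_lim r₁ r₂ hr₁ hr₂ h12 ho₁ ho₂ (a A) (β A) (c A) ?_ q hq0 (hA A).2.2.2.1 hq₁ hq₂ ?_
    · exact_mod_cast (hA A).1
    · exact hWD.trans (hexpo A)
  choose L hL hLe using hform
  have hlim1 : Tendsto (fun s : ℝ => LS (fun n => (kap D n : ℝ) * rK K n) s) (𝓝[>] 1)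
      (𝓝 (∑ A, L A)) := by
    have h1 := tendsto_finsetSum (Finset.univ : Finset (ClassGroup (𝓞 K))) (fun A _ => hL A)
    refine h1.congr' ?_
    filter_upwards [self_mem_nhdsWithin] with s hs
    exact (class_sum K h2 D hD a β c e (fun A p => (hA A).2.2.2.2 p) hs).symm
  have hlim2 := main_lim K h2 D q hD hK k hk2 hk K' hK2' hK'
  have heq := tendsto_nhds_unique hlim1 hlim2
  rw [hres, hresI] at heq
  set k₁ : ℕ := NumberField.classNumber K' with hk₁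
  have hk₁1 : 1 ≤ k₁ := NumberField.classNumber_pos K'
  set N : ℤ := ((r₁ : ℤ) ^ 2 - 1) * ((r₂ : ℤ) ^ 2 - 1) *
    ∑ A, jacobiSym (a A) (r₁ * r₂) * ((q / a A : ℕ) : ℤ) with hN
  have hsD0 : 0 < Real.sqrt D := Real.sqrt_pos.mpr hD0'
  have hlogα : Real.log α ≤ Real.sqrt D * (2 + Real.log D) := by
    rw [hres, div_le_iff₀ hsD0] at hresle
    linarith
  have hr1 : (1 : ℝ) ≤ r₁ := by exact_mod_cast hr₁.one_lt.le
  have hr2 : (1 : ℝ) ≤ r₂ := by exact_mod_cast hr₂.one_lt.le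
  have hDr : (D : ℝ) = r₁ * r₂ := by
    rw [hDdef]
    push_cast
    rfl
  have hjac : ∀ A, |((jacobiSym (a A) (r₁ * r₂) : ℤ) : ℝ)| ≤ 1 := by
    intro A
    rcases jacobiSym.trichotomy (a A) (r₁ * r₂) with h | h | h <;> rw [h] <;> norm_num
  have hqa : ∀ A, (((q / a A : ℕ) : ℤ) : ℝ) = q / a A := by
    intro A
    rw [Int.cast_natCast, Nat.cast_div (hA A).2.1 (ha0 A).ne']
  refine ⟨α, t, b, k₁, N, hα, hαt, hαb, hlogα, hk₁1, ?_, ?_⟩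
  · have hcast : (N : ℝ) = ((r₁ : ℝ) ^ 2 - 1) * ((r₂ : ℝ) ^ 2 - 1) *
        ∑ A, ((jacobiSym (a A) (r₁ * r₂) : ℤ) : ℝ) * (((q / a A : ℕ) : ℤ) : ℝ) := by
      rw [hN]
      push_cast
      rfl
    have hsum : |∑ A, ((jacobiSym (a A) (r₁ * r₂) : ℤ) : ℝ) * (((q / a A : ℕ) : ℤ) : ℝ)| ≤
        3 * q * q := by
      calc _ ≤ ∑ A, |((jacobiSym (a A) (r₁ * r₂) : ℤ) : ℝ) * (((q / a A : ℕ) : ℤ) : ℝ)| :=
            Finset.abs_sum_le_sum_abs _ _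
        _ ≤ ∑ _A : ClassGroup (𝓞 K), (q : ℝ) := by
            refine Finset.sum_le_sum fun A _ => ?_
            rw [abs_mul, hqa A]
            have h1 : |(q : ℝ) / a A| ≤ q := by
              rw [abs_of_pos (div_pos hq0' (ha0 A))]
              apply div_le_self hq0'.le
              exact_mod_cast (hA A).1
            calc _ ≤ 1 * (q : ℝ) := mul_le_mul (hjac A) h1 (abs_nonneg _) (by norm_num)
              _ = q := one_mul _
        _ = (Fintype.card (ClassGroup (𝓞 K)) : ℝ) * q := by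
            rw [Finset.sum_const, nsmul_eq_mul, Finset.card_univ]
        _ ≤ 3 * q * q := mul_le_mul_of_nonneg_right hcard hq0'.le
    rw [hcast, abs_mul]
    have h3 : |((r₁ : ℝ) ^ 2 - 1) * ((r₂ : ℝ) ^ 2 - 1)| ≤ (D : ℝ) ^ 2 := by
      have h4 : 0 ≤ (r₁ : ℝ) ^ 2 - 1 := by nlinarith
      have h5 : 0 ≤ (r₂ : ℝ) ^ 2 - 1 := by nlinarith
      rw [abs_of_nonneg (mul_nonneg h4 h5), hDr]
      calc ((r₁ : ℝ) ^ 2 - 1) * ((r₂ : ℝ) ^ 2 - 1) ≤ (r₁ : ℝ) ^ 2 * (r₂ : ℝ) ^ 2 :=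
            mul_le_mul (by linarith) (by linarith) h5 (by positivity)
        _ = _ := by ring
    calc _ ≤ (D : ℝ) ^ 2 * (3 * q * q) := mul_le_mul h3 hsum (abs_nonneg _) (by positivity)
      _ = 3 * (D : ℝ) ^ 2 * (q : ℝ) ^ 2 := by ring
  · set E : ℝ := Real.exp (-(Real.pi * W / D)) with hE
    have hE0 : 0 < E := Real.exp_pos _
    set Pf : ℝ := Real.pi ^ 2 / 6 * (1 - 1 / (r₁ : ℝ) ^ 2) * (1 - 1 / (r₂ : ℝ) ^ 2) with hPf
    have hLe' : ∀ A, |L A - ((jacobiSym (a A) (r₁ * r₂) : ℤ) : ℝ) / a A * Pf| ≤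
        60 / Real.sqrt q * E := by
      intro A
      have h1 := hLe A
      rw [Int.cast_natCast] at h1
      refine h1.trans ?_
      apply mul_le_mul_of_nonneg_left _ (by positivity)
      apply Real.exp_le_exp.mpr
      have h2 := hexpo A
      rw [Int.cast_natCast] at h2
      linarith
    have hsumE : |∑ A, L A - ∑ A, ((jacobiSym (a A) (r₁ * r₂) : ℤ) : ℝ) / a A * Pf| ≤
        3 * q * (60 / Real.sqrt q * E) := by
      rw [← Finset.sum_sub_distrib]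
      calc _ ≤ ∑ A, |L A - ((jacobiSym (a A) (r₁ * r₂) : ℤ) : ℝ) / a A * Pf| :=
            Finset.abs_sum_le_sum_abs _ _
        _ ≤ ∑ _A : ClassGroup (𝓞 K), 60 / Real.sqrt q * E :=
            Finset.sum_le_sum fun A _ => hLe' A
        _ = (Fintype.card (ClassGroup (𝓞 K)) : ℝ) * (60 / Real.sqrt q * E) := by
            rw [Finset.sum_const, nsmul_eq_mul, Finset.card_univ]
        _ ≤ _ := mul_le_mul_of_nonneg_right hcard (by positivity)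
    have hpi := Real.pi_pos
    have hsqq : Real.sqrt q * Real.sqrt q = q := Real.mul_self_sqrt hq0'.le
    have hsDD : Real.sqrt D * Real.sqrt D = D := Real.mul_self_sqrt hD0'.le
    have hsDq : Real.sqrt ((D * q : ℕ) : ℝ) = Real.sqrt D * Real.sqrt q := by
      rw [Nat.cast_mul, Real.sqrt_mul hD0'.le]
    have hleft : 6 * (D : ℝ) ^ 2 * q * Real.sqrt q / Real.pi * ∑ A, L A =
        6 * (D : ℝ) * q * k₁ * Real.log α := by
      rw [heq, hsDq]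
      field_simp
      linear_combination (-(Real.log α)) * hsDD
    have hright : 6 * (D : ℝ) ^ 2 * q * Real.sqrt q / Real.pi *
        ∑ A, ((jacobiSym (a A) (r₁ * r₂) : ℤ) : ℝ) / a A * Pf = Real.pi * Real.sqrt q * N := by
      have hcast : (N : ℝ) = ((r₁ : ℝ) ^ 2 - 1) * ((r₂ : ℝ) ^ 2 - 1) *
          ∑ A, ((jacobiSym (a A) (r₁ * r₂) : ℤ) : ℝ) * (((q / a A : ℕ) : ℤ) : ℝ) := by
        rw [hN]
        push_cast
        rfl
      rw [hcast, Finset.mul_sum, Finset.mul_sum, Finset.mul_sum]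
      refine Finset.sum_congr rfl fun A _ => ?_
      rw [hqa A, hPf, hDr]
      have h1 : (r₁ : ℝ) ≠ 0 := by linarith
      have h2 : (r₂ : ℝ) ≠ 0 := by linarith
      have h3 := (ha0 A).ne'
      field_simp
    rw [← hleft, ← hright, ← mul_sub, abs_mul]
    have hpos : 0 ≤ 6 * (D : ℝ) ^ 2 * q * Real.sqrt q / Real.pi := by positivity
    rw [abs_of_nonneg hpos]
    calc _ ≤ 6 * (D : ℝ) ^ 2 * q * Real.sqrt q / Real.pi * (3 * q * (60 / Real.sqrt q * E)) :=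
          mul_le_mul_of_nonneg_left hsumE hpos
      _ = (1080 / Real.pi) * ((D : ℝ) ^ 2 * (q : ℝ) ^ 2 * E) := by
          field_simp
          ring
      _ ≤ 344 * ((D : ℝ) ^ 2 * (q : ℝ) ^ 2 * E) := by
          apply mul_le_mul_of_nonneg_right _ (by positivity)
          rw [div_le_iff₀ hpi]
          have := Real.pi_gt_d2
          linarith
      _ = _ := by ring

theorem one_disc (K : Type) [Field K] [NumberField K] (h2 : Module.finrank ℚ K = 2) (q : ℕ)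
    (hq : 128 ≤ Real.log q) (hK : NumberField.discr K = -(q : ℤ))
    (hexp : ∀ A : ClassGroup (𝓞 K), A ^ 2 = 1)
    (hno : ∀ d : ℕ, d ∣ q → (d : ℝ) ≤ Real.sqrt q →
      (d : ℝ) < Real.sqrt q / (10 ^ 14 * (Real.log q) ^ 7))
    (r₁ r₂ : ℕ) (hr₁ : r₁.Prime) (hr₂ : r₂.Prime) (h12 : r₁ ≠ r₂) (hD : r₁ * r₂ % 4 = 1)
    (hq₁ : ¬ r₁ ∣ q) (hq₂ : ¬ r₂ ∣ q)
    (hDq : ((r₁ * r₂ : ℕ) : ℝ) ≤ 100 * (Real.log q) ^ 2) :
    ∃ (α : ℝ) (t b : ℤ) (k₁ : ℕ) (N : ℤ), 1 < α ∧ α + α⁻¹ = t ∧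
      α - α⁻¹ = b * Real.sqrt ((r₁ * r₂ : ℕ) : ℝ) ∧
      Real.log α ≤ Real.sqrt ((r₁ * r₂ : ℕ) : ℝ) * (2 + Real.log ((r₁ * r₂ : ℕ) : ℝ)) ∧
      1 ≤ k₁ ∧ |(N : ℝ)| ≤ 3 * ((r₁ * r₂ : ℕ) : ℝ) ^ 2 * (q : ℝ) ^ 2 ∧
      |6 * ((r₁ * r₂ : ℕ) : ℝ) * q * k₁ * Real.log α - Real.pi * Real.sqrt q * N| ≤
        344 * ((r₁ * r₂ : ℕ) : ℝ) ^ 2 * (q : ℝ) ^ 2 *
          Real.exp (-(Real.pi * (10 ^ 14 * (Real.log q) ^ 7) / ((r₁ * r₂ : ℕ) : ℝ))) := by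
  have hq0 : 0 < q := by
    rcases Nat.eq_zero_or_pos q with h | h
    · rw [h] at hq
      norm_num at hq
    · exact h
  have hq0' : (0 : ℝ) < q := by exact_mod_cast hq0
  have hq4 : 4 < q := by
    have h1 : Real.log q ≤ q - 1 := Real.log_le_sub_one_of_pos hq0'
    have h2 : (4 : ℝ) < q := by linarith
    exact_mod_cast h2
  have hD0' : (0 : ℝ) < ((r₁ * r₂ : ℕ) : ℝ) := by
    have := hr₁.pos
    have := hr₂.pos
    positivity
  refine one_disc_gen K h2 q hq4 hK hexp _ ?_ hno r₁ r₂ hr₁ hr₂ h12 hD hq₁ hq₂ ?_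
  · have : (1 : ℝ) ≤ (Real.log q) ^ 7 := one_le_pow₀ (by linarith)
    linarith
  · have hlog2 : (1 : ℝ) ≤ (Real.log q) ^ 5 := one_le_pow₀ (by linarith)
    rw [le_div_iff₀ hD0']
    have hpi := Real.pi_gt_three
    have h1 : 100 * (Real.log q) ^ 2 ≤ 10 ^ 14 * (Real.log q) ^ 7 := by
      have h3 : (Real.log q) ^ 7 = (Real.log q) ^ 5 * (Real.log q) ^ 2 := by ring
      rw [h3]
      have h4 : 0 ≤ (Real.log q) ^ 2 := by positivity
      nlinarith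
    have h2 : ((r₁ * r₂ : ℕ) : ℝ) ≤ 10 ^ 14 * (Real.log q) ^ 7 := hDq.trans h1
    nlinarith

end Pool.OCG
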