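import Pool.Agent.OCG.OneD

/-!
# The approximate class number relation for one `D`, general `W`

The theorem `one_disc_gen` is proved in `OneD.lean`.
-/
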