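import Pool.Agent.OCG.Defs
import Pool.Agent.Hhelper76.SC.TupleSum

/-!
# Multiplicativity of the number of ideals of given norm; prime powers

PAPER PROOF. `rK_mul`: `split_exists`, `split_unique` of `Pool/Agent/Hhelper76/SC/TupleSum.lean`
(`(A, B) ↦ A * B` is a bijection between pairs of ideals of norms `m`, `n` and ideals of norm `m n`).
`rK_pow`: an ideal of norm `p ^ e` divides `(p) ^ e`, so it is a product of primes above `p`.
If there are two ideals `P ≠ Q` of norm `p`, then `(p) = P Q` (coprime, both divide `(p)`, whose norm is `p ^ 2`), these are the only ones of norm `p`, the ideals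
of norm `p ^ e` are the `P ^ a Q ^ (e - a)`, `0 ≤ a ≤ e` (`SP.pow_form`, `SP.inj`): `rK p = 2`, `rK (p ^ e) = e + 1`. If there is one
ideal `P` of norm `p`, then `(p) = P ^ 2` (`(p) = P P'` with `P'` of norm `p`), the only ideal of norm `p ^ e` is `P ^ e`:
`rK p = 1`, `rK (p ^ e) = 1 = ∑ 0 ^ j`. If there is none, `(p)` is prime (compare `exists_IP`) and `T` of norm `p ^ e` is `(p) ^ (e / 2)`, `e` even
(`IP.pow_form`; only `finrank = 2` is used of the hypothesis `QD`): `rK (p ^ e) = 1` for `e` even and `0` for `e` odd.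
No hypothesis on the sign of the discriminant.
-/

set_option autoImplicit false

open scoped NumberField nonZeroDivisors

namespace Pool.OCG

open Pool.Hhelper76.SC Pool.Hhelper76.SC.TS Pool.Hhelper85.CZ

private theorem RkMul_card (K : Type) [Field K] [NumberField K] {n : ℕ} (hn : n ≠ 0) :
    rK K n = (idn K n).card := by
  unfold rK
  have e : {I : Ideal (𝓞 K) // Ideal.absNorm I = n} ≃ {x // x ∈ idn K n} :=
    { toFun := fun I => ⟨⟨I.1, mem_nonZeroDivisors_of_ne_zero (by
          intro h
          have h1 := I.2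
          rw [h] at h1
          apply hn
          rw [← h1]
          exact map_zero _)⟩, mem_idn.2 I.2⟩
      invFun := fun J => ⟨J.1.1, mem_idn.1 J.2⟩
      left_inv := fun I => rfl
      right_inv := fun J => rfl }
  rw [Nat.card_congr e, Nat.card_eq_fintype_card, Fintype.card_coe]

theorem rK_one (K : Type) [Field K] [NumberField K] : rK K 1 = 1 := by
  rw [RkMul_card K one_ne_zero]
  have : idn K 1 = {1} := by
    ext I
    rw [mem_idn, nm_eq_one_iff, Finset.mem_singleton]
  rw [this, Finset.card_singleton]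

theorem rK_mul (K : Type) [Field K] [NumberField K] (h2 : Module.finrank ℚ K = 2) {m n : ℕ}
    (hm : m ≠ 0) (hn : n ≠ 0) (h : Nat.Coprime m n) : rK K (m * n) = rK K m * rK K n := by
  classical
  rw [RkMul_card K (mul_ne_zero hm hn), RkMul_card K hm, RkMul_card K hn, ← Finset.card_product]
  symm
  refine Finset.card_bij (fun p _ => p.1 * p.2) ?_ ?_ ?_
  · rintro ⟨A, B⟩ hAB
    rw [Finset.mem_product, mem_idn, mem_idn] at hAB
    rw [mem_idn, nm_mul, hAB.1, hAB.2]
  · rintro ⟨A, B⟩ hAB ⟨A', B'⟩ hAB' he
    rw [Finset.mem_product, mem_idn, mem_idn] at hAB hAB'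
    have := split_unique h hAB.1 hAB.2 hAB'.1 hAB'.2 he
    exact Prod.ext this.1 this.2
  · intro T hT
    rw [mem_idn] at hT
    obtain ⟨A, B, hA, hB, hAB⟩ := split_exists h2 h (Nat.one_le_iff_ne_zero.2 hm)
      (Nat.one_le_iff_ne_zero.2 hn) T hT
    refine ⟨(A, B), ?_, hAB.symm⟩
    rw [Finset.mem_product, mem_idn, mem_idn]
    exact ⟨hA, hB⟩

private theorem RkMul_eq_of_dvd {K : Type} [Field K] [NumberField K] {A B : (Ideal (𝓞 K))⁰}
    (h : A ∣ B) (hn : nm K A = nm K B) : A = B := by
  obtain ⟨c, hc⟩ := h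
  have h1 : nm K A * nm K c = nm K A * 1 := by
    rw [← nm_mul, ← hc, ← hn, mul_one]
  have h3 := Nat.eq_of_mul_eq_mul_left (nm_pos A) h1
  rw [nm_eq_one_iff] at h3
  rw [hc, h3, mul_one]

private theorem RkMul_sp {K : Type} [Field K] [NumberField K] (h2 : Module.finrank ℚ K = 2) {p : ℕ}
    (hp : p.Prime) {P Q : (Ideal (𝓞 K))⁰} (hP : nm K P = p) (hQ : nm K Q = p) (hPQ : P ≠ Q) :
    P * Q = spn K p := by
  have hc := coprime_of_ne (isPrime_of_nm hp hP) (isPrime_of_nm hp hQ) hPQ
  apply RkMul_eq_of_dvd
  · rw [dvd_coe, Submonoid.coe_mul]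
    apply hc.mul_dvd
    · rw [← dvd_coe]
      have := dvd_spn_nm P
      rwa [hP] at this
    · rw [← dvd_coe]
      have := dvd_spn_nm Q
      rwa [hQ] at this
  · rw [nm_mul, hP, hQ, nm_spn h2 p hp.one_le, sq]

private theorem RkMul_inert {K : Type} [Field K] [NumberField K] (h2 : Module.finrank ℚ K = 2)
    {p : ℕ} (hp : p.Prime) (hno : ∀ T : (Ideal (𝓞 K))⁰, nm K T ≠ p) :
    (spn K p : Ideal (𝓞 K)).IsPrime := by
  have h1 : nm K (spn K p) = p ^ 2 := nm_spn h2 p hp.one_le
  have hne : (spn K p : Ideal (𝓞 K)) ≠ ⊤ := by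
    intro h
    have : nm K (spn K p) = 1 := by
      rw [nm_eq_one_iff]
      exact Subtype.ext (by rw [h]; simp)
    rw [h1] at this
    have := hp.one_lt
    nlinarith
  obtain ⟨M, hM, hle⟩ := Ideal.exists_le_maximal _ hne
  have hdvd : M ∣ (spn K p : Ideal (𝓞 K)) := Ideal.dvd_iff_le.2 hle
  have hM0 : M ≠ 0 := by
    rintro rfl
    exact nonZeroDivisors.coe_ne_zero (spn K p) (zero_dvd_iff.1 hdvd)
  set M' : (Ideal (𝓞 K))⁰ := ⟨M, mem_nonZeroDivisors_of_ne_zero hM0⟩ with hM'
  have hd : M' ∣ spn K p := (dvd_coe _ _).2 hdvd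
  have h3 : nm K M' ∣ p ^ 2 := by
    rw [← h1]
    exact nm_dvd hd
  obtain ⟨i, hi, h4⟩ := (Nat.dvd_prime_pow hp).1 h3
  have hi2 : i = 2 := by
    interval_cases i
    · exfalso
      rw [pow_zero, nm_eq_one_iff] at h4
      apply hM.ne_top
      have := congrArg Subtype.val h4
      simpa [hM', Ideal.one_eq_top] using this
    · exfalso
      exact hno M' (by rw [h4, pow_one])
    · rfl
  subst hi2
  have h5 : M' = spn K p := RkMul_eq_of_dvd hd (by rw [h4, h1])
  rw [← h5]
  exact hM.isPrime

theorem rK_pow (K : Type) [Field K] [NumberField K] (h2 : Module.finrank ℚ K = 2) {p : ℕ}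
    (hp : p.Prime) (e : ℕ) :
    (rK K (p ^ e) : ℤ) = ∑ j ∈ Finset.range (e + 1), ((rK K p : ℤ) - 1) ^ j := by
  classical
  have hp0 : p ≠ 0 := hp.ne_zero
  rw [RkMul_card K (pow_ne_zero e hp0), RkMul_card K hp0]
  by_cases hne : ∃ P : (Ideal (𝓞 K))⁰, nm K P = p
  · obtain ⟨P, hP⟩ := hne
    by_cases hQ : ∃ Q : (Ideal (𝓞 K))⁰, nm K Q = p ∧ P ≠ Q
    · -- split
      obtain ⟨Q, hQ, hPQ⟩ := hQ
      let s : SP K p := ⟨P, Q, hp, hP, hQ, hPQ, RkMul_sp h2 hp hP hQ hPQ⟩
      have key : ∀ n, (idn K (p ^ n)).card = n + 1 := by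
        intro n
        have : idn K (p ^ n) = (Finset.range (n + 1)).image (fun a => s.P ^ a * s.Q ^ (n - a)) := by
          ext T
          rw [mem_idn, Finset.mem_image]
          constructor
          · intro hT
            obtain ⟨a, ha, haT⟩ := s.pow_form hT
            exact ⟨a, Finset.mem_range.2 (by omega), haT.symm⟩
          · rintro ⟨a, ha, rfl⟩
            rw [nm_mul, nm_pow, nm_pow, s.nP, s.nQ, ← pow_add]
            congr 1
            have := Finset.mem_range.1 ha
            omega
        rw [this, Finset.card_image_of_injOn, Finset.card_range]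
        intro a _ a' _ h
        exact (s.inj h).1
      have h3 := key 1
      rw [pow_one] at h3
      rw [key e, h3]
      simp
    · -- ramified
      push Not at hQ
      have hsq : spn K p = P * P := by
        obtain ⟨c, hc⟩ := dvd_spn_nm P
        rw [hP] at hc
        have h4 : nm K P * nm K c = p * p := by
          rw [← nm_mul, ← hc, nm_spn h2 p hp.one_le, sq]
        rw [hP] at h4
        have h5 := Nat.eq_of_mul_eq_mul_left hp.pos h4
        rw [hc, ← hQ c h5]
      have key : ∀ n, (idn K (p ^ n)).card = 1 := by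
        intro n
        have : idn K (p ^ n) = {P ^ n} := by
          ext T
          rw [mem_idn, Finset.mem_singleton]
          constructor
          · intro hT
            have h1 : T ∣ P ^ (2 * n) := by
              have := dvd_spn_nm T
              rw [hT, spn_pow p n hp.one_le, hsq, ← sq, ← pow_mul] at this
              exact this
            rw [dvd_coe, SubmonoidClass.coe_pow] at h1
            obtain ⟨a, -, ha⟩ := exists_ideal_pow (isPrime_of_nm hp hP) h1
            have hTe : T = P ^ a := Subtype.ext (by rw [SubmonoidClass.coe_pow]; exact ha)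
            rw [hTe, nm_pow, hP] at hT
            rw [hTe, Nat.pow_right_injective hp.two_le hT]
          · rintro rfl
            rw [nm_pow, hP]
        rw [this, Finset.card_singleton]
      have h3 := key 1
      rw [pow_one] at h3
      rw [key e, h3]
      simp [Finset.sum_range_succ']
  · -- inert
    push Not at hne
    have hpr := RkMul_inert h2 hp hne
    have h0 : idn K p = ∅ := by
      rw [Finset.eq_empty_iff_forall_notMem]
      intro T hT
      exact hne T (mem_idn.1 hT)
    have hform : ∀ T : (Ideal (𝓞 K))⁰, nm K T = p ^ e → Even e ∧ T = spn K p ^ (e / 2) := by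
      intro T hT
      have h1 : T ∣ spn K p ^ e := by
        rw [← spn_pow p e hp.one_le, ← hT]; exact dvd_spn_nm T
      rw [dvd_coe] at h1
      simp only [SubmonoidClass.coe_pow] at h1
      obtain ⟨a, ha, h2'⟩ := exists_ideal_pow hpr h1
      have hTe : T = spn K p ^ a := Subtype.ext (by simpa using h2')
      rw [hTe, nm_pow, nm_spn h2 p hp.one_le, ← pow_mul] at hT
      have := Nat.pow_right_injective hp.two_le hT
      refine ⟨⟨a, by omega⟩, ?_⟩
      rw [hTe]
      congr 1
      omega
    rw [h0, Finset.card_empty]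
    have hsum : ∑ j ∈ Finset.range (e + 1), (((0 : ℕ) : ℤ) - 1) ^ j =
        if Even (e + 1) then 0 else 1 := by
      rw [← neg_one_geom_sum (n := e + 1)]
      refine Finset.sum_congr rfl (fun j _ => ?_)
      norm_num
    rw [hsum]
    by_cases he : Even e
    · have h3 : idn K (p ^ e) = {spn K p ^ (e / 2)} := by
        ext T
        rw [mem_idn, Finset.mem_singleton]
        constructor
        · intro hT
          exact (hform T hT).2
        · rintro rfl
          rw [nm_pow, nm_spn h2 p hp.one_le, ← pow_mul]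
          congr 1
          obtain ⟨a, ha⟩ := he
          omega
      have h4 : ¬ Even (e + 1) := by
        rw [Nat.even_add_one]
        exact not_not.2 he
      rw [h3, Finset.card_singleton, if_neg h4]
      rfl
    · have h3 : idn K (p ^ e) = ∅ := by
        rw [Finset.eq_empty_iff_forall_notMem]
        intro T hT
        exact he (hform T (mem_idn.1 hT)).1
      have h4 : Even (e + 1) := by
        rw [Nat.even_add_one]
        exact he
      rw [h3, Finset.card_empty, if_pos h4]
      rfl

end Pool.OCG
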