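import Pool.Agent.OCG.Defs
import Pool.Agent.Hhelper76.SC.QIdeal

/-!
# The number of ideals of prime norm

PAPER PROOF. `exists_omega'` of `Pool/Agent/Hhelper76/SC/QIdeal.lean` (any sign of the discriminant) gives `ω`, `t`, `q`
with `ω² = t ω - q`, `𝓞 K = ℤ + ℤ ω`, `discr K = t² - 4 q`. An ideal `I` of norm `p` contains `p` and has
`𝓞 K / I ≅ ℤ / p`, so there is exactly one class `β mod p` with `ω - β ∈ I`, and `I = ℤ p + ℤ (ω - β)`; it is an ideal
iff `β² - t β + q ≡ 0 mod p` (norm of `ω - β`). (Or: ideals of norm `p` correspond to ring homomorphisms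
`𝓞 K → ZMod p`, all surjective, by their kernels, and these correspond to the roots of `X² - t X + q` in `ZMod p`.) So `rK K p` is the number of roots of
`X² - t X + q` in `ZMod p`: for `p` odd it is `1 + jacobiSym (t² - 4 q) p` (`4 (X² - t X + q) = (2 X - t)² - d`,
`quadraticChar`: number of square roots), for `p = 2` check the residues of `t`, `q`
(`t` odd, `q` even: `d ≡ 1 mod 8`, two roots; `t` odd, `q` odd: `d ≡ 5 mod 8`, no root; `t` even: `d ≡ 0 mod 4`, one root).
-/

set_option autoImplicit false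

open scoped NumberField nonZeroDivisors

namespace Pool.OCG

section General

variable {R : Type} [CommRing R] (ω : R) (t q : ℤ)

/-- The ring homomorphism `m + n ω ↦ m + n β`. -/
theorem exists_hom (hω : ω * ω = (t : R) * ω - (q : R))
    (hall : ∀ x : R, ∃ m n : ℤ, x = m + n * ω)
    (huni : ∀ m n : ℤ, (m : R) + n * ω = 0 → m = 0 ∧ n = 0) (p : ℕ) (β : ZMod p)
    (hβ : β * β = (t : ZMod p) * β - (q : ZMod p)) :
    ∃ φ : R →+* ZMod p, φ ω = β := by
  choose m n hmn using hall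
  have key : ∀ (x : R) (a b : ℤ), x = a + b * ω → m x = a ∧ n x = b := by
    intro x a b h
    have h1 : ((m x - a : ℤ) : R) + ((n x - b : ℤ) : R) * ω = 0 := by
      have h2 := hmn x
      push_cast
      linear_combination h - h2
    obtain ⟨h3, h4⟩ := huni _ _ h1
    exact ⟨by linarith, by linarith⟩
  refine ⟨{
    toFun := fun x => (m x : ZMod p) + (n x : ZMod p) * β
    map_one' := ?_
    map_mul' := ?_
    map_zero' := ?_
    map_add' := ?_ }, ?_⟩
  · obtain ⟨h1, h2⟩ := key 1 1 0 (by push_cast; ring)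
    simp [h1, h2]
  · intro x y
    obtain ⟨h1, h2⟩ := key (x * y) (m x * m y - n x * n y * q)
      (m x * n y + n x * m y + n x * n y * t) (by
        have h3 := hmn x
        have h4 := hmn y
        push_cast
        linear_combination y * h3 + (m x + n x * ω : R) * h4 + (n x * n y : R) * hω)
    simp only [h1, h2]
    push_cast
    linear_combination (-(n x * n y : ZMod p)) * hβ
  · obtain ⟨h1, h2⟩ := key 0 0 0 (by push_cast; ring)
    simp [h1, h2]
  · intro x y
    obtain ⟨h1, h2⟩ := key (x + y) (m x + m y) (n x + n y) (by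
        have h3 := hmn x
        have h4 := hmn y
        push_cast
        linear_combination h3 + h4)
    simp only [h1, h2]
    push_cast
    ring
  · obtain ⟨h1, h2⟩ := key ω 0 1 (by push_cast; ring)
    simp [h1, h2]

/-- Ring homomorphisms to `ZMod p` are determined by the image of `ω`. -/
theorem hom_ext (hall : ∀ x : R, ∃ m n : ℤ, x = m + n * ω) {S : Type} [CommRing S]
    (φ ψ : R →+* S) (h : φ ω = ψ ω) : φ = ψ := by
  ext x
  obtain ⟨m, n, rfl⟩ := hall x
  simp [h]

end General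

/-- The number of ideals of prime norm is the number of roots. -/
theorem rK_roots (K : Type) [Field K] [NumberField K] (ω : 𝓞 K) (t q : ℤ)
    (hω : ω * ω = (t : 𝓞 K) * ω - (q : 𝓞 K))
    (hall : ∀ x : 𝓞 K, ∃ m n : ℤ, x = m + n * ω)
    (huni : ∀ m n : ℤ, (m : 𝓞 K) + n * ω = 0 → m = 0 ∧ n = 0) {p : ℕ} (hp : p.Prime) :
    rK K p = Nat.card {β : ZMod p // β * β = (t : ZMod p) * β - (q : ZMod p)} := by
  have : Fact p.Prime := ⟨hp⟩
  have : NeZero p := ⟨hp.ne_zero⟩
  unfold rK
  symm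
  have hex : ∀ β : {β : ZMod p // β * β = (t : ZMod p) * β - (q : ZMod p)},
      ∃ φ : 𝓞 K →+* ZMod p, φ ω = β.1 := fun β => exists_hom ω t q hω hall huni p β.1 β.2
  choose φ hφ using hex
  have hker : ∀ ψ : 𝓞 K →+* ZMod p, Ideal.absNorm (RingHom.ker ψ) = p := by
    intro ψ
    rw [Ideal.absNorm_apply, Submodule.cardQuot_apply]
    have hs : Function.Surjective ψ := ZMod.ringHom_surjective ψ
    have e := RingHom.quotientKerEquivOfSurjective hs
    rw [Nat.card_congr e.toEquiv, Nat.card_zmod]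
  refine Nat.card_congr (Equiv.ofBijective
    (fun β => (⟨RingHom.ker (φ β), hker (φ β)⟩ : {I : Ideal (𝓞 K) // Ideal.absNorm I = p})) ⟨?_, ?_⟩)
  · intro β β' h
    have h1 : RingHom.ker (φ β) = RingHom.ker (φ β') := congrArg Subtype.val h
    have h2 : ω - ((β.1.val : ℕ) : 𝓞 K) ∈ RingHom.ker (φ β) := by
      rw [RingHom.mem_ker, map_sub, hφ, map_natCast, ZMod.natCast_zmod_val, sub_self]
    rw [h1, RingHom.mem_ker, map_sub, hφ, map_natCast, ZMod.natCast_zmod_val, sub_eq_zero] at h2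
    exact Subtype.ext h2.symm
  · rintro ⟨I, hI⟩
    have hc : Nat.card (𝓞 K ⧸ I) = p := by
      rw [← hI, Ideal.absNorm_apply, Submodule.cardQuot_apply]
    have : Finite (𝓞 K ⧸ I) := Nat.finite_of_card_ne_zero (by rw [hc]; exact hp.ne_zero)
    have : Fintype (𝓞 K ⧸ I) := Fintype.ofFinite _
    have hc' : Fintype.card (𝓞 K ⧸ I) = p := by rw [← Nat.card_eq_fintype_card, hc]
    let e : ZMod p ≃+* (𝓞 K ⧸ I) := ZMod.ringEquivOfPrime _ hp hc'
    let ψ : 𝓞 K →+* ZMod p := (e.symm : (𝓞 K ⧸ I) →+* ZMod p).comp (Ideal.Quotient.mk I)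
    have hψ : RingHom.ker ψ = I := by
      ext x
      rw [RingHom.mem_ker]
      change e.symm (Ideal.Quotient.mk I x) = 0 ↔ _
      rw [map_eq_zero_iff _ e.symm.injective, Ideal.Quotient.eq_zero_iff_mem]
    have hroot : ψ ω * ψ ω = (t : ZMod p) * ψ ω - (q : ZMod p) := by
      rw [← map_mul, hω]
      simp
    refine ⟨⟨ψ ω, hroot⟩, Subtype.ext ?_⟩
    change RingHom.ker (φ ⟨ψ ω, hroot⟩) = I
    rw [hom_ext ω hall (φ ⟨ψ ω, hroot⟩) ψ (hφ _), hψ]

theorem roots_odd (t q : ℤ) {p : ℕ} (hp : p.Prime) (hp2 : p ≠ 2) :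
    (Nat.card {β : ZMod p // β * β = (t : ZMod p) * β - (q : ZMod p)} : ℤ) =
      1 + jacobiSym (t ^ 2 - 4 * q) p := by
  have : Fact p.Prime := ⟨hp⟩
  have hF : ringChar (ZMod p) ≠ 2 := by rwa [ZMod.ringChar_zmod_n]
  have h2 : (2 : ZMod p) ≠ 0 := Ring.two_ne_zero hF
  have h := quadraticChar_card_sqrts hF (((t ^ 2 - 4 * q : ℤ)) : ZMod p)
  rw [← jacobiSym.legendreSym.to_jacobiSym, legendreSym, add_comm, ← h, Set.toFinset_card,
    ← Nat.card_eq_fintype_card]
  congr 1
  refine Nat.card_congr ⟨fun β => ⟨2 * β.1 - t, ?_⟩, fun x => ⟨(x.1 + t) / 2, ?_⟩, ?_, ?_⟩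
  · have h3 := β.2
    change (2 * β.1 - (t : ZMod p)) ^ 2 = _
    push_cast
    linear_combination 4 * h3
  · have h3 : x.1 ^ 2 = (((t ^ 2 - 4 * q : ℤ)) : ZMod p) := x.2
    push_cast at h3
    field_simp
    linear_combination h3
  · intro β
    apply Subtype.ext
    change (2 * β.1 - (t : ZMod p) + t) / 2 = β.1
    field_simp
    ring
  · intro x
    apply Subtype.ext
    change 2 * ((x.1 + (t : ZMod p)) / 2) - t = x.1
    field_simp
    ring

theorem roots_two (t q : ℤ) :
    (Nat.card {β : ZMod 2 // β * β = (t : ZMod 2) * β - (q : ZMod 2)} : ℤ) =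
      1 + kp (t ^ 2 - 4 * q) 2 := by
  have hcard : ∀ a b : ZMod 2, Fintype.card {β : ZMod 2 // β * β = a * β - b} =
      if a = 0 then 1 else if b = 0 then 2 else 0 := by decide
  rw [Nat.card_eq_fintype_card, hcard]
  unfold kp
  rw [if_pos rfl]
  rcases Int.even_or_odd t with ht | ht
  · obtain ⟨s, rfl⟩ := ht
    have h1 : (((s + s : ℤ)) : ZMod 2) = 0 := by
      rw [ZMod.intCast_zmod_eq_zero_iff_dvd]
      exact ⟨s, by push_cast; ring⟩
    rw [if_pos h1]
    have h2 : ((s + s) ^ 2 - 4 * q) % 8 ≠ 1 := by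
      have : (s + s) ^ 2 - 4 * q = 4 * (s ^ 2 - q) := by ring
      rw [this]
      omega
    have h3 : ((s + s) ^ 2 - 4 * q) % 8 ≠ 5 := by
      have : (s + s) ^ 2 - 4 * q = 4 * (s ^ 2 - q) := by ring
      rw [this]
      omega
    rw [if_neg h2, if_neg h3]
    simp
  · obtain ⟨s, rfl⟩ := ht
    have h1 : (((2 * s + 1 : ℤ)) : ZMod 2) ≠ 0 := by
      rw [Ne, ZMod.intCast_zmod_eq_zero_iff_dvd]
      push_cast
      omega
    rw [if_neg h1]
    have h4 : ∃ k : ℤ, s * (s + 1) = 2 * k := by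
      obtain ⟨k, hk⟩ := Int.even_mul_succ_self s
      exact ⟨k, by rw [hk]; ring⟩
    obtain ⟨k, hk⟩ := h4
    have h5 : (2 * s + 1) ^ 2 - 4 * q = 8 * k + 1 - 4 * q := by linear_combination 4 * hk
    rw [h5]
    rcases Int.even_or_odd q with hq | hq
    · obtain ⟨r, rfl⟩ := hq
      have h6 : (((r + r : ℤ)) : ZMod 2) = 0 := by
        rw [ZMod.intCast_zmod_eq_zero_iff_dvd]
        exact ⟨r, by push_cast; ring⟩
      rw [if_pos h6, if_pos (by omega)]
      norm_num
    · obtain ⟨r, rfl⟩ := hq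
      have h6 : (((2 * r + 1 : ℤ)) : ZMod 2) ≠ 0 := by
        rw [Ne, ZMod.intCast_zmod_eq_zero_iff_dvd]
        push_cast
        omega
      rw [if_neg h6, if_neg (by omega), if_pos (by omega)]
      norm_num

theorem rK_prime (K : Type) [Field K] [NumberField K] (h2 : Module.finrank ℚ K = 2) {p : ℕ}
    (hp : p.Prime) : (rK K p : ℤ) = 1 + kp (NumberField.discr K) p := by
  obtain ⟨ω, t, q, hω, hall, huni, -, hd⟩ := Pool.Hhelper76.SC.exists_omega' K h2
  rw [rK_roots K ω t q hω hall huni hp, hd]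
  by_cases hp2 : p = 2
  · subst hp2
    exact roots_two t q
  · rw [roots_odd t q hp hp2]
    unfold kp
    rw [if_neg hp2]

theorem discr_mod_four (K : Type) [Field K] [NumberField K] (h2 : Module.finrank ℚ K = 2) :
    NumberField.discr K % 4 = 0 ∨ NumberField.discr K % 4 = 1 := by
  obtain ⟨ω, t, q, -, -, -, -, hd⟩ := Pool.Hhelper76.SC.exists_omega' K h2
  rw [hd]
  rcases Int.even_or_odd t with ht | ht
  · left
    obtain ⟨s, rfl⟩ := ht
    have : (s + s) ^ 2 - 4 * q = 4 * (s ^ 2 - q) := by ring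
    rw [this]
    omega
  · right
    obtain ⟨s, rfl⟩ := ht
    have : (2 * s + 1) ^ 2 - 4 * q = 4 * (s ^ 2 + s - q) + 1 := by ring
    rw [this]
    omega

end Pool.OCG
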