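import Pool.Agent.OCG.KapB
import Pool.Agent.OCG.RkMul
import Pool.Agent.OCG.RkPr

/-!
# The number of ideals of norm `n` is the divisor sum of the character

PAPER PROOF. Both sides are multiplicative (induction on `n`, `Nat.recOnPosPrimePosCoprime` or `Nat.recOnMul`-like; divisors of a
product of coprime numbers: `Nat.Coprime.sum_divisors_mul_of_isMultiplicative`-like or
`ArithmeticFunction.IsMultiplicative` of `ζ * kap`), for `n = p ^ e` the right side is `∑_{j ≤ e} (kp d p) ^ j`
(`Nat.sum_divisors_prime_pow`, `kap_mul`), the left side is the same by `rK_pow`, `rK_prime`.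
-/

set_option autoImplicit false

open scoped NumberField nonZeroDivisors

namespace Pool.OCG

private noncomputable def rkF (d : ℤ) : ArithmeticFunction ℤ :=
  ⟨fun n => if n = 0 then 0 else kap d n, by simp⟩

private lemma rkF_apply (d : ℤ) {n : ℕ} (hn : n ≠ 0) : rkF d n = kap d n := by
  show (if n = 0 then 0 else kap d n) = kap d n
  rw [if_neg hn]

private lemma rkF_mul (d : ℤ) : (rkF d).IsMultiplicative := by
  rw [ArithmeticFunction.IsMultiplicative.iff_ne_zero]
  refine ⟨?_, ?_⟩
  · rw [rkF_apply d one_ne_zero, kap_one]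
  · intro m n hm hn _
    rw [rkF_apply d (mul_ne_zero hm hn), rkF_apply d hm, rkF_apply d hn, kap_mul d hm hn]

private lemma rkF_sum (d : ℤ) (n : ℕ) :
    ((ArithmeticFunction.zeta : ArithmeticFunction ℤ) * rkF d) n = ∑ m ∈ n.divisors, kap d m := by
  rw [ArithmeticFunction.coe_zeta_mul_apply]
  refine Finset.sum_congr rfl fun m hm => ?_
  exact rkF_apply d (Nat.pos_of_mem_divisors hm).ne'

private lemma kap_pow (d : ℤ) {p : ℕ} (hp : p.Prime) (j : ℕ) : kap d (p ^ j) = (kp d p) ^ j := by
  induction j with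
  | zero => rw [pow_zero, pow_zero, kap_one]
  | succ j ih =>
    rw [pow_succ, kap_mul d (pow_ne_zero _ hp.ne_zero) hp.ne_zero, ih, kap_prime d hp, pow_succ]

theorem rK_eq (K : Type) [Field K] [NumberField K] (h2 : Module.finrank ℚ K = 2) {n : ℕ}
    (hn : n ≠ 0) : (rK K n : ℤ) = ∑ m ∈ n.divisors, kap (NumberField.discr K) m := by
  induction n using Nat.recOnPosPrimePosCoprime with
  | prime_pow p e hp he =>
    rw [rK_pow K h2 hp, Nat.sum_divisors_prime_pow hp]
    refine Finset.sum_congr rfl fun j _ => ?_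
    rw [kap_pow _ hp, rK_prime K h2 hp]
    congr 1
    ring
  | zero => exact absurd rfl hn
  | one =>
    rw [rK_one, Nat.divisors_one, Finset.sum_singleton, kap_one]
    norm_num
  | coprime a b ha hb hab iha ihb =>
    have ha0 : a ≠ 0 := by omega
    have hb0 : b ≠ 0 := by omega
    rw [rK_mul K h2 ha0 hb0 hab, Nat.cast_mul, iha ha0, ihb hb0, ← rkF_sum, ← rkF_sum, ← rkF_sum]
    exact ((ArithmeticFunction.isMultiplicative_zeta.natCast.mul
      (rkF_mul _)).map_mul_of_coprime hab).symm

end Pool.OCG
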