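import Pool.Agent.OCG.Defs

/-!
# The row `y = 0`

PAPER PROOF. `jacobiSym (a x²) D = jacobiSym a D` if `r₁ ∤ x` and `r₂ ∤ x`, and `0` otherwise. Dominated convergence
(`(a x²)^(-s) ≤ x^(-2)` for `s ≥ 1`, `x ≥ 1`) and inclusion-exclusion
`∑_{x ≥ 1, (x, D) = 1} x^(-2) = ζ(2) (1 - r₁^(-2)) (1 - r₂^(-2))`, `ζ(2) = π²/6` (`hasSum_zeta_two`).
-/

set_option autoImplicit false

open Filter Topology

namespace Pool.OCG

private lemma mult_sum (d : ℕ) (hd : 0 < d) :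
    HasSum (fun n : ℕ => if d ∣ n then 1 / (n : ℝ) ^ 2 else 0)
      (1 / (d : ℝ) ^ 2 * (Real.pi ^ 2 / 6)) := by
  have hinj : Function.Injective (fun k : ℕ => d * k) := fun a b h =>
    Nat.eq_of_mul_eq_mul_left hd h
  rw [← hinj.hasSum_iff]
  · have h1 := hasSum_zeta_two.mul_left (1 / (d : ℝ) ^ 2)
    have e : ((fun n : ℕ => if d ∣ n then 1 / (n : ℝ) ^ 2 else 0) ∘ fun k : ℕ => d * k)
        = fun k : ℕ => 1 / (d : ℝ) ^ 2 * (1 / (k : ℝ) ^ 2) := by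
      funext k
      simp only [Function.comp_apply, dvd_mul_right, if_true]
      push_cast
      rw [mul_pow, one_div_mul_one_div]
    rw [e]
    exact h1
  · intro n hn
    rw [if_neg]
    rintro ⟨k, hk⟩
    exact hn ⟨k, hk.symm⟩

private lemma cop_sum (r₁ r₂ : ℕ) (hr₁ : r₁.Prime) (hr₂ : r₂.Prime) (h12 : r₁ ≠ r₂) :
    HasSum (fun x : ℕ => (if Nat.Coprime (x + 1) (r₁ * r₂) then 1 / (((x + 1 : ℕ) : ℝ)) ^ 2 else 0))
      (Real.pi ^ 2 / 6 * (1 - 1 / (r₁ : ℝ) ^ 2) * (1 - 1 / (r₂ : ℝ) ^ 2)) := by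
  have h := ((hasSum_zeta_two.sub (mult_sum r₁ hr₁.pos)).sub (mult_sum r₂ hr₂.pos)).add
    (mult_sum (r₁ * r₂) (Nat.mul_pos hr₁.pos hr₂.pos))
  have hco : Nat.Coprime r₁ r₂ := (Nat.coprime_primes hr₁ hr₂).2 h12
  have e1 : (fun n : ℕ => 1 / (n : ℝ) ^ 2 - (if r₁ ∣ n then 1 / (n : ℝ) ^ 2 else 0) -
      (if r₂ ∣ n then 1 / (n : ℝ) ^ 2 else 0) + (if r₁ * r₂ ∣ n then 1 / (n : ℝ) ^ 2 else 0))
      = fun n : ℕ => if Nat.Coprime n (r₁ * r₂) then 1 / (n : ℝ) ^ 2 else 0 := by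
    funext n
    have c1 : Nat.Coprime n (r₁ * r₂) ↔ ¬ r₁ ∣ n ∧ ¬ r₂ ∣ n := by
      rw [Nat.coprime_mul_iff_right, Nat.coprime_comm, hr₁.coprime_iff_not_dvd, Nat.coprime_comm,
        hr₂.coprime_iff_not_dvd]
    have c2 : r₁ * r₂ ∣ n ↔ r₁ ∣ n ∧ r₂ ∣ n :=
      ⟨fun h => ⟨(dvd_mul_right _ _).trans h, (dvd_mul_left _ _).trans h⟩,
        fun h => hco.mul_dvd_of_dvd_of_dvd h.1 h.2⟩
    by_cases h1 : r₁ ∣ n <;> by_cases h2 : r₂ ∣ n <;> simp [c1, c2, h1, h2]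
  rw [e1] at h
  rw [← hasSum_nat_add_iff' 1] at h
  have e2 : (∑ i ∈ Finset.range 1, if Nat.Coprime i (r₁ * r₂) then 1 / (i : ℝ) ^ 2 else 0) = 0 := by
    simp
  rw [e2, sub_zero] at h
  have n1 : (r₁ : ℝ) ≠ 0 := by exact_mod_cast hr₁.ne_zero
  have n2 : (r₂ : ℝ) ≠ 0 := by exact_mod_cast hr₂.ne_zero
  have e3 : Real.pi ^ 2 / 6 * (1 - 1 / (r₁ : ℝ) ^ 2) * (1 - 1 / (r₂ : ℝ) ^ 2)
      = Real.pi ^ 2 / 6 - 1 / (r₁ : ℝ) ^ 2 * (Real.pi ^ 2 / 6) -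
        1 / (r₂ : ℝ) ^ 2 * (Real.pi ^ 2 / 6) +
        1 / ((r₁ * r₂ : ℕ) : ℝ) ^ 2 * (Real.pi ^ 2 / 6) := by
    push_cast
    field_simp
    ring
  rw [e3]
  exact h

theorem row_zero (r₁ r₂ : ℕ) (hr₁ : r₁.Prime) (hr₂ : r₂.Prime) (h12 : r₁ ≠ r₂) (a b c : ℤ)
    (ha : 0 < a) :
    Tendsto (fun s : ℝ => ∑' x : ℕ, (jacobiSym (fm a b c (x + 1) 0) (r₁ * r₂) : ℝ) *
        ((fm a b c (x + 1) 0 : ℤ) : ℝ) ^ (-s)) (𝓝[>] 1)
      (𝓝 ((jacobiSym a (r₁ * r₂) : ℝ) / a *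
        (Real.pi ^ 2 / 6 * (1 - 1 / (r₁ : ℝ) ^ 2) * (1 - 1 / (r₂ : ℝ) ^ 2)))) := by
  have haR : (1 : ℝ) ≤ a := by exact_mod_cast ha
  have ha0 : (0 : ℝ) < a := by linarith
  have : NeZero (r₁ * r₂) := ⟨Nat.mul_ne_zero hr₁.ne_zero hr₂.ne_zero⟩
  have hfm : ∀ x : ℕ, fm a b c (x + 1) 0 = a * ((x + 1 : ℕ) : ℤ) ^ 2 := by
    intro x; simp [fm]
  have hJ : ∀ x : ℕ, (jacobiSym (fm a b c (x + 1) 0) (r₁ * r₂) : ℝ)
      = (jacobiSym a (r₁ * r₂) : ℝ) * (if Nat.Coprime (x + 1) (r₁ * r₂) then 1 else 0) := by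
    intro x
    rw [hfm, jacobiSym.mul_left, jacobiSym.pow_left]
    push_cast
    congr 1
    split_ifs with h
    · have h1 : ((x + 1 : ℕ) : ℤ).gcd ((r₁ * r₂ : ℕ) : ℤ) = 1 := by
        rw [Int.gcd_natCast_natCast]; exact h
      have h2 := jacobiSym.sq_one h1
      have h3 : ((jacobiSym ((x + 1 : ℕ) : ℤ) (r₁ * r₂) : ℤ) : ℝ) ^ 2 = 1 := by exact_mod_cast h2
      push_cast at h3
      exact h3
    · have h1 : ((x + 1 : ℕ) : ℤ).gcd ((r₁ * r₂ : ℕ) : ℤ) ≠ 1 := by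
        rw [Int.gcd_natCast_natCast]; exact h
      have h2 : jacobiSym ((x + 1 : ℕ) : ℤ) (r₁ * r₂) = 0 :=
        jacobiSym.eq_zero_iff_not_coprime.2 h1
      have h3 : ((jacobiSym ((x + 1 : ℕ) : ℤ) (r₁ * r₂) : ℤ) : ℝ) ^ 2 = 0 := by
        rw [h2]; simp
      push_cast at h3
      exact h3
  have hlim : (jacobiSym a (r₁ * r₂) : ℝ) / a *
      (Real.pi ^ 2 / 6 * (1 - 1 / (r₁ : ℝ) ^ 2) * (1 - 1 / (r₂ : ℝ) ^ 2))
      = ∑' x : ℕ, (jacobiSym (fm a b c (x + 1) 0) (r₁ * r₂) : ℝ) *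
        ((fm a b c (x + 1) 0 : ℤ) : ℝ) ^ (-(1 : ℝ)) := by
    have h1 := (cop_sum r₁ r₂ hr₁ hr₂ h12).mul_left ((jacobiSym a (r₁ * r₂) : ℝ) / a)
    rw [← h1.tsum_eq]
    refine tsum_congr (fun x => ?_)
    rw [hJ, hfm, Real.rpow_neg_one]
    push_cast
    split_ifs
    · field_simp
    · simp
  rw [hlim]
  refine tendsto_tsum_of_dominated_convergence (bound := fun x : ℕ => 1 / (((x + 1 : ℕ) : ℝ)) ^ 2)
    ?_ ?_ ?_
  · exact (summable_nat_add_iff 1).2 hasSum_zeta_two.summable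
  · intro x
    have hpos : (0 : ℝ) < ((fm a b c (x + 1) 0 : ℤ) : ℝ) := by
      rw [hfm]; push_cast; positivity
    refine Tendsto.mul tendsto_const_nhds ?_
    have h1 : ContinuousAt (fun s : ℝ => ((fm a b c (x + 1) 0 : ℤ) : ℝ) ^ (-s)) 1 :=
      (Real.continuousAt_const_rpow hpos.ne').comp continuousAt_neg
    exact h1.tendsto.mono_left nhdsWithin_le_nhds
  · filter_upwards [self_mem_nhdsWithin] with s hs x
    have hs1 : (1 : ℝ) < s := hs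
    rw [norm_mul, hJ, hfm]
    have hX : (1 : ℝ) ≤ ((x + 1 : ℕ) : ℝ) ^ 2 := by
      apply one_le_pow₀
      push_cast
      have : (0 : ℝ) ≤ x := by positivity
      linarith
    have h1 : ‖(jacobiSym a (r₁ * r₂) : ℝ) * (if Nat.Coprime (x + 1) (r₁ * r₂) then 1 else 0)‖
        ≤ 1 := by
      rw [norm_mul]
      have h2 : ‖((jacobiSym a (r₁ * r₂) : ℤ) : ℝ)‖ ≤ 1 := by
        rcases jacobiSym.trichotomy a (r₁ * r₂) with h | h | h <;> rw [h] <;> simp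
      have h3 : ‖(if Nat.Coprime (x + 1) (r₁ * r₂) then (1 : ℝ) else 0)‖ ≤ 1 := by
        split_ifs <;> simp
      exact mul_le_one₀ h2 (norm_nonneg _) h3
    have h4 : ‖(((a * ((x + 1 : ℕ) : ℤ) ^ 2 : ℤ)) : ℝ) ^ (-s)‖ ≤ 1 / ((x + 1 : ℕ) : ℝ) ^ 2 := by
      push_cast
      push_cast at hX
      have hb : (1 : ℝ) ≤ (a : ℝ) * ((x : ℝ) + 1) ^ 2 := by nlinarith
      rw [Real.norm_eq_abs, abs_of_nonneg (by positivity)]
      calc ((a : ℝ) * ((x : ℝ) + 1) ^ 2) ^ (-s) ≤ ((a : ℝ) * ((x : ℝ) + 1) ^ 2) ^ (-(1 : ℝ)) :=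
            Real.rpow_le_rpow_of_exponent_le hb (by linarith)
        _ = 1 / ((a : ℝ) * ((x : ℝ) + 1) ^ 2) := by rw [Real.rpow_neg_one, one_div]
        _ ≤ 1 / ((x : ℝ) + 1) ^ 2 := by
            apply one_div_le_one_div_of_le (by linarith)
            nlinarith
    calc _ ≤ 1 * (1 / ((x + 1 : ℕ) : ℝ) ^ 2) :=
          mul_le_mul h1 h4 (norm_nonneg _) zero_le_one
      _ = _ := one_mul _

end Pool.OCG
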