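import Pool.Agent.OCG.UniS

/-!
# Splitting a row into arithmetic progressions (auxiliary file of `RowE` and `RowOne`)
-/

set_option autoImplicit false

namespace Pool.OCG

theorem rowAux_split {D : ℕ} (hD : 0 < D) {F : ℤ → ℝ} (hF : Summable F) :
    ∑' x, F x = ∑ r ∈ Finset.range D, ∑' k : ℤ, F (r + k * D) := by
  haveI : NeZero D := ⟨hD.ne'⟩
  let e : Fin D × ℤ ≃ ℤ := (Equiv.prodComm _ _).trans (Int.divModEquiv D).symm
  have he : ∀ (r : Fin D) (k : ℤ), e (r, k) = ((r : ℕ) : ℤ) + k * D := by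
    intro r k
    change k * (D : ℤ) + ((r : ℕ) : ℤ) = _
    ring
  have h1 : ∑' x, F x = ∑' p : Fin D × ℤ, F (e p) := (e.tsum_eq F).symm
  have h2 : Summable (fun p => F (e p)) := (e.summable_iff).2 hF
  rw [h1, h2.tsum_prod, tsum_fintype, Finset.sum_range]
  refine Finset.sum_congr rfl fun r _ => tsum_congr fun k => ?_
  rw [he]

theorem rowAux_fm (a b c : ℤ) (ha : 0 < a) (q : ℕ) (hq : 4 * a * c - b ^ 2 = q) (x y : ℤ) :
    ((fm a b c x y : ℤ) : ℝ) =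
      a * ((x + b * y / (2 * a)) ^ 2 + (Real.sqrt q * y / (2 * a)) ^ 2) := by
  have ha' : (a : ℝ) ≠ 0 := by exact_mod_cast ha.ne'
  have h1 : Real.sqrt q ^ 2 = (q : ℝ) := Real.sq_sqrt (Nat.cast_nonneg q)
  have h2 : (4 : ℝ) * a * c - b ^ 2 = q := by exact_mod_cast hq
  have h3 : (Real.sqrt q * y / (2 * a)) ^ 2 = (4 * a * c - b ^ 2) * y ^ 2 / (4 * a ^ 2) := by
    rw [h2, div_pow, mul_pow, h1]
    ring
  rw [h3]
  unfold fm
  push_cast
  field_simp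
  ring

theorem rowAux_abs (m : ℤ) (D : ℕ) : |(jacobiSym m D : ℝ)| ≤ 1 := by
  rcases jacobiSym.trichotomy m D with h | h | h <;> rw [h] <;> simp

theorem rowAux_per (D : ℕ) (a b c : ℤ) (y : ℕ) (r k : ℤ) :
    jacobiSym (fm a b c (r + k * D) y) D = jacobiSym (fm a b c r y) D := by
  apply jacobiSym.mod_left'
  have h : fm a b c (r + k * D) y = fm a b c r y + D * (a * (2 * r * k + k ^ 2 * D) + b * k * y) := by
    unfold fm
    ring
  rw [h, Int.add_mul_emod_self_left]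

theorem rowAux_pos {a : ℤ} (ha : 0 < a) {q : ℕ} (hq0 : 0 < q) {y : ℕ} (hy : 1 ≤ y) :
    0 < Real.sqrt q * (y : ℝ) / (2 * a) := by
  have h1 : (0 : ℝ) < a := by exact_mod_cast ha
  have h2 : (0 : ℝ) < q := by exact_mod_cast hq0
  have h3 : (0 : ℝ) < y := by exact_mod_cast hy
  have := Real.sqrt_pos.2 h2
  positivity

theorem rowAux_rpow (a b c : ℤ) (ha : 0 < a) (q : ℕ) (hq : 4 * a * c - b ^ 2 = q) (x : ℤ) (y : ℕ)
    (s : ℝ) :
    ((fm a b c x y : ℤ) : ℝ) ^ (-s) = (a : ℝ) ^ (-s) *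
      ((b * y / (2 * a) + x) ^ 2 + (Real.sqrt q * y / (2 * a)) ^ 2) ^ (-s) := by
  rw [rowAux_fm a b c ha q hq x y, Real.mul_rpow (by exact_mod_cast ha.le) (by positivity)]
  push_cast
  rw [add_comm (x : ℝ)]

theorem rowAux_summable {D : ℕ} (a b c : ℤ) (ha : 0 < a) (q : ℕ) (hq0 : 0 < q)
    (hq : 4 * a * c - b ^ 2 = q) (y : ℕ) (hy : 1 ≤ y) {s : ℝ} (hs : 1 ≤ s) :
    Summable (fun x : ℤ => (jacobiSym (fm a b c x y) D : ℝ) * ((fm a b c x y : ℤ) : ℝ) ^ (-s)) := by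
  have h1 := (summable_uni (rowAux_pos ha hq0 hy) hs ((b : ℝ) * y / (2 * a)) 1 one_pos).mul_left
    ((a : ℝ) ^ (-s))
  refine Summable.of_norm_bounded h1 fun x => ?_
  have ha' : (0 : ℝ) < a := by exact_mod_cast ha
  rw [rowAux_rpow a b c ha q hq x y s, mul_one, norm_mul, Real.norm_eq_abs, Real.norm_eq_abs,
    abs_of_nonneg (a := (a : ℝ) ^ (-s) * _) (by positivity)]
  exact mul_le_of_le_one_left (by positivity) (rowAux_abs _ _)

theorem rowAux_bound {D : ℕ} (hD : 0 < D) (a b c : ℤ) (ha : 0 < a) (q : ℕ) (hq0 : 0 < q)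
    (hq : 4 * a * c - b ^ 2 = q) (y : ℕ) (hy : 1 ≤ y) {s : ℝ} (hs : 1 ≤ s) (I B : ℝ)
    (hI : ∀ x₀ : ℝ, |∑' k : ℤ, ((x₀ + k * D) ^ 2 + (Real.sqrt q * y / (2 * a)) ^ 2) ^ (-s) - I| ≤ B) :
    |row D a b c y s - (cy D a b c y : ℝ) * ((a : ℝ) ^ (-s) * I)| ≤ D * ((a : ℝ) ^ (-s) * B) := by
  have ha' : (0 : ℝ) < a := by exact_mod_cast ha
  have h1 : row D a b c y s = ∑ r ∈ Finset.range D, (jacobiSym (fm a b c r y) D : ℝ) *
      ((a : ℝ) ^ (-s) * ∑' k : ℤ, (((b : ℝ) * y / (2 * a) + r + k * D) ^ 2 +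
        (Real.sqrt q * y / (2 * a)) ^ 2) ^ (-s)) := by
    unfold row
    rw [rowAux_split hD (rowAux_summable a b c ha q hq0 hq y hy hs)]
    refine Finset.sum_congr rfl fun r _ => ?_
    rw [← tsum_mul_left, ← tsum_mul_left]
    refine tsum_congr fun k => ?_
    rw [rowAux_per, rowAux_rpow a b c ha q hq _ y s]
    push_cast
    rw [add_assoc]
  have h2 : (cy D a b c y : ℝ) * ((a : ℝ) ^ (-s) * I) = ∑ r ∈ Finset.range D,
      (jacobiSym (fm a b c r y) D : ℝ) * ((a : ℝ) ^ (-s) * I) := by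
    unfold cy
    rw [Int.cast_sum, Finset.sum_mul]
  rw [h1, h2, ← Finset.sum_sub_distrib]
  refine (Finset.abs_sum_le_sum_abs _ _).trans ?_
  calc ∑ r ∈ Finset.range D, _ ≤ ∑ r ∈ Finset.range D, (a : ℝ) ^ (-s) * B := by
        refine Finset.sum_le_sum fun r _ => ?_
        rw [← mul_sub, ← mul_sub, abs_mul, abs_mul, abs_of_nonneg (Real.rpow_nonneg ha'.le (-s))]
        have h3 := hI ((b : ℝ) * y / (2 * a) + r)
        calc _ ≤ 1 * ((a : ℝ) ^ (-s) * B) := by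
              gcongr
              exact rowAux_abs _ _
          _ = _ := one_mul _
    _ = D * ((a : ℝ) ^ (-s) * B) := by
        rw [Finset.sum_const, Finset.card_range, nsmul_eq_mul]

theorem rowAux_sq {a : ℤ} (ha : 0 < a) (q y : ℕ) :
    (Real.sqrt q * (y : ℝ) / (2 * a)) ^ 2 = (q : ℝ) * (y : ℝ) ^ 2 / (4 * (a : ℝ) ^ 2) := by
  have h1 : Real.sqrt q ^ 2 = (q : ℝ) := Real.sq_sqrt (Nat.cast_nonneg q)
  rw [div_pow, mul_pow, h1]
  ring

end Pool.OCG
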