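import Pool.Agent.OCG.Defs

/-!
# Determinants with rows close to a curve

PAPER PROOF. Write row `j` of `A` as the sum over `φ ∈ Fin (N + 1)` (or `Option (Fin N)`) of
`R j φ`, where `R j m = z j ^ m • c m` for `m < N` and `R j N = E j`. By multilinearity in the rows,
`det A = ∑ over maps φ : Fin N → Fin (N + 1)` of `det (fun j => R j (φ j))`. If `φ j = φ j' = m < N`
with `j ≠ j'`, two rows are proportional (`z j ^ m • c m`), the determinant is `0`. Otherwise all
entries of row `j` are at most `W ρ ^ (φ j)`, so `|det| ≤ N! W ^ N ρ ^ (∑ φ j)`, and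
`∑ φ j ≥ 0 + 1 + ⋯ + (N - 1) = N (N - 1) / 2` (the values `< N` are distinct, the others are `≥ N`:
e.g. order the values, or: a multiset of `N` naturals in which every value `< N` occurs at most once).
There are `(N + 1) ^ N` maps `φ`.
-/

set_option autoImplicit false

namespace Pool.OCG

private lemma tdet_sum {N : ℕ} (f : Fin N → Option (Fin N))
    (hinj : ∀ j j' m, f j = some m → f j' = some m → j = j') :
    N * (N - 1) / 2 ≤ ∑ j, (f j).elim N (fun m => (m : ℕ)) := by
  classical
  set v : Fin N → ℕ := fun j => (f j).elim N (fun m => (m : ℕ)) with hv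
  set S : Finset (Fin N) := Finset.univ.filter (fun j => f j ≠ none) with hS
  have hSv : ∀ j ∈ S, ∃ m, f j = some m ∧ v j = m := by
    intro j hj
    rw [hS, Finset.mem_filter] at hj
    obtain ⟨m, hm⟩ := Option.ne_none_iff_exists'.mp hj.2
    exact ⟨m, hm, by rw [hv]; simp only; rw [hm]; rfl⟩
  have hTv : ∀ j ∈ Sᶜ, v j = N := by
    intro j hj
    rw [Finset.mem_compl, hS, Finset.mem_filter] at hj
    have h0 : f j = none := by
      by_contra h
      exact hj ⟨Finset.mem_univ _, h⟩
    rw [hv]; simp only; rw [h0]; rfl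
  have hinj' : Set.InjOn v S := by
    intro j hj j' hj' h
    obtain ⟨m, h1, h2⟩ := hSv j hj
    obtain ⟨m', h1', h2'⟩ := hSv j' hj'
    have hmm : m = m' := Fin.ext (by rw [← h2, ← h2', h])
    rw [← hmm] at h1'
    exact hinj j j' m h1 h1'
  have hV : S.image v ⊆ Finset.range N := by
    intro x hx
    rw [Finset.mem_image] at hx
    obtain ⟨j, hj, rfl⟩ := hx
    obtain ⟨m, -, h2⟩ := hSv j hj
    rw [h2, Finset.mem_range]
    exact m.2
  have hVc : (S.image v).card = S.card := Finset.card_image_of_injOn hinj'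
  have h1 : ∑ i ∈ Finset.range N \ S.image v, i ≤ Sᶜ.card * N := by
    calc ∑ i ∈ Finset.range N \ S.image v, i ≤ (Finset.range N \ S.image v).card • N := by
          refine Finset.sum_le_card_nsmul _ _ _ fun i hi => ?_
          rw [Finset.mem_sdiff, Finset.mem_range] at hi
          exact hi.1.le
      _ = Sᶜ.card * N := by
          rw [smul_eq_mul, Finset.card_sdiff_of_subset hV, hVc, Finset.card_range,
            Finset.card_compl, Fintype.card_fin]
  calc N * (N - 1) / 2 = ∑ i ∈ Finset.range N, i := (Finset.sum_range_id N).symm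
    _ = ∑ i ∈ Finset.range N \ S.image v, i + ∑ i ∈ S.image v, i :=
        (Finset.sum_sdiff hV).symm
    _ ≤ Sᶜ.card * N + ∑ j ∈ S, v j := by
        rw [Finset.sum_image hinj']
        exact Nat.add_le_add_right h1 _
    _ = ∑ j ∈ Sᶜ, v j + ∑ j ∈ S, v j := by
        rw [Finset.sum_congr rfl hTv, Finset.sum_const, smul_eq_mul]
    _ = ∑ j, v j := Finset.sum_compl_add_sum S v

private lemma tdet_prop {N : ℕ} (M : Matrix (Fin N) (Fin N) ℝ) (j j' : Fin N) (h : j ≠ j')
    (x y : ℝ) (w : Fin N → ℝ) (h1 : M j = x • w) (h2 : M j' = y • w) : M.det = 0 := by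
  have e1 : M = Matrix.updateRow M j (x • w) := by
    rw [← h1]; exact (Matrix.updateRow_eq_self M j).symm
  rw [e1, Matrix.det_updateRow_smul]
  set M' := Matrix.updateRow M j w with hM'
  have e2 : M' j' = y • w := by
    rw [hM', Matrix.updateRow_ne (Ne.symm h), h2]
  have e3 : M' = Matrix.updateRow M' j' (y • w) := by
    rw [← e2]; exact (Matrix.updateRow_eq_self M' j').symm
  rw [e3, Matrix.det_updateRow_smul]
  have e4 : (Matrix.updateRow M' j' w).det = 0 := by
    refine Matrix.det_zero_of_row_eq h ?_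
    rw [Matrix.updateRow_ne h, Matrix.updateRow_self, hM', Matrix.updateRow_self]
  rw [e4, mul_zero, mul_zero]

private lemma tdet_bound {N : ℕ} (M : Matrix (Fin N) (Fin N) ℝ) (B : Fin N → ℝ)
    (h : ∀ j i, |M j i| ≤ B j) : |M.det| ≤ (N.factorial : ℝ) * ∏ j, B j := by
  rw [← Matrix.det_transpose, Matrix.det_apply]
  calc |∑ σ : Equiv.Perm (Fin N), Equiv.Perm.sign σ • ∏ i, M.transpose (σ i) i|
      ≤ ∑ σ : Equiv.Perm (Fin N), |Equiv.Perm.sign σ • ∏ i, M.transpose (σ i) i| :=
        Finset.abs_sum_le_sum_abs _ _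
    _ ≤ ∑ _σ : Equiv.Perm (Fin N), ∏ j, B j := by
        refine Finset.sum_le_sum fun σ _ => ?_
        have e : |Equiv.Perm.sign σ • ∏ i, M.transpose (σ i) i| = |∏ i, M.transpose (σ i) i| := by
          rcases Int.units_eq_one_or (Equiv.Perm.sign σ) with hs | hs <;> rw [hs] <;> simp
        rw [e, Finset.abs_prod]
        exact Finset.prod_le_prod (fun _ _ => abs_nonneg _) fun i _ => h i (σ i)
    _ = (N.factorial : ℝ) * ∏ j, B j := by
        rw [Finset.sum_const, Finset.card_univ, Fintype.card_perm, Fintype.card_fin,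
          nsmul_eq_mul]

theorem det_small {N : ℕ} {ρ W : ℝ} (hρ0 : 0 < ρ) (hρ1 : ρ ≤ 1) (hW : 0 ≤ W)
    (A E : Matrix (Fin N) (Fin N) ℝ) (c : Fin N → Fin N → ℝ) (z : Fin N → ℝ)
    (hA : ∀ j i, A j i = (∑ m : Fin N, z j ^ (m : ℕ) * c m i) + E j i)
    (hc : ∀ j i (m : Fin N), |z j ^ (m : ℕ) * c m i| ≤ W * ρ ^ (m : ℕ))
    (hE : ∀ j i, |E j i| ≤ W * ρ ^ N) :
    |A.det| ≤ ((N : ℝ) + 1) ^ N * (N.factorial : ℝ) * W ^ N * ρ ^ (N * (N - 1) / 2) := by
  classical
  set R : Fin N → Option (Fin N) → (Fin N → ℝ) := fun j o =>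
    o.elim (E j) (fun m => z j ^ (m : ℕ) • c m) with hR
  have hrow : A = fun j => ∑ o : Option (Fin N), R j o := by
    funext j i
    rw [Finset.sum_apply, Fintype.sum_option, hA j i, add_comm]
    rfl
  have hdet : A.det = ∑ f : Fin N → Option (Fin N), Matrix.det (fun j => R j (f j)) := by
    have h := MultilinearMap.map_sum
      (Matrix.detRowAlternating : (Fin N → ℝ) [⋀^Fin N]→ₗ[ℝ] ℝ).toMultilinearMap R
    rw [hrow]
    exact h
  have hterm : ∀ f : Fin N → Option (Fin N), |Matrix.det (fun j => R j (f j))| ≤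
      (N.factorial : ℝ) * W ^ N * ρ ^ (N * (N - 1) / 2) := by
    intro f
    by_cases hinj : ∀ j j' m, f j = some m → f j' = some m → j = j'
    · have h1 := tdet_bound (fun j => R j (f j))
        (fun j => W * ρ ^ ((f j).elim N (fun m => (m : ℕ)))) ?_
      · rw [Finset.prod_mul_distrib, Finset.prod_const, Finset.card_univ, Fintype.card_fin,
          Finset.prod_pow_eq_pow_sum, ← mul_assoc] at h1
        refine h1.trans (mul_le_mul_of_nonneg_left ?_ (by positivity))
        exact pow_le_pow_of_le_one hρ0.le hρ1 (tdet_sum f hinj)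
      · intro j i
        cases hf : f j with
        | none => simpa [hR, hf] using hE j i
        | some m => simpa [hR, hf] using hc j i m
    · push Not at hinj
      obtain ⟨j, j', m, h1, h2, h3⟩ := hinj
      have h0 : Matrix.det (fun j => R j (f j)) = 0 := by
        refine tdet_prop _ j j' h3 (z j ^ (m : ℕ)) (z j' ^ (m : ℕ)) (c m) ?_ ?_
        · simp only [hR, h1]; rfl
        · simp only [hR, h2]; rfl
      rw [h0, abs_zero]
      positivity
  rw [hdet]
  calc |∑ f : Fin N → Option (Fin N), Matrix.det (fun j => R j (f j))|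
      ≤ ∑ f : Fin N → Option (Fin N), |Matrix.det (fun j => R j (f j))| :=
        Finset.abs_sum_le_sum_abs _ _
    _ ≤ ∑ _f : Fin N → Option (Fin N), (N.factorial : ℝ) * W ^ N * ρ ^ (N * (N - 1) / 2) :=
        Finset.sum_le_sum fun f _ => hterm f
    _ = ((N : ℝ) + 1) ^ N * (N.factorial : ℝ) * W ^ N * ρ ^ (N * (N - 1) / 2) := by
        rw [Finset.sum_const, Finset.card_univ, Fintype.card_fun, Fintype.card_option,
          Fintype.card_fin, nsmul_eq_mul]
        push_cast
        ring

end Pool.OCG
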