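import Pool.Agent.OCG.Liou

/-!
# Lower bound for the interpolation determinant

PAPER PROOF. `Matrix.det_apply`: `det = ∑_π sgn π ∏_j (entry (π j) j or j (π j))`
`= ∑_π c_π α ^ a_π β ^ b_π` with the integer `c_π = sgn π ∏_j (r j b₂ + s j b₁) ^ kk (π j)`, `a_π = ∑_j ll (π j) r j`,
`b_π = ∑_j ll (π j) s j`. Here `|c_π| ≤ (Z ^ K) ^ N` and `α ^ a_π β ^ b_π ≤ (exp Y) ^ N`. Apply `liou` with
`M = N! (Z ^ K exp Y) ^ N`.
-/

set_option autoImplicit false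

namespace Pool.OCG

private lemma tlow_det {N : ℕ} {α β : ℝ} (b₁ b₂ : ℕ) (r s kk ll : Fin N → ℕ) :
    (tm b₁ b₂ α β r s kk ll).det = ∑ σ : Equiv.Perm (Fin N),
      (((Equiv.Perm.sign σ : ℤ) * ∏ i, ((r (σ i) : ℤ) * b₂ + s (σ i) * b₁) ^ kk i : ℤ) : ℝ) *
        α ^ (∑ i, r (σ i) * ll i) * β ^ (∑ i, s (σ i) * ll i) := by
  rw [Matrix.det_apply]
  refine Finset.sum_congr rfl fun σ _ => ?_
  have h1 : ∏ i, tm b₁ b₂ α β r s kk ll (σ i) i =
      (∏ i, ((r (σ i) : ℝ) * b₂ + s (σ i) * b₁) ^ kk i) *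
        (α ^ (∑ i, r (σ i) * ll i) * β ^ (∑ i, s (σ i) * ll i)) := by
    rw [← Finset.prod_pow_eq_pow_sum, ← Finset.prod_pow_eq_pow_sum, ← Finset.prod_mul_distrib,
      ← Finset.prod_mul_distrib]
    refine Finset.prod_congr rfl fun i _ => ?_
    unfold tm
    rw [Matrix.of_apply, mul_pow, ← pow_mul, ← pow_mul]
  rw [h1, Units.smul_def, zsmul_eq_mul]
  push_cast
  ring

private lemma tlow_exp {α β : ℝ} (h1 : 1 ≤ α) (h2 : 1 ≤ β) (r s l : ℕ) :
    α ^ (r * l) * β ^ (s * l) = Real.exp ((l : ℝ) * (r * Real.log α + s * Real.log β)) := by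
  have hα : 0 < α := by linarith
  have hβ : 0 < β := by linarith
  have e1 : α ^ (r * l) = Real.exp (((r * l : ℕ) : ℝ) * Real.log α) := by
    rw [Real.exp_nat_mul, Real.exp_log hα]
  have e2 : β ^ (s * l) = Real.exp (((s * l : ℕ) : ℝ) * Real.log β) := by
    rw [Real.exp_nat_mul, Real.exp_log hβ]
  rw [e1, e2, ← Real.exp_add]
  congr 1
  push_cast
  ring

theorem det_lower {N K : ℕ} {α β : ℝ} (h1 : 1 ≤ α) (h2 : 1 ≤ β) (t u : ℤ)
    (ht : α + α⁻¹ = t) (hu : β + β⁻¹ = u) (b₁ b₂ : ℕ) (r s kk ll : Fin N → ℕ)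
    (hk : ∀ i, kk i < K) (Z Y : ℝ) (hZ : 1 ≤ Z) (hY0 : 0 ≤ Y)
    (hxZ : ∀ j, (r j : ℝ) * b₂ + s j * b₁ ≤ Z)
    (hY : ∀ j i, (ll i : ℝ) * (r j * Real.log α + s j * Real.log β) ≤ Y)
    (h0 : (tm b₁ b₂ α β r s kk ll).det ≠ 0) :
    1 ≤ ((N.factorial : ℝ) * (Z ^ K * Real.exp Y) ^ N) ^ 3 *
      |(tm b₁ b₂ α β r s kk ll).det| := by
  have hZK : 1 ≤ Z ^ K := one_le_pow₀ hZ
  have hE : 1 ≤ Real.exp Y := Real.one_le_exp hY0
  have hZE : 1 ≤ Z ^ K * Real.exp Y := by nlinarith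
  have hfac : (1 : ℝ) ≤ N.factorial := by exact_mod_cast Nat.succ_le_of_lt (Nat.factorial_pos N)
  have hM1 : 1 ≤ (N.factorial : ℝ) * (Z ^ K * Real.exp Y) ^ N := by
    have := one_le_pow₀ (n := N) hZE
    nlinarith
  rw [tlow_det] at h0 ⊢
  refine liou h1 h2 t u ht hu Finset.univ
    (fun σ : Equiv.Perm (Fin N) =>
      ((Equiv.Perm.sign σ : ℤ) * ∏ i, ((r (σ i) : ℤ) * b₂ + s (σ i) * b₁) ^ kk i : ℤ))
    (fun σ => ∑ i, r (σ i) * ll i) (fun σ => ∑ i, s (σ i) * ll i) _ hM1 ?_ h0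
  calc ∑ σ : Equiv.Perm (Fin N),
      |((((Equiv.Perm.sign σ : ℤ) * ∏ i, ((r (σ i) : ℤ) * b₂ + s (σ i) * b₁) ^ kk i : ℤ)) : ℝ)| *
        α ^ (∑ i, r (σ i) * ll i) * β ^ (∑ i, s (σ i) * ll i)
      ≤ ∑ _σ : Equiv.Perm (Fin N), (Z ^ K * Real.exp Y) ^ N := by
        refine Finset.sum_le_sum fun σ _ => ?_
        have e1 : |((((Equiv.Perm.sign σ : ℤ) *
            ∏ i, ((r (σ i) : ℤ) * b₂ + s (σ i) * b₁) ^ kk i : ℤ)) : ℝ)| =
            ∏ i, ((r (σ i) : ℝ) * b₂ + s (σ i) * b₁) ^ kk i := by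
          push_cast
          rw [abs_mul, abs_of_nonneg (a := ∏ i, ((r (σ i) : ℝ) * b₂ + s (σ i) * b₁) ^ kk i)
            (by positivity)]
          have : |(((Equiv.Perm.sign σ : ℤˣ) : ℤ) : ℝ)| = 1 := by
            rcases Int.units_eq_one_or (Equiv.Perm.sign σ) with hs | hs <;> rw [hs] <;> simp
          rw [this, one_mul]
        rw [e1, mul_assoc, ← Finset.prod_pow_eq_pow_sum, ← Finset.prod_pow_eq_pow_sum,
          ← Finset.prod_mul_distrib, ← Finset.prod_mul_distrib]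
        calc ∏ i, ((r (σ i) : ℝ) * b₂ + s (σ i) * b₁) ^ kk i *
              (α ^ (r (σ i) * ll i) * β ^ (s (σ i) * ll i))
            ≤ ∏ _i : Fin N, (Z ^ K * Real.exp Y) := by
              refine Finset.prod_le_prod (fun i _ => by positivity) fun i _ => ?_
              refine mul_le_mul ?_ ?_ (by positivity) (by positivity)
              · calc ((r (σ i) : ℝ) * b₂ + s (σ i) * b₁) ^ kk i ≤ Z ^ kk i :=
                      pow_le_pow_left₀ (by positivity) (hxZ (σ i)) _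
                  _ ≤ Z ^ K := pow_le_pow_right₀ hZ (hk i).le
              · rw [tlow_exp h1 h2]
                exact Real.exp_le_exp.mpr (hY (σ i) i)
          _ = (Z ^ K * Real.exp Y) ^ N := by
              rw [Finset.prod_const, Finset.card_univ, Fintype.card_fin]
    _ = (N.factorial : ℝ) * (Z ^ K * Real.exp Y) ^ N := by
        rw [Finset.sum_const, Finset.card_univ, Fintype.card_perm, Fintype.card_fin,
          nsmul_eq_mul]

end Pool.OCG
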