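import Pool.Agent.OCG.Defs

/-!
# Zero estimate

PAPER PROOF. (a) If all the determinants vanish, the vectors
`v p = (x p ^ (i / L) * y p ^ (i % L))_{i < K L}`, `p` in the box `p.1 < R₁ + R₂`, `p.2 < S₁ + S₂`, do not span `ℝ ^ (K L)`
(a spanning family contains a basis indexed by `Fin (K L)`), so there is a non zero linear form killing all
of them: `P(X, Y) = ∑_{l < L} P_l(X) Y ^ l ≠ 0`, `deg P_l < K`, with `P(x p, y p) = 0` for every `p` in the box.
(b) Choose `L` points `p_0, …, p_{L-1}` with `p_j.1 < R₁`, `p_j.2 < S₁` and distinct `y p_j` (possible by `hL1`,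
`hyinj`). Put `Q_l = P_l` if `P_l ≠ 0` and `Q_l = 1` otherwise, and
`Δ(X) = det (Q_l(X + x p_j) (y p_j) ^ l)_{j, l < L}`. For `p` with `p.1 < R₂`, `p.2 < S₂` the vector
`(y p ^ l if P_l ≠ 0, else 0)_l` is non zero and
`∑_l Q_l(x p + x p_j) (y p_j) ^ l (y p ^ l [P_l ≠ 0]) = P(x (p + p_j), y (p + p_j)) = 0`, so `Δ(x p) = 0`.
So `Δ` has at least `K L` roots (`hxinj`, `hKL`). Its degree is at most `L (K - 1) < K L`, and its coefficient at
`X ^ (∑ deg Q_l)` is `∏ (leading coefficient of Q_l)` times the Vandermonde determinant of the `y p_j`, not zero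
(column `l` is `Q_l(X + x p_j) (y p_j)^l`, and `Q_l(X + x p_j)` has the degree and the leading coefficient of `Q_l`). Contradiction.
-/

set_option autoImplicit false

namespace Pool.OCG

open Polynomial in
/-- The shifted determinant is a nonzero polynomial of degree at most `∑ deg Q_l`. -/
theorem tz_det {L : ℕ} (Q : Fin L → ℝ[X]) (hQ : ∀ l, Q l ≠ 0) (a b : Fin L → ℝ)
    (hb : Function.Injective b) (hb0 : ∀ j, b j ≠ 0) :
    (Matrix.of fun j l : Fin L => (Q l).comp (X + C (a j)) * C (b j ^ (l : ℕ))).det ≠ 0 ∧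
    (Matrix.of fun j l : Fin L => (Q l).comp (X + C (a j)) * C (b j ^ (l : ℕ))).det.natDegree ≤
      ∑ l, (Q l).natDegree := by
  have hf : ∀ j l : Fin L, ((Q l).comp (X + C (a j)) * C (b j ^ (l : ℕ))).natDegree =
      (Q l).natDegree := by
    intro j l
    rw [natDegree_mul_C (pow_ne_zero _ (hb0 j)), natDegree_comp, natDegree_X_add_C, mul_one]
  have hlc : ∀ j l : Fin L, ((Q l).comp (X + C (a j)) * C (b j ^ (l : ℕ))).leadingCoeff =
      (Q l).leadingCoeff * b j ^ (l : ℕ) := by
    intro j l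
    rw [leadingCoeff_mul, leadingCoeff_C, leadingCoeff_comp (by rw [natDegree_X_add_C]; simp),
      leadingCoeff_X_add_C, one_pow, mul_one]
  have hne : ∀ j l : Fin L, (Q l).comp (X + C (a j)) * C (b j ^ (l : ℕ)) ≠ 0 := by
    intro j l
    rw [← leadingCoeff_ne_zero, hlc]
    exact mul_ne_zero (leadingCoeff_ne_zero.2 (hQ l)) (pow_ne_zero _ (hb0 j))
  have hdeg : ∀ σ : Equiv.Perm (Fin L),
      (∏ l, ((Q l).comp (X + C (a (σ l))) * C (b (σ l) ^ (l : ℕ)))).natDegree =
        ∑ l, (Q l).natDegree := by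
    intro σ
    rw [natDegree_prod _ _ fun l _ => hne _ _]
    exact Finset.sum_congr rfl fun l _ => hf _ _
  have hco : ∀ σ : Equiv.Perm (Fin L),
      (∏ l, ((Q l).comp (X + C (a (σ l))) * C (b (σ l) ^ (l : ℕ)))).coeff (∑ l, (Q l).natDegree) =
        (∏ l, (Q l).leadingCoeff) * ∏ l, b (σ l) ^ (l : ℕ) := by
    intro σ
    rw [← hdeg σ, coeff_natDegree, leadingCoeff_prod, ← Finset.prod_mul_distrib]
    exact Finset.prod_congr rfl fun l _ => hlc _ _
  constructor
  · intro h0
    have h1 := congrArg (fun P : ℝ[X] => P.coeff (∑ l, (Q l).natDegree)) h0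
    simp only [Matrix.det_apply, Matrix.of_apply, finsetSum_coeff, coeff_zero] at h1
    have h2 : ∀ σ : Equiv.Perm (Fin L), ((Equiv.Perm.sign σ) •
        ∏ l, ((Q l).comp (X + C (a (σ l))) * C (b (σ l) ^ (l : ℕ)))).coeff
          (∑ l, (Q l).natDegree) =
        (∏ l, (Q l).leadingCoeff) * ((Equiv.Perm.sign σ) • ∏ l, b (σ l) ^ (l : ℕ)) := by
      intro σ
      rw [Units.smul_def, Units.smul_def, coeff_smul, hco σ, zsmul_eq_mul, zsmul_eq_mul]
      ring
    rw [Finset.sum_congr rfl fun σ _ => h2 σ, ← Finset.mul_sum] at h1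
    have h3 : (∑ σ : Equiv.Perm (Fin L), ((Equiv.Perm.sign σ) • ∏ l, b (σ l) ^ (l : ℕ))) =
        (Matrix.vandermonde b).det := by
      rw [Matrix.det_apply]
      rfl
    rw [h3] at h1
    rcases mul_eq_zero.1 h1 with h | h
    · exact (Finset.prod_ne_zero_iff.2 fun l _ => leadingCoeff_ne_zero.2 (hQ l)) h
    · exact (Matrix.det_vandermonde_ne_zero_iff.2 hb) h
  · rw [Matrix.det_apply]
    refine natDegree_sum_le_of_forall_le _ _ fun σ _ => ?_
    rw [Units.smul_def]
    refine (natDegree_smul_le _ _).trans ?_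
    exact (hdeg σ).le

theorem zero_est {K L R₁ S₁ R₂ S₂ : ℕ} (hK : 1 ≤ K) (hL : 1 ≤ L) (x y : ℕ × ℕ → ℝ)
    (hx : ∀ p p' : ℕ × ℕ, x (p + p') = x p + x p') (hy : ∀ p p' : ℕ × ℕ, y (p + p') = y p * y p')
    (hy0 : ∀ p, y p ≠ 0)
    (hyinj : Set.InjOn y {p | p.1 < R₁ ∧ p.2 < S₁}) (hL1 : L ≤ R₁ * S₁)
    (hxinj : Set.InjOn x {p | p.1 < R₂ ∧ p.2 < S₂}) (hKL : K * L ≤ R₂ * S₂) :
    ∃ pt : Fin (K * L) → ℕ × ℕ, (∀ j, (pt j).1 < R₁ + R₂ ∧ (pt j).2 < S₁ + S₂) ∧
      (Matrix.of fun j i : Fin (K * L) =>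
        x (pt j) ^ ((i : ℕ) / L) * y (pt j) ^ ((i : ℕ) % L)).det ≠ 0 := by
  set v : ℕ × ℕ → Fin (K * L) → ℝ := fun p i => x p ^ ((i : ℕ) / L) * y p ^ ((i : ℕ) % L) with hv
  set B : Set (ℕ × ℕ) := {p | p.1 < R₁ + R₂ ∧ p.2 < S₁ + S₂} with hB
  by_cases hspan : Submodule.span ℝ (v '' B) = ⊤
  · obtain ⟨t, htB, hts, hti⟩ := exists_linearIndependent ℝ (v '' B)
    rw [hspan] at hts
    let bs : Module.Basis t ℝ (Fin (K * L) → ℝ) := Module.Basis.mk hti (by
      rw [Subtype.range_coe, hts])
    have hfin : Finite t := Module.Finite.finite_basis bs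
    have : Fintype t := Fintype.ofFinite t
    have hcard : Fintype.card t = K * L := by
      rw [← Module.finrank_eq_card_basis bs, Module.finrank_fin_fun]
    let e : Fin (K * L) ≃ t := (Fintype.equivFinOfCardEq hcard).symm
    have hch : ∀ j : Fin (K * L), ∃ p ∈ B, v p = (e j : Fin (K * L) → ℝ) := fun j =>
      htB (e j).2
    choose pt hptB hpt using hch
    refine ⟨pt, hptB, ?_⟩
    have hli : LinearIndependent ℝ (fun j => v (pt j)) := by
      have h1 := hti.comp e e.injective
      have h2 : (fun j => v (pt j)) = (fun x : t => (x : Fin (K * L) → ℝ)) ∘ e := by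
        funext j
        exact hpt j
      rw [h2]
      exact h1
    have h3 : IsUnit (Matrix.of fun j i : Fin (K * L) =>
        x (pt j) ^ ((i : ℕ) / L) * y (pt j) ^ ((i : ℕ) % L)) :=
      Matrix.linearIndependent_rows_iff_isUnit.1 hli
    exact (Matrix.isUnit_iff_isUnit_det _).1 h3 |>.ne_zero
  · exfalso
    obtain ⟨f, hf0, hf⟩ := Submodule.exists_le_ker_of_lt_top _ (lt_top_iff_ne_top.2 hspan)
    set c : Fin (K * L) → ℝ := fun i => f (fun j => if i = j then 1 else 0) with hc
    have hfc : ∀ w, f w = ∑ i, w i * c i := fun w => LinearMap.pi_apply_eq_sum_univ f w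
    have hfB : ∀ p ∈ B, ∑ i, v p i * c i = 0 := by
      intro p hp
      rw [← hfc]
      exact hf (Submodule.subset_span ⟨p, hp, rfl⟩)
    set P : Fin L → Polynomial ℝ := fun l => ∑ k : Fin K,
      Polynomial.C (c (finProdFinEquiv (k, l))) * Polynomial.X ^ (k : ℕ) with hP
    have hPB : ∀ p ∈ B, ∑ l : Fin L, (P l).eval (x p) * y p ^ (l : ℕ) = 0 := by
      intro p hp
      rw [← hfB p hp, ← Equiv.sum_comp finProdFinEquiv, Fintype.sum_prod_type, Finset.sum_comm]
      refine Finset.sum_congr rfl fun l _ => ?_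
      rw [hP, Polynomial.eval_finsetSum, Finset.sum_mul]
      refine Finset.sum_congr rfl fun k _ => ?_
      have e1 : (finProdFinEquiv (k, l) : ℕ) / L = k := by
        rw [finProdFinEquiv_apply_val]
        simp only
        rw [Nat.add_mul_div_left _ _ (by omega), Nat.div_eq_of_lt l.2, zero_add]
      have e2 : (finProdFinEquiv (k, l) : ℕ) % L = l := by
        rw [finProdFinEquiv_apply_val]
        simp only
        rw [Nat.add_mul_mod_self_left, Nat.mod_eq_of_lt l.2]
      rw [hv]
      simp only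
      rw [e1, e2, Polynomial.eval_mul, Polynomial.eval_C, Polynomial.eval_pow, Polynomial.eval_X]
      ring
    have hPne : ∃ l, P l ≠ 0 := by
      by_contra hcon
      push Not at hcon
      apply hf0
      have hc0 : ∀ i, c i = 0 := by
        intro i
        obtain ⟨⟨k, l⟩, rfl⟩ := finProdFinEquiv.surjective i
        have h1 := congrArg (fun R : Polynomial ℝ => R.coeff (k : ℕ)) (hcon l)
        simp only [hP, Polynomial.finsetSum_coeff, Polynomial.coeff_C_mul_X_pow,
          Polynomial.coeff_zero] at h1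
        rw [Finset.sum_eq_single k] at h1
        · simpa using h1
        · intro b _ hb
          rw [if_neg]
          intro h
          exact hb (Fin.ext h.symm)
        · intro h
          exact absurd (Finset.mem_univ _) h
      apply LinearMap.ext
      intro w
      rw [hfc]
      simp [hc0]
    have hPdeg : ∀ l, (P l).natDegree ≤ K - 1 := by
      intro l
      refine Polynomial.natDegree_sum_le_of_forall_le _ _ fun k _ => ?_
      refine (Polynomial.natDegree_C_mul_X_pow_le _ _).trans ?_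
      have := k.2
      omega
    obtain ⟨pj⟩ : Nonempty (Fin L ↪ Fin R₁ × Fin S₁) :=
      Function.Embedding.nonempty_of_card_le (by simpa using hL1)
    set q : Fin L → ℕ × ℕ := fun j => ((pj j).1, (pj j).2) with hq
    have hqB : ∀ j, (q j).1 < R₁ ∧ (q j).2 < S₁ := fun j => ⟨(pj j).1.2, (pj j).2.2⟩
    have hqinj : Function.Injective q := by
      intro j j' h
      apply pj.injective
      rw [hq] at h
      simp only [Prod.mk.injEq] at h
      exact Prod.ext (Fin.ext h.1) (Fin.ext h.2)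
    have hyq : Function.Injective fun j => y (q j) := by
      intro j j' h
      exact hqinj (hyinj (hqB j) (hqB j') h)
    set Q : Fin L → Polynomial ℝ := fun l => if P l = 0 then 1 else P l with hQ
    have hQ0 : ∀ l, Q l ≠ 0 := by
      intro l
      rw [hQ]
      simp only
      split_ifs with h
      · exact one_ne_zero
      · exact h
    have hQdeg : ∀ l, (Q l).natDegree ≤ K - 1 := by
      intro l
      rw [hQ]
      simp only
      split_ifs with h
      · simp
      · exact hPdeg l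
    obtain ⟨hΔ0, hΔd⟩ := tz_det Q hQ0 (fun j => x (q j)) (fun j => y (q j)) hyq
      (fun j => hy0 (q j))
    apply hΔ0
    set g : Fin R₂ × Fin S₂ → ℝ := fun p => x ((p.1 : ℕ), (p.2 : ℕ)) with hg
    have hginj : Function.Injective g := by
      intro p p' h
      have h1 := hxinj (show ((p.1 : ℕ), (p.2 : ℕ)) ∈ {p : ℕ × ℕ | p.1 < R₂ ∧ p.2 < S₂} from
        ⟨p.1.2, p.2.2⟩) (show ((p'.1 : ℕ), (p'.2 : ℕ)) ∈ {p : ℕ × ℕ | p.1 < R₂ ∧ p.2 < S₂} from
        ⟨p'.1.2, p'.2.2⟩) h
      simp only [Prod.mk.injEq] at h1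
      exact Prod.ext (Fin.ext h1.1) (Fin.ext h1.2)
    refine Polynomial.eq_zero_of_natDegree_lt_card_of_eval_eq_zero _ hginj ?_ ?_
    · rintro ⟨p1, p2⟩
      set p : ℕ × ℕ := ((p1 : ℕ), (p2 : ℕ)) with hp
      have hgp : g (p1, p2) = x p := rfl
      rw [hgp, ← Polynomial.coe_evalRingHom, RingHom.map_det, ← Matrix.exists_mulVec_eq_zero_iff]
      refine ⟨fun l => if P l = 0 then 0 else y p ^ (l : ℕ), ?_, ?_⟩
      · intro h
        obtain ⟨l, hl⟩ := hPne
        have := congrFun h l
        simp only [hl, if_false, Pi.zero_apply] at this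
        exact pow_ne_zero _ (hy0 p) this
      · funext j
        rw [Matrix.mulVec, dotProduct, Pi.zero_apply]
        have hmem : p + q j ∈ B := by
          have := hqB j
          have h1 := p1.2
          have h2 := p2.2
          refine ⟨?_, ?_⟩
          · show (p1 : ℕ) + (q j).1 < R₁ + R₂
            omega
          · show (p2 : ℕ) + (q j).2 < S₁ + S₂
            omega
        refine Eq.trans ?_ (hPB _ hmem)
        refine Finset.sum_congr rfl fun l _ => ?_
        rw [RingHom.mapMatrix_apply, Matrix.map_apply, Matrix.of_apply,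
          Polynomial.coe_evalRingHom, Polynomial.eval_mul, Polynomial.eval_comp,
          Polynomial.eval_add, Polynomial.eval_X, Polynomial.eval_C, Polynomial.eval_C, ← hx, hy,
          hQ]
        simp only
        split_ifs with h
        · rw [h]
          simp
        · rw [mul_pow]
          ring
    · refine lt_of_le_of_lt hΔd ?_
      calc ∑ l, (Q l).natDegree ≤ ∑ _l : Fin L, (K - 1) := Finset.sum_le_sum fun l _ => hQdeg l
        _ = L * (K - 1) := by simp
        _ < L * K := Nat.mul_lt_mul_of_pos_left (by omega) (by omega)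
        _ = K * L := mul_comm _ _
        _ ≤ R₂ * S₂ := hKL
        _ = Fintype.card (Fin R₂ × Fin S₂) := by simp

end Pool.OCG
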