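import Pool.Agent.OCG.TUp
import Pool.Agent.OCG.TZero
import Pool.Agent.OCG.TLow

/-!
# A lower bound for linear forms in two logarithms (Gelfond; Laurent's interpolation determinant)

PAPER PROOF. Dividing `a`, `b` by their gcd only decreases `|a log α - b log β|`: assume `a = b₁`, `b = b₂` coprime,
`Λ = b₂ log β - b₁ log α`. Assume `|Λ| < exp (-(3·10^7 H² (log B)²))`. Let `l = log B ≥ 10`,
`L = ⌈50 l⌉`, `K = ⌈10^4 L H²⌉`, `R₁ = S₁ = ⌈√L⌉`, `R₂ = S₂ = ⌈√(K L)⌉`, `N = K L ≤ 2.52·10^7 H² l²`.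
Case 1: `b₁ < R₂` and `b₂ < S₂`: `b₁, b₂ ≤ √(K L) ≤ 5050 l H`; `α ^ b₁ - β ^ b₂ ≠ 0` by `hind`, `liou` with
`M = α ^ b₁ + β ^ b₂ ≤ 2 exp (5050 l H²)` gives `|α ^ b₁ - β ^ b₂| ≥ M⁻³`, and
`|α ^ b₁ - β ^ b₂| ≤ |Λ| exp (5050 l H²)` (mean value). So `|Λ| ≥ exp (-(4·5050 l H² + 3))`, contradiction.
Case 2: `b₁ ≥ R₂` or `b₂ ≥ S₂`: `(r, s) ↦ r b₂ + s b₁` is injective on `r < R₂`, `s < S₂` (coprimality), and
`(r, s) ↦ α ^ r β ^ s` is injective by `hind` (and `α, β > 1`). `zero_est` with `x p = p.1 b₂ + p.2 b₁`,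
`y p = α ^ p.1 β ^ p.2` gives `N` points with non zero determinant `Δ = det (tm ..)`,
`kk i = i / L < K`, `ll i = i % L < L`. With `Z = 2 B (R₁ + R₂)`, `Y = 3 L H (R₁ + R₂)`, `det_upper` and `det_lower` give
(logarithms, `N! ≤ N ^ N`)
`-3 (N log N + N (K log Z + Y)) ≤ N log (N + 1) + N log N + N (1 + K (log Z + 1) + e Y) - N (N - 1) / 2`, i.e.
`(N - 1) / 2 ≤ 5 log (N + 1) + 1 + 4 K log Z + K + 5.72 Y`. Divide by `K` (`N = K L`):
`Y / K = 3 L H (R₁ + R₂) / K ≤ 0.0304 L` (`R₁ + R₂ ≤ √L + √(K L) + 2`, `K ≥ 10^4 L H²`), `5.72 · 0.0304 L ≤ 0.175 L`,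
`(5 log (N + 1) + 2) / K ≤ 0.01`, `log Z = log (2 B (R₁ + R₂)) ≤ l + log H + log (210 L) ≤ 2 l + 5.35 + log (51 l)`.
So `L / 2 ≤ 0.175 L + 8 l + 4 (5.35 + 3.94 + log l) + 1.1`, i.e. `0.325 · 50 l ≤ 8 l + 38.3 + 4 log l`, false for `l ≥ 10`
(`162.5 > 80 + 38.3 + 9.3`, and `0.325·50 - 8 = 8.25`, `8.25 l ≥ 38.3 + 4 log l`).
The hypothesis `hΛ` of `det_upper`: `2 L s |Λ| ≤ exp (-N)` as `2 L (S₁ + S₂) ≤ 210 L² H ≤ exp (0.4·10^7 H² l²)`.
(`hY` of `det_upper`: `L x θ ≤ L (r log α + s (log β + |Λ|)) ≤ L (R₁ + R₂) (2 H + 1)`.)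
-/

set_option autoImplicit false

namespace Pool.OCG

private lemma tfin_exp_sub (x y m : ℝ) (hx : x ≤ m) (hy : y ≤ m) :
    |Real.exp x - Real.exp y| ≤ |x - y| * Real.exp m := by
  wlog h : y ≤ x generalizing x y
  · rw [abs_sub_comm (Real.exp x), abs_sub_comm x]
    exact this y x hy hx (le_of_not_ge h)
  have h1 : Real.exp y ≤ Real.exp x := Real.exp_le_exp.mpr h
  rw [abs_of_nonneg (by linarith), abs_of_nonneg (by linarith)]
  have h2 : Real.exp x - Real.exp y = Real.exp x * (1 - Real.exp (-(x - y))) := by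
    rw [mul_sub, mul_one, ← Real.exp_add]
    congr 2
    ring
  have h3 : 1 - Real.exp (-(x - y)) ≤ x - y := by
    have := Real.add_one_le_exp (-(x - y))
    linarith
  have h4 : Real.exp x ≤ Real.exp m := Real.exp_le_exp.mpr hx
  rw [h2]
  calc Real.exp x * (1 - Real.exp (-(x - y))) ≤ Real.exp x * (x - y) :=
        mul_le_mul_of_nonneg_left h3 (Real.exp_pos _).le
    _ ≤ Real.exp m * (x - y) := mul_le_mul_of_nonneg_right h4 (by linarith)
    _ = (x - y) * Real.exp m := mul_comm _ _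

private lemma tfin_pow {α : ℝ} (h : 0 < α) (n : ℕ) : α ^ n = Real.exp (n * Real.log α) := by
  rw [Real.exp_nat_mul, Real.exp_log h]

private lemma tfin_case1 {α β : ℝ} (h1 : 1 < α) (h2 : 1 < β) (t u : ℤ) (ht : α + α⁻¹ = t)
    (hu : β + β⁻¹ = u) (H X : ℝ) (hα : Real.log α ≤ H) (hβ : Real.log β ≤ H)
    (b₁ b₂ : ℕ) (hne : α ^ b₁ ≠ β ^ b₂) (hb1 : (b₁ : ℝ) ≤ X) (hb2 : (b₂ : ℝ) ≤ X) :
    1 ≤ 8 * Real.exp (4 * (X * H)) * |b₂ * Real.log β - b₁ * Real.log α| := by
  have hX : 0 ≤ X := le_trans (Nat.cast_nonneg _) hb1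
  have hl1 : 0 ≤ Real.log α := Real.log_nonneg h1.le
  have hl2 : 0 ≤ Real.log β := Real.log_nonneg h2.le
  have e1 : (b₁ : ℝ) * Real.log α ≤ X * H := mul_le_mul hb1 hα hl1 hX
  have e2 : (b₂ : ℝ) * Real.log β ≤ X * H := mul_le_mul hb2 hβ hl2 hX
  have p1 := tfin_pow (by linarith : 0 < α) b₁
  have p2 := tfin_pow (by linarith : 0 < β) b₂
  have q1 : α ^ b₁ ≤ Real.exp (X * H) := by rw [p1]; exact Real.exp_le_exp.mpr e1
  have q2 : β ^ b₂ ≤ Real.exp (X * H) := by rw [p2]; exact Real.exp_le_exp.mpr e2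
  have r1 : 1 ≤ α ^ b₁ := one_le_pow₀ h1.le
  have r2 : 1 ≤ β ^ b₂ := one_le_pow₀ h2.le
  have hl := liou h1.le h2.le t u ht hu (Finset.univ : Finset Bool)
    (fun i => if i then 1 else -1) (fun i => if i then b₁ else 0) (fun i => if i then 0 else b₂)
    (α ^ b₁ + β ^ b₂) (by linarith) (by simp) (by
      simp only [Fintype.sum_bool, if_true, Bool.false_eq_true, if_false, pow_zero, mul_one]
      intro h
      apply hne
      push_cast at h
      linarith)
  have hs : ∑ i ∈ (Finset.univ : Finset Bool), (((if i then 1 else -1 : ℤ)) : ℝ) *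
      α ^ (if i then b₁ else 0) * β ^ (if i then 0 else b₂) = α ^ b₁ - β ^ b₂ := by
    simp only [Fintype.sum_bool, if_true, Bool.false_eq_true, if_false, pow_zero, mul_one]
    push_cast
    ring
  rw [hs] at hl
  have h3 : |α ^ b₁ - β ^ b₂| ≤ |b₂ * Real.log β - b₁ * Real.log α| * Real.exp (X * H) := by
    rw [p1, p2, abs_sub_comm (↑b₂ * Real.log β)]
    exact tfin_exp_sub _ _ _ e1 e2
  have h4 : (α ^ b₁ + β ^ b₂) ^ 3 ≤ (2 * Real.exp (X * H)) ^ 3 :=
    pow_le_pow_left₀ (by linarith) (by linarith) 3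
  calc (1 : ℝ) ≤ (α ^ b₁ + β ^ b₂) ^ 3 * |α ^ b₁ - β ^ b₂| := hl
    _ ≤ (2 * Real.exp (X * H)) ^ 3 *
        (|b₂ * Real.log β - b₁ * Real.log α| * Real.exp (X * H)) :=
        mul_le_mul h4 h3 (abs_nonneg _) (by positivity)
    _ = 8 * Real.exp (4 * (X * H)) * |b₂ * Real.log β - b₁ * Real.log α| := by
        have : Real.exp (4 * (X * H)) = Real.exp (X * H) ^ 4 := by
          rw [← Real.exp_nat_mul]; norm_num
        rw [this]
        ring

private lemma tfin_xinj (b₁ b₂ R : ℕ) (hcop : Nat.Coprime b₁ b₂) (hb1 : 1 ≤ b₁) (hb2 : 1 ≤ b₂)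
    (h : R ≤ b₁ ∨ R ≤ b₂) :
    Set.InjOn (fun p : ℕ × ℕ => ((p.1 : ℝ) * b₂ + p.2 * b₁)) {p | p.1 < R ∧ p.2 < R} := by
  rintro ⟨r, s⟩ ⟨hr, hs⟩ ⟨r', s'⟩ ⟨hr', hs'⟩ he
  simp only at he hr hs hr' hs'
  have he2 : ((r : ℤ) - r') * b₂ = (s' - s) * b₁ := by
    have : ((((r : ℤ) - r') * b₂ : ℤ) : ℝ) = (((s' : ℤ) - s) * b₁ : ℤ) := by
      push_cast
      linarith
    exact_mod_cast this
  have hc : IsCoprime (b₁ : ℤ) (b₂ : ℤ) := Nat.isCoprime_iff_coprime.mpr hcop
  have d1 : (b₁ : ℤ) ∣ (r : ℤ) - r' := by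
    refine hc.dvd_of_dvd_mul_right ?_
    rw [he2]
    exact dvd_mul_left _ _
  have d2 : (b₂ : ℤ) ∣ (s' : ℤ) - s := by
    refine hc.symm.dvd_of_dvd_mul_right ?_
    rw [← he2]
    exact dvd_mul_left _ _
  rcases h with h | h
  · have h0 : (r : ℤ) - r' = 0 := by
      refine Int.eq_zero_of_abs_lt_dvd d1 ?_
      rw [abs_lt]
      constructor <;> omega
    rw [h0, zero_mul] at he2
    have h1 : (s' : ℤ) - s = 0 := by
      rcases mul_eq_zero.mp he2.symm with h1 | h1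
      · exact h1
      · omega
    ext <;> simp only <;> omega
  · have h0 : (s' : ℤ) - s = 0 := by
      refine Int.eq_zero_of_abs_lt_dvd d2 ?_
      rw [abs_lt]
      constructor <;> omega
    rw [h0, zero_mul] at he2
    have h1 : (r : ℤ) - r' = 0 := by
      rcases mul_eq_zero.mp he2 with h1 | h1
      · exact h1
      · omega
    ext <;> simp only <;> omega

private lemma tfin_yaux {α β : ℝ} (h1 : 1 < α) (h2 : 1 < β)
    (hind : ∀ a b : ℕ, 1 ≤ a → 1 ≤ b → α ^ a ≠ β ^ b) (r s r' s' : ℕ)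
    (he : α ^ r * β ^ s = α ^ r' * β ^ s') : ¬ r' < r := by
  intro hlt
  have hα : 0 < α := by linarith
  have hβ : 0 < β := by linarith
  have hr : α ^ r = α ^ (r - r') * α ^ r' := by
    rw [← pow_add]; congr 1; omega
  rw [hr, mul_assoc, mul_comm (α ^ r'), ← mul_assoc, mul_comm (α ^ r') (β ^ s')] at he
  have he2 : α ^ (r - r') * β ^ s = β ^ s' := mul_right_cancel₀ (pow_pos hα r').ne' he
  have hgt : 1 < α ^ (r - r') := one_lt_pow₀ h1 (by omega)
  have hss : s < s' := by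
    by_contra hcon
    rw [not_lt] at hcon
    have h3 : β ^ s' ≤ β ^ s := pow_le_pow_right₀ h2.le hcon
    have h4 : 0 < β ^ s := pow_pos hβ s
    have h5 : 1 * β ^ s < α ^ (r - r') * β ^ s := mul_lt_mul_of_pos_right hgt h4
    linarith
  have hs : β ^ s' = β ^ (s' - s) * β ^ s := by
    rw [← pow_add]; congr 1; omega
  rw [hs] at he2
  exact hind (r - r') (s' - s) (by omega) (by omega)
    (mul_right_cancel₀ (pow_pos hβ s).ne' he2)

private lemma tfin_yinj {α β : ℝ} (h1 : 1 < α) (h2 : 1 < β)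
    (hind : ∀ a b : ℕ, 1 ≤ a → 1 ≤ b → α ^ a ≠ β ^ b) (S : Set (ℕ × ℕ)) :
    Set.InjOn (fun p : ℕ × ℕ => α ^ p.1 * β ^ p.2) S := by
  rintro ⟨r, s⟩ - ⟨r', s'⟩ - he
  simp only at he
  have e1 := tfin_yaux h1 h2 hind r s r' s' he
  have e2 := tfin_yaux h1 h2 hind r' s' r s he.symm
  have hr : r = r' := by omega
  subst hr
  have hα : 0 < α := by linarith
  have h3 : β ^ s = β ^ s' := mul_left_cancel₀ (pow_pos hα r).ne' he
  have h4 : s = s' := pow_right_injective₀ (by linarith) h2.ne' h3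
  rw [h4]

/-- the inequality between logarithms -/
private lemma tfin_logs (N K : ℕ) (hN : 1 ≤ N) (Z Y D : ℝ) (hZ : 1 ≤ Z) (hD : 0 ≤ D)
    (hlow : 1 ≤ ((N.factorial : ℝ) * (Z ^ K * Real.exp Y) ^ N) ^ 3 * D)
    (hup : D ≤ ((N : ℝ) + 1) ^ N * (N.factorial : ℝ) *
      (2 * (Z * Real.exp 1) ^ K * Real.exp (Real.exp 1 * Y)) ^ N *
        Real.exp (-((N * (N - 1) / 2 : ℕ) : ℝ))) :
    ((N : ℝ) - 1) / 2 ≤ 5 * Real.log (N + 1) + 4 * (K * Real.log Z) + 3 * Y + 1 + K +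
      Real.exp 1 * Y := by
  have hN1 : (1 : ℝ) ≤ N := by exact_mod_cast hN
  have hZ0 : 0 < Z := by linarith
  set lam : ℝ := Real.log (N + 1) with hlam
  set z : ℝ := Real.log Z with hz
  have hNp : ((N : ℝ) + 1) ^ N = Real.exp (N * lam) := by
    rw [Real.exp_nat_mul, hlam, Real.exp_log (by positivity)]
  have hfac : (N.factorial : ℝ) ≤ Real.exp (N * lam) := by
    rw [← hNp]
    calc (N.factorial : ℝ) ≤ ((N ^ N : ℕ) : ℝ) := by exact_mod_cast Nat.factorial_le_pow N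
      _ = (N : ℝ) ^ N := by push_cast; rfl
      _ ≤ ((N : ℝ) + 1) ^ N := pow_le_pow_left₀ (by positivity) (by linarith) _
  have hZK : Z ^ K = Real.exp (K * z) := by rw [Real.exp_nat_mul, hz, Real.exp_log hZ0]
  have h2e : (2 : ℝ) ≤ Real.exp 1 := by
    have := Real.add_one_le_exp (1 : ℝ)
    linarith
  have hZe : (Z * Real.exp 1) ^ K = Real.exp (K * (z + 1)) := by
    rw [mul_pow, hZK, ← Real.exp_nat_mul, ← Real.exp_add]
    congr 1
    ring
  have a1 : (N.factorial : ℝ) * (Z ^ K * Real.exp Y) ^ N ≤ Real.exp (N * lam + N * (K * z + Y)) := by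
    rw [hZK, ← Real.exp_add, ← Real.exp_nat_mul, Real.exp_add (N * lam)]
    exact mul_le_mul_of_nonneg_right hfac (Real.exp_pos _).le
  have a2 : ((N.factorial : ℝ) * (Z ^ K * Real.exp Y) ^ N) ^ 3 ≤
      Real.exp (3 * (N * lam + N * (K * z + Y))) := by
    have h3 : Real.exp (3 * (N * lam + N * (K * z + Y))) =
        Real.exp (N * lam + N * (K * z + Y)) ^ 3 := by
      rw [← Real.exp_nat_mul]; norm_num
    rw [h3]
    exact pow_le_pow_left₀ (by positivity) a1 3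
  have a3 : (2 * (Z * Real.exp 1) ^ K * Real.exp (Real.exp 1 * Y)) ^ N ≤
      Real.exp (N * (1 + K * (z + 1) + Real.exp 1 * Y)) := by
    rw [Real.exp_nat_mul]
    refine pow_le_pow_left₀ (by positivity) ?_ N
    rw [hZe, Real.exp_add, Real.exp_add]
    refine mul_le_mul_of_nonneg_right ?_ (Real.exp_pos _).le
    exact mul_le_mul_of_nonneg_right h2e (Real.exp_pos _).le
  have hM : (((N * (N - 1) / 2 : ℕ)) : ℝ) = N * ((N - 1) / 2) := by
    have h4 : 2 ∣ N * (N - 1) := (Nat.even_mul_pred_self N).two_dvd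
    rw [Nat.cast_div h4 (by norm_num), Nat.cast_mul, Nat.cast_sub hN]
    push_cast
    ring
  have a4 : D ≤ Real.exp (N * lam) * Real.exp (N * lam) *
      Real.exp (N * (1 + K * (z + 1) + Real.exp 1 * Y)) * Real.exp (-(N * ((N - 1) / 2))) := by
    refine hup.trans ?_
    rw [hNp, hM]
    refine mul_le_mul_of_nonneg_right ?_ (Real.exp_pos _).le
    refine mul_le_mul ?_ a3 (by positivity) (by positivity)
    exact mul_le_mul_of_nonneg_left hfac (Real.exp_pos _).le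
  have a5 : (1 : ℝ) ≤ Real.exp (3 * (N * lam + N * (K * z + Y)) + (N * lam + N * lam +
      N * (1 + K * (z + 1) + Real.exp 1 * Y) + -(N * ((N - 1) / 2)))) := by
    rw [Real.exp_add, Real.exp_add, Real.exp_add, Real.exp_add]
    exact hlow.trans (mul_le_mul a2 a4 hD (by positivity))
  have a6 : 0 ≤ 3 * (N * lam + N * (K * z + Y)) + (N * lam + N * lam +
      N * (1 + K * (z + 1) + Real.exp 1 * Y) + -(N * (((N : ℝ) - 1) / 2))) := by
    refine Real.exp_le_exp.mp ?_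
    rw [Real.exp_zero]
    exact a5
  have a7 : (N : ℝ) * (((N : ℝ) - 1) / 2) ≤ N * (5 * lam + 4 * (K * z) + 3 * Y + 1 + K +
      Real.exp 1 * Y) := by
    have e1 : 3 * (N * lam + N * (K * z + Y)) + (N * lam + N * lam +
      N * (1 + K * (z + 1) + Real.exp 1 * Y) + -(N * (((N : ℝ) - 1) / 2))) =
      N * (5 * lam + 4 * (K * z) + 3 * Y + 1 + K + Real.exp 1 * Y) -
        N * (((N : ℝ) - 1) / 2) := by ring
    rw [e1] at a6
    linarith
  exact le_of_mul_le_mul_left a7 (by linarith)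

/-- sizes of the parameters -/
private lemma tfin_par (l H : ℝ) (hl : 10 ≤ l) (hH : 1 ≤ H) (L K : ℕ)
    (hL : L = ⌈50 * l⌉₊) (hK : K = ⌈10 ^ 4 * (L : ℝ) * H ^ 2⌉₊) :
    500 ≤ (L : ℝ) ∧ 50 * l ≤ L ∧ (L : ℝ) ≤ 50 * l + 1 ∧ 10 ^ 4 * (L : ℝ) * H ^ 2 ≤ K ∧
      (K : ℝ) ≤ 10 ^ 4 * (L : ℝ) * H ^ 2 + 1 ∧
      (K : ℝ) * L ≤ 25200000 * (H ^ 2 * l ^ 2) ∧ Real.sqrt (K * L) ≤ 101 * (L * H) := by
  have h1 : 50 * l ≤ L := by rw [hL]; exact Nat.le_ceil _
  have h2 : (L : ℝ) ≤ 50 * l + 1 := by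
    rw [hL]; exact (Nat.ceil_lt_add_one (by linarith)).le
  have h3 : 10 ^ 4 * (L : ℝ) * H ^ 2 ≤ K := by rw [hK]; exact Nat.le_ceil _
  have h4 : (K : ℝ) ≤ 10 ^ 4 * (L : ℝ) * H ^ 2 + 1 := by
    rw [hK]; exact (Nat.ceil_lt_add_one (by positivity)).le
  have hH2 : 1 ≤ H ^ 2 := one_le_pow₀ hH
  have hL0 : 0 ≤ (L : ℝ) := Nat.cast_nonneg _
  have h5 : (L : ℝ) ≤ 50.1 * l := by linarith
  have h6 : (L : ℝ) ^ 2 ≤ (50.1 * l) ^ 2 := pow_le_pow_left₀ hL0 h5 2
  have h7 : (K : ℝ) * L ≤ 10 ^ 4 * ((L : ℝ) ^ 2 * H ^ 2) + L := by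
    have := mul_le_mul_of_nonneg_right h4 hL0
    have e : (10 ^ 4 * (L : ℝ) * H ^ 2 + 1) * L = 10 ^ 4 * ((L : ℝ) ^ 2 * H ^ 2) + L := by ring
    rw [e] at this
    exact this
  have hl2 : l ≤ l ^ 2 / 10 := by nlinarith
  refine ⟨by linarith, h1, h2, h3, h4, ?_, ?_⟩
  · have h8 : (L : ℝ) ^ 2 * H ^ 2 ≤ (50.1 * l) ^ 2 * H ^ 2 :=
      mul_le_mul_of_nonneg_right h6 (by positivity)
    have h9 : l ^ 2 ≤ H ^ 2 * l ^ 2 := le_mul_of_one_le_left (sq_nonneg l) hH2
    have h14 : (50.1 * l) ^ 2 * H ^ 2 = 2510.01 * (H ^ 2 * l ^ 2) := by ring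
    rw [h14] at h8
    linarith
  · rw [Real.sqrt_le_left (by positivity)]
    have h10 : (L : ℝ) ≤ (L : ℝ) ^ 2 * H ^ 2 := by
      have h11 : (L : ℝ) ≤ (L : ℝ) ^ 2 := by
        have := mul_le_mul_of_nonneg_right (show (1 : ℝ) ≤ L by linarith) hL0
        rw [sq]; linarith
      have h12 := le_mul_of_one_le_right (sq_nonneg (L : ℝ)) hH2
      linarith
    have h13 : (101 * ((L : ℝ) * H)) ^ 2 = 10201 * ((L : ℝ) ^ 2 * H ^ 2) := by ring
    rw [h13]
    linarith

/-- the numerical contradiction -/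
private lemma tfin_num (l H B : ℝ) (hl : 10 ≤ l) (hlB : l = Real.log B) (hB0 : 1 ≤ B)
    (hH : 1 ≤ H) (hHB : H ≤ B) (L K : ℕ) (hL : L = ⌈50 * l⌉₊)
    (hK : K = ⌈10 ^ 4 * (L : ℝ) * H ^ 2⌉₊) (T : ℝ) (hT0 : 1 ≤ T)
    (hT : T ≤ Real.sqrt L + Real.sqrt (K * L) + 2)
    (hmain : ((K : ℝ) * L - 1) / 2 ≤ 5 * Real.log (K * L + 1) + 4 * (K * Real.log (2 * B * T)) +
      3 * (3 * L * H * T) + 1 + K + Real.exp 1 * (3 * L * H * T)) : False := by
  obtain ⟨p1, p2, p3, p4, p5, p6, p7⟩ := tfin_par l H hl hH L K hL hK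
  have hH2 : 1 ≤ H ^ 2 := one_le_pow₀ hH
  have hL0 : 0 < (L : ℝ) := by linarith
  have hLH : (L : ℝ) ≤ L * H := le_mul_of_one_le_right hL0.le hH
  have hK1 : 5000000 ≤ (K : ℝ) := by
    have := le_mul_of_one_le_right (show (0 : ℝ) ≤ 10 ^ 4 * L by positivity) hH2
    linarith
  have hK0 : 0 < (K : ℝ) := by linarith
  have hsK0 : 0 ≤ Real.sqrt K := Real.sqrt_nonneg _
  have hsK2 : Real.sqrt K * Real.sqrt K = K := Real.mul_self_sqrt hK0.le
  have hsL2 : Real.sqrt L * Real.sqrt L = L := Real.mul_self_sqrt hL0.le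
  have hsL0 : 0 ≤ Real.sqrt (L : ℝ) := Real.sqrt_nonneg _
  have hsK : 2000 ≤ Real.sqrt K := by
    rw [Real.le_sqrt (by norm_num) hK0.le]
    linarith
  have hsL : Real.sqrt L ≤ L / 20 := by
    rw [Real.sqrt_le_left (by positivity)]
    nlinarith
  have hsKL : Real.sqrt (K * L) = Real.sqrt K * Real.sqrt L := Real.sqrt_mul hK0.le _
  -- T is at most 105 L H
  have hT1 : T ≤ 105 * (L * H) := by linarith
  -- the logarithm of Z
  have hT0' : 0 < T := by linarith
  have hZ : Real.log (2 * B * T) ≤ 10 + 2 * l + Real.log l := by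
    have hB1 : 0 < B := by linarith
    have hl0 : 0 < l := by linarith
    have e1 : 2 * B * T ≤ Real.exp 10 * (B * B * l) := by
      have h10 : (22000 : ℝ) ≤ Real.exp 10 := by
        have h := Real.exp_one_gt_d9
        have : Real.exp 10 = Real.exp 1 ^ 10 := by rw [← Real.exp_nat_mul]; norm_num
        rw [this]
        calc (22000 : ℝ) ≤ 2.718 ^ 10 := by norm_num
          _ ≤ Real.exp 1 ^ 10 := pow_le_pow_left₀ (by norm_num) (by linarith) 10
      have h11 : (L : ℝ) * H ≤ (51 * l) * B := mul_le_mul (by linarith) hHB (by linarith)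
        (by positivity)
      calc 2 * B * T ≤ 2 * B * (105 * (L * H)) := mul_le_mul_of_nonneg_left hT1 (by positivity)
        _ ≤ 2 * B * (105 * ((51 * l) * B)) := by
            refine mul_le_mul_of_nonneg_left ?_ (by positivity)
            linarith
        _ = 10710 * (B * B * l) := by ring
        _ ≤ Real.exp 10 * (B * B * l) :=
            mul_le_mul_of_nonneg_right (by linarith) (by positivity)
    have e2 := Real.log_le_log (by positivity) e1
    have e3 : Real.log (Real.exp 10 * (B * B * l)) = 10 + (l + l + Real.log l) := by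
      rw [Real.log_mul (by positivity) (by positivity), Real.log_exp,
        Real.log_mul (by positivity) (by positivity), Real.log_mul (by positivity) (by positivity),
        ← hlB]
    rw [e3] at e2
    linarith
  have hlogl : Real.log l ≤ l / 10 + 1.5 := by
    have hl0 : 0 < l := by linarith
    have e1 : Real.log l = Real.log (l / 10) + Real.log 10 := by
      rw [← Real.log_mul (by positivity) (by norm_num)]
      congr 1
      ring
    have e2 : Real.log (l / 10) ≤ l / 10 - 1 := Real.log_le_sub_one_of_pos (by positivity)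
    have e3 : Real.log 10 ≤ 2.5 := by
      rw [Real.log_le_iff_le_exp (by norm_num)]
      have h := Real.exp_one_gt_d9
      have h5 : Real.exp 2.5 ^ 2 = Real.exp 1 ^ 5 := by
        rw [← Real.exp_nat_mul, ← Real.exp_nat_mul]; norm_num
      have h6 : (100 : ℝ) ≤ Real.exp 1 ^ 5 := by
        calc (100 : ℝ) ≤ 2.7182 ^ 5 := by norm_num
          _ ≤ Real.exp 1 ^ 5 := pow_le_pow_left₀ (by norm_num) (by linarith) 5
      by_contra hcon
      rw [not_le] at hcon
      have h7 : Real.exp 2.5 ^ 2 < 10 ^ 2 :=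
        pow_lt_pow_left₀ hcon (Real.exp_pos _).le (by norm_num)
      rw [h5] at h7
      linarith
    linarith
  have hKZ : (K : ℝ) * Real.log (2 * B * T) ≤ K * (11.5 + 2.1 * l) :=
    mul_le_mul_of_nonneg_left (by linarith) hK0.le
  -- the logarithm of N + 1
  have hlogN : 5 * Real.log (K * L + 1) ≤ 20 * Real.sqrt K := by
    have hLK : (L : ℝ) + 1 ≤ K := by
      have := le_mul_of_one_le_right (show (0 : ℝ) ≤ 10 ^ 4 * L by positivity) hH2
      linarith
    have e1 : (K : ℝ) * L + 1 ≤ K * K := by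
      have := mul_le_mul_of_nonneg_left hLK hK0.le
      linarith
    have e2 := Real.log_le_log (by positivity) e1
    rw [Real.log_mul hK0.ne' hK0.ne'] at e2
    have e3 : Real.log K ≤ 2 * Real.sqrt K := by
      have e4 : Real.log K = Real.log (Real.sqrt K) + Real.log (Real.sqrt K) := by
        rw [← Real.log_mul (by linarith) (by linarith), hsK2]
      have e5 := Real.log_le_sub_one_of_pos (show 0 < Real.sqrt K by linarith)
      linarith
    linarith
  have hsmall : 20 * Real.sqrt K ≤ K / 100 := by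
    have := mul_le_mul_of_nonneg_right hsK hsK0
    rw [hsK2] at this
    linarith
  -- Y
  have hexp : Real.exp 1 ≤ 2.72 := by
    have := Real.exp_one_lt_d9
    linarith
  have hY : 3 * L * H * T ≤ 0.0304 * (K * L) := by
    -- H sqrt L ≤ sqrt K / 100
    have e1 : H * Real.sqrt L ≤ Real.sqrt K / 100 := by
      have h3 : (H * Real.sqrt L) ^ 2 ≤ (Real.sqrt K / 100) ^ 2 := by
        have h4 : (H * Real.sqrt L) ^ 2 = H ^ 2 * L := by
          rw [mul_pow, sq (Real.sqrt _), hsL2]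
        have h5 : (Real.sqrt K / 100) ^ 2 = K / 10 ^ 4 := by
          rw [div_pow, sq (Real.sqrt _), hsK2]; norm_num
        rw [h4, h5]
        linarith
      exact le_of_sq_le_sq h3 (by positivity)
    have e2 : L * H * Real.sqrt (K * L) ≤ (K * L) / 100 := by
      rw [hsKL]
      calc (L : ℝ) * H * (Real.sqrt K * Real.sqrt L) = L * Real.sqrt K * (H * Real.sqrt L) := by
            ring
        _ ≤ L * Real.sqrt K * (Real.sqrt K / 100) :=
            mul_le_mul_of_nonneg_left e1 (by positivity)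
        _ = L * (Real.sqrt K * Real.sqrt K) / 100 := by ring
        _ = (K * L) / 100 := by rw [hsK2]; ring
    have e3 : L * H * (Real.sqrt L + 2) ≤ 0.0001 * (K * L) := by
      have h5 : Real.sqrt L + 2 ≤ L := by linarith
      have h6 : L * H * (Real.sqrt L + 2) ≤ L * H * L :=
        mul_le_mul_of_nonneg_left h5 (by positivity)
      have h7 : (L : ℝ) * H ≤ 0.0001 * K := by
        have h8 : H ≤ H ^ 2 := by nlinarith
        have h9 := mul_le_mul_of_nonneg_left h8 hL0.le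
        linarith
      have h10 := mul_le_mul_of_nonneg_right h7 hL0.le
      linarith
    have e4 : L * H * T ≤ L * H * (Real.sqrt L + Real.sqrt (K * L) + 2) :=
      mul_le_mul_of_nonneg_left hT (by positivity)
    have e5 : L * H * (Real.sqrt L + Real.sqrt (K * L) + 2) =
        L * H * Real.sqrt (K * L) + L * H * (Real.sqrt L + 2) := by ring
    have e6 : 3 * L * H * T = 3 * (L * H * T) := by ring
    have e7 : 0 ≤ (K : ℝ) * L := by positivity
    rw [e6]
    rw [e5] at e4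
    linarith
  have hY0 : 0 ≤ 3 * L * H * T := by positivity
  have hKL0 : 0 ≤ (K : ℝ) * L := by positivity
  have hY2 : 3 * (3 * L * H * T) + Real.exp 1 * (3 * L * H * T) ≤ 0.175 * (K * L) := by
    have e1 := mul_le_mul_of_nonneg_right hexp hY0
    linarith
  have hfin : (K : ℝ) * (0.325 * L) ≤ K * (48 + 8.4 * l) := by
    have e1 : (K : ℝ) * (11.5 + 2.1 * l) = 11.5 * K + 2.1 * (K * l) := by ring
    have e2 : (K : ℝ) * (48 + 8.4 * l) = 48 * K + 8.4 * (K * l) := by ring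
    have e3 : (K : ℝ) * (0.325 * L) = 0.325 * (K * L) := by ring
    rw [e1] at hKZ
    rw [e2, e3]
    linarith
  have h9 : 0.325 * (L : ℝ) ≤ 48 + 8.4 * l := le_of_mul_le_mul_left hfin hK0
  linarith

theorem two_log {α β : ℝ} (h1 : 1 < α) (h2 : 1 < β) (t u : ℤ) (ht : α + α⁻¹ = t)
    (hu : β + β⁻¹ = u) (H B : ℝ) (hH : 1 ≤ H) (hHB : H ≤ B) (hB : 10 ≤ Real.log B)
    (hB0 : 1 ≤ B) (hα : Real.log α ≤ H) (hβ : Real.log β ≤ H)
    (hind : ∀ a b : ℕ, 1 ≤ a → 1 ≤ b → α ^ a ≠ β ^ b)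
    (a b : ℕ) (ha : 1 ≤ a) (hb : 1 ≤ b) (haB : (a : ℝ) ≤ B) (hbB : (b : ℝ) ≤ B) :
    Real.exp (-(3 * 10 ^ 7 * H ^ 2 * (Real.log B) ^ 2)) ≤ |a * Real.log α - b * Real.log β| := by
  obtain ⟨b₁, b₂, hcop, ha', hb'⟩ := Nat.exists_coprime a b
  set g : ℕ := Nat.gcd a b with hg
  have hg1 : 1 ≤ g := Nat.gcd_pos_of_pos_left b (by omega)
  have hb1 : 1 ≤ b₁ := by
    rcases Nat.eq_zero_or_pos b₁ with h | h
    · rw [h, zero_mul] at ha'; omega
    · exact h
  have hb2 : 1 ≤ b₂ := by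
    rcases Nat.eq_zero_or_pos b₂ with h | h
    · rw [h, zero_mul] at hb'; omega
    · exact h
  have hb1B : (b₁ : ℝ) ≤ B := by
    refine le_trans ?_ haB
    have : b₁ ≤ a := by
      rw [ha']; exact Nat.le_mul_of_pos_right _ (by omega)
    exact_mod_cast this
  have hb2B : (b₂ : ℝ) ≤ B := by
    refine le_trans ?_ hbB
    have : b₂ ≤ b := by
      rw [hb']; exact Nat.le_mul_of_pos_right _ (by omega)
    exact_mod_cast this
  set Lam : ℝ := b₂ * Real.log β - b₁ * Real.log α with hLam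
  have hred : |Lam| ≤ |a * Real.log α - b * Real.log β| := by
    have e : (a : ℝ) * Real.log α - b * Real.log β = (g : ℝ) * (-Lam) := by
      have e1 : (a : ℝ) = b₁ * g := by exact_mod_cast ha'
      have e2 : (b : ℝ) = b₂ * g := by exact_mod_cast hb'
      rw [e1, e2, hLam]
      ring
    rw [e, abs_mul, abs_neg, Nat.abs_cast]
    exact le_mul_of_one_le_left (abs_nonneg _) (by exact_mod_cast hg1)
  refine le_trans ?_ hred
  by_contra hcon
  rw [not_le] at hcon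
  set l : ℝ := Real.log B with hl
  have hHl : 0 ≤ H ^ 2 * l ^ 2 := by positivity
  have hLam1 : |Lam| ≤ 1 := by
    refine hcon.le.trans ?_
    rw [Real.exp_le_one_iff]
    linarith
  have hH2 : 1 ≤ H ^ 2 := one_le_pow₀ hH
  obtain ⟨L, hL⟩ : ∃ L : ℕ, L = ⌈50 * l⌉₊ := ⟨_, rfl⟩
  obtain ⟨K, hK⟩ : ∃ K : ℕ, K = ⌈10 ^ 4 * (L : ℝ) * H ^ 2⌉₊ := ⟨_, rfl⟩
  obtain ⟨p1, p2, p3, p4, p5, p6, p7⟩ := tfin_par l H hB hH L K hL hK
  have hL0 : 0 < (L : ℝ) := by linarith
  have hL501 : (L : ℝ) ≤ 50.1 * l := by linarith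
  have hK1 : 5000000 ≤ (K : ℝ) := by
    have := le_mul_of_one_le_right (show (0 : ℝ) ≤ 10 ^ 4 * L by positivity) hH2
    linarith
  have hLn : 1 ≤ L := by
    have : (1 : ℝ) ≤ L := by linarith
    exact_mod_cast this
  have hKn : 1 ≤ K := by
    have : (1 : ℝ) ≤ K := by linarith
    exact_mod_cast this
  obtain ⟨R₁, hR1⟩ : ∃ R₁ : ℕ, R₁ = ⌈Real.sqrt L⌉₊ := ⟨_, rfl⟩
  obtain ⟨R₂, hR2⟩ : ∃ R₂ : ℕ, R₂ = ⌈Real.sqrt (K * L)⌉₊ := ⟨_, rfl⟩
  by_cases hcase : R₂ ≤ b₁ ∨ R₂ ≤ b₂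
  swap
  · -- small exponents
    push Not at hcase
    obtain ⟨c1, c2⟩ := hcase
    rw [hR2, Nat.lt_ceil] at c1 c2
    have hX : Real.sqrt (K * L) ≤ 5100 * (l * H) := by
      have h1 : (L : ℝ) * H ≤ (50.1 * l) * H := mul_le_mul_of_nonneg_right hL501 (by linarith)
      have h2 : 0 ≤ l * H := by positivity
      linarith
    have h1' := tfin_case1 h1 h2 t u ht hu H (5100 * (l * H)) hα hβ b₁ b₂
      (hind b₁ b₂ hb1 hb2) (by linarith) (by linarith)
    rw [← hLam] at h1'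
    have e8 : (8 : ℝ) ≤ Real.exp 3 := by
      have h := Real.exp_one_gt_d9
      have : Real.exp 3 = Real.exp 1 ^ 3 := by rw [← Real.exp_nat_mul]; norm_num
      rw [this]
      calc (8 : ℝ) ≤ 2.7 ^ 3 := by norm_num
        _ ≤ Real.exp 1 ^ 3 := pow_le_pow_left₀ (by norm_num) (by linarith) 3
    have h3 : 8 * Real.exp (4 * (5100 * (l * H) * H)) * |Lam| <
        Real.exp 3 * Real.exp (4 * (5100 * (l * H) * H)) *
          Real.exp (-(3 * 10 ^ 7 * H ^ 2 * l ^ 2)) := by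
      refine mul_lt_mul' ?_ hcon (abs_nonneg _) (by positivity)
      exact mul_le_mul_of_nonneg_right e8 (Real.exp_pos _).le
    rw [← Real.exp_add, ← Real.exp_add] at h3
    have h4 : 3 + 4 * (5100 * (l * H) * H) + -(3 * 10 ^ 7 * H ^ 2 * l ^ 2) ≤ 0 := by
      have h5 : l ≤ l ^ 2 / 10 := by nlinarith
      have h6 : l * H ^ 2 ≤ l ^ 2 / 10 * H ^ 2 := mul_le_mul_of_nonneg_right h5 (by positivity)
      have h7 : (1 : ℝ) ≤ H ^ 2 * l ^ 2 := by
        have h8 : (1 : ℝ) ≤ l ^ 2 := by nlinarith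
        nlinarith
      have h9 : 4 * (5100 * (l * H) * H) = 20400 * (l * H ^ 2) := by ring
      have h10 : l ^ 2 / 10 * H ^ 2 = H ^ 2 * l ^ 2 / 10 := by ring
      have h11 : 3 * 10 ^ 7 * H ^ 2 * l ^ 2 = 30000000 * (H ^ 2 * l ^ 2) := by ring
      rw [h9, h11]
      rw [h10] at h6
      linarith
    have h5 := Real.exp_le_exp.mpr h4
    rw [Real.exp_zero] at h5
    linarith
  · -- the determinant
    have q1 : Real.sqrt L ≤ R₁ := by rw [hR1]; exact Nat.le_ceil _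
    have q2 : Real.sqrt (K * L) ≤ R₂ := by rw [hR2]; exact Nat.le_ceil _
    have q3 : (R₁ : ℝ) ≤ Real.sqrt L + 1 := by
      rw [hR1]; exact (Nat.ceil_lt_add_one (Real.sqrt_nonneg _)).le
    have q4 : (R₂ : ℝ) ≤ Real.sqrt (K * L) + 1 := by
      rw [hR2]; exact (Nat.ceil_lt_add_one (Real.sqrt_nonneg _)).le
    have hL1 : L ≤ R₁ * R₁ := by
      have h3 : (L : ℝ) ≤ (R₁ : ℝ) * R₁ := by
        calc (L : ℝ) = Real.sqrt L * Real.sqrt L := (Real.mul_self_sqrt hL0.le).symm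
          _ ≤ (R₁ : ℝ) * R₁ := mul_le_mul q1 q1 (Real.sqrt_nonneg _) (by positivity)
      exact_mod_cast h3
    have hKL : K * L ≤ R₂ * R₂ := by
      have h3 : (K : ℝ) * L ≤ (R₂ : ℝ) * R₂ := by
        calc (K : ℝ) * L = Real.sqrt (K * L) * Real.sqrt (K * L) :=
              (Real.mul_self_sqrt (by positivity)).symm
          _ ≤ (R₂ : ℝ) * R₂ := mul_le_mul q2 q2 (Real.sqrt_nonneg _) (by positivity)
      exact_mod_cast h3
    have hα0 : 0 < α := by linarith
    have hβ0 : 0 < β := by linarith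
    obtain ⟨pt, hpt, hdet⟩ := zero_est (K := K) (L := L) (R₁ := R₁) (S₁ := R₁) (R₂ := R₂)
      (S₂ := R₂) hKn hLn (fun p => ((p.1 : ℝ) * b₂ + p.2 * b₁)) (fun p => α ^ p.1 * β ^ p.2)
      (fun p p' => by simp only [Prod.fst_add, Prod.snd_add]; push_cast; ring)
      (fun p p' => by simp only [Prod.fst_add, Prod.snd_add]; rw [pow_add, pow_add]; ring)
      (fun p => by positivity)
      (tfin_yinj h1 h2 hind _) hL1 (tfin_xinj b₁ b₂ R₂ hcop hb1 hb2 hcase) hKL
    set r : Fin (K * L) → ℕ := fun j => (pt j).1 with hr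
    set s : Fin (K * L) → ℕ := fun j => (pt j).2 with hs
    set kk : Fin (K * L) → ℕ := fun i => (i : ℕ) / L with hkk
    set ll : Fin (K * L) → ℕ := fun i => (i : ℕ) % L with hll
    have h0 : (tm b₁ b₂ α β r s kk ll).det ≠ 0 := hdet
    set T : ℝ := (R₁ : ℝ) + R₂ with hT
    have hrT : ∀ j, (r j : ℝ) ≤ T := by
      intro j
      have : r j ≤ R₁ + R₂ := (hpt j).1.le
      rw [hT]; exact_mod_cast this
    have hsT : ∀ j, (s j : ℝ) ≤ T := by
      intro j
      have : s j ≤ R₁ + R₂ := (hpt j).2.le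
      rw [hT]; exact_mod_cast this
    have hTle : T ≤ Real.sqrt L + Real.sqrt (K * L) + 2 := by rw [hT]; linarith
    have hLs : 1 ≤ Real.sqrt L := by
      rw [Real.le_sqrt (by norm_num) hL0.le]; linarith
    have hT1 : 1 ≤ T := by
      have : 0 ≤ (R₂ : ℝ) := Nat.cast_nonneg _
      rw [hT]; linarith
    have hLH : (L : ℝ) ≤ L * H := le_mul_of_one_le_right hL0.le hH
    have hT105 : T ≤ 105 * (L * H) := by
      have hsL : Real.sqrt L ≤ L / 20 := by
        rw [Real.sqrt_le_left (by positivity)]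
        nlinarith
      linarith
    have hkK : ∀ i, kk i < K := fun i =>
      Nat.div_lt_of_lt_mul (lt_of_lt_of_eq i.2 (Nat.mul_comm K L))
    have hlL : ∀ i, ll i < L := fun i => Nat.mod_lt _ (by omega)
    have hxZ : ∀ j, (r j : ℝ) * b₂ + s j * b₁ ≤ 2 * B * T := by
      intro j
      have e1 : (r j : ℝ) * b₂ ≤ T * B :=
        mul_le_mul (hrT j) hb2B (Nat.cast_nonneg _) (by linarith)
      have e2 : (s j : ℝ) * b₁ ≤ T * B :=
        mul_le_mul (hsT j) hb1B (Nat.cast_nonneg _) (by linarith)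
      linarith
    have hZ1 : 1 ≤ 2 * B * T := by
      have := mul_le_mul hB0 hT1 (by norm_num) (by linarith)
      linarith
    have hla : 0 ≤ Real.log α := Real.log_nonneg h1.le
    have hlb : 0 ≤ Real.log β := Real.log_nonneg h2.le
    have hTH : 0 ≤ T * H := by positivity
    have hYlow : ∀ j i, (ll i : ℝ) * (r j * Real.log α + s j * Real.log β) ≤ 3 * L * H * T := by
      intro j i
      have e1 : (r j : ℝ) * Real.log α ≤ T * H := mul_le_mul (hrT j) hα hla (by linarith)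
      have e2 : (s j : ℝ) * Real.log β ≤ T * H := mul_le_mul (hsT j) hβ hlb (by linarith)
      have e3 : (ll i : ℝ) ≤ L := by exact_mod_cast (hlL i).le
      calc (ll i : ℝ) * (r j * Real.log α + s j * Real.log β) ≤ L * (T * H + T * H) :=
            mul_le_mul e3 (by linarith) (by positivity) hL0.le
        _ ≤ 3 * L * H * T := by
            have : 0 ≤ (L : ℝ) * (T * H) := by positivity
            have e4 : (L : ℝ) * (T * H + T * H) = 2 * (L * (T * H)) := by ring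
            have e5 : 3 * (L : ℝ) * H * T = 3 * (L * (T * H)) := by ring
            rw [e4, e5]; linarith
    have hYup : ∀ j, (L : ℝ) * (((r j : ℝ) * b₂ + s j * b₁) * (Real.log α / b₂)) ≤
        3 * L * H * T := by
      intro j
      have hb2' : (1 : ℝ) ≤ b₂ := by exact_mod_cast hb2
      have hb20 : (0 : ℝ) < b₂ := by linarith
      have e1 : ((r j : ℝ) * b₂ + s j * b₁) * (Real.log α / b₂) =
          r j * Real.log α + s j * (Real.log β - Lam / b₂) := by
        rw [hLam]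
        field_simp
        ring
      have e2 : Real.log β - Lam / b₂ ≤ H + 1 := by
        have e3 : -(Lam / b₂) ≤ 1 := by
          have e4 : |Lam / b₂| ≤ 1 := by
            rw [abs_div, Nat.abs_cast, div_le_one hb20]
            linarith
          have := neg_abs_le (Lam / b₂)
          linarith
        linarith
      have e3 : (r j : ℝ) * Real.log α ≤ T * H := mul_le_mul (hrT j) hα hla (by linarith)
      have e4 : (s j : ℝ) * (Real.log β - Lam / b₂) ≤ T * (H + 1) := by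
        calc (s j : ℝ) * (Real.log β - Lam / b₂) ≤ s j * (H + 1) :=
              mul_le_mul_of_nonneg_left e2 (Nat.cast_nonneg _)
          _ ≤ T * (H + 1) := mul_le_mul_of_nonneg_right (hsT j) (by linarith)
      have e5 : T ≤ T * H := le_mul_of_one_le_right (by linarith) hH
      rw [e1]
      calc (L : ℝ) * (r j * Real.log α + s j * (Real.log β - Lam / b₂)) ≤
            L * (3 * (T * H)) := mul_le_mul_of_nonneg_left (by linarith) hL0.le
        _ = 3 * L * H * T := by ring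
    have hΛup : ∀ j, 2 * (L : ℝ) * s j * |b₂ * Real.log β - b₁ * Real.log α| ≤
        Real.exp (-((K * L : ℕ) : ℝ)) := by
      intro j
      rw [← hLam]
      have e1 : 2 * (L : ℝ) * s j ≤ Real.exp (4000000 * (H ^ 2 * l ^ 2)) := by
        have e2 : (L : ℝ) * s j ≤ L * (105 * (L * H)) :=
          mul_le_mul_of_nonneg_left ((hsT j).trans hT105) hL0.le
        have e3 : (L : ℝ) ^ 2 ≤ (50.1 * l) ^ 2 := pow_le_pow_left₀ hL0.le hL501 2
        have e4 : (L : ℝ) ^ 2 * H ≤ (50.1 * l) ^ 2 * H :=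
          mul_le_mul_of_nonneg_right e3 (by linarith)
        have e5 : H ≤ H ^ 2 := by nlinarith
        have e6 : l ^ 2 * H ≤ l ^ 2 * H ^ 2 := mul_le_mul_of_nonneg_left e5 (by positivity)
        have e7 := Real.add_one_le_exp (4000000 * (H ^ 2 * l ^ 2))
        have e8 : (L : ℝ) * (105 * (L * H)) = 105 * ((L : ℝ) ^ 2 * H) := by ring
        have e9 : (50.1 * l) ^ 2 * H = 2510.01 * (l ^ 2 * H) := by ring
        have e10 : l ^ 2 * H ^ 2 = H ^ 2 * l ^ 2 := by ring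
        rw [e8] at e2
        rw [e9] at e4
        rw [e10] at e6
        linarith
      calc 2 * (L : ℝ) * s j * |Lam| ≤ Real.exp (4000000 * (H ^ 2 * l ^ 2)) *
            Real.exp (-(3 * 10 ^ 7 * H ^ 2 * l ^ 2)) :=
            mul_le_mul e1 hcon.le (abs_nonneg _) (Real.exp_pos _).le
        _ = Real.exp (4000000 * (H ^ 2 * l ^ 2) + -(3 * 10 ^ 7 * H ^ 2 * l ^ 2)) :=
            (Real.exp_add _ _).symm
        _ ≤ Real.exp (-((K * L : ℕ) : ℝ)) := by
            refine Real.exp_le_exp.mpr ?_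
            push_cast
            have h11 : 3 * 10 ^ 7 * H ^ 2 * l ^ 2 = 30000000 * (H ^ 2 * l ^ 2) := by ring
            rw [h11]
            linarith
    have hY0 : 0 ≤ 3 * (L : ℝ) * H * T := by positivity
    have hKN : K ≤ K * L := Nat.le_mul_of_pos_right _ (by omega)
    have hup := det_upper hKN h1.le h2.le b₁ b₂ hb1 hb2 r s kk ll hkK hlL (2 * B * T)
      (3 * L * H * T) hZ1 hxZ hYup hΛup
    have hlow := det_lower h1.le h2.le t u ht hu b₁ b₂ r s kk ll hkK (2 * B * T)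
      (3 * L * H * T) hZ1 hY0 hxZ hYlow h0
    have hlog := tfin_logs (K * L) K (Nat.mul_pos (by omega) (by omega)) (2 * B * T)
      (3 * L * H * T) _ hZ1 (abs_nonneg _) hlow hup
    rw [Nat.cast_mul] at hlog
    exact tfin_num l H B hB hl hB0 hH hHB L K hL hK T hT1 hTle hlog

end Pool.OCG
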