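import Pool.Agent.OCG.TDet

/-!
# Upper bound for the interpolation determinant

PAPER PROOF. `ρ = exp (-1)`. Put `x j = r j b₂ + s j b₁` (between `0` and `Z`), `θ = l₁ / b₂`,
`Λ = b₂ l₂ - b₁ l₁` (`l₁ = log α`, `l₂ = log β`), then
`(α ^ r j β ^ s j) ^ ll i = exp (ll i (r j l₁ + s j l₂)) = exp (ll i θ x j) exp (δ j i)`,
`δ j i = ll i s j Λ / b₂`, `|δ j i| ≤ L s j |Λ| ≤ exp (-N) / 2 ≤ 1 / 2`.
`det_small` with `z j = x j`, `c m i = (ll i θ) ^ (m - kk i) / (m - kk i)!` for `m ≥ kk i` and `0` otherwise,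
`W = 2 (Z e) ^ K exp (e Y)`: for `n = m - kk i` and `u = ll i θ x j ∈ [0, Y]` one has
`x ^ m c m i = x ^ kk i u ^ n / n! ≤ Z ^ kk i (Y e) ^ n / n! e ^ (-n) ≤ Z ^ kk i exp (e Y) e ^ (-n)
= (Z e) ^ kk i exp (e Y) e ^ (-m) ≤ (Z e) ^ K exp (e Y) e ^ (-m)` (`Z ≥ 1`).
`E j i` is the Taylor remainder `x ^ kk i ∑_{n ≥ N - kk i} u ^ n / n! ≤ x ^ kk i e ^ (-(N - kk i)) ∑ (e u) ^ n / n!
≤ (Z e) ^ K exp (e Y) e ^ (-N)` plus the perturbation
`x ^ kk i e ^ u (exp δ - 1)`, at most `Z ^ K exp Y · 2 |δ| ≤ (Z e) ^ K exp (e Y) e ^ (-N)`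
(`|exp δ - 1| ≤ 2 |δ|` for `|δ| ≤ 1`).
-/

set_option autoImplicit false

namespace Pool.OCG

private lemma exp_hasSum (x : ℝ) :
    HasSum (fun n : ℕ => x ^ n / (n.factorial : ℝ)) (Real.exp x) := by
  rw [Real.exp_eq_exp_ℝ]; exact NormedSpace.expSeries_div_hasSum_exp x

/-- remainder of the exponential series -/
private lemma exp_rem {u : ℝ} (hu : 0 ≤ u) (M : ℕ) :
    0 ≤ Real.exp u - ∑ n ∈ Finset.range M, u ^ n / (n.factorial : ℝ) ∧
    Real.exp u - ∑ n ∈ Finset.range M, u ^ n / (n.factorial : ℝ) ≤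
      Real.exp (-(M : ℝ)) * Real.exp (Real.exp 1 * u) := by
  have he : (1 : ℝ) ≤ Real.exp 1 := Real.one_le_exp (by norm_num)
  have h1 : HasSum (fun n : ℕ => u ^ n / (n.factorial : ℝ)) (Real.exp u) := by
    rw [Real.exp_eq_exp_ℝ]; exact NormedSpace.expSeries_div_hasSum_exp u
  have h2 : HasSum (fun n : ℕ => (Real.exp 1 * u) ^ n / (n.factorial : ℝ))
      (Real.exp (Real.exp 1 * u)) := exp_hasSum _
  have h3 := (hasSum_nat_add_iff' M).2 h1
  have h4 := (hasSum_nat_add_iff' M).2 h2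
  refine ⟨h3.nonneg (fun n => by positivity), ?_⟩
  have h5 := h4.mul_left (Real.exp (-(M : ℝ)))
  have h6 : Real.exp u - ∑ n ∈ Finset.range M, u ^ n / (n.factorial : ℝ) ≤
      Real.exp (-(M : ℝ)) * (Real.exp (Real.exp 1 * u) -
        ∑ n ∈ Finset.range M, (Real.exp 1 * u) ^ n / (n.factorial : ℝ)) := by
    refine hasSum_le (fun n => ?_) h3 h5
    have e1 : Real.exp (-(M : ℝ)) * Real.exp 1 ^ M = 1 := by
      rw [← Real.exp_nat_mul, ← Real.exp_add]; simp
    have e2 : (1 : ℝ) ≤ Real.exp 1 ^ n := one_le_pow₀ he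
    have e3 : Real.exp (-(M : ℝ)) * ((Real.exp 1 * u) ^ (n + M) / ((n + M).factorial : ℝ))
        = Real.exp 1 ^ n * (u ^ (n + M) / ((n + M).factorial : ℝ)) := by
      rw [mul_pow, pow_add (Real.exp 1)]
      calc _ = (Real.exp (-(M : ℝ)) * Real.exp 1 ^ M) *
            (Real.exp 1 ^ n * (u ^ (n + M) / ((n + M).factorial : ℝ))) := by ring
        _ = _ := by rw [e1, one_mul]
    rw [e3]
    exact le_mul_of_one_le_left (by positivity) e2
  refine h6.trans (mul_le_mul_of_nonneg_left ?_ (Real.exp_pos _).le)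
  have : 0 ≤ ∑ n ∈ Finset.range M, (Real.exp 1 * u) ^ n / (n.factorial : ℝ) :=
    Finset.sum_nonneg (fun n _ => by positivity)
  linarith

private lemma term_le {u : ℝ} (hu : 0 ≤ u) (n : ℕ) :
    u ^ n / (n.factorial : ℝ) ≤ Real.exp (-(n : ℝ)) * Real.exp (Real.exp 1 * u) := by
  have h2 : HasSum (fun n : ℕ => (Real.exp 1 * u) ^ n / (n.factorial : ℝ))
      (Real.exp (Real.exp 1 * u)) := exp_hasSum _
  have h3 := le_hasSum h2 n (fun i _ => by positivity)
  have e1 : Real.exp (-(n : ℝ)) * Real.exp 1 ^ n = 1 := by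
    rw [← Real.exp_nat_mul, ← Real.exp_add]; simp
  calc u ^ n / (n.factorial : ℝ)
      = Real.exp (-(n : ℝ)) * ((Real.exp 1 * u) ^ n / (n.factorial : ℝ)) := by
        rw [mul_pow]
        calc _ = 1 * (u ^ n / (n.factorial : ℝ)) := (one_mul _).symm
          _ = (Real.exp (-(n : ℝ)) * Real.exp 1 ^ n) * (u ^ n / (n.factorial : ℝ)) := by rw [e1]
          _ = _ := by ring
    _ ≤ _ := mul_le_mul_of_nonneg_left h3 (Real.exp_pos _).le

theorem det_upper {N K L : ℕ} (hKN : K ≤ N) {α β : ℝ} (hα : 1 ≤ α) (hβ : 1 ≤ β) (b₁ b₂ : ℕ)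
    (hb₁ : 1 ≤ b₁) (hb₂ : 1 ≤ b₂) (r s kk ll : Fin N → ℕ) (hk : ∀ i, kk i < K)
    (hl : ∀ i, ll i < L) (Z Y : ℝ) (hZ : 1 ≤ Z)
    (hxZ : ∀ j, (r j : ℝ) * b₂ + s j * b₁ ≤ Z)
    (hY : ∀ j, (L : ℝ) * (((r j : ℝ) * b₂ + s j * b₁) * (Real.log α / b₂)) ≤ Y)
    (hΛ : ∀ j, 2 * (L : ℝ) * s j * |b₂ * Real.log β - b₁ * Real.log α| ≤ Real.exp (-(N : ℝ))) :
    |(tm b₁ b₂ α β r s kk ll).det| ≤ ((N : ℝ) + 1) ^ N * (N.factorial : ℝ) *
      (2 * (Z * Real.exp 1) ^ K * Real.exp (Real.exp 1 * Y)) ^ N *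
        Real.exp (-((N * (N - 1) / 2 : ℕ) : ℝ)) := by
  set e := Real.exp 1 with he
  have he1 : (1 : ℝ) ≤ e := Real.one_le_exp (by norm_num)
  have he0 : (0 : ℝ) < e := by linarith
  have hZ0 : (0 : ℝ) < Z := by linarith
  have hZe : (1 : ℝ) ≤ Z * e := one_le_mul_of_one_le_of_one_le hZ he1
  have hb₂r : (1 : ℝ) ≤ b₂ := by exact_mod_cast hb₂
  have hb₂0 : (0 : ℝ) < b₂ := by linarith
  have hα0 : 0 < α := by linarith
  have hβ0 : 0 < β := by linarith
  have hlα : 0 ≤ Real.log α := Real.log_nonneg hα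
  set x : Fin N → ℝ := fun j => (r j : ℝ) * b₂ + s j * b₁ with hx
  have hx0 : ∀ j, 0 ≤ x j := fun j => by positivity
  set θ : ℝ := Real.log α / b₂ with hθ
  have hθ0 : 0 ≤ θ := by positivity
  set Λ : ℝ := b₂ * Real.log β - b₁ * Real.log α with hΛd
  set u : Fin N → Fin N → ℝ := fun j i => ll i * θ * x j with hu
  set δ : Fin N → Fin N → ℝ := fun j i => ll i * s j * Λ / b₂ with hδ
  have hu0 : ∀ j i, 0 ≤ u j i := fun j i => by
    have := hx0 j
    simp only [hu]; positivity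
  have huY : ∀ j i, u j i ≤ Y := fun j i => by
    refine le_trans ?_ (hY j)
    have h1 : (ll i : ℝ) ≤ L := by exact_mod_cast (hl i).le
    have h2 : u j i = ll i * (x j * θ) := by simp only [hu]; ring
    rw [h2]
    exact mul_le_mul_of_nonneg_right h1 (mul_nonneg (hx0 j) hθ0)
  have hδb : ∀ j i, 2 * |δ j i| ≤ Real.exp (-(N : ℝ)) := fun j i => by
    refine le_trans ?_ (hΛ j)
    have h1 : (ll i : ℝ) ≤ L := by exact_mod_cast (hl i).le
    have h2 : |δ j i| = ll i * s j * |Λ| / b₂ := by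
      simp only [hδ]
      rw [abs_div, abs_mul, abs_mul, Nat.abs_cast, Nat.abs_cast, Nat.abs_cast]
    rw [h2]
    have h3 : (ll i : ℝ) * s j * |Λ| / b₂ ≤ ll i * s j * |Λ| := div_le_self (by positivity) hb₂r
    have h4 : (ll i : ℝ) * s j * |Λ| ≤ L * s j * |Λ| := by
      rw [mul_assoc, mul_assoc]
      exact mul_le_mul_of_nonneg_right h1 (by positivity)
    linarith
  have hexpN : Real.exp (-(N : ℝ)) ≤ 1 := Real.exp_le_one_iff.2 (by simp)
  have hentry : ∀ j i, (tm b₁ b₂ α β r s kk ll) j i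
      = x j ^ kk i * (Real.exp (u j i) * Real.exp (δ j i)) := by
    intro j i
    rw [tm, Matrix.of_apply]
    congr 1
    have h1 : α ^ r j * β ^ s j = Real.exp (r j * Real.log α + s j * Real.log β) := by
      rw [Real.exp_add, Real.exp_nat_mul, Real.exp_nat_mul, Real.exp_log hα0, Real.exp_log hβ0]
    rw [h1, ← Real.exp_nat_mul, ← Real.exp_add]
    congr 1
    simp only [hu, hδ, hx, hθ, hΛd]
    field_simp
    ring
  set c : Fin N → Fin N → ℝ := fun m i => if kk i ≤ (m : ℕ) then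
    (ll i * θ) ^ ((m : ℕ) - kk i) / (((m : ℕ) - kk i).factorial : ℝ) else 0 with hc
  have hcx : ∀ j i (m : Fin N), x j ^ (m : ℕ) * c m i = if kk i ≤ (m : ℕ) then
      x j ^ kk i * (u j i ^ ((m : ℕ) - kk i) / (((m : ℕ) - kk i).factorial : ℝ)) else 0 := by
    intro j i m
    simp only [hc]
    split_ifs with h
    · have e1 : x j ^ (m : ℕ) = x j ^ kk i * x j ^ ((m : ℕ) - kk i) := by
        rw [← pow_add]; congr 1; omega
      have e2 : u j i ^ ((m : ℕ) - kk i) = (ll i * θ) ^ ((m : ℕ) - kk i) * x j ^ ((m : ℕ) - kk i) := by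
        rw [← mul_pow]
      rw [e1, e2]; ring
    · rw [mul_zero]
  have hsum : ∀ j i, (∑ m : Fin N, x j ^ (m : ℕ) * c m i)
      = x j ^ kk i * ∑ n ∈ Finset.range (N - kk i), u j i ^ n / (n.factorial : ℝ) := by
    intro j i
    have hkN : kk i ≤ N := (hk i).le.trans hKN
    simp only [hcx]
    rw [Fin.sum_univ_eq_sum_range (fun m => if kk i ≤ m then
      x j ^ kk i * (u j i ^ (m - kk i) / ((m - kk i).factorial : ℝ)) else 0) N, Finset.mul_sum]
    obtain ⟨M, hM⟩ : ∃ M, N = kk i + M := ⟨N - kk i, by omega⟩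
    have e1 : N - kk i = M := by omega
    rw [e1, hM, Finset.sum_range_add, Finset.sum_eq_zero, zero_add]
    · refine Finset.sum_congr rfl (fun n _ => ?_)
      rw [if_pos (by omega), Nat.add_sub_cancel_left]
    · intro m hm
      rw [if_neg (by have := Finset.mem_range.1 hm; omega)]
  set W : ℝ := 2 * (Z * e) ^ K * Real.exp (e * Y) with hW
  have hW0 : 0 ≤ W := by positivity
  have hxk : ∀ j i, x j ^ kk i ≤ Z ^ kk i := fun j i => pow_le_pow_left₀ (hx0 j) (hxZ j) _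
  have hexpu : ∀ j i, Real.exp (e * u j i) ≤ Real.exp (e * Y) := fun j i =>
    Real.exp_le_exp.2 (mul_le_mul_of_nonneg_left (huY j i) he0.le)
  have hρm : ∀ m : ℕ, Real.exp (-1) ^ m = Real.exp (-(m : ℝ)) := fun m => by
    rw [← Real.exp_nat_mul]; congr 1; ring
  -- key size estimate
  have hkey : ∀ (i : Fin N) (m : ℕ), kk i ≤ m →
      Z ^ kk i * (Real.exp (-((m - kk i : ℕ) : ℝ)) * Real.exp (e * Y)) ≤
        (Z * e) ^ K * Real.exp (e * Y) * Real.exp (-(m : ℝ)) := by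
    intro i m hm
    have e1 : Real.exp (-((m - kk i : ℕ) : ℝ)) = e ^ kk i * Real.exp (-(m : ℝ)) := by
      rw [he, ← Real.exp_nat_mul, ← Real.exp_add, Nat.cast_sub hm]; congr 1; ring
    rw [e1]
    have e2 : Z ^ kk i * (e ^ kk i * Real.exp (-(m : ℝ)) * Real.exp (e * Y))
        = (Z * e) ^ kk i * Real.exp (e * Y) * Real.exp (-(m : ℝ)) := by
      rw [mul_pow]; ring
    rw [e2]
    have e3 : (Z * e) ^ kk i ≤ (Z * e) ^ K := pow_le_pow_right₀ hZe (hk i).le
    exact mul_le_mul_of_nonneg_right (mul_le_mul_of_nonneg_right e3 (Real.exp_pos _).le)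
      (Real.exp_pos _).le
  have hmain := det_small (N := N) (ρ := Real.exp (-1)) (W := W) (Real.exp_pos _)
    (Real.exp_le_one_iff.2 (by norm_num)) hW0 (tm b₁ b₂ α β r s kk ll)
    (Matrix.of fun j i => (tm b₁ b₂ α β r s kk ll) j i - ∑ m : Fin N, x j ^ (m : ℕ) * c m i) c x
    (fun j i => by rw [Matrix.of_apply]; ring) ?_ ?_
  · rw [hρm] at hmain
    exact hmain
  · intro j i m
    rw [hcx, hρm]
    split_ifs with h
    · have h1 := term_le (hu0 j i) ((m : ℕ) - kk i)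
      have h0 : 0 ≤ u j i ^ ((m : ℕ) - kk i) / (((m : ℕ) - kk i).factorial : ℝ) := by
        have := hu0 j i
        positivity
      rw [abs_of_nonneg (mul_nonneg (pow_nonneg (hx0 j) _) h0)]
      calc x j ^ kk i * (u j i ^ ((m : ℕ) - kk i) / (((m : ℕ) - kk i).factorial : ℝ))
          ≤ Z ^ kk i * (Real.exp (-(((m : ℕ) - kk i : ℕ) : ℝ)) * Real.exp (e * Y)) := by
            apply mul_le_mul (hxk j i) _ h0 (by positivity)
            refine h1.trans (mul_le_mul_of_nonneg_left (hexpu j i) (Real.exp_pos _).le)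
        _ ≤ (Z * e) ^ K * Real.exp (e * Y) * Real.exp (-((m : ℕ) : ℝ)) := hkey i m h
        _ ≤ W * Real.exp (-((m : ℕ) : ℝ)) := by
            apply mul_le_mul_of_nonneg_right _ (Real.exp_pos _).le
            rw [hW]
            have : 0 ≤ (Z * e) ^ K * Real.exp (e * Y) := by positivity
            linarith
    · rw [abs_zero]
      positivity
  · intro j i
    rw [Matrix.of_apply, hsum, hentry, hρm]
    have hkN : kk i ≤ N := (hk i).le.trans hKN
    obtain ⟨hr0, hr1⟩ := exp_rem (hu0 j i) (N - kk i)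
    set S := ∑ n ∈ Finset.range (N - kk i), u j i ^ n / (n.factorial : ℝ) with hS
    have e1 : x j ^ kk i * (Real.exp (u j i) * Real.exp (δ j i)) - x j ^ kk i * S
        = x j ^ kk i * (Real.exp (u j i) - S) +
          x j ^ kk i * Real.exp (u j i) * (Real.exp (δ j i) - 1) := by ring
    rw [e1]
    have p1 : |x j ^ kk i * (Real.exp (u j i) - S)| ≤
        (Z * e) ^ K * Real.exp (e * Y) * Real.exp (-(N : ℝ)) := by
      rw [abs_of_nonneg (mul_nonneg (pow_nonneg (hx0 j) _) hr0)]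
      refine le_trans ?_ (hkey i N hkN)
      apply mul_le_mul (hxk j i) _ hr0 (by positivity)
      exact hr1.trans (mul_le_mul_of_nonneg_left (hexpu j i) (Real.exp_pos _).le)
    have hδ1 : |δ j i| ≤ 1 := by
      have := hδb j i
      have := abs_nonneg (δ j i)
      linarith
    have p2 : |x j ^ kk i * Real.exp (u j i) * (Real.exp (δ j i) - 1)| ≤
        (Z * e) ^ K * Real.exp (e * Y) * Real.exp (-(N : ℝ)) := by
      rw [abs_mul, abs_of_nonneg (mul_nonneg (pow_nonneg (hx0 j) _) (Real.exp_pos _).le)]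
      have q1 : |Real.exp (δ j i) - 1| ≤ Real.exp (-(N : ℝ)) :=
        (Real.abs_exp_sub_one_le hδ1).trans (hδb j i)
      have q2 : x j ^ kk i ≤ (Z * e) ^ K := by
        refine (hxk j i).trans ?_
        refine (pow_le_pow_left₀ hZ0.le (le_mul_of_one_le_right hZ0.le he1) _).trans ?_
        exact pow_le_pow_right₀ hZe (hk i).le
      have q3 : Real.exp (u j i) ≤ Real.exp (e * Y) := by
        apply Real.exp_le_exp.2
        have h1 := huY j i
        have h2 := hu0 j i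
        have h3 : 0 ≤ Y := h2.trans h1
        have h4 : Y ≤ e * Y := le_mul_of_one_le_left h3 he1
        linarith
      apply mul_le_mul _ q1 (abs_nonneg _) (by positivity)
      exact mul_le_mul q2 q3 (Real.exp_pos _).le (by positivity)
    refine (abs_add_le _ _).trans ?_
    have e2 : W * Real.exp (-(N : ℝ)) = (Z * e) ^ K * Real.exp (e * Y) * Real.exp (-(N : ℝ)) +
        (Z * e) ^ K * Real.exp (e * Y) * Real.exp (-(N : ℝ)) := by
      rw [hW]; ring
    rw [e2]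
    exact add_le_add p1 p2

end Pool.OCG
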